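import Pool.Agent.P.MP_bfa556_co.Jordan

open Equiv Equiv.Perm MulAction Subgroup

namespace Pool.Agent.P.MP_bfa556_co

variable {β γ : Type} [Fintype β] [DecidableEq β] [Fintype γ] [DecidableEq γ]

/-- Two long cycles of prime lengths that together move every point generate a group containing
the alternating group. -/
lemma alt_le {G : Subgroup (Perm β)} {a a' : Perm β} {p q : ℕ} (hp : p.Prime) (hpq : p + 3 ≤ q)
    (ha : a.IsCycle) (hap : a.support.card = p) (ha' : a'.IsCycle) (haq : a'.support.card = q)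
    (hcov : ∀ x, a x ≠ x ∨ a' x ≠ x) (hc : Fintype.card β < 2 * p) (h1 : a ∈ G) (h2 : a' ∈ G) :
    alternatingGroup β ≤ G := by
  have hq : q ≤ Fintype.card β := haq ▸ Finset.card_le_univ _
  obtain ⟨z, hz⟩ : (a.support ∩ a'.support).Nonempty := by
    rw [← Finset.card_pos]
    have := Finset.card_union_add_card_inter a.support a'.support
    have := Finset.card_le_univ (a.support ∪ a'.support)
    omega
  rw [Finset.mem_inter, mem_support, mem_support] at hz
  have key : ∀ x, ∃ g : G, g • z = x := by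
    intro x
    rcases hcov x with h | h
    · obtain ⟨i, hi⟩ := ha.exists_zpow_eq hz.1 h
      exact ⟨⟨a ^ i, G.zpow_mem h1 i⟩, hi⟩
    · obtain ⟨i, hi⟩ := ha'.exists_zpow_eq hz.2 h
      exact ⟨⟨a' ^ i, G.zpow_mem h2 i⟩, hi⟩
  have hT : IsPretransitive G β := ⟨fun x y => by
    obtain ⟨g, rfl⟩ := key x
    obtain ⟨g', rfl⟩ := key y
    exact ⟨g' * g⁻¹, by rw [smul_smul, inv_mul_cancel_right]⟩⟩
  exact jordan (prim_of_cycle hT hp ha hap h1 hc) hp ha hap h1 (by omega)

lemma sign_of_odd {b : Perm γ} {p : ℕ} (hp : Odd p) (hb : b ^ p = 1) : Perm.sign b = 1 := by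
  have h := congrArg Perm.sign hb
  rw [map_pow, map_one] at h
  rcases Int.units_eq_one_or (Perm.sign b) with h1 | h1
  · exact h1
  · rw [h1, hp.neg_one_pow] at h; exact absurd h (by decide)

lemma cyc_pow {a : Perm β} {p : ℕ} (ha : a.IsCycle) (hap : a.support.card = p) : a ^ p = 1 := by
  rw [← hap, ← ha.orderOf, pow_orderOf_eq_one]

/-- Every even permutation of the first set is the first entry of an even pair. -/
def Onto (K : Subgroup (Perm β × Perm γ)) : Prop :=
  ∀ u, Perm.sign u = 1 → ∃ v, Perm.sign v = 1 ∧ (u, v) ∈ K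

lemma onto {K : Subgroup (Perm β × Perm γ)} {a a' : Perm β} {b b' : Perm γ} {p q : ℕ}
    (hp : p.Prime) (hq : q.Prime) (hpq : p + 3 ≤ q)
    (ha : a.IsCycle) (hap : a.support.card = p) (ha' : a'.IsCycle) (haq : a'.support.card = q)
    (hcov : ∀ x, a x ≠ x ∨ a' x ≠ x) (hc : Fintype.card β < 2 * p)
    (hb : b ^ p = 1) (hb' : b' ^ q = 1) (h1 : (a, b) ∈ K) (h2 : (a', b') ∈ K) : Onto K := by
  have hqc : q ≤ Fintype.card β := haq ▸ Finset.card_le_univ _
  have op : Odd p := hp.odd_of_ne_two (by omega)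
  have oq : Odd q := hq.odd_of_ne_two (by omega)
  intro u hu
  have := alt_le (G := (K ⊓ (⊤ : Subgroup (Perm β)).prod (alternatingGroup γ)).map
    (MonoidHom.fst _ _)) hp hpq ha hap ha' haq hcov hc
    ⟨(a, b), ⟨h1, trivial, sign_of_odd op hb⟩, rfl⟩
    ⟨(a', b'), ⟨h2, trivial, sign_of_odd oq hb'⟩, rfl⟩ (mem_alternatingGroup.2 hu)
  obtain ⟨⟨u', v⟩, ⟨hK, -, hv⟩, rfl⟩ := this
  exact ⟨v, hv, hK⟩

omit [Fintype γ] [DecidableEq γ] in
lemma ker_triv {K : Subgroup (Perm β × Perm γ)}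
    (hO : ∀ u, Perm.sign u = 1 → ∃ v, (u, v) ∈ K) (h5 : 5 ≤ Fintype.card β)
    (H : ∀ c : Perm β, c.IsThreeCycle → (c, 1) ∉ K) {u : Perm β} (hu : Perm.sign u = 1)
    (hK : (u, 1) ∈ K) : u = 1 := by
  let N : Subgroup (alternatingGroup β) :=
    K.comap ((MonoidHom.inl (Perm β) (Perm γ)).comp (alternatingGroup β).subtype)
  have hN : ∀ w : alternatingGroup β, w ∈ N ↔ ((w : Perm β), (1 : Perm γ)) ∈ K := fun w => Iff.rfl
  have : N.Normal := ⟨fun w hw g => by
    obtain ⟨v, hv⟩ := hO g (mem_alternatingGroup.1 g.2)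
    have := K.mul_mem (K.mul_mem hv ((hN w).1 hw)) (K.inv_mem hv)
    rw [hN]
    simpa using this⟩
  rcases alternatingGroup.normal_subgroup_eq_bot_or_eq_top (N := N)
    (by rwa [Nat.card_eq_fintype_card]) with h | h
  · have h1 : (⟨u, mem_alternatingGroup.2 hu⟩ : alternatingGroup β) ∈ N := hK
    rw [h, mem_bot] at h1
    exact congrArg Subtype.val h1
  · obtain ⟨x, -, y, -, z, -, hxy, hxz, hyz⟩ := Finset.two_lt_card.1
      (show 2 < (Finset.univ : Finset β).card by rw [Finset.card_univ]; omega)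
    have h3 := isThreeCycle_swap_mul_swap_same hxy hxz hyz
    refine absurd ((hN ⟨_, h3.mem_alternatingGroup⟩).1 ?_) (H _ h3)
    rw [h]; exact mem_top _

/-- The same group with the two entries exchanged. -/
def flp (K : Subgroup (Perm β × Perm γ)) : Subgroup (Perm γ × Perm β) :=
  K.comap (MulEquiv.prodComm : Perm γ × Perm β ≃* Perm β × Perm γ).toMonoidHom

omit [Fintype β] [DecidableEq β] [Fintype γ] [DecidableEq γ] in
lemma mem_flp {K : Subgroup (Perm β × Perm γ)} {u : Perm β} {v : Perm γ} :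
    (v, u) ∈ flp K ↔ (u, v) ∈ K := Iff.rfl

lemma odd_prime_half {k : ℕ} (hk : 3 ≤ k) : ∃ l : ℕ, l.Prime ∧ l ≠ 2 ∧ l ≤ k ∧ k < 2 * l := by
  by_cases h : k = 3
  · exact ⟨3, Nat.prime_three, by omega, by omega, by omega⟩
  · obtain ⟨l, hl, h1, h2⟩ := Nat.exists_prime_lt_and_le_two_mul (k / 2) (by omega)
    exact ⟨l, hl, by omega, by omega, by omega⟩

lemma last_step {K : Subgroup (Perm β × Perm γ)} {a : Perm β} {b : Perm γ} {p B : ℕ}
    (hp : p.Prime) (hap : a.support.card = p) (hb : b.IsCycle) (hbp : b.support.card = p)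
    (h3 : p + 3 ≤ Fintype.card β) (hc : Fintype.card β < 2 * p)
    (hle : Fintype.card γ ≤ Fintype.card β) (hB : Fintype.card β ≤ p + B) (hab : (a, b) ∈ K)
    (hO : Onto K) (k1 : ∀ u, Perm.sign u = 1 → (u, 1) ∈ K → u = 1)
    (k2 : ∀ v, Perm.sign v = 1 → (1, v) ∈ K → v = 1)
    (H : ∀ c d, (c, d) ∈ K → c.IsCycle → d.IsCycle → c.support.card = d.support.card →
      c.support.card ≤ B → False) : False := by
  obtain ⟨l, hl, hl2, hlk, hkl⟩ := odd_prime_half (k := Fintype.card β - p) (by omega)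
  obtain ⟨s, hs, hsl⟩ := Finset.exists_subset_card_eq (s := a.supportᶜ) (n := l)
    (by rw [Finset.card_compl, hap]; exact hlk)
  have h2l := hl.two_le
  set c : Perm β := s.toList.formPerm with hcdef
  have hcc : c.IsCycle := List.isCycle_formPerm s.nodup_toList (by rw [Finset.length_toList]; omega)
  have hcs : c.support = s := by
    rw [hcdef, List.support_formPerm_of_nodup _ s.nodup_toList, Finset.toList_toFinset]
    intro x hx
    have := congrArg List.length hx
    rw [Finset.length_toList] at this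
    simp at this; omega
  have hcl : c ^ l = 1 := cyc_pow hcc (by rw [hcs, hsl])
  have ol : Odd l := hl.odd_of_ne_two hl2
  obtain ⟨d, hd, hcd⟩ := hO c (sign_of_odd ol hcl)
  have hca : c * a = a * c := by
    apply Perm.Disjoint.commute
    intro x
    by_contra hx
    rw [not_or] at hx
    have := hs (hcs ▸ mem_support.2 hx.1)
    exact Finset.mem_compl.1 this (mem_support.2 hx.2)
  have hdb : d * b = b * d := by
    have h := K.mul_mem (K.mul_mem (K.mul_mem hcd hab) (K.inv_mem hcd)) (K.inv_mem hab)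
    have e : ((c, d) * (a, b) * (c, d)⁻¹ * (a, b)⁻¹ : Perm β × Perm γ)
        = (1, d * b * d⁻¹ * b⁻¹) := by
      ext1
      · show c * a * c⁻¹ * a⁻¹ = 1
        rw [hca]; group
      · rfl
    rw [e] at h
    have := k2 _ (by simp [hd]) h
    calc d * b = (d * b * d⁻¹ * b⁻¹) * (b * d) := by group
      _ = b * d := by rw [this, one_mul]
  have hdl : d ^ l = 1 := by
    have h := K.pow_mem hcd l
    rw [Prod.pow_mk, hcl] at h
    exact k2 _ (by rw [map_pow, hd, one_pow]) h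
  have hd1 : d ≠ 1 := by
    rintro rfl
    exact hcc.ne_one (k1 c (sign_of_odd ol hcl) hcd)
  have : Fact l.Prime := ⟨hl⟩
  have hod : orderOf d = l := orderOf_eq_prime hdl hd1
  obtain ⟨i, hi⟩ := comm_pow hb hdb
  have hmv : ∀ x, b x ≠ x → b ((b ^ i) x) ≠ (b ^ i) x := by
    intro x hx h
    apply hx
    apply (b ^ i).injective
    rw [← Perm.mul_apply, ← zpow_add_one, add_comm, zpow_one_add, Perm.mul_apply, h]
  have hj : ∀ j : ℕ, ∀ x, b x ≠ x → (d ^ j) x = ((b ^ i) ^ j) x := by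
    intro j
    induction j with
    | zero => intro x _; simp
    | succ j ih =>
      intro x hx
      rw [pow_succ, pow_succ, Perm.mul_apply, Perm.mul_apply, hi x hx, ih _ (hmv x hx)]
  have e1 : (b ^ i) ^ l = 1 := by
    ext x
    by_cases hx : b x = x
    · exact pow_apply_eq_self_of_apply_eq_self (zpow_apply_eq_self_of_apply_eq_self hx i) l
    · rw [← hj l x hx, hdl]
  have e2 : (b ^ i) ^ p = 1 := by
    rw [← zpow_natCast, ← zpow_mul, mul_comm, zpow_mul, zpow_natCast, cyc_pow hb hbp, one_zpow]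
  have e3 : b ^ i = 1 := by
    have := pow_gcd_eq_one.2 ⟨e1, e2⟩
    rwa [((Nat.coprime_primes hl hp).2 (by omega)).gcd_eq_one, pow_one] at this
  have hsub : d.support ⊆ b.supportᶜ := by
    intro x hx
    rw [Finset.mem_compl, mem_support]
    intro h
    exact mem_support.1 hx (by rw [hi x h, e3]; rfl)
  have hdc : d.IsCycle := by
    apply isCycle_of_prime_order (by rw [hod]; exact hl)
    have := Finset.card_le_card hsub
    rw [Finset.card_compl, hbp] at this
    omega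
  exact H c d hcd hcc hdc (by rw [← hdc.orderOf, hod, hcs, hsl]) (by rw [hcs, hsl]; omega)

lemma cyc_of_pow {b : Perm γ} {p : ℕ} (hp : p.Prime) (hb : b ^ p = 1) (h1 : b ≠ 1)
    (hc : Fintype.card γ < 2 * p) : b.IsCycle ∧ b.support.card = p := by
  have : Fact p.Prime := ⟨hp⟩
  have ho : orderOf b = p := orderOf_eq_prime hb h1
  have := isCycle_of_prime_order' (σ := b) (by rw [ho]; exact hp) (by rw [ho]; exact hc)
  exact ⟨this, by rw [← this.orderOf, ho]⟩

lemma core {K : Subgroup (Perm β × Perm γ)} {a a' : Perm β} {b b' : Perm γ} {p q B : ℕ}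
    (hp : p.Prime) (hq : q.Prime) (hpq : p + 3 ≤ q)
    (ha : a ^ p = 1) (ha1 : a ≠ 1) (ha' : a' ^ q = 1) (ha1' : a' ≠ 1)
    (hb : b ^ p = 1) (hb' : b' ^ q = 1)
    (hcov : ∀ x, a x ≠ x ∨ a' x ≠ x) (hcov' : ∀ x, b x ≠ x ∨ b' x ≠ x)
    (hc : Fintype.card β < 2 * p) (hc' : Fintype.card γ < 2 * p)
    (hB : Fintype.card β ≤ p + B) (hB' : Fintype.card γ ≤ p + B)
    (h1 : (a, b) ∈ K) (h2 : (a', b') ∈ K)
    (H1 : ∀ c : Perm β, c.IsThreeCycle → (c, 1) ∉ K)
    (H2 : ∀ c : Perm γ, c.IsThreeCycle → (1, c) ∉ K)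
    (H : ∀ c d, (c, d) ∈ K → c.IsCycle → d.IsCycle → c.support.card = d.support.card →
      c.support.card ≤ B → False) : False := by
  obtain ⟨ca, sa⟩ := cyc_of_pow hp ha ha1 hc
  obtain ⟨ca', sa'⟩ := cyc_of_pow hq ha' ha1' (by omega)
  have hqc : q ≤ Fintype.card β := sa' ▸ Finset.card_le_univ _
  have hp2 := hp.two_le
  have hO : Onto K := onto hp hq hpq ca sa ca' sa' hcov hc hb hb' h1 h2
  have k1 : ∀ u, Perm.sign u = 1 → (u, 1) ∈ K → u = 1 :=
    fun u hu hK => ker_triv (fun w hw => (hO w hw).imp fun _ h => h.2) (by omega) H1 hu hK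
  have hb1 : b ≠ 1 := by
    rintro rfl; exact ha1 (k1 a (sign_of_odd (hp.odd_of_ne_two (by omega)) ha) h1)
  have hb1' : b' ≠ 1 := by
    rintro rfl; exact ha1' (k1 a' (sign_of_odd (hq.odd_of_ne_two (by omega)) ha') h2)
  obtain ⟨cb, sb⟩ := cyc_of_pow hp hb hb1 hc'
  obtain ⟨cb', sb'⟩ := cyc_of_pow hq hb' hb1' (by omega)
  have hqc' : q ≤ Fintype.card γ := sb' ▸ Finset.card_le_univ _
  have hO' : Onto (flp K) :=
    onto hp hq hpq cb sb cb' sb' hcov' hc' ha ha' (mem_flp.2 h1) (mem_flp.2 h2)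
  have k2 : ∀ v, Perm.sign v = 1 → (1, v) ∈ K → v = 1 :=
    fun v hv hK => ker_triv (fun w hw => (hO' w hw).imp fun _ h => h.2) (by omega)
      (fun c hc h => H2 c hc (mem_flp.1 h)) hv (mem_flp.2 hK)
  rcases le_total (Fintype.card γ) (Fintype.card β) with h | h
  · exact last_step hp sa cb sb (by omega) hc h hB h1 hO k1 k2 H
  · exact last_step (K := flp K) hp sb ca sa (by omega) hc' h hB' (mem_flp.2 h1) hO'
      (fun u hu hK => k2 u hu (mem_flp.1 hK)) (fun u hu hK => k1 u hu (mem_flp.1 hK))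
      (fun c d hK hc hd he hl => H d c (mem_flp.1 hK) hd hc he.symm (he ▸ hl))

/-- Restriction of a permutation to a set containing the points it moves. -/
lemma restrict {a : Perm β} {s : Finset β} (h : a.support ⊆ s) :
    ∃ u : Perm {x // x ∈ s}, Perm.ofSubtype u = a := by
  have h2 : ∀ x, a x ≠ x → x ∈ s := fun x hx => h (mem_support.2 hx)
  have h3 : ∀ x, a x ∈ s ↔ x ∈ s := by
    intro x
    by_cases hx : a x = x
    · rw [hx]
    · exact ⟨fun _ => h2 x hx, fun _ => h2 _ fun h => hx (a.injective h)⟩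
  exact ⟨a.subtypePerm h3, ofSubtype_subtypePerm h3 h2⟩

lemma cyc_up {s : Finset β} {u : Perm {x // x ∈ s}} (h : u.IsCycle) :
    (Perm.ofSubtype u).IsCycle ∧ (Perm.ofSubtype u).support.card = u.support.card := by
  refine ⟨?_, ?_⟩
  · rw [← card_cycleType_eq_one, cycleType_ofSubtype, card_cycleType_eq_one]; exact h
  · rw [← sum_cycleType, cycleType_ofSubtype, sum_cycleType]

/-- Two elements of large prime orders cannot both have a non-trivial first entry. -/
lemma two_primes {K : Subgroup (Perm β × Perm β)} {a a' b b' : Perm β} {p q B : ℕ}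
    (hp : p.Prime) (hq : q.Prime) (hpq : p + 3 ≤ q)
    (ha : a ^ p = 1) (ha1 : a ≠ 1) (ha' : a' ^ q = 1) (ha1' : a' ≠ 1)
    (hb : b ^ p = 1) (hb' : b' ^ q = 1)
    (hc : Fintype.card β < 2 * p) (hB : Fintype.card β ≤ p + B)
    (h1 : (a, b) ∈ K) (h2 : (a', b') ∈ K)
    (H1 : ∀ c : Perm β, c.IsThreeCycle → (c, 1) ∉ K)
    (H2 : ∀ c : Perm β, c.IsThreeCycle → (1, c) ∉ K)
    (H : ∀ c d, (c, d) ∈ K → c.IsCycle → d.IsCycle → c.support.card = d.support.card →
      c.support.card ≤ B → False) : False := by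
  obtain ⟨s, hs⟩ : ∃ s, s = a.support ∪ a'.support := ⟨_, rfl⟩
  obtain ⟨t, ht⟩ : ∃ t, t = b.support ∪ b'.support := ⟨_, rfl⟩
  obtain ⟨u, hu⟩ := restrict (a := a) (s := s) (hs ▸ Finset.subset_union_left)
  obtain ⟨u', hu'⟩ := restrict (a := a') (s := s) (hs ▸ Finset.subset_union_right)
  obtain ⟨v, hv⟩ := restrict (a := b) (s := t) (ht ▸ Finset.subset_union_left)
  obtain ⟨v', hv'⟩ := restrict (a := b') (s := t) (ht ▸ Finset.subset_union_right)
  have pw : ∀ {r : Finset β} {w : Perm {x // x ∈ r}} {g : Perm β} {m : ℕ},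
      Perm.ofSubtype w = g → g ^ m = 1 → w ^ m = 1 := by
    intro r w g m h1 h2
    apply ofSubtype_injective
    rw [map_pow, h1, h2, map_one]
  have cov : ∀ {r : Finset β} {w w' : Perm {x // x ∈ r}} {g g' : Perm β},
      Perm.ofSubtype w = g → Perm.ofSubtype w' = g' → r = g.support ∪ g'.support →
      ∀ x, w x ≠ x ∨ w' x ≠ x := by
    intro r w w' g g' h1 h2 h3 x
    have hx : (x : β) ∈ g.support ∪ g'.support := h3 ▸ x.2
    rw [Finset.mem_union, mem_support, mem_support, ← h1, ← h2, ofSubtype_apply_coe,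
      ofSubtype_apply_coe] at hx
    exact hx.imp (fun h e => h (congrArg Subtype.val e)) (fun h e => h (congrArg Subtype.val e))
  have cs : Fintype.card {x // x ∈ s} ≤ Fintype.card β := Fintype.card_subtype_le _
  have ct : Fintype.card {x // x ∈ t} ≤ Fintype.card β := Fintype.card_subtype_le _
  have tc : ∀ {r : Finset β} {w : Perm {x // x ∈ r}}, w.IsThreeCycle →
      (Perm.ofSubtype w).IsThreeCycle := by
    intro r w h
    unfold IsThreeCycle at h ⊢
    rw [cycleType_ofSubtype, h]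
  refine core (K := K.comap ((Perm.ofSubtype : Perm {x // x ∈ s} →* Perm β).prodMap
    (Perm.ofSubtype : Perm {x // x ∈ t} →* Perm β))) (B := B) hp hq hpq (pw hu ha) ?_ (pw hu' ha') ?_
    (pw hv hb) (pw hv' hb') (cov hu hu' hs) (cov hv hv' ht) (by omega) (by omega) (by omega)
    (by omega) ?_ ?_ ?_ ?_ ?_
  · rintro rfl; exact ha1 (by rw [← hu, map_one])
  · rintro rfl; exact ha1' (by rw [← hu', map_one])
  · show (Perm.ofSubtype u, Perm.ofSubtype v) ∈ K
    rw [hu, hv]; exact h1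
  · show (Perm.ofSubtype u', Perm.ofSubtype v') ∈ K
    rw [hu', hv']; exact h2
  · intro c hc h
    have h' : (Perm.ofSubtype c, Perm.ofSubtype (1 : Perm {x // x ∈ t})) ∈ K := h
    rw [map_one] at h'
    exact H1 _ (tc hc) h'
  · intro c hc h
    have h' : (Perm.ofSubtype (1 : Perm {x // x ∈ s}), Perm.ofSubtype c) ∈ K := h
    rw [map_one] at h'
    exact H2 _ (tc hc) h'
  · intro c d h hc hd he hl
    exact H (Perm.ofSubtype c) (Perm.ofSubtype d) h (cyc_up hc).1 (cyc_up hd).1 (by rw [(cyc_up hc).2, (cyc_up hd).2, he])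
      (by rw [(cyc_up hc).2]; exact hl)

/-- Two elements of large prime orders act on different sides. -/
lemma two_sides {K : Subgroup (Perm β × Perm β)} {p q B : ℕ}
    (hp : p.Prime) (hq : q.Prime) (hpq : p + 3 ≤ q)
    (hc : Fintype.card β < 2 * p) (hB : Fintype.card β ≤ p + B)
    (H1 : ∀ c : Perm β, c.IsThreeCycle → (c, 1) ∉ K)
    (H2 : ∀ c : Perm β, c.IsThreeCycle → (1, c) ∉ K)
    (H : ∀ c d, (c, d) ∈ K → c.IsCycle → d.IsCycle → c.support.card = d.support.card →
      c.support.card ≤ B → False)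
    {x y : Perm β × Perm β} (hx : x ∈ K) (hy : y ∈ K) (xp : x ^ p = 1) (yq : y ^ q = 1) :
    (x.1 = 1 ∨ y.1 = 1) ∧ (x.2 = 1 ∨ y.2 = 1) := by
  have x1 : x.1 ^ p = 1 := congrArg Prod.fst xp
  have x2 : x.2 ^ p = 1 := congrArg Prod.snd xp
  have y1 : y.1 ^ q = 1 := congrArg Prod.fst yq
  have y2 : y.2 ^ q = 1 := congrArg Prod.snd yq
  constructor
  · by_contra h
    rw [not_or] at h
    exact two_primes (B := B) hp hq hpq x1 h.1 y1 h.2 x2 y2 hc hB hx hy H1 H2 H
  · by_contra h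
    rw [not_or] at h
    exact two_primes (K := flp K) (B := B) hp hq hpq x2 h.1 y2 h.2 x1 y1 hc hB
      (mem_flp.2 hx) (mem_flp.2 hy) (fun c hc h => H2 c hc (mem_flp.1 h))
      (fun c hc h => H1 c hc (mem_flp.1 h))
      (fun c d hK hc hd he hl => H d c (mem_flp.1 hK) hd hc he.symm (he ▸ hl))

/-- No three large primes, pairwise at least three apart, are orders of elements. -/
lemma three_primes {K : Subgroup (Perm β × Perm β)} {p q r B : ℕ}
    (hp : p.Prime) (hq : q.Prime) (hr : r.Prime) (hpq : p + 3 ≤ q) (hqr : q + 3 ≤ r)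
    (hc : Fintype.card β < 2 * p) (hB : Fintype.card β ≤ p + B)
    (H1 : ∀ c : Perm β, c.IsThreeCycle → (c, 1) ∉ K)
    (H2 : ∀ c : Perm β, c.IsThreeCycle → (1, c) ∉ K)
    (H : ∀ c d, (c, d) ∈ K → c.IsCycle → d.IsCycle → c.support.card = d.support.card →
      c.support.card ≤ B → False)
    {x y z : Perm β × Perm β} (hx : x ∈ K) (hy : y ∈ K) (hz : z ∈ K) (x1 : x ≠ 1) (y1 : y ≠ 1)
    (z1 : z ≠ 1) (xp : x ^ p = 1) (yq : y ^ q = 1) (zr : z ^ r = 1) : False := by
  have a := two_sides hp hq hpq hc hB H1 H2 H hx hy xp yq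
  have b := two_sides hp hr (by omega) hc hB H1 H2 H hx hz xp zr
  have c := two_sides hq hr hqr (by omega) (by omega) H1 H2 H hy hz yq zr
  simp only [Ne, Prod.ext_iff, Prod.fst_one, Prod.snd_one] at x1 y1 z1
  tauto

end Pool.Agent.P.MP_bfa556_co
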