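import Pool.Agent.P.MP_bfa556_co.Trans

open Finset Equiv

namespace Pool.Agent.P.MP_bfa556_co

variable {n : ℕ}

/-- What a tiling gives, with the transpositions acting on positions; `e` says that the identity
belongs to the tile. -/
structure Til (e : Prop) (Y : Set (Perm (Fin n))) : Prop where
  uniq : ∀ g p q p' q', p ≠ q → p' ≠ q' → g * swap p q ∈ Y → g * swap p' q' ∈ Y →
    swap p q = swap p' q'
  self : ∀ g p q, e → g ∈ Y → p ≠ q → g * swap p q ∉ Y
  ex : ∀ g, (e ∧ g ∈ Y) ∨ ∃ p q, p ≠ q ∧ g * swap p q ∈ Y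

lemma til_of {e : Prop} {Y : Set (Perm (Fin n))}
    (h : ∀ σ : Perm (Fin n), ∃! p : Perm (Fin n) × Perm (Fin n),
      ((e ∧ p.1 = 1) ∨ p.1.IsSwap) ∧ p.2 ∈ Y ∧ p.1 * p.2 = σ) : Til e Y := by
  have key : ∀ (g : Perm (Fin n)) p q, swap (g p) (g q) * (g * swap p q) = g := by
    intro g p q
    rw [mul_swap_eq_swap_mul, swap_mul_self_mul]
  have sw : ∀ (g : Perm (Fin n)) p q, p ≠ q → (swap (g p) (g q)).IsSwap :=
    fun g p q hpq => ⟨_, _, g.injective.ne hpq, rfl⟩
  refine ⟨fun g p q p' q' h1 h2 h3 h4 => ?_, fun g p q he hg hpq h3 => ?_, fun g => ?_⟩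
  · have := (h g).unique (y₁ := (swap (g p) (g q), g * swap p q))
      (y₂ := (swap (g p') (g q'), g * swap p' q')) ⟨Or.inr (sw g p q h1), h3, key g p q⟩
      ⟨Or.inr (sw g p' q' h2), h4, key g p' q'⟩
    exact mul_left_cancel (Prod.ext_iff.1 this).2
  · have := (h g).unique (y₁ := (swap (g p) (g q), g * swap p q)) (y₂ := (1, g))
      ⟨Or.inr (sw g p q hpq), h3, key g p q⟩ ⟨Or.inl ⟨he, rfl⟩, hg, one_mul g⟩
    have h5 : swap (g p) (g q) = 1 := (Prod.ext_iff.1 this).1
    exact hpq (g.injective (swap_eq_one_iff.1 h5))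
  · obtain ⟨⟨t, y⟩, ⟨ht, hy, hty⟩, -⟩ := h g
    simp only at ht hy hty
    rcases ht with ⟨he, rfl⟩ | ⟨a, b, hab, rfl⟩
    · left; exact ⟨he, by rw [← hty, one_mul]; exact hy⟩
    · right
      refine ⟨g⁻¹ a, g⁻¹ b, (g⁻¹).injective.ne hab, ?_⟩
      rw [mul_swap_eq_swap_mul]
      simp only [Perm.coe_inv, apply_symm_apply]
      rw [← hty, swap_mul_self_mul]
      exact hy

lemma swap_eq_cases {p q p' q' : Fin n} (h : p ≠ q) (hs : swap p q = swap p' q') :
    (p = p' ∧ q = q') ∨ (p = q' ∧ q = p') := by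
  have h1 : swap p' q' p = q := by rw [← hs, swap_apply_left]
  rw [swap_apply_def] at h1
  split_ifs at h1 with a b
  · exact Or.inl ⟨a, h1.symm⟩
  · exact Or.inr ⟨b, h1.symm⟩
  · exact absurd h1 h

open Classical in
lemma KK_ind {e : Prop} {Y : Set (Perm (Fin n))} (hT : Til e Y) (g : Perm (Fin n)) :
    KK (fun y => if y ∈ Y then 1 else 0) g = if e ∧ g ∈ Y then 0 else 2 := by
  unfold KK
  split_ifs with h
  · refine sum_eq_zero fun p _ => sum_eq_zero fun q hq => ?_
    exact if_neg (hT.self g p q h.1 h.2 (ne_of_mem_erase hq).symm)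
  · obtain ⟨a, b, hab, hy⟩ := (hT.ex g).resolve_left h
    have h1 : ∀ p, ∑ q ∈ univ.erase p, (if g * swap p q ∈ Y then (1 : ℝ) else 0)
        = (if p = a then 1 else 0) + (if p = b then 1 else 0) := by
      intro p
      have hc : ∀ q, q ≠ p → g * swap p q ∈ Y → (p = a ∧ q = b) ∨ (p = b ∧ q = a) :=
        fun q hq hm => swap_eq_cases hq.symm (hT.uniq g p q a b hq.symm hab hm hy)
      by_cases ha : p = a
      · subst ha
        rw [sum_eq_single_of_mem b (mem_erase.2 ⟨hab.symm, mem_univ _⟩), if_pos hy, if_pos rfl,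
          if_neg hab, add_zero]
        intro q hq hqb
        refine if_neg fun hm => ?_
        rcases hc q (ne_of_mem_erase hq) hm with h2 | h2
        · exact hqb h2.2
        · exact hab h2.1
      · by_cases hb : p = b
        · subst hb
          rw [sum_eq_single_of_mem a (mem_erase.2 ⟨hab, mem_univ _⟩),
            if_pos (by rwa [swap_comm]), if_neg ha, if_pos rfl, zero_add]
          intro q hq hqa
          refine if_neg fun hm => ?_
          rcases hc q (ne_of_mem_erase hq) hm with h2 | h2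
          · exact ha h2.1
          · exact hqa h2.2
        · rw [if_neg ha, if_neg hb, add_zero]
          refine sum_eq_zero fun q hq => if_neg fun hm => ?_
          rcases hc q (ne_of_mem_erase hq) hm with h2 | h2
          · exact ha h2.1
          · exact hb h2.1
    rw [sum_congr rfl fun p _ => h1 p, sum_add_distrib]
    simp only [sum_ite_eq', mem_univ, if_true]
    norm_num

/-- The permutations that agree with `g` on `I`. -/
def Ag (I : Finset (Fin n)) (g : Perm (Fin n)) : Finset (Perm (Fin n)) :=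
  univ.filter fun y => ∀ x ∈ I, y x = g x

lemma mem_Ag {I : Finset (Fin n)} {g y : Perm (Fin n)} : y ∈ Ag I g ↔ ∀ x ∈ I, y x = g x := by
  simp [Ag]

lemma card_Ag (I : Finset (Fin n)) (g : Perm (Fin n)) :
    (Ag I g).card = (n - I.card).factorial := by
  have h1 : (Ag I g).card = (Ag I 1).card := by
    refine card_bij' (fun y _ => g⁻¹ * y) (fun y _ => g * y) ?_ ?_ (by simp) (by simp)
    · intro y hy; rw [mem_Ag] at hy ⊢; intro x hx; simp [hy x hx]
    · intro y hy; rw [mem_Ag] at hy ⊢; intro x hx; simp [hy x hx]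
  have h2 := Fintype.card_congr (Perm.subtypeEquivSubtypePerm fun x : Fin n => x ∉ I)
  rw [Fintype.card_perm, Fintype.card_subtype, Fintype.card_subtype] at h2
  have h3 : (univ.filter fun x : Fin n => x ∉ I).card = n - I.card := by
    have : (univ.filter fun x : Fin n => x ∉ I) = Iᶜ := by ext; simp
    rw [this, card_compl, Fintype.card_fin]
  rw [h1, ← h3, h2]
  congr 1
  ext y
  simp [Ag]

lemma KK_left (h : Perm (Fin n) → ℝ) (g : Perm (Fin n)) :
    KK h g = ∑ a : Fin n, ∑ b ∈ univ.erase a, h (swap a b * g) := by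
  unfold KK
  rw [← Equiv.sum_comp g (fun a => ∑ b ∈ univ.erase a, h (swap a b * g))]
  refine sum_congr rfl fun p _ => ?_
  refine sum_bij' (fun q _ => g q) (fun b _ => g⁻¹ b) ?_ ?_ (by simp) (by simp) ?_
  · intro q hq; simpa using ne_of_mem_erase hq
  · intro b hb
    refine mem_erase.2 ⟨fun h => ne_of_mem_erase hb ?_, mem_univ _⟩
    rw [← h]; simp
  · intro q _; rw [mul_swap_eq_swap_mul]

lemma KK_avg (I : Finset (Fin n)) (f : Perm (Fin n) → ℝ) (g : Perm (Fin n)) :
    KK (fun g => ∑ y ∈ Ag I g, f y) g = ∑ y ∈ Ag I g, KK f y := by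
  simp only [KK_left]
  rw [sum_comm (s := Ag I g)]
  refine sum_congr rfl fun a _ => ?_
  rw [sum_comm (s := Ag I g)]
  refine sum_congr rfl fun b _ => ?_
  refine sum_bij' (fun y _ => swap a b * y) (fun y _ => swap a b * y) ?_ ?_
    (fun y _ => swap_mul_self_mul _ _ _) (fun y _ => swap_mul_self_mul _ _ _) ?_
  · intro y hy; rw [mem_Ag] at hy ⊢; intro x hx; simp [hy x hx]
  · intro y hy; rw [mem_Ag] at hy ⊢; intro x hx; simp [hy x hx]
  · intro y _; rw [swap_mul_self_mul]

lemma det_avg (I : Finset (Fin n)) (f : Perm (Fin n) → ℝ) :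
    Det I fun g => ∑ y ∈ Ag I g, f y := by
  intro g g' hg
  have : Ag I g = Ag I g' := by
    ext y; simp only [mem_Ag]
    exact forall₂_congr fun x hx => by rw [hg x hx]
  simp only [this]

lemma par_half {I : Finset (Fin n)} (hn : 26 ≤ n) (hI : I.card ≤ 8) (g : Perm (Fin n)) (ε : ℤˣ) :
    2 * ∑ y ∈ Ag I g, (if Perm.sign y = ε then (1 : ℝ) else 0) = (n - I.card).factorial := by
  have hc : 1 < (Iᶜ).card := by rw [card_compl, Fintype.card_fin]; omega
  obtain ⟨p, hp, q, hq, hpq⟩ := one_lt_card.1 hc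
  rw [mem_compl] at hp hq
  have hm : ∀ y ∈ Ag I g, y * swap p q ∈ Ag I g := by
    intro y hy; rw [mem_Ag] at hy ⊢; intro x hx
    rw [Perm.mul_apply, swap_apply_of_ne_of_ne (by rintro rfl; exact hp hx)
      (by rintro rfl; exact hq hx), hy x hx]
  have h1 : ∑ y ∈ Ag I g, (if Perm.sign y = ε then (1 : ℝ) else 0)
      = ∑ y ∈ Ag I g, (if Perm.sign y = ε then (0 : ℝ) else 1) := by
    refine sum_bij' (fun y _ => y * swap p q) (fun y _ => y * swap p q) hm hm
      (fun y _ => mul_swap_mul_self _ _ _) (fun y _ => mul_swap_mul_self _ _ _) ?_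
    intro y _
    rw [Perm.sign_mul, Perm.sign_swap hpq]
    rcases Int.units_eq_one_or (Perm.sign y) with h | h <;>
      rcases Int.units_eq_one_or ε with h' | h' <;> simp [h, h']
  rw [two_mul]
  nth_rewrite 2 [h1]
  rw [← sum_add_distrib, ← card_Ag I g, card_eq_sum_ones]
  push_cast
  exact sum_congr rfl fun y _ => by split_ifs <;> norm_num

lemma KK_add (f f' : Perm (Fin n) → ℝ) (c : ℝ) (g : Perm (Fin n)) :
    KK (fun y => f y + c * f' y) g = KK f g + c * KK f' g := by
  simp only [KK, sum_add_distrib, mul_sum]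

lemma KK_one (g : Perm (Fin n)) : KK (fun _ => 1) g = n * ((n : ℝ) - 1) := by
  unfold KK
  rw [sum_congr rfl fun p _ => show ∑ q ∈ univ.erase p, (1 : ℝ) = n - 1 by
    rw [sum_const, nsmul_eq_mul, mul_one, cast_card_erase_of_mem (mem_univ p)]; simp]
  rw [sum_const, card_univ, Fintype.card_fin, nsmul_eq_mul]

open Classical in
/-- Transitivity of each parity half of a tiling complement (Nomura, Fang and Xia). -/
lemma count {e : Prop} {Y : Set (Perm (Fin n))} (hn : 26 ≤ n) (hT : Til e Y) :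
    ∃ N : ℕ, 0 < N ∧ ∀ (ε : ℤˣ) (I : Finset (Fin n)) (g : Perm (Fin n)), I.card ≤ 8 →
      ((Ag I g).filter fun y => y ∈ Y ∧ Perm.sign y = ε).card * N = (n - I.card).factorial := by
  set E : ℕ := if e then 2 else 0 with hE
  have hn1 : 1 ≤ n := by omega
  refine ⟨n * (n - 1) + E, Nat.add_pos_left (Nat.mul_pos (by omega) (by omega)) _, ?_⟩
  intro ε I g hI
  set ind : ℤˣ → Perm (Fin n) → ℝ := fun η y => if y ∈ Y ∧ Perm.sign y = η then 1 else 0 with hind
  set c : ℤˣ → Perm (Fin n) → ℝ := fun η g => ∑ y ∈ Ag I g, ind η y with hc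
  set M : ℝ := ((n - I.card).factorial : ℝ) with hM
  have hE2 : (E : ℝ) ≤ 2 := by rw [hE]; split_ifs <;> norm_num
  have hE0 : (0 : ℝ) ≤ E := Nat.cast_nonneg _
  have h1 : ∀ η y, KK (ind η) y
      = 2 * (if Perm.sign y = -η then 1 else 0) - E * ind (-η) y := by
    intro η y
    have h2 : KK (ind η) y = (if Perm.sign y = -η then 1 else 0) *
        KK (fun y => if y ∈ Y then 1 else 0) y := by
      simp only [KK, mul_sum]
      refine sum_congr rfl fun p _ => sum_congr rfl fun q hq => ?_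
      simp only [hind]
      rw [Perm.sign_mul, Perm.sign_swap (ne_of_mem_erase hq).symm]
      rcases Int.units_eq_one_or (Perm.sign y) with h | h <;>
        rcases Int.units_eq_one_or η with h' | h' <;> simp [h, h']
    rw [h2, KK_ind hT]
    simp only [hind, hE]
    by_cases a1 : e <;> by_cases a2 : y ∈ Y <;> by_cases a3 : Perm.sign y = -η <;> simp [a1, a2, a3]
  have h3 : ∀ η g, KK (c η) g = M - E * c (-η) g := by
    intro η g
    simp only [hc]
    rw [KK_avg, sum_congr rfl fun y _ => h1 η y, sum_sub_distrib, ← mul_sum, ← mul_sum,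
      par_half hn hI]
  have hd : ∀ η, Det I (c η) := fun η => det_avg I _
  have h4 : ∀ g, c ε g + (-1) * c (-ε) g = 0 := by
    refine inj (e := -E) hn hI (fun g g' hg => by rw [hd _ g g' hg, hd _ g g' hg]) (by linarith) ?_
    intro g
    rw [KK_add, h3, h3, neg_neg]; ring
  have hN : (0 : ℝ) < n * ((n : ℝ) - 1) + E := by
    have : (26 : ℝ) ≤ n := by exact_mod_cast hn
    nlinarith
  have h5 : ∀ g, c ε g + (-(M / (n * ((n : ℝ) - 1) + E))) * 1 = 0 := by
    refine inj (e := E) (h := fun g => c ε g + (-(M / (n * ((n : ℝ) - 1) + E))) * 1) hn hI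
      (fun g g' hg => by simp only [hd _ g g' hg]) (by linarith) ?_
    intro g
    rw [KK_add (c ε) (fun _ => 1), h3, KK_one, show c (-ε) g = c ε g by linarith [h4 g]]
    field_simp
    ring
  have h6 : c ε g = ((Ag I g).filter fun y => y ∈ Y ∧ Perm.sign y = ε).card := by
    simp only [hc, hind]; rw [sum_boole]
  have h7 : c ε g * (n * ((n : ℝ) - 1) + E) = M := by
    rw [show c ε g = M / (n * ((n : ℝ) - 1) + E) by linarith [h5 g]]; field_simp
  rw [h6, hM] at h7
  have h8 : ((n * (n - 1) + E : ℕ) : ℝ) = n * ((n : ℝ) - 1) + E := by push_cast [hn1]; ring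
  rw [← h8] at h7
  exact_mod_cast h7

end Pool.Agent.P.MP_bfa556_co
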