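import Pool.Agent.P.MP_bfa556_co.Count

open Finset Equiv

namespace Pool.Agent.P.MP_bfa556_co

variable {n : ℕ}

/-- Injectivity of `KK + e` on functions determined by fewer than half of the values. -/
lemma inj2 {I : Finset (Fin n)} (hn : 3 ≤ n) (hI : 2 * I.card + 2 ≤ n) {h : Perm (Fin n) → ℝ}
    (hd : Det I h) {e : ℝ} (he : -2 ≤ e) (h0 : ∀ g, e * h g + KK h g = 0) (g : Perm (Fin n)) :
    h g = 0 := by
  have h1 := form_ge hd
  have h2 : ∑ g, h g * KK h g = -e * ∑ g, h g ^ 2 := by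
    rw [mul_sum]
    exact sum_congr rfl fun g _ => by rw [show KK h g = -(e * h g) by linarith [h0 g]]; ring
  have hn' : (3 : ℝ) ≤ n := by exact_mod_cast hn
  have hI' : 2 * (I.card : ℝ) + 2 ≤ n := by exact_mod_cast hI
  have hI0 : (0 : ℝ) ≤ I.card := Nat.cast_nonneg _
  have hH : 0 ≤ ∑ g, h g ^ 2 := sum_nonneg fun g _ => sq_nonneg _
  have hc : 0 < ((n : ℝ) - I.card) * ((n : ℝ) - I.card - 1) - I.card * (I.card + 1) + e := by
    nlinarith
  have hz : ∑ g, h g ^ 2 = 0 := by nlinarith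
  have := (sum_eq_zero_iff_of_nonneg fun g _ => sq_nonneg (h g)).1 hz g (mem_univ _)
  simpa using this

lemma par_half2 {I : Finset (Fin n)} (hI : 2 * I.card + 2 ≤ n) (g : Perm (Fin n)) (ε : ℤˣ) :
    2 * ∑ y ∈ Ag I g, (if Perm.sign y = ε then (1 : ℝ) else 0) = (n - I.card).factorial := by
  have hc : 1 < (Iᶜ).card := by rw [card_compl, Fintype.card_fin]; omega
  obtain ⟨p, hp, q, hq, hpq⟩ := one_lt_card.1 hc
  rw [mem_compl] at hp hq
  have hm : ∀ y ∈ Ag I g, y * swap p q ∈ Ag I g := by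
    intro y hy; rw [mem_Ag] at hy ⊢; intro x hx
    rw [Perm.mul_apply, swap_apply_of_ne_of_ne (by rintro rfl; exact hp hx)
      (by rintro rfl; exact hq hx), hy x hx]
  have h1 : ∑ y ∈ Ag I g, (if Perm.sign y = ε then (1 : ℝ) else 0)
      = ∑ y ∈ Ag I g, (if Perm.sign y = ε then (0 : ℝ) else 1) := by
    refine sum_bij' (fun y _ => y * swap p q) (fun y _ => y * swap p q) hm hm
      (fun y _ => mul_swap_mul_self _ _ _) (fun y _ => mul_swap_mul_self _ _ _) ?_
    intro y _
    rw [Perm.sign_mul, Perm.sign_swap hpq]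
    rcases Int.units_eq_one_or (Perm.sign y) with h | h <;>
      rcases Int.units_eq_one_or ε with h' | h' <;> simp [h, h']
  rw [two_mul]
  nth_rewrite 2 [h1]
  rw [← sum_add_distrib, ← card_Ag I g, card_eq_sum_ones]
  push_cast
  exact sum_congr rfl fun y _ => by split_ifs <;> norm_num

open Classical in
/-- Transitivity of each parity half of a tiling complement (Nomura, Fang and Xia). -/
lemma count2 {e : Prop} {Y : Set (Perm (Fin n))} (hn : 3 ≤ n) (hT : Til e Y) :
    ∃ N : ℕ, (¬ e → N = n * (n - 1)) ∧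
      ∀ (ε : ℤˣ) (I : Finset (Fin n)) (g : Perm (Fin n)), 2 * I.card + 2 ≤ n →
      ((Ag I g).filter fun y => y ∈ Y ∧ Perm.sign y = ε).card * N = (n - I.card).factorial := by
  set E : ℕ := if e then 2 else 0 with hE
  have hn1 : 1 ≤ n := by omega
  refine ⟨n * (n - 1) + E, fun h => by rw [hE, if_neg h, add_zero], ?_⟩
  intro ε I g hI
  set ind : ℤˣ → Perm (Fin n) → ℝ := fun η y => if y ∈ Y ∧ Perm.sign y = η then 1 else 0 with hind
  set c : ℤˣ → Perm (Fin n) → ℝ := fun η g => ∑ y ∈ Ag I g, ind η y with hc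
  set M : ℝ := ((n - I.card).factorial : ℝ) with hM
  have hE2 : (E : ℝ) ≤ 2 := by rw [hE]; split_ifs <;> norm_num
  have hE0 : (0 : ℝ) ≤ E := Nat.cast_nonneg _
  have h1 : ∀ η y, KK (ind η) y
      = 2 * (if Perm.sign y = -η then 1 else 0) - E * ind (-η) y := by
    intro η y
    have h2 : KK (ind η) y = (if Perm.sign y = -η then 1 else 0) *
        KK (fun y => if y ∈ Y then 1 else 0) y := by
      simp only [KK, mul_sum]
      refine sum_congr rfl fun p _ => sum_congr rfl fun q hq => ?_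
      simp only [hind]
      rw [Perm.sign_mul, Perm.sign_swap (ne_of_mem_erase hq).symm]
      rcases Int.units_eq_one_or (Perm.sign y) with h | h <;>
        rcases Int.units_eq_one_or η with h' | h' <;> simp [h, h']
    rw [h2, KK_ind hT]
    simp only [hind, hE]
    by_cases a1 : e <;> by_cases a2 : y ∈ Y <;> by_cases a3 : Perm.sign y = -η <;> simp [a1, a2, a3]
  have h3 : ∀ η g, KK (c η) g = M - E * c (-η) g := by
    intro η g
    simp only [hc]
    rw [KK_avg, sum_congr rfl fun y _ => h1 η y, sum_sub_distrib, ← mul_sum, ← mul_sum,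
      par_half2 hI]
  have hd : ∀ η, Det I (c η) := fun η => det_avg I _
  have h4 : ∀ g, c ε g + (-1) * c (-ε) g = 0 := by
    refine inj2 (e := -E) hn hI (fun g g' hg => by rw [hd _ g g' hg, hd _ g g' hg]) (by linarith) ?_
    intro g
    rw [KK_add, h3, h3, neg_neg]; ring
  have hN : (0 : ℝ) < n * ((n : ℝ) - 1) + E := by
    have : (3 : ℝ) ≤ n := by exact_mod_cast hn
    nlinarith
  have h5 : ∀ g, c ε g + (-(M / (n * ((n : ℝ) - 1) + E))) * 1 = 0 := by
    refine inj2 (e := E) (h := fun g => c ε g + (-(M / (n * ((n : ℝ) - 1) + E))) * 1) hn hI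
      (fun g g' hg => by simp only [hd _ g g' hg]) (by linarith) ?_
    intro g
    rw [KK_add (c ε) (fun _ => 1), h3, KK_one, show c (-ε) g = c ε g by linarith [h4 g]]
    field_simp
    ring
  have h6 : c ε g = ((Ag I g).filter fun y => y ∈ Y ∧ Perm.sign y = ε).card := by
    simp only [hc, hind]; rw [sum_boole]
  have h7 : c ε g * (n * ((n : ℝ) - 1) + E) = M := by
    rw [show c ε g = M / (n * ((n : ℝ) - 1) + E) by linarith [h5 g]]; field_simp
  rw [h6, hM] at h7
  have h8 : ((n * (n - 1) + E : ℕ) : ℝ) = n * ((n : ℝ) - 1) + E := by push_cast [hn1]; ring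
  rw [← h8] at h7
  exact_mod_cast h7

end Pool.Agent.P.MP_bfa556_co
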