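import Pool.Agent.P.MP_bfa556_co.Local

open Finset Equiv

namespace Pool.Agent.P.MP_bfa556_co

variable {n : ℕ} {A : Type} [AddCommGroup A] {φ : Fin n → Fin n → A}

lemma cover (H : Sep φ) {I : Finset (Fin n)} (hI : I.card = 6) (x0 : Perm (Fin n)) (w : A)
    (hin : ∀ p ∈ I, ∀ q ∈ I, p ≠ q → dl φ p q (x0 p) (x0 q) ≠ w)
    (hu1 : ∀ p ∈ I, ∀ l b l' b', l ∉ I → b ∉ I.image x0 → l' ∉ I → b' ∉ I.image x0 →
      dl φ p l (x0 p) b = w → dl φ p l' (x0 p) b' = w → l = l' ∧ b = b')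
    (hu2 : ∀ k a l b l' b', k ∉ I → a ∉ I.image x0 → l ∉ I → b ∉ I.image x0 → l' ∉ I →
      b' ∉ I.image x0 → k ≠ l → k ≠ l' → a ≠ b → a ≠ b' → dl φ k l a b = dl φ k l' a b' →
      l = l' ∧ b = b')
    (X : Finset (Perm (Fin n))) (hX : ∀ x ∈ X, x ∈ Ag I x0)
    (hX2 : ∀ x ∈ X, ∃ p q, p ≠ q ∧ dl φ p q (x p) (x q) = w) (N : ℕ)
    (hN : ∀ J : Finset (Fin n), I ⊆ J → J.card ≤ 8 → ∀ S ⊆ X,
      (∀ x ∈ S, ∀ x' ∈ S, ∀ p ∈ J, x p = x' p) → S.card * N ≤ (n - J.card).factorial) :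
    ∃ u v : ℕ, u ≤ 6 ∧ 2 * v + u ≤ (n - 6) ^ 2 ∧
      X.card * N ≤ u * (n - 7).factorial + v * (n - 8).factorial := by
  classical
  set F : Finset (Fin n × Fin n) := Iᶜ ×ˢ (I.image x0)ᶜ with hF
  have mF : ∀ z : Fin n × Fin n, z ∈ F ↔ z.1 ∉ I ∧ z.2 ∉ I.image x0 := by
    intro z; simp only [hF, mem_product, mem_compl]
  have cF : F.card = (n - 6) ^ 2 := by
    rw [hF, card_product, card_compl, card_compl, card_image_of_injective _ x0.injective, hI,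
      Fintype.card_fin, sq]
  set U : Finset (Fin n × Fin n) := F.filter fun z => ∃ p ∈ I, dl φ p z.1 (x0 p) z.2 = w with hU
  set W : Finset ((Fin n × Fin n) × (Fin n × Fin n)) := (F ×ˢ F).filter fun z =>
    z.1.1 < z.2.1 ∧ z.1.2 ≠ z.2.2 ∧ dl φ z.1.1 z.2.1 z.1.2 z.2.2 = w with hW
  have mW : ∀ z, z ∈ W ↔ (z.1 ∈ F ∧ z.2 ∈ F) ∧ z.1.1 < z.2.1 ∧ z.1.2 ≠ z.2.2 ∧
      dl φ z.1.1 z.2.1 z.1.2 z.2.2 = w := by
    intro z; simp only [hW, mem_filter, mem_product]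
  have cU : U.card ≤ 6 := by
    have : U ⊆ I.biUnion fun p => F.filter fun z => dl φ p z.1 (x0 p) z.2 = w := by
      intro z hz
      obtain ⟨h1, p, hp, h2⟩ := mem_filter.1 hz
      exact mem_biUnion.2 ⟨p, hp, mem_filter.2 ⟨h1, h2⟩⟩
    refine (card_le_card this).trans ((card_biUnion_le_card_mul _ _ 1 ?_).trans (by omega))
    intro p hp
    refine card_le_one.2 fun z hz z' hz' => ?_
    obtain ⟨h1, h2⟩ := mem_filter.1 hz
    obtain ⟨h3, h4⟩ := mem_filter.1 hz'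
    rw [mF] at h1 h3
    have := hu1 p hp _ _ _ _ h1.1 h1.2 h3.1 h3.2 h2 h4
    exact Prod.ext this.1 this.2
  -- an atom has at most one partner
  have part : ∀ z z1 z2 : Fin n × Fin n, z ∈ F → z1 ∈ F → z2 ∈ F → z.1 ≠ z1.1 → z.1 ≠ z2.1 →
      z.2 ≠ z1.2 → z.2 ≠ z2.2 → dl φ z.1 z1.1 z.2 z1.2 = w → dl φ z.1 z2.1 z.2 z2.2 = w →
      z1 = z2 := by
    intro z z1 z2 a b c d e f g h1 h2
    rw [mF] at a b c
    have := hu2 _ _ _ _ _ _ a.1 a.2 b.1 b.2 c.1 c.2 d e f g (h1.trans h2.symm)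
    exact Prod.ext this.1 this.2
  have partU : ∀ z z1 : Fin n × Fin n, z ∈ U → z1 ∈ F → z.1 ≠ z1.1 → z.2 ≠ z1.2 →
      dl φ z.1 z1.1 z.2 z1.2 ≠ w := by
    intro z z1 hz h1 d f h2
    obtain ⟨h0, p, hp, h3⟩ := mem_filter.1 hz
    rw [mF] at h0 h1
    have hp' : x0 p ∈ I.image x0 := mem_image_of_mem _ hp
    refine H.three d (k := z.1) (l' := p) (fun h => h0.1 (h ▸ hp)) (fun h => h1.1 (h ▸ hp)) f
      (b' := x0 p) (fun h => h0.2 (h ▸ hp')) (fun h => h1.2 (h ▸ hp')) ?_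
    rw [h2, dl_symm, h3]
  have c1 : (W.image Prod.fst).card = W.card := by
    refine card_image_of_injOn fun z hz z' hz' h => ?_
    obtain ⟨⟨a1, a2⟩, a3, a4, a5⟩ := (mW z).1 hz
    obtain ⟨⟨b1, b2⟩, b3, b4, b5⟩ := (mW z').1 hz'
    rw [← h] at b3 b4 b5
    exact Prod.ext h (part z.1 z.2 z'.2 a1 a2 b2 a3.ne b3.ne a4 b4 a5 b5)
  have c2 : (W.image Prod.snd).card = W.card := by
    refine card_image_of_injOn fun z hz z' hz' h => ?_
    obtain ⟨⟨a1, a2⟩, a3, a4, a5⟩ := (mW z).1 hz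
    obtain ⟨⟨b1, b2⟩, b3, b4, b5⟩ := (mW z').1 hz'
    rw [← h] at b3 b4 b5
    rw [dl_symm] at a5 b5
    exact Prod.ext (part z.2 z.1 z'.1 a2 a1 b1 a3.ne' b3.ne' a4.symm b4.symm a5 b5) h
  have d1 : Disjoint (W.image Prod.fst) (W.image Prod.snd) := by
    refine disjoint_left.2 fun t ht ht' => ?_
    obtain ⟨z, hz, rfl⟩ := mem_image.1 ht
    obtain ⟨z', hz', h⟩ := mem_image.1 ht'
    obtain ⟨⟨a1, a2⟩, a3, a4, a5⟩ := (mW z).1 hz
    obtain ⟨⟨b1, b2⟩, b3, b4, b5⟩ := (mW z').1 hz'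
    rw [h] at b3 b4 b5
    rw [dl_symm] at b5
    have := part z.1 z.2 z'.1 a1 a2 b1 a3.ne b3.ne' a4 b4.symm a5 b5
    rw [this] at a3
    exact lt_asymm a3 b3
  have d2 : Disjoint (W.image Prod.fst ∪ W.image Prod.snd) U := by
    refine disjoint_left.2 fun t ht hu => ?_
    rcases mem_union.1 ht with ht | ht
    · obtain ⟨z, hz, rfl⟩ := mem_image.1 ht
      obtain ⟨⟨a1, a2⟩, a3, a4, a5⟩ := (mW z).1 hz
      exact partU z.1 z.2 hu a2 a3.ne a4 a5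
    · obtain ⟨z, hz, rfl⟩ := mem_image.1 ht
      obtain ⟨⟨a1, a2⟩, a3, a4, a5⟩ := (mW z).1 hz
      rw [dl_symm] at a5
      exact partU z.2 z.1 hu a1 a3.ne' a4.symm a5
  have cW : 2 * W.card + U.card ≤ (n - 6) ^ 2 := by
    have hs : W.image Prod.fst ∪ W.image Prod.snd ∪ U ⊆ F := by
      refine union_subset (union_subset ?_ ?_) (filter_subset _ _)
      · intro t ht; obtain ⟨z, hz, rfl⟩ := mem_image.1 ht; exact ((mW z).1 hz).1.1
      · intro t ht; obtain ⟨z, hz, rfl⟩ := mem_image.1 ht; exact ((mW z).1 hz).1.2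
    have := card_le_card hs
    rw [card_union_of_disjoint d2, card_union_of_disjoint d1, c1, c2, cF] at this
    omega
  refine ⟨U.card, W.card, cU, cW, ?_⟩
  have free : ∀ x ∈ X, ∀ q, q ∉ I → (q, x q) ∈ F := by
    intro x hx q hq
    refine (mF _).2 ⟨hq, fun h => ?_⟩
    obtain ⟨p, hp, h1⟩ := mem_image.1 h
    rw [← mem_Ag.1 (hX x hx) p hp] at h1
    exact hq (x.injective h1 ▸ hp)
  have hsub : X ⊆ (U.biUnion fun z => X.filter fun x => x z.1 = z.2) ∪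
      (W.biUnion fun z => X.filter fun x => x z.1.1 = z.1.2 ∧ x z.2.1 = z.2.2) := by
    intro x hx
    obtain ⟨p, q, hpq, hd⟩ := hX2 x hx
    have ag := mem_Ag.1 (hX x hx)
    by_cases hp : p ∈ I <;> by_cases hq : q ∈ I
    · exact absurd (by rw [← ag p hp, ← ag q hq, hd]) (hin p hp q hq hpq)
    · refine mem_union_left _ (mem_biUnion.2 ⟨(q, x q), mem_filter.2 ⟨free x hx q hq, p, hp, ?_⟩,
        mem_filter.2 ⟨hx, rfl⟩⟩)
      rw [← ag p hp, hd]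
    · refine mem_union_left _ (mem_biUnion.2 ⟨(p, x p), mem_filter.2 ⟨free x hx p hp, q, hq, ?_⟩,
        mem_filter.2 ⟨hx, rfl⟩⟩)
      rw [← ag q hq, dl_symm, hd]
    · refine mem_union_right _ ?_
      rcases lt_or_gt_of_ne hpq with h | h
      · exact mem_biUnion.2 ⟨((p, x p), (q, x q)), (mW _).2 ⟨⟨free x hx p hp, free x hx q hq⟩, h,
          x.injective.ne hpq, hd⟩, mem_filter.2 ⟨hx, rfl, rfl⟩⟩
      · exact mem_biUnion.2 ⟨((q, x q), (p, x p)), (mW _).2 ⟨⟨free x hx q hq, free x hx p hp⟩, h,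
          x.injective.ne hpq.symm, by rw [dl_symm]; exact hd⟩, mem_filter.2 ⟨hx, rfl, rfl⟩⟩
  have agI : ∀ x ∈ X, ∀ x' ∈ X, ∀ p ∈ I, x p = x' p := fun x hx x' hx' p hp => by
    rw [mem_Ag.1 (hX x hx) p hp, mem_Ag.1 (hX x' hx') p hp]
  have s1 : ∀ z ∈ U, (X.filter fun x => x z.1 = z.2).card * N ≤ (n - 7).factorial := by
    intro z hz
    have hz1 := ((mF z).1 (mem_filter.1 hz).1).1
    have hc : (insert z.1 I).card = 7 := by rw [card_insert_of_notMem hz1, hI]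
    rw [← hc]
    refine hN _ (subset_insert _ _) (by omega) _ (filter_subset _ _) fun x hx x' hx' p hp => ?_
    obtain ⟨h1, h2⟩ := mem_filter.1 hx
    obtain ⟨h3, h4⟩ := mem_filter.1 hx'
    rcases mem_insert.1 hp with rfl | hp
    · rw [h2, h4]
    · exact agI x h1 x' h3 p hp
  have s2 : ∀ z ∈ W, (X.filter fun x => x z.1.1 = z.1.2 ∧ x z.2.1 = z.2.2).card * N
      ≤ (n - 8).factorial := by
    intro z hz
    obtain ⟨⟨a1, a2⟩, a3, -, -⟩ := (mW z).1 hz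
    have hc : (insert z.1.1 (insert z.2.1 I)).card = 8 := by
      rw [card_insert_of_notMem, card_insert_of_notMem ((mF _).1 a2).1, hI]
      rw [mem_insert, not_or]
      exact ⟨a3.ne, ((mF _).1 a1).1⟩
    rw [← hc]
    refine hN _ ((subset_insert _ _).trans (subset_insert _ _)) (by omega) _ (filter_subset _ _)
      fun x hx x' hx' p hp => ?_
    obtain ⟨h1, h2, h2'⟩ := mem_filter.1 hx
    obtain ⟨h3, h4, h4'⟩ := mem_filter.1 hx'
    rcases mem_insert.1 hp with rfl | hp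
    · rw [h2, h4]
    · rcases mem_insert.1 hp with rfl | hp
      · rw [h2', h4']
      · exact agI x h1 x' h3 p hp
  have t1 := sum_le_card_nsmul _ _ _ s1
  have t2 := sum_le_card_nsmul _ _ _ s2
  rw [← sum_mul, smul_eq_mul] at t1 t2
  have t3 := (card_le_card hsub).trans
    ((card_union_le _ _).trans (add_le_add card_biUnion_le card_biUnion_le))
  have t4 := Nat.mul_le_mul_right N t3
  rw [add_mul] at t4
  omega

lemma arith {m u v f X C G : ℕ} (hm : 18 ≤ m) (hf : 0 < f) (hu : u ≤ 6)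
    (hv : 2 * v + u ≤ (m + 2) ^ 2) (h1 : C + X = (m + 2) * ((m + 1) * f))
    (h2 : C ≤ u * ((m + 1) * f) + v * f) (h3 : G * X ≤ (m + 3) * ((m + 2) * ((m + 1) * f)))
    (hG : (m + 3) ^ 2 ≤ G + (12 * m + 72)) : False := by
  obtain ⟨t, rfl⟩ := Nat.exists_eq_add_of_le hm
  have a1 : (t ^ 2 + 26 * t + 138) * f ≤ 2 * X := by
    have b1 : (2 * v + u) * f ≤ (18 + t + 2) ^ 2 * f := Nat.mul_le_mul_right f hv
    have b2 : u * ((2 * t + 37) * f) ≤ 6 * ((2 * t + 37) * f) := Nat.mul_le_mul_right _ hu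
    nlinarith
  have a2 : t ^ 2 + 30 * t + 153 ≤ G := by nlinarith
  have a3 : (t ^ 2 + 30 * t + 153) * ((t ^ 2 + 26 * t + 138) * f) ≤ G * (2 * X) :=
    Nat.mul_le_mul a2 a1
  have a4 : (t ^ 2 + 30 * t + 153) * (t ^ 2 + 26 * t + 138) * f
      ≤ 2 * ((t + 21) * ((t + 20) * (t + 19))) * f := by nlinarith
  have a5 := Nat.le_of_mul_le_mul_right a4 hf
  nlinarith [Nat.zero_le (t ^ 4), Nat.zero_le (t ^ 3), Nat.zero_le (t ^ 2)]

end Pool.Agent.P.MP_bfa556_co
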