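import Pool.Agent.P.MP_bfa556_co.Cover

open Finset Equiv

namespace Pool.Agent.P.MP_bfa556_co

variable {n : ℕ} {A : Type} [AddCommGroup A] {φ : Fin n → Fin n → A}

lemma good {P V : Fin n → Prop} (B : Board φ P V) (H : Sep φ) {J : Finset (Fin n)}
    (hJ : J.card = 5) (x1 : Perm (Fin n)) {i : Fin n} (hi : i ∈ J) (pi : P i) (vi : V (x1 i))
    (hP : ∀ k, k ∉ J → P k) (hV : ∀ a, a ∉ J.image x1 → V a) (τ : A) (W : Finset A)
    (hW : W.card ≤ 4 * n) :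
    ∃ G : Finset (Fin n × Fin n), (n - 5) ^ 2 ≤ G.card + (4 * n + 16 + 8 * (n - 5)) ∧
      ∀ z ∈ G, z.1 ∉ J ∧ z.2 ∉ J.image x1 ∧ τ - dl φ i z.1 (x1 i) z.2 ∉ W ∧
        (∀ p ∈ J.erase i, ∀ q ∈ J.erase i, dl φ p q (x1 p) (x1 q) ≠ τ - dl φ i z.1 (x1 i) z.2) ∧
        (∀ q ∈ J.erase i, dl φ i q z.2 (x1 q) ≠ τ - dl φ i z.1 (x1 i) z.2) ∧
        (∀ q ∈ J.erase i, dl φ z.1 q (x1 i) (x1 q) ≠ τ - dl φ i z.1 (x1 i) z.2) := by
  classical
  set F : Finset (Fin n × Fin n) := Jᶜ ×ˢ (J.image x1)ᶜ with hF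
  have mF : ∀ z : Fin n × Fin n, z ∈ F ↔ z.1 ∉ J ∧ z.2 ∉ J.image x1 := by
    intro z; simp only [hF, mem_product, mem_compl]
  have cJ : (Jᶜ).card = n - 5 := by rw [card_compl, hJ, Fintype.card_fin]
  have cV : ((J.image x1)ᶜ).card = n - 5 := by
    rw [card_compl, card_image_of_injective _ x1.injective, hJ, Fintype.card_fin]
  have cF : F.card = (n - 5) ^ 2 := by rw [hF, card_product, cJ, cV, sq]
  have cE : (J.erase i).card = 4 := by rw [card_erase_of_mem hi, hJ]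
  set ω : Fin n × Fin n → A := fun z => τ - dl φ i z.1 (x1 i) z.2 with hω
  have inj : ∀ z ∈ F, ∀ z' ∈ F, ω z = ω z' → z = z' := by
    intro z hz z' hz' h
    rw [mF] at hz hz'
    have hx : x1 i ∈ J.image x1 := mem_image_of_mem _ hi
    have := B.uniq H pi vi (hP _ hz.1) (hV _ hz.2) (hP _ hz'.1) (hV _ hz'.2)
      (fun h => hz.1 (h ▸ hi)) (fun h => hz'.1 (h ▸ hi)) (fun h => hz.2 (h ▸ hx))
      (fun h => hz'.2 (h ▸ hx)) (sub_right_injective h)
    exact Prod.ext this.1 this.2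
  set W' : Finset A :=
    W ∪ ((J.erase i) ×ˢ (J.erase i)).image fun t => dl φ t.1 t.2 (x1 t.1) (x1 t.2) with hW'
  have cW' : W'.card ≤ 4 * n + 16 := by
    refine (card_union_le _ _).trans (add_le_add hW (card_image_le.trans ?_))
    rw [card_product, cE]
  set B1 := F.filter fun z => ω z ∈ W' with hB1
  set B2 := (J.erase i).biUnion fun q => F.filter fun z => dl φ i q z.2 (x1 q) = ω z with hB2
  set B3 := (J.erase i).biUnion fun q => F.filter fun z => dl φ z.1 q (x1 i) (x1 q) = ω z with hB3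
  have c1 : B1.card ≤ 4 * n + 16 :=
    (card_le_card_of_injOn ω (fun z hz => (mem_filter.1 hz).2)
      fun z hz z' hz' h => inj z (mem_filter.1 hz).1 z' (mem_filter.1 hz').1 h).trans cW'
  have c2 : B2.card ≤ 4 * (n - 5) := by
    rw [← cE]
    refine card_biUnion_le_card_mul _ _ _ fun q _ => ?_
    rw [← cV]
    refine card_le_card_of_injOn Prod.snd
      (fun z hz => mem_compl.2 ((mF z).1 (mem_filter.1 hz).1).2) fun z hz z' hz' h => ?_
    obtain ⟨a1, a2⟩ := mem_filter.1 hz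
    obtain ⟨b1, b2⟩ := mem_filter.1 hz'
    exact inj z a1 z' b1 (by rw [← a2, ← b2, h])
  have c3 : B3.card ≤ 4 * (n - 5) := by
    rw [← cE]
    refine card_biUnion_le_card_mul _ _ _ fun q _ => ?_
    rw [← cJ]
    refine card_le_card_of_injOn Prod.fst
      (fun z hz => mem_compl.2 ((mF z).1 (mem_filter.1 hz).1).1) fun z hz z' hz' h => ?_
    obtain ⟨a1, a2⟩ := mem_filter.1 hz
    obtain ⟨b1, b2⟩ := mem_filter.1 hz'
    exact inj z a1 z' b1 (by rw [← a2, ← b2, h])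
  refine ⟨F \ (B1 ∪ B2 ∪ B3), ?_, fun z hz => ?_⟩
  · have h1 := le_card_sdiff (B1 ∪ B2 ∪ B3) F
    have h2 := (card_union_le (B1 ∪ B2) B3).trans (add_le_add (card_union_le _ _) le_rfl)
    omega
  · obtain ⟨h1, h2⟩ := mem_sdiff.1 hz
    rw [mem_union, mem_union, not_or, not_or] at h2
    have n1 : ω z ∉ W' := fun h => h2.1.1 (mem_filter.2 ⟨h1, h⟩)
    refine ⟨((mF z).1 h1).1, ((mF z).1 h1).2, fun h => n1 (mem_union_left _ h),
      fun p hp q hq h => n1 (mem_union_right _ (mem_image.2 ⟨(p, q), mem_product.2 ⟨hp, hq⟩, h⟩)),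
      fun q hq h => h2.1.2 (mem_biUnion.2 ⟨q, hq, mem_filter.2 ⟨h1, h⟩⟩),
      fun q hq h => h2.2 (mem_biUnion.2 ⟨q, hq, mem_filter.2 ⟨h1, h⟩⟩)⟩

lemma swap_mem {I : Finset (Fin n)} {p q x : Fin n} (hp : p ∈ I) (hq : q ∈ I) (hx : x ∈ I) :
    swap p q x ∈ I := by
  rw [swap_apply_def]; split_ifs <;> assumption

lemma card_shift (I : Finset (Fin n)) (g v : Perm (Fin n)) (R : Perm (Fin n) → Prop)
    [DecidablePred R] (h1 : ∀ p ∈ I, v p ∈ I) (h2 : ∀ p ∈ I, v⁻¹ p ∈ I) :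
    ((Ag I g).filter fun x => R (x * v)).card = ((Ag I (g * v)).filter R).card := by
  refine card_bij' (fun x _ => x * v) (fun y _ => y * v⁻¹) ?_ ?_ (by simp) (by simp)
  · intro x hx
    obtain ⟨a, b⟩ := mem_filter.1 hx
    refine mem_filter.2 ⟨mem_Ag.2 fun p hp => ?_, b⟩
    rw [Perm.mul_apply, Perm.mul_apply, mem_Ag.1 a _ (h1 p hp)]
  · intro y hy
    obtain ⟨a, b⟩ := mem_filter.1 hy
    refine mem_filter.2 ⟨mem_Ag.2 fun p hp => ?_, by simpa using b⟩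
    rw [Perm.mul_apply, mem_Ag.1 a _ (h2 p hp)]
    simp

lemma sep_of {e : Prop} {Y : Set (Perm (Fin n))} (hT : Til e Y) {ε : ℤˣ} {c : A}
    (hY : ∀ g : Perm (Fin n), Perm.sign g = ε → (g ∈ Y ↔ ∑ i, φ i (g i) = c))
    (hex : ∀ (I : Finset (Fin n)) (g : Perm (Fin n)), I.card ≤ 8 →
      ∃ y ∈ Ag I g, y ∈ Y ∧ Perm.sign y = ε) : Sep φ := by
  intro g p q p' q' h1 h2 hd
  have hc : ({p, q, p', q'} : Finset (Fin n)).card ≤ 8 := card_le_four.trans (by norm_num)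
  obtain ⟨y, ha, hy, hs⟩ := hex _ (g * swap p q) hc
  have ag : ∀ x ∈ ({p, q, p', q'} : Finset (Fin n)), (y * swap p q) x = g x := by
    intro x hx
    rw [Perm.mul_apply, mem_Ag.1 ha _ (swap_mem (by simp) (by simp) hx), Perm.mul_apply,
      swap_apply_self]
  have e1 := syn_swap (φ := φ) (y * swap p q) h1
  have e2 := syn_swap (φ := φ) (y * swap p q) h2
  rw [ag p (by simp), ag q (by simp), hd, mul_swap_mul_self] at e1
  rw [ag p' (by simp), ag q' (by simp), ← e1, (hY y hs).1 hy] at e2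
  refine hT.uniq (y * swap p q) p q p' q' h1 h2 (by rwa [mul_swap_mul_self]) ((hY _ ?_).2 e2)
  rw [Perm.sign_mul, Perm.sign_mul, Perm.sign_swap h1, Perm.sign_swap h2, hs]
  simp

end Pool.Agent.P.MP_bfa556_co
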