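import Mathlib

open Equiv Equiv.Perm MulAction Subgroup

namespace Pool.Agent.P.MP_bfa556_co

variable {β : Type} [Fintype β] [DecidableEq β]

/-- The pointwise stabiliser of the fixed points of a cycle of prime length is primitive on the
support of the cycle. -/
lemma prim_fix {G : Subgroup (Perm β)} {g : Perm β} {p : ℕ} (hp : p.Prime) (hgc : g.IsCycle)
    (hgp : g.support.card = p) (hg : g ∈ G) :
    IsPreprimitive (fixingSubgroup G (g.support : Set β)ᶜ)
      (SubMulAction.ofFixingSubgroup G (g.support : Set β)ᶜ) := by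
  have := isPretransitive_of_isCycle_mem hgc hg
  apply IsPreprimitive.of_prime_card
  have h : Nat.card (SubMulAction.ofFixingSubgroup G (g.support : Set β)ᶜ) = p := by
    classical
    rw [Nat.card_eq_fintype_card, Fintype.card_subtype, ← hgp]
    apply congr_arg
    ext x
    simp [SubMulAction.mem_ofFixingSubgroup_iff]
  rw [h]; exact hp

/-- A transitive group with a long cycle of prime length is primitive. -/
lemma prim_of_cycle {G : Subgroup (Perm β)} (hG : IsPretransitive G β) {g : Perm β} {p : ℕ}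
    (hp : p.Prime) (hgc : g.IsCycle) (hgp : g.support.card = p) (hg : g ∈ G)
    (hc : Fintype.card β < 2 * p) : IsPreprimitive G β := by
  have := prim_fix hp hgc hgp hg
  apply IsPreprimitive.of_card_lt
    (f := SubMulAction.ofFixingSubgroup_equivariantMap G (g.support : Set β)ᶜ)
  have h : Set.range (SubMulAction.ofFixingSubgroup_equivariantMap G (g.support : Set β)ᶜ)
      = (g.support : Set β) := by
    ext x
    constructor
    · rintro ⟨y, rfl⟩
      have := y.2
      rw [SubMulAction.mem_ofFixingSubgroup_iff] at this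
      exact not_not.1 this
    · intro hx
      exact ⟨⟨x, by rw [SubMulAction.mem_ofFixingSubgroup_iff]; exact fun h => h hx⟩, rfl⟩
  rw [h, Set.ncard_coe_finset, hgp, Nat.card_eq_fintype_card]
  exact hc

/-- The elements of `G` that fix every point fixed by `g`. -/
def fixers (G : Subgroup (Perm β)) (g : Perm β) : Subgroup (Perm β) where
  carrier := {u | u ∈ G ∧ ∀ x, g x = x → u x = x}
  mul_mem' := fun {a b} ha hb => ⟨G.mul_mem ha.1 hb.1, fun x hx => by
    rw [Perm.mul_apply, hb.2 x hx, ha.2 x hx]⟩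
  one_mem' := ⟨G.one_mem, fun _ _ => rfl⟩
  inv_mem' := fun {a} ha => ⟨G.inv_mem ha.1, fun x hx => by
    rw [Perm.inv_eq_iff_eq]; exact (ha.2 x hx).symm⟩

lemma card_fixers (G : Subgroup (Perm β)) (g : Perm β) :
    Nat.card (fixers G g) ∣ g.support.card.factorial := by
  have h1 : fixers G g ≤ (Perm.ofSubtype : Perm {x // x ∈ g.support} →* Perm β).range := by
    intro u hu
    have h2 : ∀ x, u x ≠ x → x ∈ g.support := fun x hx => by
      rw [mem_support]; exact fun h => hx (hu.2 x h)
    have h3 : ∀ x, u x ∈ g.support ↔ x ∈ g.support := by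
      intro x
      by_cases hx : u x = x
      · rw [hx]
      · exact ⟨fun _ => h2 x hx, fun _ => h2 _ fun h => hx (u.injective h)⟩
    exact ⟨u.subtypePerm h3, ofSubtype_subtypePerm h3 h2⟩
  refine (card_dvd_of_le h1).trans ?_
  rw [← Nat.card_congr (MonoidHom.ofInjective ofSubtype_injective).toEquiv, Nat.card_perm,
    Nat.card_eq_fintype_card, Fintype.card_coe]

/-- Frattini argument. -/
lemma frattini {G : Subgroup (Perm β)} {g : Perm β} {p : ℕ} (hp : p.Prime) (hgc : g.IsCycle)
    (hgp : g.support.card = p) (hg : g ∈ G) {u : Perm β} (hu : u ∈ G)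
    (hfix : ∀ x, g x = x → g (u⁻¹ x) = u⁻¹ x) :
    ∃ w ∈ G, (∀ x, g (u x) = u x → w x = u x) ∧ ∃ i : ℤ, w * g * w⁻¹ = g ^ i := by
  have : Fact p.Prime := ⟨hp⟩
  have ho : orderOf g = p := by rw [hgc.orderOf, hgp]
  let a : fixers G g := ⟨g, hg, fun _ h => h⟩
  let b : fixers G g := ⟨u * g * u⁻¹, G.mul_mem (G.mul_mem hu hg) (G.inv_mem hu), fun x hx => by
    rw [Perm.mul_apply, Perm.mul_apply, hfix x hx]; simp⟩
  have hoa : orderOf a = p := by rw [← ho]; exact (orderOf_mk _ _)
  have hob : orderOf b = p := by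
    rw [← ho, show orderOf b = orderOf (u * g * u⁻¹) from orderOf_mk _ _]
    exact (SemiconjBy.orderOf_eq u (by simp [SemiconjBy])).symm
  have pa : IsPGroup p (zpowers a) := IsPGroup.of_card (n := 1) (by rw [Nat.card_zpowers, hoa, pow_one])
  have pb : IsPGroup p (zpowers b) := IsPGroup.of_card (n := 1) (by rw [Nat.card_zpowers, hob, pow_one])
  obtain ⟨Q, hQ⟩ := pa.exists_le_sylow
  obtain ⟨R, hR⟩ := pb.exists_le_sylow
  obtain ⟨f, hf⟩ := exists_smul_eq (fixers G g) R Q
  have hcard : Nat.card Q ≤ p := by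
    rw [Q.card_eq_multiplicity]
    have h1 : (Nat.card (fixers G g)).factorization p ≤ (p.factorial).factorization p := by
      have := card_fixers G g
      rw [hgp] at this
      exact (Nat.factorization_le_iff_dvd Nat.card_pos.ne' (Nat.factorial_ne_zero p)).2 this p
    have h2 : (p.factorial).factorization p = 1 := by
      obtain ⟨m, rfl⟩ : ∃ m, p = m + 1 := ⟨p - 1, by have := hp.pos; omega⟩
      rw [Nat.factorial_succ, Nat.factorization_mul (by omega) (Nat.factorial_ne_zero m)]
      simp only [Finsupp.coe_add, Pi.add_apply]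
      rw [hp.factorization_self, Nat.factorization_eq_zero_of_not_dvd]
      rw [hp.dvd_factorial]; omega
    calc p ^ (Nat.card (fixers G g)).factorization p ≤ p ^ 1 :=
          Nat.pow_le_pow_right hp.pos (h1.trans h2.le)
      _ = p := pow_one p
  have hQa : zpowers a = Q := by
    apply eq_of_le_of_card_ge hQ
    rw [Nat.card_zpowers, hoa]; exact hcard
  have hm : f * b * f⁻¹ ∈ zpowers a := by
    rw [hQa, ← hf, Sylow.coe_subgroup_smul]
    exact smul_mem_pointwise_smul b (MulAut.conj f) _ (hR (mem_zpowers b))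
  obtain ⟨i, hi⟩ := mem_zpowers_iff.1 hm
  refine ⟨f * u, G.mul_mem f.2.1 hu, fun x hx => f.2.2 _ hx, i, ?_⟩
  have : g ^ i = (f : Perm β) * (u * g * u⁻¹) * (f : Perm β)⁻¹ := congrArg Subtype.val hi
  rw [this]; group

omit [Fintype β] [DecidableEq β] in
/-- An element commuting with a cycle acts on the support of the cycle as a power of it. -/
lemma comm_pow {g c : Perm β} (hgc : g.IsCycle) (h : c * g = g * c) :
    ∃ i : ℤ, ∀ x, g x ≠ x → c x = (g ^ i) x := by
  have hs' : ∀ x, g (c x) = c x → g x = x := fun t ht => by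
    apply c.injective
    rw [← Perm.mul_apply, h, Perm.mul_apply, ht]
  obtain ⟨x0, hx0, hall⟩ := hgc
  obtain ⟨i, hi⟩ := hall (y := c x0) (fun h => hx0 (hs' _ h))
  refine ⟨i, fun x hx => ?_⟩
  obtain ⟨j, rfl⟩ := hall hx
  have hc : Commute c (g ^ j) := (Commute.zpow_right h j)
  rw [← Perm.mul_apply, hc.eq, Perm.mul_apply, ← hi, ← Perm.mul_apply, ← Perm.mul_apply,
    zpow_mul_comm]

/-- Jordan: a primitive group with a cycle of prime length fixing at least three points contains
the alternating group. -/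
theorem jordan {G : Subgroup (Perm β)} (hG : IsPreprimitive G β) {g : Perm β} {p : ℕ}
    (hp : p.Prime) (hgc : g.IsCycle) (hgp : g.support.card = p) (hg : g ∈ G)
    (hc : p + 3 ≤ Fintype.card β) : alternatingGroup β ≤ G := by
  obtain ⟨k, hk⟩ := Nat.exists_eq_add_of_le hc
  have hΓ : (g.supportᶜ).card = k + 3 := by rw [Finset.card_compl, hgp]; omega
  have h2 := hp.two_le
  have hM : IsMultiplyPreprimitive G β (k + 2 + 2) := by
    apply hG.isMultiplyPreprimitive (s := (g.support : Set β)ᶜ) _ _ (prim_fix hp hgc hgp hg)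
    · rw [← Finset.coe_compl, Set.ncard_coe_finset, hΓ]
    · rw [Nat.card_eq_fintype_card]; omega
  have hM1 : IsMultiplyPretransitive G β (k + 2 + 2) :=
    IsMultiplyPreprimitive.isMultiplyPretransitive ..
  have hM2 : IsMultiplyPretransitive G β (k + 3) :=
    isMultiplyPretransitive_of_le (n := k + 2 + 2) (by omega)
      (by rw [Nat.card_eq_fintype_card]; omega)
  let e : Fin (k + 3) ↪ β :=
    ((Finset.equivFinOfCardEq hΓ).symm.toEmbedding).trans (Function.Embedding.subtype _)
  have he : ∀ x, g x = x → ∃ i, e i = x := fun x hx =>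
    ⟨Finset.equivFinOfCardEq hΓ ⟨x, by simpa using hx⟩, by simp [e]⟩
  have key : ∀ x y, g x = x → g y = y →
      ∃ w ∈ G, (∀ z, g z = z → w z = swap x y z) ∧ ∃ i : ℤ, w * g * w⁻¹ = g ^ i := by
    intro x y hx hy
    have hsw : ∀ z, g z = z → g (swap x y z) = swap x y z := by
      intro z hz; rw [swap_apply_def]; split_ifs <;> assumption
    obtain ⟨u, hu⟩ := isMultiplyPretransitive_iff.1 hM2 e (e.trans (swap x y).toEmbedding)
    have hu' : ∀ z, g z = z → (u : Perm β) z = swap x y z := by
      intro z hz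
      obtain ⟨i, rfl⟩ := he z hz
      exact DFunLike.congr_fun hu i
    obtain ⟨w, hw, hw1, hw2⟩ := frattini hp hgc hgp hg u.2 (by
      intro z hz
      have : (u : Perm β)⁻¹ z = swap x y z := by
        rw [Perm.inv_eq_iff_eq, hu' _ (hsw z hz), swap_apply_self]
      rw [this]; exact hsw z hz)
    exact ⟨w, hw, fun z hz => by rw [hw1 z (by rw [hu' z hz]; exact hsw z hz), hu' z hz], hw2⟩
  obtain ⟨x, hx, y, hy, z, hz, hxy, hxz, hyz⟩ :=
    Finset.two_lt_card.1 (show 2 < (g.supportᶜ).card by omega)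
  simp only [Finset.mem_compl, notMem_support] at hx hy hz
  obtain ⟨u, hu, hu1, i, hi⟩ := key x y hx hy
  obtain ⟨w, hw, hw1, j, hj⟩ := key x z hx hz
  have hsw : ∀ a b t, g a = a → g b = b → g t = t → g (swap a b t) = swap a b t := by
    intro a b t ha hb ht; rw [swap_apply_def]; split_ifs <;> assumption
  have hu2 : ∀ t, g t = t → u⁻¹ t = swap x y t := fun t ht => by
    rw [Perm.inv_eq_iff_eq, hu1 _ (hsw _ _ _ hx hy ht), swap_apply_self]
  have hw2 : ∀ t, g t = t → w⁻¹ t = swap x z t := fun t ht => by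
    rw [Perm.inv_eq_iff_eq, hw1 _ (hsw _ _ _ hx hz ht), swap_apply_self]
  set c : Perm β := u⁻¹ * w⁻¹ * u * w with hcdef
  set s : Perm β := (swap x y * swap x z) * (swap x y * swap x z) with hs
  have hcs : ∀ t, g t = t → c t = s t ∧ g (c t) = c t := by
    intro t ht
    have a1 := hsw _ _ _ hx hz ht
    have a2 := hsw _ _ _ hx hy a1
    have a3 := hsw _ _ _ hx hz a2
    have a4 := hsw _ _ _ hx hy a3
    simp only [hcdef, hs, Perm.mul_apply]
    rw [hw1 t ht, hu1 _ a1, hw2 _ a2, hu2 _ a3]
    exact ⟨rfl, a4⟩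
  have hcomm : c * g = g * c := by
    have e1 : u * w * g * (u * w)⁻¹ = g ^ (i * j) := by
      rw [show u * w * g * (u * w)⁻¹ = u * (w * g * w⁻¹) * u⁻¹ by group, hj, ← conj_zpow, hi,
        ← zpow_mul]
    have e2 : w * u * g * (w * u)⁻¹ = g ^ (i * j) := by
      rw [show w * u * g * (w * u)⁻¹ = w * (u * g * u⁻¹) * w⁻¹ by group, hi, ← conj_zpow, hj,
        ← zpow_mul, mul_comm]
    calc c * g = (w * u)⁻¹ * (u * w * g * (u * w)⁻¹) * (u * w) := by rw [hcdef]; group
      _ = (w * u)⁻¹ * (w * u * g * (w * u)⁻¹) * (u * w) := by rw [e1, e2]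
      _ = g * c := by rw [hcdef]; group
  obtain ⟨m, hm⟩ := comm_pow hgc hcomm
  have hfin : (g ^ m)⁻¹ * c = s := by
    ext t
    rw [Perm.mul_apply, Perm.inv_eq_iff_eq]
    by_cases ht : g t = t
    · rw [← (hcs t ht).1, zpow_apply_eq_self_of_apply_eq_self (hcs t ht).2]
    · have n1 : t ≠ x := by rintro rfl; exact ht hx
      have n2 : t ≠ y := by rintro rfl; exact ht hy
      have n3 : t ≠ z := by rintro rfl; exact ht hz
      rw [hm t ht, hs]
      simp only [Perm.mul_apply, swap_apply_of_ne_of_ne n1 n2, swap_apply_of_ne_of_ne n1 n3]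
  apply alternatingGroup_le_of_isPreprimitive_of_isThreeCycle_mem hG
    (isThreeCycle_swap_mul_swap_same hxy hxz hyz).isThreeCycle_sq
  rw [← hs, ← hfin]
  exact G.mul_mem (G.inv_mem (G.zpow_mem hg m))
    (G.mul_mem (G.mul_mem (G.mul_mem (G.inv_mem hu) (G.inv_mem hw)) hu) hw)

end Pool.Agent.P.MP_bfa556_co
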