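import Pool.Agent.P.MP_bfa556_co.Core

open Equiv Equiv.Perm MulAction Subgroup

namespace Pool.Agent.P.MP_bfa556_co

variable {β : Type} [Fintype β] [DecidableEq β]

omit [Fintype β] in
/-- A permutation of prime order fixes every point of a small invariant set. -/
lemma fix_small {c : Perm β} {q : ℕ} (hq : q.Prime) (hc : c ^ q = 1) {S : Finset β}
    (hS : ∀ x, c x ∈ S ↔ x ∈ S) (hlt : S.card < q) {x : β} (hx : x ∈ S) : c x = x := by
  let u : Perm {x // x ∈ S} := c.subtypePerm hS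
  have hu : u ^ q = 1 := by
    rw [subtypePerm_pow]; ext y; simp [hc]
  have h2 : orderOf u ∣ S.card.factorial := by
    have := orderOf_dvd_card (x := u)
    rwa [Fintype.card_perm, Fintype.card_coe] at this
  rcases (Nat.dvd_prime hq).1 (orderOf_dvd_of_pow_eq_one hu) with h | h
  · exact congrArg Subtype.val (DFunLike.congr_fun (orderOf_eq_one_iff.1 h) ⟨x, hx⟩)
  · rw [h, hq.dvd_factorial] at h2; omega

lemma cyc_down {s : Finset β} {u : Perm {x // x ∈ s}} (h : (Perm.ofSubtype u).IsCycle) :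
    u.IsCycle := by
  rw [← card_cycleType_eq_one, cycleType_ofSubtype, card_cycleType_eq_one] at h; exact h

/-- A long prime cycle acting on one side only confines that side to a small orbit. -/
lemma one_side {K : Subgroup (Perm β × Perm β)} {a : Perm β} {p : ℕ} (hp : p.Prime)
    (ha : a ^ p = 1) (ha1 : a ≠ 1) (hc : Fintype.card β < 2 * p) (h1 : (a, 1) ∈ K)
    (H1 : ∀ c : Perm β, c.IsThreeCycle → (c, 1) ∉ K) :
    ∃ Δ : Finset β, p ≤ Δ.card ∧ Δ.card < p + 3 ∧ (∀ k ∈ K, ∀ x, k.1 x ∈ Δ ↔ x ∈ Δ) ∧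
      ∀ q c, q.Prime → c.IsCycle → c.support.card = q → c.support ⊆ Δ → (c, 1) ∈ K →
        Δ.card < q + 3 := by
  classical
  obtain ⟨ca, sa⟩ := cyc_of_pow hp ha ha1 hc
  obtain ⟨Δ, hΔ⟩ : ∃ Δ : Finset β, ∀ x, x ∈ Δ ↔ ∃ k ∈ K, a (k.1 x) ≠ k.1 x :=
    ⟨Finset.univ.filter fun x => ∃ k ∈ K, a (k.1 x) ≠ k.1 x, by simp⟩
  have hsub : a.support ⊆ Δ := fun x hx => (hΔ x).2 ⟨1, K.one_mem, mem_support.1 hx⟩
  let N : Subgroup (Perm {x // x ∈ Δ}) :=
    K.comap ((MonoidHom.inl (Perm β) (Perm β)).comp Perm.ofSubtype)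
  have hN : ∀ u, u ∈ N ↔ (Perm.ofSubtype u, (1 : Perm β)) ∈ K := fun u => Iff.rfl
  obtain ⟨u, hu⟩ := restrict hsub
  have cu : u.IsCycle := cyc_down (hu ▸ ca)
  have su : u.support.card = p := by rw [← (cyc_up cu).2, hu, sa]
  obtain ⟨x0, hx0, -⟩ := id cu
  have cle : Fintype.card {x // x ∈ Δ} ≤ Fintype.card β := Fintype.card_subtype_le _
  have key : ∀ x, ∃ g : N, g • x0 = x := by
    intro x
    obtain ⟨k, hk, hx⟩ := (hΔ x).1 x.2
    obtain ⟨w, hw⟩ := restrict (a := k.1⁻¹ * a * k.1⁻¹⁻¹) (s := Δ) fun y hy =>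
      (hΔ y).2 ⟨k, hk, fun h => mem_support.1 hy (by simp [h])⟩
    have cw : w.IsCycle := cyc_down (hw ▸ ca.conj)
    have sw : w.support.card = p := by rw [← (cyc_up cw).2, hw, card_support_conj, sa]
    have wN : w ∈ N := by
      rw [hN, hw]
      have := K.mul_mem (K.mul_mem (K.inv_mem hk) h1) hk
      rwa [show k⁻¹ * (a, 1) * k = (k.1⁻¹ * a * k.1⁻¹⁻¹, 1) by ext1 <;> simp] at this
    obtain ⟨z, hz⟩ : (u.support ∩ w.support).Nonempty := by
      rw [← Finset.card_pos]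
      have := Finset.card_union_add_card_inter u.support w.support
      have := Finset.card_le_univ (u.support ∪ w.support)
      omega
    rw [Finset.mem_inter, mem_support, mem_support] at hz
    have hx' : w x ≠ x := fun h => hx (by
      have := congrArg Subtype.val h
      rw [← ofSubtype_apply_coe, hw] at this
      simpa [Equiv.symm_apply_eq] using this)
    obtain ⟨i, hi⟩ := cu.exists_zpow_eq hx0 hz.1
    obtain ⟨j, hj⟩ := cw.exists_zpow_eq hz.2 hx'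
    exact ⟨⟨w ^ j * u ^ i, N.mul_mem (N.zpow_mem wN j) (N.zpow_mem ((hN u).2 (hu ▸ h1)) i)⟩, by
      show (w ^ j * u ^ i) x0 = x
      rw [Perm.mul_apply, hi, hj]⟩
  have hT : IsPretransitive N {x // x ∈ Δ} := ⟨fun x y => by
    obtain ⟨g, rfl⟩ := key x
    obtain ⟨g', rfl⟩ := key y
    exact ⟨g' * g⁻¹, by rw [smul_smul, inv_mul_cancel_right]⟩⟩
  have hP := prim_of_cycle hT hp cu su ((hN u).2 (hu ▸ h1)) (by omega)
  have last : ∀ q c, q.Prime → c.IsCycle → c.support.card = q → c.support ⊆ Δ → (c, 1) ∈ K →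
      Δ.card < q + 3 := by
    intro q c hq cc sc hs hK
    by_contra hlt
    obtain ⟨w, hw⟩ := restrict hs
    have cw : w.IsCycle := cyc_down (hw ▸ cc)
    have hA := jordan hP hq cw (by rw [← (cyc_up cw).2, hw, sc]) ((hN w).2 (hw ▸ hK))
      (by rw [Fintype.card_coe]; omega)
    obtain ⟨x, -, y, -, z, -, hxy, hxz, hyz⟩ := Finset.two_lt_card.1
      (show 2 < (Finset.univ : Finset {x // x ∈ Δ}).card by
        rw [Finset.card_univ, Fintype.card_coe]; omega)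
    have h3 := isThreeCycle_swap_mul_swap_same hxy hxz hyz
    refine H1 _ ?_ ((hN _).1 (hA h3.mem_alternatingGroup))
    unfold IsThreeCycle at h3 ⊢
    rw [cycleType_ofSubtype, h3]
  refine ⟨Δ, sa ▸ Finset.card_le_card hsub, last p a hp ca sa hsub h1, fun k hk x => ?_, last⟩
  rw [hΔ, hΔ]
  exact ⟨fun ⟨l, hl, h⟩ => ⟨l * k, K.mul_mem hl hk, h⟩,
    fun ⟨l, hl, h⟩ => ⟨l * k⁻¹, K.mul_mem hl (K.inv_mem hk), by simpa using h⟩⟩

/-- A group of order 49 of pairs has an element whose second entry is not a double 7-cycle. -/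
lemma seven {Q : Subgroup (Perm β × Perm β)} (hQ : Nat.card Q = 7 ^ 2) (hc : Fintype.card β ≤ 16) :
    ∃ k ∈ Q, k ≠ 1 ∧ k ^ 7 = 1 ∧ k.2.support.card < 14 := by
  have : Fact (Nat.Prime 7) := ⟨by norm_num⟩
  have cau : ∀ S : Subgroup Q, 7 ∣ Nat.card S → ∃ k ∈ S, (k : Perm β × Perm β) ≠ 1 ∧
      (k : Perm β × Perm β) ^ 7 = 1 := by
    intro S hS
    obtain ⟨k, hk⟩ := exists_prime_orderOf_dvd_card' 7 hS
    rw [← orderOf_coe, ← orderOf_coe] at hk
    exact ⟨k, k.2, fun h => by rw [h, orderOf_one] at hk; omega, hk ▸ pow_orderOf_eq_one _⟩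
  by_cases h : ∃ k0 : Q, ∃ x, k0.1.2 x ≠ x
  · obtain ⟨k0, x, hx⟩ := h
    let act : MulAction Q β := MulAction.compHom β ((MonoidHom.snd _ _).comp Q.subtype)
    have h1 := (stabilizer Q x).card_mul_index
    have h2 : (stabilizer Q x).index ≤ 16 := by
      rw [index_stabilizer]
      exact (Set.ncard_le_card _).trans (by rwa [Nat.card_eq_fintype_card])
    have h3 : 7 ∣ Nat.card (stabilizer Q x) := by
      by_contra h4
      have h5 : 7 ^ 2 ∣ (stabilizer Q x).index :=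
        (Nat.Coprime.pow_left 2 ((Nat.Prime.coprime_iff_not_dvd (by norm_num)).2 h4)).dvd_of_dvd_mul_left
          (by rw [h1, hQ])
      have := Nat.le_of_dvd (Nat.pos_of_ne_zero index_ne_zero_of_finite) h5
      omega
    obtain ⟨k, hk, k1, k7⟩ := cau _ h3
    have hkx : k.1.2 x = x := hk
    have hcom : k.1.2 * k0.1.2 = k0.1.2 * k.1.2 :=
      congrArg (fun t : Q => t.1.2) ((IsPGroup.isMulCommutative_of_card_eq_prime_sq hQ).is_comm.comm k k0)
    have hf : ∀ y, k.1.2 y = y → k.1.2 (k0.1.2 y) = k0.1.2 y := fun y hy => by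
      rw [← Perm.mul_apply, hcom, Perm.mul_apply, hy]
    have h49 : k0.1.2 ^ 49 = 1 := congrArg (fun t : Q => t.1.2) (show k0 ^ 49 = 1 by
      rw [show 49 = Nat.card Q by rw [hQ]; rfl]; exact pow_card_eq_one')
    have hxx : k0.1.2 (k0.1.2 x) ≠ x := fun e => hx (by
      have h6 : (k0.1.2 ^ 2) x = x := e
      have h7 := pow_apply_eq_self_of_apply_eq_self h6 25
      rwa [← pow_mul, show 2 * 25 = 49 + 1 from rfl, pow_succ, h49, one_mul] at h7)
    refine ⟨k, k.2, k1, k7, ?_⟩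
    have h8 : 2 < (k.1.2.supportᶜ).card := Finset.two_lt_card.2
      ⟨x, by simpa using hkx, _, by simpa using hf x hkx, _, by simpa using hf _ (hf x hkx),
        hx.symm, hxx.symm, fun e => hx (k0.1.2.injective e).symm⟩
    rw [Finset.card_compl] at h8
    omega
  · push Not at h
    obtain ⟨k, -, k1, k7⟩ := cau ⊤ (by rw [card_top, hQ]; norm_num)
    refine ⟨k, k.2, k1, k7, ?_⟩
    rw [show k.1.2 = 1 from Equiv.ext (h k)]; simp

lemma prim_of_hom {B : Subgroup (Perm β)} {d : Perm β} {q : ℕ} (hq : q.Prime) (hd : d.IsCycle)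
    (hdq : d.support.card = q) (hB : d ∈ B)
    (hom : ∀ Γ : Finset β, q ≤ Γ.card → ∀ u v, u ≠ v → ∃ b ∈ B, b u ∈ Γ ∧ b v ∈ Γ) :
    IsPreprimitive B β := by
  classical
  have key : ∀ u v, u ≠ v → ∃ c ∈ B, c ^ q = 1 ∧ c u = v := by
    intro u v huv
    obtain ⟨b, hb, h1, h2⟩ := hom d.support hdq.ge u v huv
    obtain ⟨i, hi⟩ := hd.exists_zpow_eq (mem_support.1 h1) (mem_support.1 h2)
    refine ⟨b⁻¹ * d ^ i * b⁻¹⁻¹, B.mul_mem (B.mul_mem (B.inv_mem hb) (B.zpow_mem hB i))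
      (B.inv_mem (B.inv_mem hb)), ?_, by simp [hi]⟩
    rw [conj_pow, ← zpow_natCast, ← zpow_mul, mul_comm i, zpow_mul, zpow_natCast, cyc_pow hd hdq]
    simp
  have hT : IsPretransitive B β := ⟨fun x y => by
    by_cases h : x = y
    · exact ⟨1, by rw [one_smul, h]⟩
    · obtain ⟨c, hc, -, h⟩ := key x y h
      exact ⟨⟨c, hc⟩, h⟩⟩
  refine ⟨fun {Γ} hΓ => ?_⟩
  by_contra hn
  rw [IsTrivialBlock, not_or, Set.not_subsingleton_iff] at hn
  obtain ⟨⟨u, hu, v, hv, huv⟩, hn⟩ := hn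
  obtain ⟨w, hw⟩ := (Set.ne_univ_iff_exists_notMem Γ).1 hn
  have inv : ∀ b ∈ B, b u ∈ Γ → ∀ t, b t ∈ Γ.toFinset ↔ t ∈ Γ.toFinset := by
    intro b hb h t
    have := hΓ.smul_eq_of_mem (g := ⟨b, hb⟩) hu h
    rw [Set.mem_toFinset, Set.mem_toFinset]
    nth_rewrite 1 [← this]
    exact Set.smul_mem_smul_set_iff (a := (⟨b, hb⟩ : B))
  by_cases hlt : q ≤ Γ.toFinset.card
  · obtain ⟨b, hb, h1, h2⟩ := hom _ hlt u w (fun e => hw (e ▸ hu))
    exact hw (Set.mem_toFinset.1 ((inv b hb (Set.mem_toFinset.1 h1) w).1 h2))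
  · obtain ⟨c, hc, h1, h2⟩ := key u v huv
    exact huv ((fix_small hq h1 (inv c hc (h2 ▸ hv)) (by omega)
      (Set.mem_toFinset.2 hu)).symm.trans h2)

/-- An invariant set on the first side makes the second side homogeneous. -/
def Homog (K : Subgroup (Perm β × Perm β)) : Prop :=
  ∀ Δ : Finset β, (∀ k ∈ K, ∀ x, k.1 x ∈ Δ ↔ x ∈ Δ) → Δ.card + 2 ≤ Fintype.card β →
    Fintype.card β + 2 ≤ 2 * Δ.card → ∀ Γ : Finset β, Fintype.card β ≤ Γ.card + Δ.card →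
      ∀ u v, u ≠ v → ∃ k ∈ K, k.2 u ∈ Γ ∧ k.2 v ∈ Γ

lemma both_sides {K : Subgroup (Perm β × Perm β)} {a b : Perm β} {p q : ℕ} (hp : p.Prime)
    (hq : q.Prime) (ha : a ^ p = 1) (ha1 : a ≠ 1) (hb : b ^ q = 1) (hb1 : b ≠ 1)
    (c1 : Fintype.card β + 2 ≤ 2 * p) (c2 : Fintype.card β < 2 * q)
    (c3 : p + 4 ≤ Fintype.card β) (c4 : q + 4 ≤ Fintype.card β)
    (h1 : (a, 1) ∈ K) (h2 : (1, b) ∈ K)
    (H1 : ∀ c : Perm β, c.IsThreeCycle → (c, 1) ∉ K)
    (H2 : ∀ c : Perm β, c.IsThreeCycle → (1, c) ∉ K) (hH : Homog K) : False := by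
  obtain ⟨Δ, d1, d2, d3, -⟩ := one_side hp ha ha1 (by omega) h1 H1
  obtain ⟨Γ, g1, g2, g3, -⟩ := one_side (K := flp K) hq hb hb1 c2 (mem_flp.2 h2)
    fun c hc h => H2 c hc (mem_flp.1 h)
  obtain ⟨u, hu, v, -, huv⟩ := Finset.one_lt_card.1
    (show 1 < (Γᶜ).card by rw [Finset.card_compl]; omega)
  obtain ⟨k, hk, h3, -⟩ := hH Δ d3 (by omega) (by omega) Γ (by omega) u v huv
  exact Finset.mem_compl.1 hu ((g3 (k.2, k.1) (mem_flp.2 hk) u).1 h3)

lemma sixteen {K Q : Subgroup (Perm β × Perm β)} (hc : Fintype.card β = 16) {a : Perm β}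
    (ha : a ^ 11 = 1) (ha1 : a ≠ 1) (h1 : (a, 1) ∈ K) (hQ : Nat.card Q = 7 ^ 2) (hQK : Q ≤ K)
    (H1 : ∀ c : Perm β, c.IsThreeCycle → (c, 1) ∉ K)
    (H2 : ∀ c : Perm β, c.IsThreeCycle → (1, c) ∉ K)
    (H : ∀ c d, (c, d) ∈ K → c.IsCycle → d.IsCycle → c.support.card = d.support.card →
      c.support.card ≤ 7 → False)
    (alt : (∃ b, b ^ 11 = 1 ∧ b ≠ 1 ∧ (1, b) ∈ K) ∨ Homog K) : False := by
  have p7 : Nat.Prime 7 := by norm_num
  have p11 : Nat.Prime 11 := by norm_num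
  have : Fact (Nat.Prime 7) := ⟨p7⟩
  have cyc : ∀ c : Perm β, c ^ 7 = 1 → c ≠ 1 → c.support.card < 14 →
      c.IsCycle ∧ c.support.card = 7 := by
    intro c h7 c1 hs
    have ho : orderOf c = 7 := orderOf_eq_prime h7 c1
    have := isCycle_of_prime_order (σ := c) (by rw [ho]; exact p7) (by rw [ho]; exact hs)
    exact ⟨this, by rw [← this.orderOf, ho]⟩
  have sub : ∀ (c : Perm β) (Δ : Finset β), c ^ 7 = 1 → 11 ≤ Δ.card → (∀ x, c x ∈ Δ ↔ x ∈ Δ) →
      c.support ⊆ Δ := by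
    intro c Δ h7 hΔ hi x hx
    by_contra hn
    exact mem_support.1 hx (fix_small (S := Δᶜ) p7 h7 (fun y => by simp [hi y])
      (by rw [Finset.card_compl]; omega) (Finset.mem_compl.2 hn))
  obtain ⟨Δ, d1, d2, d3, d4⟩ := one_side p11 ha ha1 (by omega) h1 H1
  obtain ⟨⟨c, d⟩, hk, k1, k7, ks⟩ := seven hQ hc.le
  have hK := hQK hk
  have c7 : c ^ 7 = 1 := congrArg Prod.fst k7
  have d7 : d ^ 7 = 1 := congrArg Prod.snd k7
  have cs := sub c Δ c7 d1 (d3 _ hK)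
  have cs' := Finset.card_le_card cs
  by_cases hd : d = 1
  · subst hd
    obtain ⟨cc, sc⟩ := cyc c c7 (by rintro rfl; exact k1 rfl) (by omega)
    have := d4 7 c p7 cc sc cs hK
    omega
  obtain ⟨cd, sd⟩ := cyc d d7 hd ks
  by_cases hc1 : c = 1
  · subst hc1
    have H2' : ∀ c : Perm β, c.IsThreeCycle → (c, 1) ∉ flp K := fun c hc h => H2 c hc (mem_flp.1 h)
    rcases alt with ⟨b, hb, hb1, h2⟩ | hH
    · obtain ⟨Γ, g1, -, g3, g4⟩ := one_side (K := flp K) p11 hb hb1 (by omega) (mem_flp.2 h2) H2'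
      have := g4 7 d p7 cd sd (sub d Γ d7 g1 (g3 _ (mem_flp.2 hK))) (mem_flp.2 hK)
      omega
    · have hd' : d ∈ K.map (MonoidHom.snd _ _) := ⟨_, hK, rfl⟩
      have hA := jordan (prim_of_hom p7 cd sd hd' fun Γ hΓ u v huv => by
        obtain ⟨k, hk, h⟩ := hH Δ d3 (by omega) (by omega) Γ (by omega) u v huv
        exact ⟨k.2, ⟨k, hk, rfl⟩, h⟩) p7 cd sd hd' (by omega)
      refine hd (ker_triv (K := flp K) (fun u hu => ?_) (by omega) H2'
        (sign_of_odd (by decide) d7) (mem_flp.2 hK))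
      obtain ⟨k, hk, rfl⟩ := hA (mem_alternatingGroup.2 hu)
      exact ⟨k.1, mem_flp.2 hk⟩
  · obtain ⟨cc, sc⟩ := cyc c c7 hc1 (by omega)
    exact H c d hK cc cd (by rw [sc, sd]) sc.le

end Pool.Agent.P.MP_bfa556_co
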