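import Pool.Agent.P.MP_bfa556_co.CountAll

open Finset Equiv

namespace Pool.Agent.P.MP_bfa556_co

variable {n : ℕ}

/-- A class of a colouring of the positions. -/
def cls (κ : Fin n → Fin 8) (a : Fin 8) : Finset (Fin n) := univ.filter fun x => κ x = a

lemma mem_cls {κ : Fin n → Fin 8} {a : Fin 8} {x : Fin n} : x ∈ cls κ a ↔ κ x = a := by
  simp [cls]

lemma form_col {κ : Fin n → Fin 8} {h : Perm (Fin n) → ℝ} (hd : ∀ a, Det (cls κ a)ᶜ h) :
    (∑ a, ((cls κ a).card : ℝ) * ((cls κ a).card - 1 - 2 * (a : ℕ))) * ∑ g, h g ^ 2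
      ≤ ∑ g, h g * KK h g := by
  set H := ∑ g, h g ^ 2 with hH
  set Q : Fin n → Fin n → ℝ := fun p q => ∑ g, h g * h (g * swap p q) with hQ
  have hH0 : 0 ≤ H := sum_nonneg fun g _ => sq_nonneg _
  have e1 : ∑ g, h g * KK h g = ∑ p, ∑ q ∈ univ.erase p, Q p q := by
    simp only [KK, mul_sum, hQ]
    rw [sum_comm]
    exact sum_congr rfl fun p _ => sum_comm
  have hQd : ∀ p, Q p p = H := by
    intro p; simp only [hQ, hH, sq, swap_self, ← Perm.one_def, mul_one]
  have e2 : ∀ p, ∑ q ∈ univ.erase p, Q p q = ∑ q, (if κ q = κ p then Q p q else 0)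
      + ∑ q, (if κ q < κ p then Q p q else 0) + ∑ q, (if κ p < κ q then Q p q else 0) - H := by
    intro p
    rw [← sum_add_distrib, ← sum_add_distrib, eq_sub_iff_add_eq, ← hQd p,
      sum_erase_add _ _ (mem_univ p)]
    refine sum_congr rfl fun q _ => ?_
    rcases lt_trichotomy (κ q) (κ p) with a | a | a
    · rw [if_neg a.ne, if_pos a, if_neg a.not_gt]; ring
    · rw [if_pos a, if_neg a.not_lt, if_neg a.not_gt]; ring
    · rw [if_neg a.ne', if_neg a.not_gt, if_pos a]; ring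
  have a1 : ∀ p, ∑ q, (if κ q = κ p then Q p q else 0) = (cls κ (κ p)).card * H := by
    intro p
    rw [← sum_filter, ← nsmul_eq_mul, ← sum_const]
    refine sum_congr rfl fun q hq => Q_out (hd (κ p)) ?_ ?_
    · simp [mem_cls]
    · simpa [mem_cls] using hq
  have a2 : ∀ p, -((κ p : ℕ) * H) ≤ ∑ q, (if κ q < κ p then Q p q else 0) := by
    intro p
    rw [← sum_fiberwise (g := κ)]
    have : ∑ a : Fin 8, (if a < κ p then -H else 0) = -((κ p : ℕ) * H) := by
      rw [← sum_filter, sum_const, nsmul_eq_mul, filter_gt_eq_Iio, Fin.card_Iio]; ring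
    rw [← this]
    refine sum_le_sum fun a _ => ?_
    rw [sum_congr rfl fun q hq => show (if κ q < κ p then Q p q else 0)
      = (if a < κ p then Q p q else 0) by rw [(mem_filter.1 hq).2]]
    split_ifs with ha
    · have := Q_star (hd a) (p := p) (by rw [mem_compl, mem_cls]; exact ha.ne')
      rwa [compl_compl] at this
    · simp
  have a3 : ∑ p, ∑ q, (if κ p < κ q then Q p q else 0)
      = ∑ p, ∑ q, (if κ q < κ p then Q p q else 0) := by
    rw [sum_comm]
    exact sum_congr rfl fun p _ => sum_congr rfl fun q _ => by simp only [hQ, swap_comm]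
  have a4 : (∑ a, ((cls κ a).card : ℝ) * ((cls κ a).card - 1 - 2 * (a : ℕ))) * H
      = ∑ p, (((cls κ (κ p)).card : ℝ) * H + -((κ p : ℕ) * H) + -((κ p : ℕ) * H) - H) := by
    rw [sum_mul, ← sum_fiberwise (s := univ) (g := κ)]
    refine sum_congr rfl fun a _ => ?_
    rw [sum_congr rfl fun p hp => by rw [(mem_filter.1 hp).2], sum_const, nsmul_eq_mul]
    simp only [cls]; ring
  have a5 := sum_le_sum fun p (_ : p ∈ univ) => a2 p
  rw [e1, sum_congr rfl fun p _ => e2 p, a4]
  simp only [sum_sub_distrib, sum_add_distrib, a1, a3]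
  linarith

/-- The coset of the group of the colouring. -/
def AgC (κ : Fin n → Fin 8) (g : Perm (Fin n)) : Finset (Perm (Fin n)) :=
  univ.filter fun y => ∀ v, κ (y⁻¹ v) = κ (g⁻¹ v)

lemma mem_AgC {κ : Fin n → Fin 8} {g y : Perm (Fin n)} :
    y ∈ AgC κ g ↔ ∀ v, κ (y⁻¹ v) = κ (g⁻¹ v) := by simp [AgC]

lemma card_AgC (κ : Fin n → Fin 8) (g : Perm (Fin n)) :
    (AgC κ g).card = ∏ a, (cls κ a).card.factorial := by
  have h := DomMulAct.stabilizer_card κ
  simp only [Fintype.card_subtype] at h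
  simp only [cls]
  rw [← h]
  refine card_bij' (fun y _ => y⁻¹ * g) (fun u _ => g * u⁻¹) ?_ ?_ (by simp) (by simp)
  · intro y hy
    rw [mem_AgC] at hy
    refine mem_filter.2 ⟨mem_univ _, funext fun w => ?_⟩
    simpa using hy (g w)
  · intro u hu
    rw [mem_AgC]
    intro v
    simpa using congrFun (mem_filter.1 hu).2 (g⁻¹ v)

lemma KK_avgC (κ : Fin n → Fin 8) (f : Perm (Fin n) → ℝ) (g : Perm (Fin n)) :
    KK (fun g => ∑ y ∈ AgC κ g, f y) g = ∑ y ∈ AgC κ g, KK f y := by
  simp only [KK_left]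
  rw [sum_comm (s := AgC κ g)]
  refine sum_congr rfl fun a _ => ?_
  rw [sum_comm (s := AgC κ g)]
  refine sum_congr rfl fun b _ => ?_
  refine sum_bij' (fun y _ => swap a b * y) (fun y _ => swap a b * y) ?_ ?_
    (fun y _ => swap_mul_self_mul _ _ _) (fun y _ => swap_mul_self_mul _ _ _) ?_
  · intro y hy; rw [mem_AgC] at hy ⊢; intro x; simpa using hy (swap a b x)
  · intro y hy; rw [mem_AgC] at hy ⊢; intro x; simpa using hy (swap a b x)
  · intro y _; rw [swap_mul_self_mul]

lemma det_avgC (κ : Fin n → Fin 8) (f : Perm (Fin n) → ℝ) (a : Fin 8) :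
    Det (cls κ a)ᶜ fun g => ∑ y ∈ AgC κ g, f y := by
  intro g g' hg
  have h : ∀ v, κ (g⁻¹ v) = κ (g'⁻¹ v) := by
    intro v
    by_cases h1 : κ (g⁻¹ v) = a
    · by_cases h2 : κ (g'⁻¹ v) = a
      · rw [h1, h2]
      · have := hg (g'⁻¹ v) (by rwa [mem_compl, mem_cls])
        rw [show g⁻¹ v = g'⁻¹ v by rw [Perm.inv_eq_iff_eq, this]; simp]
    · have := hg (g⁻¹ v) (by rwa [mem_compl, mem_cls])
      rw [show g'⁻¹ v = g⁻¹ v by rw [Perm.inv_eq_iff_eq, ← this]; simp]
  have : AgC κ g = AgC κ g' := by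
    ext y; simp only [mem_AgC, h]
  simp only [this]

open Classical in
/-- Transitivity on coloured partitions (Fang and Xia). -/
lemma countC {e : Prop} {Y : Set (Perm (Fin n))} (hn : 3 ≤ n) (hT : Til e Y) (κ : Fin n → Fin 8)
    {E : ℕ} (hE : E = if e then 2 else 0)
    (hκ : ∑ a, (cls κ a).card * (1 + 2 * (a : ℕ)) < ∑ a, (cls κ a).card * (cls κ a).card + E) :
    n * (n - 1) + E ∣ 2 * ∏ a, (cls κ a).card.factorial := by
  set ind : Perm (Fin n) → ℝ := fun y => if y ∈ Y then 1 else 0 with hind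
  set c : Perm (Fin n) → ℝ := fun g => ∑ y ∈ AgC κ g, ind y with hc
  set M : ℕ := ∏ a, (cls κ a).card.factorial with hM
  have h1 : ∀ y, KK ind y = 2 - E * ind y := by
    intro y
    rw [KK_ind hT]
    simp only [hind, hE]
    by_cases a1 : e <;> by_cases a2 : y ∈ Y <;> simp [a1, a2]
  have h3 : ∀ g, KK c g = 2 * M - E * c g := by
    intro g
    simp only [hc]
    rw [KK_avgC, sum_congr rfl fun y _ => h1 y, sum_sub_distrib, ← mul_sum, sum_const, card_AgC,
      nsmul_eq_mul, mul_comm _ (2 : ℝ)]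
  have hN : (0 : ℝ) < n * ((n : ℝ) - 1) + E := by
    have : (3 : ℝ) ≤ n := by exact_mod_cast hn
    have : (0 : ℝ) ≤ E := Nat.cast_nonneg _
    nlinarith
  set h : Perm (Fin n) → ℝ := fun g => c g + (-(2 * M / (n * ((n : ℝ) - 1) + E))) * 1 with hh
  have h4 : ∀ g, KK h g = -(E * h g) := by
    intro g
    simp only [hh]
    rw [KK_add c (fun _ => 1), h3, KK_one]
    field_simp
    ring
  have h5 := form_col (κ := κ) (h := h) fun a g g' hg => by
    simp only [hh, hc, det_avgC κ ind a g g' hg]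
  have h6 : ∑ g, h g * KK h g = -E * ∑ g, h g ^ 2 := by
    rw [mul_sum]
    exact sum_congr rfl fun g _ => by rw [h4]; ring
  have hH : 0 ≤ ∑ g, h g ^ 2 := sum_nonneg fun g _ => sq_nonneg _
  have h7 : 0 < ∑ a, ((cls κ a).card : ℝ) * ((cls κ a).card - 1 - 2 * (a : ℕ)) + E := by
    have : ((∑ a, (cls κ a).card * (1 + 2 * (a : ℕ)) : ℕ) : ℝ)
        < ((∑ a, (cls κ a).card * (cls κ a).card + E : ℕ) : ℝ) := by exact_mod_cast hκ
    push_cast at this
    rw [sum_congr rfl fun a _ => show ((cls κ a).card : ℝ) * ((cls κ a).card - 1 - 2 * (a : ℕ))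
      = (cls κ a).card * (cls κ a).card - (cls κ a).card * (1 + 2 * (a : ℕ)) by ring,
      sum_sub_distrib]
    linarith
  have hz : ∑ g, h g ^ 2 = 0 := by nlinarith
  have h8 := (sum_eq_zero_iff_of_nonneg fun g _ => sq_nonneg (h g)).1 hz 1 (mem_univ _)
  have h9 : c 1 * (n * ((n : ℝ) - 1) + E) = 2 * M := by
    rw [show c 1 = 2 * M / (n * ((n : ℝ) - 1) + E) by
      have := pow_eq_zero_iff (two_ne_zero) |>.1 h8
      simp only [hh] at this; linarith]
    field_simp
  have h10 : c 1 = ((AgC κ 1).filter fun y => y ∈ Y).card := by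
    simp only [hc, hind]; rw [sum_boole]
  have h11 : ((n * (n - 1) + E : ℕ) : ℝ) = n * ((n : ℝ) - 1) + E := by
    push_cast [show 1 ≤ n by omega]; ring
  rw [h10, ← h11] at h9
  exact Dvd.intro_left _ (by exact_mod_cast h9)

/-- A first class of size `a`, then classes of size `m`. -/
def col (n a m : ℕ) : Fin n → Fin 8 := fun i =>
  Fin.ofNat 8 (if (i : ℕ) < a then 0 else 1 + (i - a) / m)

/-- The sizes that exclude a degree. -/
def tab (E n : ℕ) : ℕ × ℕ :=
  if E = 0 then [(0, 0), (0, 0), (0, 0), (0, 0), (0, 0), (4, 5), (4, 6), (6, 7), (6, 8), (5, 2),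
    (5, 2), (10, 11), (10, 12), (12, 13), (12, 14), (6, 6), (0, 0), (16, 17), (16, 18), (18, 19),
    (18, 20), (6, 6), (10, 10), (22, 23), (22, 24), (9, 4), (12, 12), (12, 12), (6, 6), (28, 29),
    (28, 30), (30, 31), (30, 32), (10, 10), (16, 16), (16, 16)].getD n (0, 0)
  else if n = 6 then (5, 6) else if n = 11 then (6, 11) else if n = 18 then (10, 18)
  else if n = 27 then (10, 10) else (n, n)

/-- The test that a colouring excludes a degree. -/
def excl (E : ℕ) (κ : Fin n → Fin 8) : Bool :=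
  decide (∑ a, (cls κ a).card * (1 + 2 * (a : ℕ)) < ∑ a, (cls κ a).card * (cls κ a).card + E) &&
    decide (¬ n * (n - 1) + E ∣ 2 * ∏ a, (cls κ a).card.factorial)

lemma tab0 : ∀ n ∈ range 37, n < 5 ∨ n = 16 ∨ n = 36 ∨
    excl 0 (col n (tab 0 n).1 (tab 0 n).2) = true := by
  decide +kernel

lemma tab2 : ∀ n ∈ range 37, n < 4 ∨ excl 2 (col n (tab 2 n).1 (tab 2 n).2) = true := by
  decide +kernel

/-- Below degree 37 only two cases survive the divisibility conditions. -/
lemma small {e : Prop} {Y : Set (Perm (Fin n))} (hT : Til e Y) (h4 : 4 ≤ n) (h : n < 37) :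
    ¬ e ∧ (n = 16 ∨ n = 36) := by
  classical
  have key : ∀ E κ, E = (if e then 2 else 0) → excl (n := n) E κ = true → False := by
    intro E κ hE h1
    rw [excl, Bool.and_eq_true, decide_eq_true_iff, decide_eq_true_iff] at h1
    exact h1.2 (countC (by omega) hT _ hE h1.1)
  have he : ¬ e := fun he =>
    key 2 _ (if_pos he).symm ((tab2 n (mem_range.2 h)).resolve_left (by omega))
  refine ⟨he, ?_⟩
  rcases tab0 n (mem_range.2 h) with h1 | h1 | h1 | h1
  · obtain rfl : n = 4 := by omega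
    obtain ⟨N, hN, h3⟩ := count2 (by omega) hT
    have := h3 1 {0} 1 (by simp)
    rw [hN he, card_singleton] at this
    simp [Nat.factorial] at this
    omega
  · exact Or.inl h1
  · exact Or.inr h1
  · exact (key 0 _ (if_neg he).symm h1).elim

end Pool.Agent.P.MP_bfa556_co
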