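import Pool.Agent.P.MP_bfa556_co.Sym
import Pool.Agent.P.MP_bfa556_co.Side
import Pool.Agent.P.MP_bfa556_co.Small

open Equiv Equiv.Perm MulAction

namespace Pool.Agent.P.MP_bfa556_co

variable {n : ℕ} {e : Prop} {Y Z : Set (Perm (Fin n))}

/-- A symmetry with a fixed point gives a tiling of a smaller symmetric group. -/
lemma Til.reduce (hT : Til e Y) (he : ¬ e) {ε : ℤˣ} {a b x : Perm (Fin n)}
    (h : (a, b) ∈ pairs (half Y ε)) (hx : a * x * b⁻¹ = x) {p : ℕ} (hp : Odd p) (hb : b ^ p = 1)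
    {m : ℕ} (f : Fin (m + 2) ≃ {w // b w = w}) :
    ∃ W : Set (Perm (Fin (m + 2))), Til False W := by
  let φ : Perm (Fin (m + 2)) →* Perm (Fin n) := Perm.ofSubtype.comp f.permCongrHom.toMonoidHom
  have hφ : ∀ σ, φ σ = Perm.ofSubtype (f.permCongr σ) := fun _ => rfl
  have inj : Function.Injective φ := ofSubtype_injective.comp f.permCongr.injective
  have sw : ∀ i j, φ (swap i j) = swap (f i : Fin n) (f j) := by
    intro i j
    rw [hφ, ← ofSubtype_swap_eq, permCongr_def, symm_trans_swap_trans]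
  have ne : ∀ {i j}, i ≠ j → (f i : Fin n) ≠ f j := fun hij e => hij (f.injective (Subtype.ext e))
  have com : ∀ σ, φ σ * b = b * φ σ := by
    intro σ
    apply Perm.Disjoint.commute
    intro t
    by_cases ht : b t = t
    · exact Or.inr ht
    · exact Or.inl (ofSubtype_apply_of_not_mem _ ht)
  have fx : ∀ y σ, a * y * b⁻¹ = y → a * (y * φ σ) * b⁻¹ = y * φ σ := by
    intro y σ hy
    calc a * (y * φ σ) * b⁻¹ = a * y * b⁻¹ * (b * φ σ) * b⁻¹ := by group
      _ = y * φ σ := by rw [hy, ← com]; group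
  have h01 : (0 : Fin (m + 2)) ≠ 1 := Fin.zero_ne_one
  have sg : Perm.sign (x * φ (swap 0 1)) = -Perm.sign x := by
    rw [sw, Perm.sign_mul, Perm.sign_swap (ne h01), mul_neg_one]
  refine ⟨{σ | ∃ y, (y = x ∨ y = x * φ (swap 0 1)) ∧ y * φ σ ∈ half Y ε}, ?_,
    fun _ _ _ h => h.elim, fun g => Or.inr ?_⟩
  · rintro g i j i' j' hij hij' ⟨y, hy, h1⟩ ⟨y', hy', h2⟩
    rw [map_mul, sw, ← mul_assoc] at h1 h2
    have h3 : Perm.sign y = Perm.sign y' := by
      have := h1.2.trans h2.2.symm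
      simpa [Perm.sign_swap (ne hij), Perm.sign_swap (ne hij')] using this
    have h4 : y = y' := by
      rcases hy with rfl | rfl <;> rcases hy' with rfl | rfl
      · rfl
      · rw [sg] at h3; rcases Int.units_eq_one_or (Perm.sign y) with k | k <;> simp [k] at h3
      · rw [sg] at h3; rcases Int.units_eq_one_or (Perm.sign y') with k | k <;> simp [k] at h3
      · rfl
    subst h4
    apply inj
    rw [sw, sw]
    exact hT.uniq _ _ _ _ _ (ne hij) (ne hij') h1.1 h2.1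
  · obtain ⟨y, hy, hs⟩ : ∃ y, (y = x ∨ y = x * φ (swap 0 1)) ∧ Perm.sign (y * φ g) = -ε := by
      by_cases hs : Perm.sign (x * φ g) = -ε
      · exact ⟨x, Or.inl rfl, hs⟩
      · refine ⟨_, Or.inr rfl, ?_⟩
        rw [Perm.sign_mul] at hs
        rw [Perm.sign_mul, sg, neg_mul, Int.units_ne_iff_eq_neg.1 hs, neg_neg]
    have hy' : a * (y * φ g) * b⁻¹ = y * φ g := by
      apply fx
      rcases hy with rfl | rfl
      · exact hx
      · exact fx _ _ hx
    obtain ⟨u, v, huv, h1⟩ := (hT.ex (y * φ g)).resolve_left fun h => he h.1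
    have h2 : y * φ g * swap u v ∈ half Y ε :=
      ⟨h1, by rw [Perm.sign_mul, hs, Perm.sign_swap huv]; simp⟩
    have h3 := ((mem_pairs.1 h) _).2 h2
    rw [show a * (y * φ g * swap u v) * b⁻¹ = a * (y * φ g) * b⁻¹ * (b * swap u v * b⁻¹) by group,
      hy', ← swap_apply_apply] at h3
    have h4 : b u = u ∧ b v = v := by
      rcases swap_eq_cases (b.injective.ne huv) (hT.uniq _ _ _ _ _ (b.injective.ne huv) huv h3.1 h1)
        with k | k
      · exact k
      · obtain ⟨l, rfl⟩ := hp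
        have h6 : (b ^ 2) u = u := by rw [sq, Perm.mul_apply, k.1, k.2]
        have h7 := pow_apply_eq_self_of_apply_eq_self h6 (l + 1)
        rw [← pow_mul, show 2 * (l + 1) = 2 * l + 1 + 1 by ring, pow_succ, hb, one_mul, k.1] at h7
        exact absurd h7.symm huv
    refine ⟨f.symm ⟨u, h4.1⟩, f.symm ⟨v, h4.2⟩, fun e => huv (congrArg Subtype.val
      (f.symm.injective e)), y, hy, ?_⟩
    rw [map_mul, sw, ← mul_assoc]
    simpa using h2

lemma homog {K : Subgroup (Perm (Fin n) × Perm (Fin n))} (hA : TT Z)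
    (hK : ∀ y ∈ Z, ∀ y' ∈ Z, ∃ k ∈ K, k.1 * y * k.2⁻¹ = y') : Homog K := by
  intro Δ hΔ h1 h2 Γ h3 u v huv
  rw [Fintype.card_fin] at h1 h2 h3
  have hc : (Δᶜ).card = n - Δ.card := by rw [Finset.card_compl, Fintype.card_fin]
  obtain ⟨S, hS, cS⟩ := Finset.exists_subset_card_eq (s := Γ) (n := (Δᶜ).card) (by omega)
  obtain ⟨g, hg⟩ := Perm.exists_map_finset_eq S Δᶜ cS
  obtain ⟨y, hy, hyg⟩ := hA S g (by omega)
  obtain ⟨T, hT, cT⟩ := Finset.exists_subset_card_eq (s := Δᶜ) (n := 2) (by omega)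
  obtain ⟨g', hg'⟩ := Perm.exists_map_finset_eq {u, v} T (by rw [Finset.card_pair huv, cT])
  obtain ⟨y', hy', hyg'⟩ := hA {u, v} g' (by rw [Finset.card_pair huv]; omega)
  obtain ⟨k, hk, e⟩ := hK y' hy' y hy
  have key : ∀ w ∈ ({u, v} : Finset (Fin n)), k.2 w ∈ Γ := by
    intro w hw
    have a1 : y' w ∈ Δᶜ := hT (by rw [hyg' w hw, ← hg']; exact Finset.mem_map_of_mem _ hw)
    have a2 : y (k.2 w) ∈ Δᶜ := by
      rw [← e]; simpa [hΔ k hk] using a1
    rw [← hg, Finset.mem_map] at a2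
    obtain ⟨s, hs, a3⟩ := a2
    rw [← y.injective ((hyg s hs).trans a3)]
    exact hS hs
  exact ⟨k, hk, key u (by simp), key v (by simp)⟩

lemma homog_flp (hA : TT Z)
    (hK : ∀ y ∈ Z, ∀ y' ∈ Z, ∃ k ∈ pairs Z, k.1 * y * k.2⁻¹ = y') : Homog (flp (pairs Z)) := by
  refine homog (Z := {y | y⁻¹ ∈ Z}) (fun I g hI => ?_) fun y hy y' hy' => ?_
  · obtain ⟨y, hy, h⟩ := hA (I.map g.toEmbedding) g⁻¹ (by rwa [Finset.card_map])
    refine ⟨y⁻¹, hy, fun x hx => ?_⟩
    rw [Perm.inv_eq_iff_eq, h (g x) (Finset.mem_map_of_mem _ hx)]; simp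
  · obtain ⟨k, hk, e⟩ := hK _ hy _ hy'
    exact ⟨(k.2, k.1), mem_flp.2 hk, by rw [← inv_inv y', ← e]; group⟩

/-- The action of pairs of multipliers. -/
def act : Perm (Fin n) × Perm (Fin n) →* Perm (Perm (Fin n)) where
  toFun k := (Equiv.mulLeft k.1).trans (Equiv.mulRight k.2⁻¹)
  map_one' := by ext x : 1; simp
  map_mul' k l := by ext x : 1; simp [mul_assoc]

lemma act_apply (k : Perm (Fin n) × Perm (Fin n)) (x : Perm (Fin n)) :
    act k x = k.1 * x * k.2⁻¹ := rfl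

lemma act_inj (hn : 3 ≤ n) : Function.Injective (act (n := n)) := by
  rw [injective_iff_map_eq_one]
  intro k h
  have h1 : ∀ x, k.1 * x * k.2⁻¹ = x := fun x => by rw [← act_apply, h]; rfl
  have h2 : k.1 = k.2 := by simpa [mul_inv_eq_one] using h1 1
  have h3 : k.1 = 1 := central hn fun x => by
    rw [← h2] at h1
    exact mul_inv_eq_iff_eq_mul.1 (h1 x)
  exact Prod.ext h3 (h2 ▸ h3)

theorem not_trans (hT : Til e Y) (he : ¬ e) (hn : n = 16 ∨ n = 36)
    (hY : Z = Y ∨ ∃ ε, Z = half Y ε) {G : Subgroup (Perm (Perm (Fin n)))}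
    (hG : ∀ φ ∈ G, ∃ a b : Perm (Fin n), (∀ x, φ x = a * x * b) ∨ ∀ x, φ x = a * x⁻¹ * b)
    (hZ : ∀ φ ∈ G, ∀ x ∈ Z, φ x ∈ Z) (tr : ∀ y ∈ Z, ∀ y' ∈ Z, ∃ φ ∈ G, φ y = y')
    (hd : Z.ncard ∣ Nat.card G) : False := by
  classical
  have h3 : 3 ≤ n := by omega
  obtain ⟨ε, F0, F1, F2, F3⟩ : ∃ ε, Z ⊆ Y ∧ half Y ε ⊆ Z ∧
      (∀ k ∈ pairs Z, ∀ p, Odd p → k ^ p = 1 → k ∈ pairs (half Y ε)) ∧
      ∀ p, (∀ η, p ∣ (half Y η).ncard) → p ∣ Nat.card G := by
    rcases hY with rfl | ⟨ε, rfl⟩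
    · refine ⟨1, le_rfl, fun _ h => h.1, fun k hk p hp h => pairs_half hk hp h 1,
        fun p hp => Dvd.dvd.trans ?_ hd⟩
      rw [ncard_halves]
      exact dvd_add (hp _) (hp _)
    · exact ⟨ε, fun _ h => h.1, le_rfl, fun k hk _ _ _ => hk, fun p hp => (hp ε).trans hd⟩
  have hA : TT Z := fun I g hI => (hT.agree h3 ε I g hI).imp fun y h => ⟨F1 h.1, h.2⟩
  obtain ⟨w, hw, -⟩ := hA ∅ 1 (by simp; omega)
  have H1 := hT.H1 F0 hw
  have H2 := hT.H2 F0 hw
  have iff : ∀ φ ∈ G, ∀ x, φ x ∈ Z ↔ x ∈ Z := fun φ h x =>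
    ⟨fun hx => by simpa using hZ _ (G.inv_mem h) _ hx, hZ φ h x⟩
  have el : ∀ p ∈ bigP n, ∃ k ∈ pairs Z, k ≠ 1 ∧ k ^ p = 1 := fun p hp =>
    pair_of_dvd h3 hG hZ (mem_bigP.1 hp).2.1 (by have := mem_bigP.1 hp; omega)
      (F3 p fun η => hT.dvd h3 η hp)
  have alt : (∃ g h : Perm (Fin n), ∀ a b, (a, b) ∈ pairs Z → (g * b * g⁻¹, h * a * h⁻¹) ∈ pairs Z)
      ∨ (Homog (pairs Z) ∧ Homog (flp (pairs Z))) := by
    by_cases hi : ∃ φ ∈ G, ∃ g h : Perm (Fin n), ∀ x, φ x = g * x⁻¹ * h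
    · obtain ⟨φ, h1, g, h, h2⟩ := hi
      refine Or.inl ⟨g, h⁻¹, fun a b hab => mem_pairs.2 fun x => ?_⟩
      obtain ⟨x, rfl⟩ := φ.surjective x
      rw [iff φ h1, ← mem_pairs.1 hab x, ← iff φ h1 (a * x * b⁻¹), h2, h2]
      exact iff_of_eq (congrArg (· ∈ Z) (by group))
    · have hK : ∀ y ∈ Z, ∀ y' ∈ Z, ∃ k ∈ pairs Z, k.1 * y * k.2⁻¹ = y' := by
        intro y hy y' hy'
        obtain ⟨φ, h1, rfl⟩ := tr y hy y' hy'
        obtain ⟨a, b, h | h⟩ := hG φ h1
        · exact ⟨(a, b⁻¹), mem_pairs.2 fun x => by rw [inv_inv, ← h, iff φ h1], by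
            rw [h]; simp⟩
        · exact absurd ⟨φ, h1, a, b, h⟩ hi
      exact Or.inr ⟨homog hA hK, homog_flp hA hK⟩
  have H1' : ∀ c : Perm (Fin n), c.IsThreeCycle → (c, 1) ∉ flp (pairs Z) :=
    fun c hc h => H2 c hc (mem_flp.1 h)
  have H2' : ∀ c : Perm (Fin n), c.IsThreeCycle → (1, c) ∉ flp (pairs Z) :=
    fun c hc h => H1 c hc (mem_flp.1 h)
  have cj : ∀ (g c : Perm (Fin n)) (p : ℕ), c ^ p = 1 → c ≠ 1 →
      (g * c * g⁻¹) ^ p = 1 ∧ g * c * g⁻¹ ≠ 1 := fun g c p h1 h2 =>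
    ⟨by rw [conj_pow, h1]; simp, by simpa [mul_inv_eq_one] using h2⟩
  rcases hn with rfl | rfl
  · have : Fact (Nat.Prime 7) := ⟨by norm_num⟩
    have H : ∀ c d, (c, d) ∈ pairs Z → c.IsCycle → d.IsCycle → c.support.card = d.support.card →
        c.support.card ≤ 7 → False := fun c d h hc hd he hl => hT.H3 F0 hA h hc hd he (by omega)
    obtain ⟨P, hP⟩ := Sylow.exists_subgroup_card_pow_prime (G := G) 7 (n := 2) (F3 _ fun η => by
      obtain ⟨N, hN, h⟩ := count2 h3 hT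
      have a := h η ∅ 1 (by simp)
      have d : (half Y η).ncard = ((Ag ∅ 1).filter fun y => y ∈ Y ∧ Perm.sign y = η).card := by
        rw [← Set.ncard_coe_finset]
        congr 1
        ext y
        simp [half, Ag]
      rw [← d, hN he] at a
      simp [Nat.factorial] at a
      omega)
    have hQ : Nat.card ((P.map G.subtype).comap act) = 7 ^ 2 := by
      rw [← Subgroup.card_map_of_injective (act_inj h3), Subgroup.map_comap_eq_self,
        Subgroup.card_subtype, hP]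
      rintro _ ⟨φ, h1, rfl⟩
      have h2 : φ ^ 25 * φ ^ 25 = φ := by
        have : (⟨φ, h1⟩ : P) ^ 49 = 1 := by
          rw [show 49 = Nat.card P by rw [hP]; rfl]; exact pow_card_eq_one'
        rw [← pow_add, show 25 + 25 = 49 + 1 from rfl, pow_succ,
          show φ ^ 49 = 1 from congrArg Subtype.val this, one_mul]
      rw [← h2]
      obtain ⟨a, b, h | h⟩ := hG _ (φ ^ 25).2
      · exact ⟨(a * a, (b * b)⁻¹), Equiv.ext fun x => by
          rw [act_apply, Subgroup.subtype_apply, Subgroup.coe_mul, Perm.mul_apply, h, h]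
          simp only [inv_inv, mul_assoc]⟩
      · exact ⟨(a * b⁻¹, (a⁻¹ * b)⁻¹), Equiv.ext fun x => by
          rw [act_apply, Subgroup.subtype_apply, Subgroup.coe_mul, Perm.mul_apply, h, h]; group⟩
    have hQK : (P.map G.subtype).comap act ≤ pairs Z := by
      rintro k ⟨φ, -, h⟩ x
      rw [← act_apply, ← h]
      exact iff _ φ.2 x
    obtain ⟨⟨a, b⟩, hk, k1, kp⟩ := el 11 (mem_bigP.2 ⟨by omega, by norm_num, by omega⟩)
    have ap : a ^ 11 = 1 := congrArg Prod.fst kp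
    have bp : b ^ 11 = 1 := congrArg Prod.snd kp
    by_cases hb : b = 1
    · subst hb
      have ha : a ≠ 1 := by rintro rfl; exact k1 rfl
      refine sixteen (by simp) ap ha hk hQ hQK H1 H2 H (alt.imp ?_ And.left)
      rintro ⟨g, h, hgh⟩
      exact ⟨_, (cj h a 11 ap ha).1, (cj h a 11 ap ha).2, by simpa using hgh _ _ hk⟩
    by_cases ha : a = 1
    · subst ha
      refine sixteen (K := flp (pairs Z)) (Q := flp ((P.map G.subtype).comap act)) (by simp) bp hb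
        (mem_flp.2 hk) ?_ (fun k h => mem_flp.2 (hQK (mem_flp.1 h))) H1' H2'
        (fun c d hK hc hd he hl => H d c (mem_flp.1 hK) hd hc he.symm (he ▸ hl))
        (alt.imp ?_ And.right)
      · rw [← hQ]
        exact Nat.card_congr ((Equiv.prodComm _ _).subtypeEquiv fun k => Iff.rfl)
      · rintro ⟨g, h, hgh⟩
        exact ⟨_, (cj g b 11 bp hb).1, (cj g b 11 bp hb).2, mem_flp.2 (by simpa using hgh _ _ hk)⟩
    · obtain ⟨ca, sa⟩ := cyc_of_pow (by norm_num) ap ha (by simp)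
      obtain ⟨cb, sb⟩ := cyc_of_pow (by norm_num) bp hb (by simp)
      obtain ⟨x, hx⟩ := isConj_iff.1 (cb.isConj ca (by rw [sa, sb]))
      obtain ⟨W, hW⟩ := hT.reduce he (F2 _ hk 11 (by decide) kp) (x := x) (by rw [← hx]; group)
        (by decide : Odd 11) bp (m := 3) (Fintype.equivFinOfCardEq (by
          rw [Fintype.card_subtype, show (Finset.univ.filter fun w => b w = w) = b.supportᶜ by
            ext w; simp, Finset.card_compl, sb]; rfl)).symm
      have := (small hW (by omega) (by omega)).2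
      omega
  · have p23 : Nat.Prime 23 := by norm_num
    have p29 : Nat.Prime 29 := by norm_num
    obtain ⟨⟨a, b⟩, hx, x1, xp⟩ := el 23 (mem_bigP.2 ⟨by omega, p23, by omega⟩)
    obtain ⟨⟨c, d⟩, hy, y1, yq⟩ := el 29 (mem_bigP.2 ⟨by omega, p29, by omega⟩)
    have L : ∀ y ∈ pairs Z, y ^ 29 = 1 → (a = 1 ∨ y.1 = 1) ∧ (b = 1 ∨ y.2 = 1) := fun y hy yq =>
      two_sides (B := 13) p23 p29 (by omega) (by simp) (by simp) H1 H2
        (fun c d h hc hd he hl => hT.H3 F0 hA h hc hd he (by omega)) hx hy xp yq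
    have ap : a ^ 23 = 1 := congrArg Prod.fst xp
    have bp : b ^ 23 = 1 := congrArg Prod.snd xp
    have cq : c ^ 29 = 1 := congrArg Prod.fst yq
    have dq : d ^ 29 = 1 := congrArg Prod.snd yq
    have L1 := L _ hy yq
    simp only [Ne, Prod.mk_eq_one] at x1 y1 L1
    rcases alt with ⟨g, h, hgh⟩ | ⟨hH, -⟩
    · have L2 := L _ (hgh _ _ hy) (by
        rw [Prod.pow_mk, conj_pow, conj_pow, cq, dq]; simp)
      simp only [mul_inv_eq_one, mul_eq_left] at L2
      tauto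
    · by_cases ha : a = 1
      · have hb : b ≠ 1 := by tauto
        obtain rfl : d = 1 := by tauto
        subst ha
        exact both_sides p29 p23 cq (by tauto) bp hb (by simp) (by simp) (by simp) (by simp) hy hx
          H1 H2 hH
      · obtain rfl : c = 1 := by tauto
        have hd : d ≠ 1 := by tauto
        obtain rfl : b = 1 := by tauto
        exact both_sides p23 p29 ap ha dq hd (by simp) (by simp) (by simp) (by simp) hx hy
          H1 H2 hH

theorem sym_all (hT : Til e Y) (hn : 4 ≤ n)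
    (hY : Z = Y ∨ ∃ ε, Z = half Y ε) {G : Subgroup (Perm (Perm (Fin n)))}
    (hG : ∀ φ ∈ G, ∃ a b : Perm (Fin n), (∀ x, φ x = a * x * b) ∨ ∀ x, φ x = a * x⁻¹ * b)
    (hZ : ∀ φ ∈ G, ∀ x ∈ Z, φ x ∈ Z) {s : ℕ} (hs : ∀ y ∈ Z, s ∣ (orbit G y).ncard) :
    max (if n < 37 then 2 else n / 2 + 2) (4 ^ (n / 6) / n ^ (Nat.sqrt n + 9)) * s ≤ Z.ncard := by
  have h6 : 6 ≤ n := by
    by_contra h
    have := (small hT hn (by omega)).2
    omega
  have h := (sym_main hT h6 hY hG hZ).2 s hs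
  rcases max_choice (if n < 37 then 2 else n / 2 + 2) (4 ^ (n / 6) / n ^ (Nat.sqrt n + 9))
    with e | e <;> rw [e]
  swap
  · exact h.1
  split_ifs with h37
  swap
  · exact h.2 (by omega)
  obtain ⟨he, h16⟩ := small hT hn h37
  obtain ⟨t, ht⟩ := dvd_of_orbits hZ hs
  obtain ⟨w, hw⟩ : Z.Nonempty := by
    rcases hY with rfl | ⟨ε, rfl⟩
    · exact (hT.agree (by omega) 1 ∅ 1 (by simp; omega)).imp fun _ h => h.1.1
    · exact (hT.agree (by omega) ε ∅ 1 (by simp; omega)).imp fun _ h => h.1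
  have hpos : 0 < Z.ncard := (Set.ncard_pos (Set.toFinite _)).2 ⟨w, hw⟩
  have t0 : t ≠ 0 := by rintro rfl; omega
  have t1 : t ≠ 1 := by
    rintro rfl
    rw [mul_one] at ht
    refine not_trans hT he h16 hY hG hZ (fun y hy y' hy' => ?_) ?_
    · have : orbit G y = Z := Set.eq_of_subset_of_ncard_le
        (by rintro _ ⟨φ, rfl⟩; exact hZ φ φ.2 y hy)
        (ht ▸ Nat.le_of_dvd ((Set.ncard_pos (Set.toFinite _)).2 ⟨y, mem_orbit_self y⟩) (hs y hy))
      rw [← this] at hy'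
      obtain ⟨φ, h⟩ := hy'
      exact ⟨φ, φ.2, h⟩
    · refine (ht ▸ hs w hw).trans ?_
      rw [← index_stabilizer]; exact Subgroup.index_dvd_card _
  rw [ht, mul_comm s]
  exact mul_le_mul' (by omega) le_rfl

end Pool.Agent.P.MP_bfa556_co
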