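import Pool.Agent.P.MP_bfa556_co.Count

open Finset Equiv

namespace Pool.Agent.P.MP_bfa556_co

variable {n : ℕ} {A : Type} [AddCommGroup A]

/-- Change of the syndrome when the values `a`, `b` at the positions `k`, `l` are exchanged. -/
def dl (φ : Fin n → Fin n → A) (k l a b : Fin n) : A := φ k b + φ l a - φ k a - φ l b

variable {φ : Fin n → Fin n → A}

lemma syn_swap (g : Perm (Fin n)) {k l : Fin n} (h : k ≠ l) :
    ∑ i, φ i ((g * swap k l) i) = ∑ i, φ i (g i) + dl φ k l (g k) (g l) := by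
  have hl : l ∈ univ.erase k := mem_erase.2 ⟨h.symm, mem_univ _⟩
  rw [← add_sum_erase _ _ (mem_univ k), ← add_sum_erase _ _ hl,
    ← add_sum_erase _ (fun i => φ i (g i)) (mem_univ k), ← add_sum_erase _ (fun i => φ i (g i)) hl]
  have : ∑ x ∈ (univ.erase k).erase l, φ x ((g * swap k l) x)
      = ∑ x ∈ (univ.erase k).erase l, φ x (g x) := by
    refine sum_congr rfl fun x hx => ?_
    rw [Perm.mul_apply, swap_apply_of_ne_of_ne (ne_of_mem_erase (mem_of_mem_erase hx))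
      (ne_of_mem_erase hx)]
  rw [this]
  simp only [Perm.mul_apply, swap_apply_left, swap_apply_right, dl]
  abel

lemma dl_symm (k l a b : Fin n) : dl φ k l a b = dl φ l k b a := by unfold dl; abel
lemma dl_neg (k l a b : Fin n) : dl φ k l a b = -dl φ k l b a := by unfold dl; abel
lemma dl_val (k l a b b' : Fin n) : dl φ k l a b - dl φ k l a b' = dl φ k l b' b := by
  unfold dl; abel
lemma dl_pos (k l l' a b : Fin n) : dl φ k l a b - dl φ k l' a b = dl φ l' l a b := by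
  unfold dl; abel

lemma ext_step (g : Perm (Fin n)) (k a : Fin n) :
    ∃ g' : Perm (Fin n), g' k = a ∧ ∀ x, x ≠ k → g x ≠ a → g' x = g x := by
  refine ⟨g * swap k (g⁻¹ a), by simp, fun x h1 h2 => ?_⟩
  rw [Perm.mul_apply, swap_apply_of_ne_of_ne h1]
  rintro rfl; simp at h2

lemma ext2 {k l a b : Fin n} (h1 : k ≠ l) (h2 : a ≠ b) : ∃ g : Perm (Fin n), g k = a ∧ g l = b := by
  obtain ⟨g, hg, -⟩ := ext_step 1 k a
  obtain ⟨g', hg', h⟩ := ext_step g l b
  exact ⟨g', by rw [h k h1 (hg ▸ h2), hg], hg'⟩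

/-- Different exchanges in one permutation change the syndrome differently. -/
def Sep (φ : Fin n → Fin n → A) : Prop :=
  ∀ (g : Perm (Fin n)) p q p' q', p ≠ q → p' ≠ q' →
    dl φ p q (g p) (g q) = dl φ p' q' (g p') (g q') → swap p q = swap p' q'

lemma Sep.three (H : Sep φ) {k l l' a b b' : Fin n} (h1 : k ≠ l) (h2 : k ≠ l') (h3 : l ≠ l')
    (h4 : a ≠ b) (h5 : a ≠ b') (h6 : b ≠ b') : dl φ k l a b ≠ dl φ k l' a b' := by
  obtain ⟨g, hk, hl⟩ := ext2 h1 h4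
  obtain ⟨g', hg', h⟩ := ext_step g l' b'
  have e1 : g' k = a := by rw [h k h2 (hk ▸ h5), hk]
  have e2 : g' l = b := by rw [h l h3 (hl ▸ h6), hl]
  intro hd
  rcases swap_eq_cases h1 (H g' k l k l' h1 h2 (by rw [e1, e2, hg']; exact hd)) with h7 | h7
  · exact h3 h7.2
  · exact h2 h7.1

/-- Two atoms outside whose rows and columns no exchange keeps the syndrome. -/
structure Board (φ : Fin n → Fin n → A) (P V : Fin n → Prop) : Prop where
  zf : ∀ l l' b b', P l → P l' → V b → V b' → l ≠ l' → b ≠ b' → dl φ l l' b b' ≠ 0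

lemma Sep.board (H : Sep φ) (hn : 26 ≤ n) : ∃ k0 k1 a0 a1 : Fin n, k0 ≠ k1 ∧ a0 ≠ a1 ∧
    Board φ (fun x => x ≠ k0 ∧ x ≠ k1) (fun x => x ≠ a0 ∧ x ≠ a1) := by
  by_cases hz : ∃ k0 k1 a0 a1 : Fin n, k0 ≠ k1 ∧ a0 ≠ a1 ∧ dl φ k0 k1 a0 a1 = 0
  · obtain ⟨k0, k1, a0, a1, h1, h2, h3⟩ := hz
    refine ⟨k0, k1, a0, a1, h1, h2, ⟨fun l l' b b' p1 p2 v1 v2 hl hb h0 => ?_⟩⟩
    obtain ⟨g, hk, hk'⟩ := ext2 h1 h2
    obtain ⟨g1, hg1, e1⟩ := ext_step g l b
    obtain ⟨g2, hg2, e2⟩ := ext_step g1 l' b'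
    have f0 : g1 k0 = a0 := by rw [e1 k0 p1.1.symm (hk ▸ v1.1.symm), hk]
    have f1 : g1 k1 = a1 := by rw [e1 k1 p1.2.symm (hk' ▸ v1.2.symm), hk']
    have f2 : g2 k0 = a0 := by rw [e2 k0 p2.1.symm (f0 ▸ v2.1.symm), f0]
    have f3 : g2 k1 = a1 := by rw [e2 k1 p2.2.symm (f1 ▸ v2.2.symm), f1]
    have f4 : g2 l = b := by rw [e2 l hl (hg1 ▸ hb), hg1]
    rcases swap_eq_cases hl (H g2 l l' k0 k1 hl h1 (by rw [f2, f3, f4, hg2, h0, h3])) with h7 | h7
    · exact p1.1 h7.1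
    · exact p1.2 h7.1
  · push Not at hz
    have h01 : (⟨0, by omega⟩ : Fin n) ≠ ⟨1, by omega⟩ := by simp
    exact ⟨_, _, _, _, h01, h01, ⟨fun l l' b b' _ _ _ _ hl hb => hz l l' b b' hl hb⟩⟩

variable {P V : Fin n → Prop}

lemma Board.uniq (B : Board φ P V) (H : Sep φ) {k a l b l' b' : Fin n} (pk : P k) (va : V a)
    (pl : P l) (vb : V b) (pl' : P l') (vb' : V b') (h1 : k ≠ l) (h2 : k ≠ l') (h4 : a ≠ b)
    (h5 : a ≠ b') (hd : dl φ k l a b = dl φ k l' a b') : l = l' ∧ b = b' := by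
  by_cases h3 : l = l'
  · subst h3
    refine ⟨rfl, by_contra fun h6 => ?_⟩
    exact B.zf k l b' b pk pl vb' vb h1 (Ne.symm h6) (by rw [← dl_val k l a, hd, sub_self])
  · by_cases h6 : b = b'
    · subst h6
      exact absurd (by rw [← dl_pos k, hd, sub_self]) (B.zf l' l a b pl' pl va vb (Ne.symm h3) h4)
    · exact absurd hd (H.three h1 h2 h3 h4 h5 h6)

lemma Board.heavy (B : Board φ P V) (H : Sep φ) {k a : Fin n} (pk : ¬ P k) (va : ¬ V a) :
    ∃ W : Finset A, W.card ≤ 2 * n ∧ ∀ l b l' b', P l → V b → P l' → V b' →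
      dl φ k l a b = dl φ k l' a b' → dl φ k l a b ∉ W → l = l' ∧ b = b' := by
  classical
  have nk : ∀ x, P x → k ≠ x := by rintro x hx rfl; exact pk hx
  have na : ∀ x, V x → a ≠ x := by rintro x hx rfl; exact va hx
  set R1 : Finset (Fin n × Fin n) :=
    univ.filter fun z => P z.1 ∧ V z.2 ∧ ∃ l', P l' ∧ z.1 ≠ l' ∧ dl φ z.1 l' a z.2 = 0 with hR1
  set R2 : Finset (Fin n × Fin n) :=
    univ.filter fun z => P z.1 ∧ V z.2 ∧ ∃ b', V b' ∧ z.2 ≠ b' ∧ dl φ k z.1 z.2 b' = 0 with hR2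
  have c1 : R1.card ≤ n := by
    refine (card_le_card_of_injOn (t := univ) Prod.fst (fun _ _ => mem_univ _) ?_).trans (by simp)
    rintro ⟨l, b⟩ hz ⟨l2, b2⟩ hz2 (rfl : l = l2)
    simp only [hR1, coe_filter, mem_univ, true_and, Set.mem_ofPred_eq] at hz hz2
    obtain ⟨p1, v1, l', p2, n1, z1⟩ := hz
    obtain ⟨-, v2, l'', p3, n2, z2⟩ := hz2
    refine Prod.ext rfl (by_contra fun hb => ?_)
    by_cases hl : l' = l''
    · subst hl
      exact B.zf l l' b2 b p1 p2 v2 v1 n1 (Ne.symm hb) (by rw [← dl_val l l' a, z1, z2, sub_self])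
    · exact H.three n1 n2 hl (na b v1) (na b2 v2) hb (z1.trans z2.symm)
  have c2 : R2.card ≤ n := by
    refine (card_le_card_of_injOn (t := univ) Prod.snd (fun _ _ => mem_univ _) ?_).trans (by simp)
    rintro ⟨l, b⟩ hz ⟨l2, b2⟩ hz2 (rfl : b = b2)
    simp only [hR2, coe_filter, mem_univ, true_and, Set.mem_ofPred_eq] at hz hz2
    obtain ⟨p1, v1, b', v2, n1, z1⟩ := hz
    obtain ⟨p2, -, b'', v3, n2, z2⟩ := hz2
    refine Prod.ext (by_contra fun hl => ?_) rfl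
    by_cases hb : b' = b''
    · subst hb
      exact B.zf l2 l b b' p2 p1 v1 v2 (Ne.symm hl) n1 (by rw [← dl_pos k, z1, z2, sub_self])
    · exact H.three (nk l p1) (nk l2 p2) hl n1 n2 hb (z1.trans z2.symm)
  refine ⟨(R1 ∪ R2).image fun z => dl φ k z.1 a z.2,
    card_image_le.trans ((card_union_le _ _).trans (by omega)), ?_⟩
  intro l b l' b' p1 v1 p2 v2 hd hW
  by_contra hne
  refine hW (mem_image.2 ⟨(l, b), ?_, rfl⟩)
  by_cases h3 : l = l'
  · subst h3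
    have hb : b ≠ b' := fun h => hne ⟨rfl, h⟩
    refine mem_union_right _ (mem_filter.2 ⟨mem_univ _, p1, v1, b', v2, hb, ?_⟩)
    rw [← dl_val k l a, hd, sub_self]
  · by_cases h6 : b = b'
    · subst h6
      refine mem_union_left _ (mem_filter.2 ⟨mem_univ _, p1, v1, l', p2, h3, ?_⟩)
      rw [← dl_pos k, hd, sub_self]
    · exact absurd hd (H.three (nk l p1) (nk l' p2) h3 (na b v1) (na b' v2) h6)

end Pool.Agent.P.MP_bfa556_co
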