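import Pool.Agent.P.MP_bfa556_co.Good

open Finset Equiv

namespace Pool.Agent.P.MP_bfa556_co

variable {n : ℕ} {A : Type} [AddCommGroup A] {φ : Fin n → Fin n → A}

lemma three_more (hn : 26 ≤ n) (k0 k1 : Fin n) : ∃ i j l : Fin n, i ≠ j ∧ i ≠ l ∧ j ≠ l ∧
    (i ≠ k0 ∧ i ≠ k1) ∧ (j ≠ k0 ∧ j ≠ k1) ∧ (l ≠ k0 ∧ l ≠ k1) := by
  have h : 2 < (({k0, k1} : Finset (Fin n))ᶜ).card := by
    rw [card_compl, Fintype.card_fin]
    have : ({k0, k1} : Finset (Fin n)).card ≤ 2 := card_le_two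
    omega
  obtain ⟨i, j, l, hi, hj, hl, h1, h2, h3⟩ := two_lt_card_iff.1 h
  simp only [mem_compl, mem_insert, mem_singleton, not_or] at hi hj hl
  exact ⟨i, j, l, h1, h2, h3, hi, hj, hl⟩

theorem main (hn : 26 ≤ n) {e : Prop} {Y : Set (Perm (Fin n))} (hT : Til e Y) {ε : ℤˣ} {c : A}
    (hY : ∀ g : Perm (Fin n), Perm.sign g = ε → (g ∈ Y ↔ ∑ i, φ i (g i) = c)) : False := by
  classical
  obtain ⟨N, hN0, hN⟩ := count hn hT
  set R : Perm (Fin n) → Prop := fun y => y ∈ Y ∧ Perm.sign y = ε with hR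
  have H : Sep φ := by
    refine sep_of hT hY fun I g hI => ?_
    have h1 := hN ε I g hI
    have h2 : 0 < ((Ag I g).filter fun y => y ∈ Y ∧ Perm.sign y = ε).card :=
      Nat.pos_of_mul_pos_right (h1 ▸ Nat.factorial_pos _)
    obtain ⟨y, hy⟩ := card_pos.1 h2
    exact ⟨y, (mem_filter.1 hy).1, (mem_filter.1 hy).2⟩
  obtain ⟨k0, k1, a0, a1, hk, ha, B⟩ := H.board hn
  obtain ⟨W0, cW0, hW0⟩ := B.heavy H (k := k0) (a := a0) (by simp) (by simp)
  obtain ⟨W1, cW1, hW1⟩ := B.heavy H (k := k1) (a := a1) (by simp) (by simp)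
  obtain ⟨i, j, l, hij, hil, hjl, pi, pj, pl⟩ := three_more hn k0 k1
  obtain ⟨x1, e0, e1⟩ := ext2 hk ha
  set J : Finset (Fin n) := {k0, k1, i, j, l} with hJ
  have cJ : J.card = 5 := by
    rw [hJ, card_insert_of_notMem, card_insert_of_notMem, card_insert_of_notMem,
      card_pair hjl] <;> simp [hij, hil, hk, pi.1.symm, pi.2.symm, pj.1.symm, pj.2.symm,
      pl.1.symm, pl.2.symm]
  have m0 : k0 ∈ J := by simp [hJ]
  have m1 : k1 ∈ J := by simp [hJ]
  have mi : i ∈ J := by simp [hJ]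
  have mj : j ∈ J := by simp [hJ]
  have ml : l ∈ J := by simp [hJ]
  set τ : A := dl φ i l (x1 i) (x1 l) + dl φ i j (x1 l) (x1 j) with hτ
  have τ0 : τ ≠ 0 := by
    intro h
    refine H.three hil hij hjl.symm (x1.injective.ne hil.symm) (x1.injective.ne hjl.symm)
      (x1.injective.ne hij) ?_
    rw [dl_neg, neg_eq_iff_add_eq_zero]; exact h
  obtain ⟨G, cG, hG⟩ := good B H cJ x1 mi pi
    ⟨e0 ▸ x1.injective.ne pi.1, e1 ▸ x1.injective.ne pi.2⟩
    (fun k h => ⟨fun t => h (t ▸ m0), fun t => h (t ▸ m1)⟩)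
    (fun a h => ⟨fun t => h (t ▸ e0 ▸ mem_image_of_mem _ m0),
      fun t => h (t ▸ e1 ▸ mem_image_of_mem _ m1)⟩) τ (W0 ∪ W1)
    ((card_union_le _ _).trans (by omega))
  set v2 : Perm (Fin n) := swap i l * swap i j with hv2
  set X5 := (Ag J x1).filter fun x => R (x * v2) with hX5
  have cX5 : X5.card * N = (n - 5).factorial := by
    rw [hX5, card_shift J x1 v2 R (fun p hp => swap_mem mi ml (swap_mem mi mj hp))
      (fun p hp => by simpa [hv2] using swap_mem mi mj (swap_mem mi ml hp)), ← cJ]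
    exact hN ε J _ (by omega)
  set Ex : Fin n × Fin n → Finset (Perm (Fin n)) :=
    fun z => X5.filter fun x => x z.1 = z.2 ∧ x * swap i z.1 ∈ Y with hEx
  have sEx : ∑ z ∈ G, (Ex z).card ≤ X5.card := by
    rw [← card_biUnion]
    · exact card_le_card (biUnion_subset.2 fun z _ => filter_subset _ _)
    · intro z hz z' hz' hne
      refine disjoint_left.2 fun x hx hx' => hne ?_
      obtain ⟨-, b1, b2⟩ := mem_filter.1 hx
      obtain ⟨-, b3, b4⟩ := mem_filter.1 hx'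
      have n1 : i ≠ z.1 := fun t => (hG z hz).1 (t ▸ mi)
      have n2 : i ≠ z'.1 := fun t => (hG z' hz').1 (t ▸ mi)
      rcases swap_eq_cases n1 (hT.uniq x _ _ _ _ n1 n2 b2 b4) with t | t
      · exact Prod.ext t.2 (by rw [← b1, ← b3, t.2])
      · exact absurd t.1 n2
  obtain ⟨m, rfl⟩ : ∃ m, n = m + 8 := ⟨n - 8, by omega⟩
  have r5 : m + 8 - 5 = m + 3 := by omega
  have r6 : m + 8 - 6 = m + 2 := by omega
  have r7 : m + 8 - 7 = m + 1 := by omega
  have r8 : m + 8 - 8 = m := by omega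
  rw [r5] at cG cX5
  have hm : 18 ≤ m := by omega
  have Gne : G.Nonempty := by
    rw [← card_pos]
    by_contra h
    have : G.card = 0 := by omega
    nlinarith
  obtain ⟨⟨k, b⟩, hz, hmin⟩ := exists_min_image G (fun z => (Ex z).card) Gne
  have sEx2 : G.card * (Ex (k, b)).card ≤ X5.card :=
    le_trans (by simpa using card_nsmul_le_sum G _ _ hmin) sEx
  obtain ⟨g1, g2, g3, g4, g5, g6⟩ := hG _ hz
  simp only at g1 g2 g3 g4 g5 g6
  obtain ⟨g0, f1, f2⟩ := ext_step x1 k b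
  have f3 : ∀ p ∈ J, g0 p = x1 p := fun p hp =>
    f2 p (fun t => g1 (t ▸ hp)) (fun t => g2 (t ▸ mem_image_of_mem _ hp))
  have hik : i ≠ k := fun t => g1 (t ▸ mi)
  set I : Finset (Fin (m + 8)) := insert k J with hI
  have cI : I.card = 6 := by rw [hI, card_insert_of_notMem g1, cJ]
  have JI : ∀ p ∈ J, p ∈ I := fun p hp => mem_insert_of_mem hp
  have mk : k ∈ I := mem_insert_self _ _
  set x0 : Perm (Fin (m + 8)) := g0 * swap i k with hx0
  have xi : x0 i = b := by simp [hx0, f1]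
  have xk : x0 k = x1 i := by simp [hx0, f3 i mi]
  have xp : ∀ p ∈ J.erase i, x0 p = x1 p := by
    intro p hp
    rw [hx0, Perm.mul_apply, swap_apply_of_ne_of_ne (ne_of_mem_erase hp)
      (fun t : p = k => g1 (t ▸ mem_of_mem_erase hp)), f3 p (mem_of_mem_erase hp)]
  have x00 : x0 k0 = a0 := by rw [xp k0 (mem_erase.2 ⟨pi.1.symm, m0⟩), e0]
  have x01 : x0 k1 = a1 := by rw [xp k1 (mem_erase.2 ⟨pi.2.symm, m1⟩), e1]
  have cases3 : ∀ p ∈ I, p = k ∨ p = i ∨ p ∈ J.erase i := by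
    intro p hp
    rcases mem_insert.1 hp with h | h
    · exact Or.inl h
    · by_cases t : p = i
      · exact Or.inr (Or.inl t)
      · exact Or.inr (Or.inr (mem_erase.2 ⟨t, h⟩))
  have fP : ∀ q, q ∉ I → q ≠ k0 ∧ q ≠ k1 :=
    fun q h => ⟨fun t => h (t ▸ JI _ m0), fun t => h (t ▸ JI _ m1)⟩
  have fV : ∀ a, a ∉ I.image x0 → a ≠ a0 ∧ a ≠ a1 := fun a h =>
    ⟨fun t => h (t ▸ x00 ▸ mem_image_of_mem _ (JI _ m0)),
      fun t => h (t ▸ x01 ▸ mem_image_of_mem _ (JI _ m1))⟩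
  set w : A := τ - dl φ i k (x1 i) b with hw
  set v3 : Perm (Fin (m + 8)) := swap i k * v2 with hv3
  have v3a : ∀ I' : Finset (Fin (m + 8)), I ⊆ I' → ∀ p ∈ I', v3 p ∈ I' := fun I' h p hp =>
    swap_mem (h (JI i mi)) (h mk) (swap_mem (h (JI i mi)) (h (JI l ml))
      (swap_mem (h (JI i mi)) (h (JI j mj)) hp))
  have v3b : ∀ I' : Finset (Fin (m + 8)), I ⊆ I' → ∀ p ∈ I', v3⁻¹ p ∈ I' := fun I' h p hp => by
    simpa [hv3, hv2] using swap_mem (h (JI i mi)) (h (JI j mj))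
      (swap_mem (h (JI i mi)) (h (JI l ml)) (swap_mem (h (JI i mi)) (h mk) hp))
  have cnt : ∀ (I' : Finset (Fin (m + 8))) g, I ⊆ I' → I'.card ≤ 8 →
      ((Ag I' g).filter fun x => R (x * v3)).card * N = (m + 8 - I'.card).factorial := by
    intro I' g h hc
    rw [card_shift I' g v3 R (v3a I' h) (v3b I' h)]
    exact hN ε I' _ hc
  set X6 := (Ag I x0).filter fun x => R (x * v3) with hX6
  have back : ∀ x ∈ X6, (∀ p ∈ J, (x * swap i k) p = x1 p) ∧ (x * swap i k) k = b := by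
    intro x hx
    have ag := mem_Ag.1 (mem_filter.1 hx).1
    have : ∀ p ∈ I, (x * swap i k) p = g0 p := fun p hp => by
      rw [Perm.mul_apply, ag _ (swap_mem (JI i mi) mk hp), hx0, Perm.mul_apply, swap_apply_self]
    exact ⟨fun p hp => by rw [this p (JI p hp), f3 p hp], by rw [this k mk, f1]⟩
  refine (cover H cI x0 w ?_ ?_ ?_ (X6.filter fun x => x ∉ Y)
    (fun x hx => (mem_filter.1 (mem_filter.1 hx).1).1) ?_ N ?_).elim fun u huv => ?_
  rotate_right
  · obtain ⟨v, hu, hv, hc⟩ := huv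
    have t1 : (X6.filter fun x => x ∈ Y).card ≤ (Ex (k, b)).card := by
      refine card_le_card_of_injOn (fun x => x * swap i k) (fun x hx => ?_)
        fun x _ y _ h => mul_right_cancel h
      obtain ⟨h1, h2⟩ := mem_filter.1 hx
      refine mem_filter.2 ⟨mem_filter.2 ⟨mem_Ag.2 (back x h1).1, ?_⟩, (back x h1).2, ?_⟩
      · rw [mul_assoc]; exact (mem_filter.1 h1).2
      · rw [mul_swap_mul_self]; exact h2
    have t2 := card_filter_add_card_filter_not (s := X6) fun x => x ∈ Y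
    have t3 := cnt I x0 subset_rfl (by omega)
    rw [cI, r6, ← hX6, ← t2, add_mul, add_comm] at t3
    rw [r6] at hv
    rw [r7, r8] at hc
    simp only [Nat.factorial_succ] at t3 hc cX5
    refine arith (G := G.card) hm (Nat.factorial_pos m) hu hv t3 hc ?_ (by omega)
    calc G.card * ((X6.filter fun x => x ∈ Y).card * N)
        ≤ G.card * ((Ex (k, b)).card * N) := Nat.mul_le_mul_left _ (Nat.mul_le_mul_right _ t1)
      _ ≤ X5.card * N := by rw [← mul_assoc]; exact Nat.mul_le_mul_right _ sEx2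
      _ = _ := cX5
  · have hik' : dl φ i k (x0 i) (x0 k) ≠ w := by
      rw [xi, xk, hw, dl_neg]
      intro h
      exact τ0 (by rw [sub_eq_add_neg] at h; simpa using h)
    intro p hp q hq hpq
    rcases cases3 p hp with rfl | rfl | h1 <;> rcases cases3 q hq with rfl | rfl | h2
    · exact absurd rfl hpq
    · rw [dl_symm]; exact hik'
    · rw [xk, xp q h2]; exact g6 q h2
    · exact hik'
    · exact absurd rfl hpq
    · rw [xi, xp q h2]; exact g5 q h2
    · rw [dl_symm, xk, xp p h1]; exact g6 p h1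
    · rw [dl_symm, xi, xp p h1]; exact g5 p h1
    · rw [xp p h1, xp q h2]; exact g4 p h1 q h2
  · intro p hp q a q' a' n1 n2 n3 n4 d1 d2
    by_cases t0 : p = k0
    · subst t0
      rw [x00] at d1 d2
      exact hW0 q a q' a' (fP q n1) (fV a n2) (fP q' n3) (fV a' n4) (d1.trans d2.symm)
        fun t => g3 (mem_union_left _ (d1 ▸ t))
    · by_cases t1 : p = k1
      · subst t1
        rw [x01] at d1 d2
        exact hW1 q a q' a' (fP q n1) (fV a n2) (fP q' n3) (fV a' n4) (d1.trans d2.symm)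
          fun t => g3 (mem_union_right _ (d1 ▸ t))
      · have hp' : x0 p ∈ I.image x0 := mem_image_of_mem _ hp
        exact B.uniq H ⟨t0, t1⟩ ⟨x00 ▸ x0.injective.ne t0, x01 ▸ x0.injective.ne t1⟩
          (fP q n1) (fV a n2) (fP q' n3) (fV a' n4) (fun t => n1 (t ▸ hp)) (fun t => n3 (t ▸ hp))
          (fun t => n2 (t ▸ hp')) (fun t => n4 (t ▸ hp')) (d1.trans d2.symm)
  · intro p a q a' q' a'' n1 n2 n3 n4 n5 n6 h1 h2 h3 h4 d
    exact B.uniq H (fP p n1) (fV a n2) (fP q n3) (fV a' n4) (fP q' n5) (fV a'' n6) h1 h2 h3 h4 d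
  · intro x hx
    obtain ⟨h1, h2⟩ := mem_filter.1 hx
    obtain ⟨p, q, hpq, hm⟩ := (hT.ex x).resolve_left fun t => h2 t.2
    refine ⟨p, q, hpq, ?_⟩
    obtain ⟨ag, hy, hs⟩ := mem_filter.1 h1
    rw [mem_Ag] at ag
    have s0 := (hY _ hs).1 hy
    have s1 : Perm.sign (x * swap p q) = ε := by
      rw [← hs]
      simp only [hv3, hv2, Perm.sign_mul, Perm.sign_swap hpq, Perm.sign_swap hik,
        Perm.sign_swap hil, Perm.sign_swap hij]
      simp
    have s2 := (hY _ s1).1 hm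
    rw [syn_swap x hpq] at s2
    rw [hv3, hv2, ← mul_assoc, ← mul_assoc, syn_swap _ hij, syn_swap _ hil, syn_swap _ hik,
      (back x h1).1 i mi, (back x h1).1 l ml, ag i (JI i mi), ag k mk, xi, xk] at s0
    have q1 : (x * swap i k * swap i l) i = x1 l := by
      rw [Perm.mul_apply, swap_apply_left, (back x h1).1 l ml]
    have q2 : (x * swap i k * swap i l) j = x1 j := by
      rw [Perm.mul_apply, swap_apply_of_ne_of_ne hij.symm hjl, (back x h1).1 j mj]
    rw [q1, q2, ← s2, add_assoc, add_assoc, add_right_inj, dl_neg] at s0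
    rw [← s0, hw, hτ]
    abel
  · intro I' h hc S hS ag
    rcases S.eq_empty_or_nonempty with rfl | ⟨x, hx⟩
    · simp
    · rw [← cnt I' x h hc]
      refine Nat.mul_le_mul_right _ (card_le_card fun y hy => ?_)
      exact mem_filter.2 ⟨mem_Ag.2 (ag y hy x hx), (mem_filter.1 (mem_filter.1 (hS hy)).1).2⟩

end Pool.Agent.P.MP_bfa556_co
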