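import Mathlib

open Finset Nat

namespace Pool.Agent.P.MP_bfa556_co

/-- The primes `p` with `n / 2 + 2 ≤ p ≤ n`. -/
def bigP (n : ℕ) : Finset ℕ := (range (n + 1)).filter fun p => p.Prime ∧ n + 4 ≤ 2 * p

lemma mem_bigP {n p : ℕ} : p ∈ bigP n ↔ p ≤ n ∧ p.Prime ∧ n + 4 ≤ 2 * p := by
  simp [bigP]

lemma centralBinom_le (m : ℕ) (hm : 2 < m) :
    centralBinom m ≤ (2 * m) ^ Nat.sqrt (2 * m) * 4 ^ (2 * m / 3) *
      ∏ p ∈ (range (2 * m + 1)).filter (fun p => p.Prime ∧ m < p), p := by
  have n2 : 1 ≤ 2 * m := by omega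
  let f := fun x => x ^ m.centralBinom.factorization x
  let S := (range (2 * m + 1)).filter Nat.Prime
  have e : ∏ x ∈ S, f x = centralBinom m := by
    rw [← m.prod_pow_factorization_centralBinom]
    refine prod_filter_of_ne fun p _ h => ?_
    contrapose h; dsimp only [f]
    rw [factorization_eq_zero_of_not_prime m.centralBinom h, _root_.pow_zero]
  have fle : ∀ p, p.Prime → ¬ p ≤ Nat.sqrt (2 * m) → f p ≤ p := fun p hp h =>
    (pow_right_mono₀ hp.one_lt.le
      (Nat.factorization_choose_le_one (sqrt_lt'.mp <| not_le.1 h))).trans (pow_one p).le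
  rw [← e, ← prod_filter_mul_prod_filter_not S (· ≤ Nat.sqrt (2 * m)),
    ← prod_filter_mul_prod_filter_not (S.filter (¬ · ≤ Nat.sqrt (2 * m))) (· ≤ m), mul_assoc]
  refine mul_le_mul' ?_ (mul_le_mul' ?_ ?_)
  · refine (prod_le_prod' fun p _ => (?_ : f p ≤ 2 * m)).trans ?_
    · exact pow_factorization_choose_le (by omega)
    have : (Icc 1 (Nat.sqrt (2 * m))).card = Nat.sqrt (2 * m) := by rw [card_Icc, Nat.add_sub_cancel]
    rw [prod_const]
    refine pow_right_mono₀ n2 ((card_le_card fun x hx => ?_).trans this.le)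
    obtain ⟨h1, h2⟩ := mem_filter.1 hx
    exact mem_Icc.mpr ⟨(mem_filter.1 h1).2.one_lt.le, h2⟩
  · refine le_trans ?_ (primorial_le_four_pow (2 * m / 3))
    rw [← prod_filter_mul_prod_filter_not _ (· ≤ 2 * m / 3), prod_eq_one (s := filter (¬ · ≤ 2 * m / 3) _),
      mul_one]
    · refine (prod_le_prod' fun p hp => (?_ : f p ≤ p)).trans ?_
      · simp only [S, mem_filter] at hp
        exact fle p hp.1.1.1.2 hp.1.1.2
      · refine prod_le_prod_of_subset_of_one_le' ?_ fun p hp _ => (mem_filter.1 hp).2.one_lt.le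
        intro p hp
        simp only [S, mem_filter, mem_range] at hp ⊢
        exact ⟨by omega, hp.1.1.1.2⟩
    · intro p hp
      simp only [S, mem_filter] at hp
      dsimp only [f]
      rw [factorization_centralBinom_of_two_mul_self_lt_three_mul hm hp.1.2 (by omega), _root_.pow_zero]
  · refine (prod_le_prod' fun p hp => (?_ : f p ≤ p)).trans ?_
    · simp only [S, mem_filter] at hp
      exact fle p hp.1.1.2 hp.1.2
    · refine prod_le_prod_of_subset_of_one_le' ?_ fun p hp _ => (mem_filter.1 hp).2.1.one_lt.le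
      intro p hp
      simp only [S, mem_filter, mem_range] at hp ⊢
      exact ⟨hp.1.1.1, hp.1.1.2, by omega⟩

lemma prod_split {n k : ℕ} (hn : 1 ≤ n) {S : Finset ℕ} (hS : ∀ p ∈ S, p ≤ n) (P : ℕ → Prop)
    [DecidablePred P] (hk : (S.filter fun p => ¬ P p).card ≤ k) :
    ∏ p ∈ S, p ≤ n ^ k * ∏ p ∈ S.filter P, p := by
  rw [← prod_filter_mul_prod_filter_not S P, mul_comm]
  refine mul_le_mul' ?_ le_rfl
  refine (prod_le_pow_card _ _ n fun p hp => hS p (mem_filter.1 hp).1).trans ?_
  exact pow_right_mono₀ hn hk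

lemma prod_bigP {n : ℕ} (hn : 6 ≤ n) : 4 ^ (n / 6) ≤ n ^ (Nat.sqrt n + 3) * ∏ p ∈ bigP n, p := by
  set m := n / 2 with hm
  have h1 := centralBinom_le m (by omega)
  have h2 := four_pow_le_two_mul_self_mul_centralBinom m (by omega)
  have h3 := prod_split (n := n) (k := 2) (by omega)
    (S := (range (2 * m + 1)).filter (fun p => p.Prime ∧ m < p))
    (fun p hp => by have := mem_range.1 (mem_filter.1 hp).1; omega) (fun p => n + 4 ≤ 2 * p) (by
      refine (card_le_card (t := Icc (m + 1) (m + 2)) fun p hp => ?_).trans (by simp)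
      simp only [mem_filter, mem_range, mem_Icc] at hp ⊢
      omega)
  have h4 : ∏ p ∈ ((range (2 * m + 1)).filter (fun p => p.Prime ∧ m < p)).filter
      (fun p => n + 4 ≤ 2 * p), p ≤ ∏ p ∈ bigP n, p := by
    refine prod_le_prod_of_subset_of_one_le' ?_ fun p hp _ => (mem_bigP.1 hp).2.1.one_lt.le
    intro p hp
    simp only [mem_filter, mem_range] at hp
    exact mem_bigP.2 ⟨by omega, hp.1.2.1, hp.2⟩
  have h5 : (2 * m) ^ Nat.sqrt (2 * m) ≤ n ^ Nat.sqrt n :=
    (Nat.pow_le_pow_left (by omega) _).trans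
      (pow_right_mono₀ (by omega) (Nat.sqrt_le_sqrt (by omega)))
  have h6 : 4 ^ (n / 6) * 4 ^ (2 * m / 3) ≤ 4 ^ m := by
    rw [← pow_add]; exact pow_right_mono₀ (by norm_num) (by omega)
  refine Nat.le_of_mul_le_mul_right (c := 4 ^ (2 * m / 3)) ?_ (by positivity)
  calc 4 ^ (n / 6) * 4 ^ (2 * m / 3) ≤ 2 * m * centralBinom m := h6.trans h2
    _ ≤ n * (n ^ Nat.sqrt n * 4 ^ (2 * m / 3) * (n ^ 2 * ∏ p ∈ bigP n, p)) := by
      refine mul_le_mul' (by omega) (h1.trans (mul_le_mul' (mul_le_mul' h5 le_rfl) ?_))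
      exact h3.trans (mul_le_mul' le_rfl h4)
    _ = _ := by ring

/-- No three members that are pairwise at least three apart. -/
def NoTriple (S : Finset ℕ) : Prop := ∀ p ∈ S, ∀ q ∈ S, ∀ r ∈ S, p + 3 ≤ q → q + 3 ≤ r → False

lemma NoTriple.card_le {S : Finset ℕ} (h : NoTriple S) : S.card ≤ 6 := by
  rcases S.eq_empty_or_nonempty with rfl | hS
  · simp
  obtain ⟨p, hp, hmin⟩ := exists_min_image S id hS
  simp only [id] at hmin
  rcases (S.filter fun q => p + 3 ≤ q).eq_empty_or_nonempty with h0 | h0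
  · refine (card_le_card (t := Icc p (p + 2)) fun x hx => ?_).trans (by simp; omega)
    have h1 := hmin x hx
    have h2 := filter_eq_empty_iff.1 h0 hx
    rw [mem_Icc]; omega
  · obtain ⟨q, hq, hmin'⟩ := exists_min_image _ id h0
    simp only [id, mem_filter] at hmin' hq
    refine (card_le_card (t := Icc p (p + 2) ∪ Icc q (q + 2)) fun x hx => ?_).trans
      ((card_union_le _ _).trans (by simp; omega))
    have h1 := hmin x hx
    have h2 : ¬ q + 3 ≤ x := h p hp q hq.1 x hx hq.2
    have h3 : p + 3 ≤ x → q ≤ x := fun h => hmin' x ⟨hx, h⟩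
    rw [mem_union, mem_Icc, mem_Icc]; omega

lemma sq_le_two_pow {j : ℕ} (hj : 12 ≤ j) : (4 * j + 4) ^ 2 ≤ 2 ^ j := by
  induction j, hj using Nat.le_induction with
  | base => norm_num
  | succ j hj ih => rw [pow_succ 2 j]; nlinarith

lemma triple {n : ℕ} (hn : 37 ≤ n) : ¬ NoTriple (bigP n) := by
  intro h
  have use : ∀ p q r : ℕ, p.Prime → q.Prime → r.Prime → p + 3 ≤ q → q + 3 ≤ r →
      n < r ∨ 2 * p < n + 4 := by
    intro p q r hp hq hr h1 h2
    by_contra hc
    exact h p (mem_bigP.2 ⟨by omega, hp, by omega⟩) q (mem_bigP.2 ⟨by omega, hq, by omega⟩)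
      r (mem_bigP.2 ⟨by omega, hr, by omega⟩) h1 h2
  have u1 := use 23 29 37 (by norm_num) (by norm_num) (by norm_num) (by norm_num) (by norm_num)
  have u2 := use 29 37 43 (by norm_num) (by norm_num) (by norm_num) (by norm_num) (by norm_num)
  have u3 := use 37 43 47 (by norm_num) (by norm_num) (by norm_num) (by norm_num) (by norm_num)
  have u4 := use 53 59 67 (by norm_num) (by norm_num) (by norm_num) (by norm_num) (by norm_num)
  have u5 := use 83 89 97 (by norm_num) (by norm_num) (by norm_num) (by norm_num) (by norm_num)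
  have u6 := use 149 157 163 (by norm_num) (by norm_num) (by norm_num) (by norm_num) (by norm_num)
  have u7 := use 271 277 281 (by norm_num) (by norm_num) (by norm_num) (by norm_num) (by norm_num)
  have u8 := use 503 509 521 (by norm_num) (by norm_num) (by norm_num) (by norm_num) (by norm_num)
  have u9 := use 983 991 997 (by norm_num) (by norm_num) (by norm_num) (by norm_num) (by norm_num)
  have u10 := use 1901 1907 1913 (by norm_num) (by norm_num) (by norm_num) (by norm_num)
    (by norm_num)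
  have hbig : 2304 ≤ n := by omega
  have h1 := prod_bigP (n := n) (by omega)
  have h2 : ∏ p ∈ bigP n, p ≤ n ^ 6 :=
    (prod_le_pow_card _ _ n fun p hp => (mem_bigP.1 hp).1).trans
      (pow_right_mono₀ (by omega) h.card_le)
  set k := Nat.sqrt n with hk
  have hk1 : n < (k + 1) * (k + 1) := Nat.lt_succ_sqrt n
  have hk2 : k * k ≤ n := Nat.sqrt_le n
  have hk3 : 48 ≤ k := Nat.le_sqrt.2 (by omega)
  have h3 : n ≤ 2 ^ (k / 4) := by
    refine le_trans ?_ (sq_le_two_pow (j := k / 4) (by omega))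
    have : k + 1 ≤ 4 * (k / 4) + 4 := by omega
    nlinarith
  have h4 : 2 ^ (2 * (n / 6)) ≤ 2 ^ (k / 4 * (k + 9)) := by
    calc 2 ^ (2 * (n / 6)) = 4 ^ (n / 6) := by rw [pow_mul]; norm_num
      _ ≤ n ^ (k + 3) * n ^ 6 := h1.trans (mul_le_mul' le_rfl h2)
      _ = n ^ (k + 9) := by ring
      _ ≤ (2 ^ (k / 4)) ^ (k + 9) := Nat.pow_le_pow_left h3 _
      _ = _ := by rw [← pow_mul]
  have h5 := (Nat.pow_le_pow_iff_right (by norm_num)).1 h4
  have h6 : 4 * (k / 4) ≤ k := by omega
  have h7 : n < 6 * (n / 6) + 6 := by omega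
  nlinarith

end Pool.Agent.P.MP_bfa556_co
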