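import Pool.Agent.P.MP_bfa556_co.CountAll
import Pool.Agent.P.MP_bfa556_co.Core
import Pool.Agent.P.MP_bfa556_co.Primes

open Equiv Equiv.Perm MulAction

namespace Pool.Agent.P.MP_bfa556_co

variable {n : ℕ} {e : Prop} {Y : Set (Perm (Fin n))}

/-- One parity half of `Y`. -/
def half (Y : Set (Perm (Fin n))) (ε : ℤˣ) : Set (Perm (Fin n)) := {y | y ∈ Y ∧ Perm.sign y = ε}

lemma Til.left (hT : Til e Y) {y : Perm (Fin n)} {a b c d : Fin n} (hab : a ≠ b) (hcd : c ≠ d)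
    (hy : y ∈ Y) (hy' : swap a b * swap c d * y ∈ Y) : swap a b = swap c d := by
  have key : ∀ (g : Perm (Fin n)) (u v : Fin n), g * swap (g⁻¹ u) (g⁻¹ v) = swap u v * g := by
    intro g u v; rw [mul_swap_eq_swap_mul]; simp
  have h := hT.uniq (swap c d * y) _ _ _ _ ((swap c d * y)⁻¹.injective.ne hab)
    ((swap c d * y)⁻¹.injective.ne hcd) (by rw [key, ← mul_assoc]; exact hy')
    (by rw [key, swap_mul_self_mul]; exact hy)
  have h2 := key (swap c d * y) a b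
  rw [h, key] at h2
  exact (mul_right_cancel h2).symm

lemma Til.three (hT : Til e Y) {y c : Perm (Fin n)} (hc : c.IsThreeCycle) (hy : y ∈ Y) :
    c * y ∉ Y := by
  intro h
  obtain ⟨a, ha, -⟩ := hc.isCycle
  have h1 := hc.eq_swap_mul_swap_iff_mem_support.2 (mem_support.2 ha)
  have h2 := hT.left (Ne.symm ha) (fun h => ha (c.injective h).symm) hy (by rw [← h1]; exact h)
  rw [← h2, swap_mul_self] at h1
  exact hc.ne_one h1

lemma Til.agree (hT : Til e Y) (hn : 3 ≤ n) (ε : ℤˣ) (I : Finset (Fin n)) (g : Perm (Fin n))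
    (hI : 2 * I.card + 2 ≤ n) : ∃ y ∈ half Y ε, ∀ x ∈ I, y x = g x := by
  classical
  obtain ⟨N, -, h⟩ := count2 hn hT
  have h1 := h ε I g hI
  have h2 := Nat.factorial_pos (n - I.card)
  rw [← h1] at h2
  obtain ⟨y, hy⟩ := Finset.card_pos.1 (Nat.pos_of_mul_pos_right h2)
  rw [Finset.mem_filter, mem_Ag] at hy
  exact ⟨y, hy.2, hy.1⟩

lemma Til.dvd (hT : Til e Y) (hn : 3 ≤ n) (ε : ℤˣ) {p : ℕ} (hp : p ∈ bigP n) :
    p ∣ (half Y ε).ncard := by
  classical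
  obtain ⟨h1, h2, h3⟩ := mem_bigP.1 hp
  obtain ⟨N, -, h⟩ := count2 hn hT
  have a := h ε ∅ 1 (by simp; omega)
  obtain ⟨I, -, hI⟩ := Finset.exists_subset_card_eq (s := (Finset.univ : Finset (Fin n)))
    (n := n + 1 - p) (by rw [Finset.card_univ, Fintype.card_fin]; omega)
  have b := h ε I 1 (by omega)
  have c : ¬ p ∣ N := fun hd => by
    have := hd.mul_left ((Ag I 1).filter fun y => y ∈ Y ∧ Perm.sign y = ε).card
    rw [b, h2.dvd_factorial] at this
    omega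
  have d : (half Y ε).ncard = ((Ag ∅ 1).filter fun y => y ∈ Y ∧ Perm.sign y = ε).card := by
    rw [← Set.ncard_coe_finset]
    congr 1
    ext y
    simp [half, Ag]
  rw [d]
  refine ((Nat.Prime.dvd_mul h2).1 ?_).resolve_right c
  rw [a, h2.dvd_factorial]
  simpa using h1

/-- Pairs of multipliers that preserve a set. -/
def pairs (Z : Set (Perm (Fin n))) : Subgroup (Perm (Fin n) × Perm (Fin n)) where
  carrier := {k | ∀ x, k.1 * x * k.2⁻¹ ∈ Z ↔ x ∈ Z}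
  mul_mem' := fun {a b} ha hb x => by
    rw [← hb x, ← ha (b.1 * x * b.2⁻¹)]
    simp only [Prod.fst_mul, Prod.snd_mul, mul_inv_rev, mul_assoc]
  one_mem' := fun x => by simp
  inv_mem' := fun {a} ha x => by
    rw [← ha]
    simp [mul_assoc]

lemma mem_pairs {Z : Set (Perm (Fin n))} {a b : Perm (Fin n)} :
    (a, b) ∈ pairs Z ↔ ∀ x, a * x * b⁻¹ ∈ Z ↔ x ∈ Z := Iff.rfl

/-- Every prescription of fewer than half of the values is met by an element of `Z`. -/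
def TT (Z : Set (Perm (Fin n))) : Prop :=
  ∀ (I : Finset (Fin n)) (g : Perm (Fin n)), 2 * I.card + 2 ≤ n → ∃ y ∈ Z, ∀ x ∈ I, y x = g x

lemma Til.H1 (hT : Til e Y) {Z : Set (Perm (Fin n))} (hZ : Z ⊆ Y) {w : Perm (Fin n)} (hw : w ∈ Z)
    (c : Perm (Fin n)) (hc : c.IsThreeCycle) : (c, 1) ∉ pairs Z := by
  intro h
  have := ((mem_pairs.1 h) w).2 hw
  rw [inv_one, mul_one] at this
  exact hT.three hc (hZ hw) (hZ this)

lemma Til.H2 (hT : Til e Y) {Z : Set (Perm (Fin n))} (hZ : Z ⊆ Y) {w : Perm (Fin n)} (hw : w ∈ Z)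
    (c : Perm (Fin n)) (hc : c.IsThreeCycle) : (1, c) ∉ pairs Z := by
  intro h
  have := ((mem_pairs.1 h) w).2 hw
  refine hT.three (c := w * c⁻¹ * w⁻¹) ?_ (hZ hw) (by simpa using hZ this)
  unfold IsThreeCycle
  rw [cycleType_conj, cycleType_inv]; exact hc

lemma Til.H3 (hT : Til e Y) {Z : Set (Perm (Fin n))} (hZ : Z ⊆ Y) (hA : TT Z)
    {c d : Perm (Fin n)} (h : (c, d) ∈ pairs Z) (hc : c.IsCycle) (hd : d.IsCycle)
    (he : c.support.card = d.support.card) (hl : 2 * c.support.card + 2 ≤ n) : False := by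
  have h2 := hc.two_le_card_support
  obtain ⟨i, hi, -⟩ := id hc
  obtain ⟨j, hj⟩ : (c.supportᶜ).Nonempty := by
    rw [← Finset.card_pos, Finset.card_compl, Fintype.card_fin]; omega
  rw [Finset.mem_compl, notMem_support] at hj
  have hij : i ≠ j := by rintro rfl; exact hi hj
  obtain ⟨g, hg⟩ := isConj_iff.1 (hd.isConj (hc.conj (g := swap i j))
    (by rw [card_support_conj, he]))
  obtain ⟨u, hu, hug⟩ := hA d.support g (by omega)
  have h3 : u * d * u⁻¹ = g * d * g⁻¹ := by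
    have h4 : g⁻¹ * u * d = d * (g⁻¹ * u) := by
      apply Perm.Disjoint.commute
      intro t
      by_cases ht : d t = t
      · exact Or.inr ht
      · left; rw [Perm.mul_apply, hug t (mem_support.2 ht)]; simp
    calc u * d * u⁻¹ = g * (g⁻¹ * u * d) * u⁻¹ := by group
      _ = g * d * g⁻¹ := by rw [h4]; group
  have h5 := ((mem_pairs.1 h) u).2 hu
  have h6 : c * u * d⁻¹ = swap (c i) j * swap i j * u := by
    have h7 : c * swap i j = swap (c i) j * c := by rw [mul_swap_eq_swap_mul, hj]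
    calc c * u * d⁻¹ = c * (u * d * u⁻¹)⁻¹ * u := by group
      _ = (c * swap i j) * c⁻¹ * (swap i j)⁻¹ * u := by rw [h3, hg]; group
      _ = _ := by rw [h7, swap_inv]; group
  rw [h6] at h5
  have hcij : c i ≠ j := fun h => hij (c.injective (h.trans hj.symm))
  have h8 := hT.left hcij hij (hZ hu) (hZ h5)
  have h9 : swap (c i) j j = swap i j j := by rw [h8]
  rw [swap_apply_right, swap_apply_right] at h9
  exact hi h9

lemma Til.no_three (hT : Til e Y) (hn : 3 ≤ n) (ε : ℤˣ) {p q r : ℕ}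
    (hp : p.Prime) (hq : q.Prime) (hr : r.Prime) (h0 : n + 2 ≤ 2 * p) (hpq : p + 3 ≤ q)
    (hqr : q + 3 ≤ r) {x y z : Perm (Fin n) × Perm (Fin n)} (hx : x ∈ pairs (half Y ε))
    (hy : y ∈ pairs (half Y ε)) (hz : z ∈ pairs (half Y ε)) (x1 : x ≠ 1) (y1 : y ≠ 1)
    (z1 : z ≠ 1) (xp : x ^ p = 1) (yq : y ^ q = 1) (zr : z ^ r = 1) : False := by
  obtain ⟨w, hw, -⟩ := hT.agree hn ε ∅ 1 (by simp; omega)
  have hZ : half Y ε ⊆ Y := fun _ h => h.1
  exact three_primes (B := n - p) hp hq hr hpq hqr (by rw [Fintype.card_fin]; omega)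
    (by rw [Fintype.card_fin]; omega) (hT.H1 hZ hw) (hT.H2 hZ hw)
    (fun c d h hc hd he hl => hT.H3 hZ (hT.agree hn ε) h hc hd he (by omega))
    hx hy hz x1 y1 z1 xp yq zr

lemma central (hn : 3 ≤ n) {a : Perm (Fin n)} (h : ∀ x, a * x = x * a) : a = 1 := by
  ext i
  by_contra hi
  have hi' : a i ≠ i := fun e => hi (by rw [e]; rfl)
  obtain ⟨j, hj⟩ : (({i, a i} : Finset (Fin n))ᶜ).Nonempty := by
    rw [← Finset.card_pos, Finset.card_compl, Fintype.card_fin]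
    have := Finset.card_le_two (a := i) (b := a i)
    omega
  simp only [Finset.mem_compl, Finset.mem_insert, Finset.mem_singleton, not_or] at hj
  have := congrArg (fun f : Perm (Fin n) => f i) (h (swap (a i) j))
  simp only [Perm.mul_apply, swap_apply_left] at this
  rw [swap_apply_of_ne_of_ne hi'.symm (Ne.symm hj.1)] at this
  exact hj.2 this.symm

/-- A prime dividing the order of a group of symmetries is the order of a pair of multipliers. -/
lemma pair_of_dvd (hn : 3 ≤ n) {Z : Set (Perm (Fin n))} {G : Subgroup (Perm (Perm (Fin n)))}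
    (hG : ∀ φ ∈ G, ∃ a b : Perm (Fin n), (∀ x, φ x = a * x * b) ∨ ∀ x, φ x = a * x⁻¹ * b)
    (hZ : ∀ φ ∈ G, ∀ x ∈ Z, φ x ∈ Z) {p : ℕ} (hp : p.Prime) (h2 : p ≠ 2) (hd : p ∣ Nat.card G) :
    ∃ k ∈ pairs Z, k ≠ 1 ∧ k ^ p = 1 := by
  have : Fact p.Prime := ⟨hp⟩
  obtain ⟨φ, hφ⟩ := exists_prime_orderOf_dvd_card' p hd
  have hψ : ∃ a b : Perm (Fin n), ∀ x, ((φ * φ : G) : Perm (Perm (Fin n))) x = a * x * b := by
    obtain ⟨a, b, h | h⟩ := hG φ φ.2
    · exact ⟨a * a, b * b, fun x => by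
        rw [Subgroup.coe_mul, Perm.mul_apply, h, h]; group⟩
    · exact ⟨a * b⁻¹, a⁻¹ * b, fun x => by
        rw [Subgroup.coe_mul, Perm.mul_apply, h, h]; group⟩
  obtain ⟨a, b, h⟩ := hψ
  have h1 : φ * φ ≠ 1 := fun e => by
    have := orderOf_dvd_of_pow_eq_one (n := 2) (x := φ) (by rw [sq]; exact e)
    rw [hφ] at this
    exact h2 ((Nat.prime_dvd_prime_iff_eq hp Nat.prime_two).1 this)
  have h3 : (φ * φ) ^ p = 1 := by rw [← sq, ← pow_mul, mul_comm, pow_mul, ← hφ, pow_orderOf_eq_one, one_pow]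
  obtain ⟨ψ, hψ⟩ : ∃ ψ, ψ = φ * φ := ⟨_, rfl⟩
  rw [← hψ] at h h1 h3
  have h4 : ∀ k : ℕ, ∀ x, ((ψ ^ k : G) : Perm (Perm (Fin n))) x = a ^ k * x * b ^ k := by
    intro k
    induction k with
    | zero => intro x; simp
    | succ k ih =>
      intro x
      rw [pow_succ, Subgroup.coe_mul, Perm.mul_apply, ih, h, pow_succ a, pow_succ' b]
      simp only [mul_assoc]
  have h5 : ∀ x, a ^ p * x * b ^ p = x := fun x => by rw [← h4, h3]; rfl
  have h6 : a ^ p * b ^ p = 1 := by simpa using h5 1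
  have h7 : a ^ p = 1 := central hn fun x => by
    calc a ^ p * x = a ^ p * x * (b ^ p * a ^ p) := by rw [mul_eq_one_comm.1 h6, mul_one]
      _ = x * a ^ p := by rw [← mul_assoc, h5]
  refine ⟨(a, b⁻¹), mem_pairs.2 fun x => ?_, fun e => h1 ?_, ?_⟩
  · rw [inv_inv, ← h]
    refine ⟨fun hx => ?_, hZ _ ψ.2 x⟩
    simpa using hZ _ (ψ⁻¹).2 _ hx
  · obtain ⟨e1, e2⟩ := Prod.ext_iff.1 e
    simp only [Prod.fst_one, Prod.snd_one, inv_eq_one] at e1 e2
    ext x : 2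
    rw [h, e1, e2]; simp
  · rw [h7, one_mul] at h6
    rw [Prod.pow_mk, h7, inv_pow, h6, inv_one]; rfl

lemma dvd_of_orbits {X : Type} [Finite X] {G : Subgroup (Perm X)} {Z : Set X}
    (hZ : ∀ φ ∈ G, ∀ x ∈ Z, φ x ∈ Z) {s : ℕ} (hs : ∀ y ∈ Z, s ∣ (orbit G y).ncard) :
    s ∣ Z.ncard := by
  classical
  have := Fintype.ofFinite X
  rw [Set.ncard_eq_toFinset_card', Finset.card_eq_sum_card_image (fun y => orbit G y)]
  refine Finset.dvd_sum fun O hO => ?_
  obtain ⟨y, hy, rfl⟩ := Finset.mem_image.1 hO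
  rw [Set.mem_toFinset] at hy
  refine (hs y hy).trans ?_
  rw [← Set.ncard_coe_finset]
  apply dvd_of_eq
  congr 1
  ext x
  simp only [Finset.coe_filter, Set.mem_toFinset, Set.mem_ofPred_eq, orbit_eq_iff]
  refine ⟨fun h => ⟨?_, h⟩, fun h => h.2⟩
  obtain ⟨φ, rfl⟩ := h
  exact hZ φ φ.2 y hy

lemma pairs_half {k : Perm (Fin n) × Perm (Fin n)} (hk : k ∈ pairs Y) {p : ℕ} (hp : Odd p)
    (h : k ^ p = 1) (ε : ℤˣ) : k ∈ pairs (half Y ε) := by
  have h1 : Perm.sign k.1 = 1 := sign_of_odd hp (congrArg Prod.fst h)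
  have h2 : Perm.sign k.2 = 1 := sign_of_odd hp (congrArg Prod.snd h)
  intro x
  have h3 : Perm.sign (k.1 * x * k.2⁻¹) = Perm.sign x := by simp [h1, h2]
  show (_ ∈ Y ∧ _) ↔ (_ ∈ Y ∧ _)
  rw [hk x, h3]

lemma ncard_halves (Y : Set (Perm (Fin n))) : Y.ncard = (half Y 1).ncard + (half Y (-1)).ncard := by
  rw [← Set.ncard_union_eq]
  · congr 1
    ext y
    rcases Int.units_eq_one_or (Perm.sign y) with h | h <;> simp [half, h]
  · rw [Set.disjoint_left]
    intro y h1 h2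
    exact absurd (h1.2.symm.trans h2.2) (by decide)

theorem sym_main (hT : Til e Y) (hn : 6 ≤ n) {Z : Set (Perm (Fin n))}
    (hY : Z = Y ∨ ∃ ε, Z = half Y ε) {G : Subgroup (Perm (Perm (Fin n)))}
    (hG : ∀ φ ∈ G, ∃ a b : Perm (Fin n), (∀ x, φ x = a * x * b) ∨ ∀ x, φ x = a * x⁻¹ * b)
    (hZ : ∀ φ ∈ G, ∀ x ∈ Z, φ x ∈ Z) :
    (∀ p q r : ℕ, p.Prime → q.Prime → r.Prime → n + 2 ≤ 2 * p → p + 3 ≤ q → q + 3 ≤ r →
      ¬ p * q * r ∣ Nat.card G) ∧
    ∀ s : ℕ, (∀ y ∈ Z, s ∣ (orbit G y).ncard) →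
      4 ^ (n / 6) / n ^ (Nat.sqrt n + 9) * s ≤ Z.ncard ∧
      (37 ≤ n → (n / 2 + 2) * s ≤ Z.ncard) := by
  obtain ⟨ε, F1, F2, w, hw⟩ : ∃ ε, (∀ k ∈ pairs Z, ∀ p, Odd p → k ^ p = 1 → k ∈ pairs (half Y ε)) ∧
      (∀ p ∈ bigP n, p ∣ Z.ncard) ∧ Z.Nonempty := by
    rcases hY with rfl | ⟨ε, rfl⟩
    · obtain ⟨w, hw, -⟩ := hT.agree (by omega) 1 ∅ 1 (by simp; omega)
      refine ⟨1, fun k hk p hp h => pairs_half hk hp h 1, fun p hp => ?_, w, hw.1⟩
      rw [ncard_halves]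
      exact dvd_add (hT.dvd (by omega) _ hp) (hT.dvd (by omega) _ hp)
    · obtain ⟨w, hw, -⟩ := hT.agree (by omega) ε ∅ 1 (by simp; omega)
      exact ⟨ε, fun k hk _ _ _ => hk, fun p hp => hT.dvd (by omega) ε hp, w, hw⟩
  have key : ∀ p q r : ℕ, p.Prime → q.Prime → r.Prime → n + 2 ≤ 2 * p → p + 3 ≤ q → q + 3 ≤ r →
      p ∣ Nat.card G → q ∣ Nat.card G → r ∣ Nat.card G → False := by
    intro p q r hp hq hr h0 h1 h2 dp dq dr
    obtain ⟨x, hx, x1, xp⟩ := pair_of_dvd (by omega) hG hZ hp (by omega) dp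
    obtain ⟨y, hy, y1, yq⟩ := pair_of_dvd (by omega) hG hZ hq (by omega) dq
    obtain ⟨z, hz, z1, zr⟩ := pair_of_dvd (by omega) hG hZ hr (by omega) dr
    exact hT.no_three (by omega) ε hp hq hr h0 h1 h2 (F1 x hx p (hp.odd_of_ne_two (by omega)) xp)
      (F1 y hy q (hq.odd_of_ne_two (by omega)) yq) (F1 z hz r (hr.odd_of_ne_two (by omega)) zr)
      x1 y1 z1 xp yq zr
  refine ⟨fun p q r hp hq hr h0 h1 h2 hd => key p q r hp hq hr h0 h1 h2
    (((dvd_mul_right p q).mul_right r).trans hd) (((dvd_mul_left q p).mul_right r).trans hd)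
    ((dvd_mul_left r _).trans hd), fun s hs => ?_⟩
  obtain ⟨t, ht⟩ := dvd_of_orbits hZ hs
  have hpos : 0 < Z.ncard := (Set.ncard_pos (Set.toFinite _)).2 ⟨w, hw⟩
  have ht0 : 0 < t := Nat.pos_of_mul_pos_left (ht ▸ hpos)
  have hsG : s ∣ Nat.card G := by
    refine (hs w hw).trans ?_
    rw [← index_stabilizer]; exact Subgroup.index_dvd_card _
  have hgood : ∀ p ∈ bigP n, ¬ p ∣ Nat.card G → p ∣ t := fun p hp h =>
    (((mem_bigP.1 hp).2.1.dvd_mul).1 (ht ▸ F2 p hp)).resolve_left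
      fun h' => h (h'.trans hsG)
  have hbad : NoTriple ((bigP n).filter fun p => ¬ ¬ p ∣ Nat.card G) := by
    intro p hp q hq r hr h1 h2
    simp only [Finset.mem_filter, mem_bigP, not_not] at hp hq hr
    exact key p q r hp.1.2.1 hq.1.2.1 hr.1.2.1 (by omega) h1 h2 hp.2 hq.2 hr.2
  constructor
  · have h1 := prod_bigP hn
    have h2 := prod_split (n := n) (by omega) (fun p hp => (mem_bigP.1 hp).1) _ hbad.card_le
    have h3 : ∏ p ∈ (bigP n).filter (fun p => ¬ p ∣ Nat.card G), p ≤ t :=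
      Nat.le_of_dvd ht0 (Finset.prod_primes_dvd t
        (fun p hp => (mem_bigP.1 (Finset.mem_filter.1 hp).1).2.1.prime)
        fun p hp => hgood p (Finset.mem_filter.1 hp).1 (Finset.mem_filter.1 hp).2)
    rw [ht, mul_comm s]
    refine mul_le_mul' (Nat.div_le_of_le_mul ?_) le_rfl
    calc 4 ^ (n / 6) ≤ n ^ (Nat.sqrt n + 3) * (n ^ 6 * t) :=
          h1.trans (mul_le_mul' le_rfl (h2.trans (mul_le_mul' le_rfl h3)))
      _ = _ := by ring
  · intro h37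
    obtain ⟨p, hp, hd⟩ : ∃ p ∈ bigP n, ¬ p ∣ Nat.card G := by
      by_contra hc
      push Not at hc
      apply triple h37
      rwa [Finset.filter_true_of_mem fun p hp => not_not.2 (hc p hp)] at hbad
    have h1 := Nat.le_of_dvd ht0 (hgood p hp hd)
    have h2 := (mem_bigP.1 hp).2.2
    rw [ht, mul_comm s]
    exact mul_le_mul' (by omega) le_rfl

end Pool.Agent.P.MP_bfa556_co
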