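import Mathlib

open Finset Equiv

namespace Pool.Agent.P.MP_bfa556_co

variable {n : ℕ}

/-- `h` only depends on the values on `I`. -/
def Det (I : Finset (Fin n)) (h : Perm (Fin n) → ℝ) : Prop :=
  ∀ g g' : Perm (Fin n), (∀ x ∈ I, g x = g' x) → h g = h g'

/-- Sum over ordered pairs of distinct positions. -/
def KK (h : Perm (Fin n) → ℝ) (g : Perm (Fin n)) : ℝ :=
  ∑ p : Fin n, ∑ q ∈ univ.erase p, h (g * swap p q)

lemma sum_shift (h : Perm (Fin n) → ℝ) (u : Perm (Fin n)) : ∑ g, h (g * u) = ∑ g, h g :=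
  Equiv.sum_comp (Equiv.mulRight u) h

lemma Q_ge (h : Perm (Fin n) → ℝ) (u : Perm (Fin n)) :
    -(∑ g, h g ^ 2) ≤ ∑ g, h g * h (g * u) := by
  have h1 := sum_shift (fun g => h g ^ 2) u
  have h2 : 0 ≤ ∑ g, (h g + h (g * u)) ^ 2 := sum_nonneg fun g _ => sq_nonneg _
  have h3 : ∑ g, (h g + h (g * u)) ^ 2
      = ∑ g, h g ^ 2 + 2 * ∑ g, h g * h (g * u) + ∑ g, h (g * u) ^ 2 := by
    rw [mul_sum, ← sum_add_distrib, ← sum_add_distrib]
    exact sum_congr rfl fun g _ => by ring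
  linarith

lemma Q_out {I : Finset (Fin n)} {h : Perm (Fin n) → ℝ} (hd : Det I h) {p q : Fin n}
    (hp : p ∉ I) (hq : q ∉ I) : ∑ g, h g * h (g * swap p q) = ∑ g, h g ^ 2 := by
  refine sum_congr rfl fun g _ => ?_
  rw [hd (g * swap p q) g, sq]
  intro x hx
  rw [Perm.mul_apply, swap_apply_of_ne_of_ne (by rintro rfl; exact hp hx) (by rintro rfl; exact hq hx)]

lemma Q_star {I : Finset (Fin n)} {h : Perm (Fin n) → ℝ} (hd : Det I h) {p : Fin n} (hp : p ∈ I) :
    -(∑ g, h g ^ 2) ≤ ∑ q ∈ Iᶜ, ∑ g, h g * h (g * swap p q) := by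
  set J : Finset (Fin n) := insert p Iᶜ with hJ
  set G : Perm (Fin n) → ℝ := fun g => ∑ q ∈ J, h (g * swap p q) with hG
  have hpJ : p ∈ J := mem_insert_self _ _
  have hmem : ∀ x, x ∈ J ↔ x = p ∨ x ∉ I := by intro x; simp [hJ]
  have hinv : ∀ r ∈ J, ∀ g, G (g * swap p r) = G g := by
    intro r hr g
    simp only [hG]
    have hsw : ∀ x, x ∈ J → swap p r x ∈ J := by
      intro x hx
      rw [swap_apply_def]; split_ifs <;> assumption
    refine sum_bij' (fun q _ => swap p r q) (fun q _ => swap p r q) (fun q hq => hsw q hq)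
      (fun q hq => hsw q hq) (fun q _ => swap_apply_self _ _ _) (fun q _ => swap_apply_self _ _ _) ?_
    intro q hq
    apply hd
    intro x hx
    by_cases hxp : x = p
    · subst hxp; simp
    · have hn : ∀ y ∈ J, x ≠ y := by
        rintro y hy rfl
        rcases (hmem _).1 hy with h1 | h1
        · exact hxp h1
        · exact h1 hx
      simp only [Perm.mul_apply]
      rw [swap_apply_of_ne_of_ne hxp (hn q hq), swap_apply_of_ne_of_ne hxp (hn r hr),
        swap_apply_of_ne_of_ne hxp (hn _ (hsw q hq))]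
  have h1 : ∀ r ∈ J, ∑ g, h g * G g = ∑ g, h (g * swap p r) * G g := by
    intro r hr
    rw [← sum_shift (fun g => h g * G g) (swap p r)]
    exact sum_congr rfl fun g _ => by simp only [hinv r hr g]
  have h2 : (J.card : ℝ) * ∑ g, h g * G g = ∑ g, G g ^ 2 := by
    rw [← nsmul_eq_mul, ← sum_const, sum_congr rfl h1, sum_comm]
    refine sum_congr rfl fun g _ => ?_
    rw [← sum_mul, sq]
  have h3 : 0 ≤ ∑ g, h g * G g := by
    have hc : (0 : ℝ) < J.card := by exact_mod_cast card_pos.2 ⟨p, hpJ⟩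
    have : 0 ≤ (J.card : ℝ) * ∑ g, h g * G g := h2 ▸ sum_nonneg fun g _ => sq_nonneg _
    exact (mul_nonneg_iff_of_pos_left hc).1 this
  have h4 : ∑ g, h g * G g = ∑ g, h g ^ 2 + ∑ q ∈ Iᶜ, ∑ g, h g * h (g * swap p q) := by
    rw [sum_comm, ← sum_add_distrib]
    refine sum_congr rfl fun g _ => ?_
    simp only [hG, hJ]
    rw [sum_insert (by simpa using hp), mul_add, mul_sum, swap_self, ← Perm.one_def, mul_one, sq]
  linarith

lemma form_ge {I : Finset (Fin n)} {h : Perm (Fin n) → ℝ} (hd : Det I h) :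
    (((n : ℝ) - I.card) * ((n : ℝ) - I.card - 1) - I.card * (I.card + 1)) * ∑ g, h g ^ 2
      ≤ ∑ g, h g * KK h g := by
  set H := ∑ g, h g ^ 2 with hH
  set Q : Fin n → Fin n → ℝ := fun p q => ∑ g, h g * h (g * swap p q) with hQ
  have e1 : ∑ g, h g * KK h g = ∑ p, ∑ q ∈ univ.erase p, Q p q := by
    simp only [KK, mul_sum, hQ]
    rw [sum_comm]
    exact sum_congr rfl fun p _ => sum_comm
  have hQd : ∀ p, Q p p = H := by
    intro p; simp only [hQ, hH, sq, swap_self, ← Perm.one_def, mul_one]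
  have e2 : ∀ p, ∑ q ∈ univ.erase p, Q p q = ∑ q ∈ I, Q p q + ∑ q ∈ Iᶜ, Q p q - H := by
    intro p
    rw [sum_add_sum_compl, ← add_sum_erase _ _ (mem_univ p), hQd]; ring
  have hc : ((Iᶜ).card : ℝ) = n - I.card := by
    have := card_add_card_compl I
    rw [Fintype.card_fin] at this
    have h' : (I.card : ℝ) + (Iᶜ).card = n := by exact_mod_cast this
    linarith
  have a1 : ∀ p ∈ I, -((I.card : ℝ) - 2) * H ≤ ∑ q ∈ I, Q p q := by
    intro p hp
    rw [← add_sum_erase _ _ hp, hQd]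
    have : ∑ q ∈ I.erase p, (-H) ≤ ∑ q ∈ I.erase p, Q p q := sum_le_sum fun q _ => Q_ge h _
    rw [sum_const, nsmul_eq_mul, cast_card_erase_of_mem hp] at this
    linarith
  have a2 : -(I.card : ℝ) * H ≤ ∑ p ∈ I, ∑ q ∈ Iᶜ, Q p q := by
    have : ∑ p ∈ I, (-H) ≤ ∑ p ∈ I, ∑ q ∈ Iᶜ, Q p q := sum_le_sum fun p hp => Q_star hd hp
    rw [sum_const, nsmul_eq_mul] at this
    linarith
  have a3 : ∑ p ∈ Iᶜ, ∑ q ∈ I, Q p q = ∑ p ∈ I, ∑ q ∈ Iᶜ, Q p q := by
    rw [sum_comm]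
    exact sum_congr rfl fun p _ => sum_congr rfl fun q _ => by simp only [hQ, swap_comm]
  have a4 : ∑ p ∈ Iᶜ, ∑ q ∈ Iᶜ, Q p q = ((n : ℝ) - I.card) * (((n : ℝ) - I.card) * H) := by
    rw [sum_congr rfl fun p hp => sum_congr rfl fun q hq =>
      Q_out hd (mem_compl.1 hp) (mem_compl.1 hq)]
    simp only [sum_const, nsmul_eq_mul, hc, hH]
  have a5 : (I.card : ℝ) * (-((I.card : ℝ) - 2) * H) ≤ ∑ p ∈ I, ∑ q ∈ I, Q p q := by
    have := sum_le_sum a1
    rwa [sum_const, nsmul_eq_mul] at this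
  rw [e1, sum_congr rfl fun p _ => e2 p, sum_sub_distrib, sum_add_distrib,
    ← sum_add_sum_compl I, ← sum_add_sum_compl I (fun p => ∑ q ∈ Iᶜ, Q p q), a3, a4]
  simp only [sum_const, card_univ, Fintype.card_fin, nsmul_eq_mul]
  nlinarith

/-- Injectivity of `KK + e` on functions determined by at most eight values. -/
lemma inj {I : Finset (Fin n)} (hn : 26 ≤ n) (hI : I.card ≤ 8) {h : Perm (Fin n) → ℝ}
    (hd : Det I h) {e : ℝ} (he : -2 ≤ e) (h0 : ∀ g, e * h g + KK h g = 0) (g : Perm (Fin n)) :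
    h g = 0 := by
  have h1 := form_ge hd
  have h2 : ∑ g, h g * KK h g = -e * ∑ g, h g ^ 2 := by
    rw [mul_sum]
    exact sum_congr rfl fun g _ => by rw [show KK h g = -(e * h g) by linarith [h0 g]]; ring
  have hn' : (26 : ℝ) ≤ n := by exact_mod_cast hn
  have hI' : (I.card : ℝ) ≤ 8 := by exact_mod_cast hI
  have hI0 : (0 : ℝ) ≤ I.card := Nat.cast_nonneg _
  have hH : 0 ≤ ∑ g, h g ^ 2 := sum_nonneg fun g _ => sq_nonneg _
  have hc : 0 < ((n : ℝ) - I.card) * ((n : ℝ) - I.card - 1) - I.card * (I.card + 1) + e := by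
    nlinarith
  have hz : ∑ g, h g ^ 2 = 0 := by nlinarith
  have := (sum_eq_zero_iff_of_nonneg fun g _ => sq_nonneg (h g)).1 hz g (mem_univ _)
  simpa using this

end Pool.Agent.P.MP_bfa556_co
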