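import Mathlib

open Finset Equiv

namespace Pool.Agent.P.MP_bfa556_co.U

variable {n : ℕ}

/-- `f` depends only on the values of the permutation outside `M`. -/
def Out (M : Finset (Fin n)) (f : Perm (Fin n) → ℝ) : Prop :=
  ∀ x x' : Perm (Fin n), (∀ i, i ∉ M → x i = x' i) → f x = f x'

lemma Out.mono {M M' : Finset (Fin n)} {f : Perm (Fin n) → ℝ} (h : Out M' f) (hM : M ⊆ M') :
    Out M f := fun x x' hx => h x x' fun i hi => hx i fun h' => hi (hM h')

lemma sum_in_eq (M : Finset (Fin n)) (h : Fin n → ℝ) (x x' : Perm (Fin n))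
    (hx : ∀ i, i ∉ M → x i = x' i) : ∑ i ∈ M, h (x i) = ∑ i ∈ M, h (x' i) := by
  have h1 := sum_add_sum_compl M fun i => h (x i)
  have h2 := sum_add_sum_compl M fun i => h (x' i)
  have h3 : ∑ i ∈ Mᶜ, h (x i) = ∑ i ∈ Mᶜ, h (x' i) :=
    sum_congr rfl fun i hi => by rw [hx i (mem_compl.1 hi)]
  have h4 : ∑ i, h (x i) = ∑ i, h i := Equiv.sum_comp x h
  have h5 : ∑ i, h (x' i) = ∑ i, h i := Equiv.sum_comp x' h
  linarith

/-- The average of `F x` over the values that `x` takes on `M`. -/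
noncomputable def pv (M : Finset (Fin n)) (F : Perm (Fin n) → Fin n → ℝ) (x : Perm (Fin n)) : ℝ :=
  (∑ i ∈ M, F x (x i)) / M.card

lemma pv_out {M : Finset (Fin n)} {F : Perm (Fin n) → Fin n → ℝ}
    (hF : ∀ a, Out M fun x => F x a) : Out M (pv M F) := by
  intro x x' hx
  have : F x = F x' := funext fun a => hF a x x' hx
  unfold pv
  rw [this, sum_in_eq M (F x') x x' hx]

lemma pv_mem {M : Finset (Fin n)} {F : Perm (Fin n) → Fin n → ℝ}
    (h0 : ∀ x a, 0 ≤ F x a) (h1 : ∀ x a, F x a ≤ 1) (x : Perm (Fin n)) :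
    0 ≤ pv M F x ∧ pv M F x ≤ 1 := by
  unfold pv
  refine ⟨div_nonneg (sum_nonneg fun i _ => h0 _ _) (Nat.cast_nonneg _), ?_⟩
  refine div_le_one_of_le₀ ?_ (Nat.cast_nonneg _)
  calc ∑ i ∈ M, F x (x i) ≤ ∑ _i ∈ M, (1 : ℝ) := sum_le_sum fun i _ => h1 _ _
    _ = M.card := by simp

lemma step {M : Finset (Fin n)} {r : Fin n} (hr : r ∈ M) {F : Perm (Fin n) → Fin n → ℝ}
    (hF : ∀ a, Out M fun x => F x a) {R : Perm (Fin n) → ℝ} (hR : Out M R) (l : ℝ) :
    ∑ x, (1 + l * (F x (x r) - pv M F x)) * R x = ∑ x, R x := by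
  have key : ∀ i ∈ M, ∑ x : Perm (Fin n), F x (x i) * R x = ∑ x : Perm (Fin n), F x (x r) * R x := by
    intro i hi
    refine (Fintype.sum_equiv (Equiv.mulRight (swap r i)) _ _ fun x => ?_)
    have ag : ∀ j, j ∉ M → x j = (x * swap r i) j := fun j hj => by
      have a1 : j ≠ r := by rintro rfl; exact hj hr
      have a2 : j ≠ i := by rintro rfl; exact hj hi
      rw [Perm.mul_apply, swap_apply_of_ne_of_ne a1 a2]
    simp only [Equiv.coe_mulRight]
    rw [← hR x _ ag, Perm.mul_apply, swap_apply_left]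
    exact congrArg (· * R x) (hF (x i) x _ ag)
  have hc : (M.card : ℝ) ≠ 0 := Nat.cast_ne_zero.2 (card_ne_zero.2 ⟨r, hr⟩)
  have h2 : ∑ x, pv M F x * R x = ∑ x : Perm (Fin n), F x (x r) * R x := by
    have : ∀ x, pv M F x * R x = (∑ i ∈ M, F x (x i) * R x) / M.card := fun x => by
      unfold pv; rw [← sum_mul]; ring
    simp only [this]
    rw [← sum_div, sum_comm, sum_congr rfl key, sum_const, nsmul_eq_mul]
    field_simp
  have : ∀ x : Perm (Fin n), (1 + l * (F x (x r) - pv M F x)) * R x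
      = R x + l * (F x (x r) * R x) - l * (pv M F x * R x) := fun x => by ring
  simp only [this]
  rw [sum_sub_distrib, sum_add_distrib, ← mul_sum, ← mul_sum, h2]
  ring

/-- A chain of row sets with one new row named at each step. -/
structure Chain (K : ℕ) (M : ℕ → Finset (Fin n)) (r : ℕ → Fin n) : Prop where
  mem : ∀ k < K, r k ∈ M (k + 1)
  nmem : ∀ k < K, r k ∉ M k
  sub : ∀ k < K, M k ⊆ M (k + 1)

lemma kraft {M : ℕ → Finset (Fin n)} {r : ℕ → Fin n} {F : ℕ → Perm (Fin n) → Fin n → ℝ} (l : ℝ) :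
    ∀ K : ℕ, Chain K M r → (∀ k < K, ∀ a, Out (M (k + 1)) fun x => F k x a) →
      ∀ R : Perm (Fin n) → ℝ, Out (M K) R →
      ∑ x, (∏ k ∈ range K, (1 + l * (F k x (x (r k)) - pv (M (k + 1)) (F k) x))) * R x
        = ∑ x, R x := by
  intro K
  induction K with
  | zero => intro _ _ R _; simp
  | succ K ih =>
    intro hc hF R hR
    have hK : K < K + 1 := Nat.lt_succ_self K
    have h1 := ih ⟨fun k hk => hc.mem k (by omega), fun k hk => hc.nmem k (by omega),
      fun k hk => hc.sub k (by omega)⟩ (fun k hk => hF k (by omega))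
      (fun x => (1 + l * (F K x (x (r K)) - pv (M (K + 1)) (F K) x)) * R x) (by
        intro x x' hx
        have hx' : ∀ i, i ∉ M (K + 1) → x i = x' i := fun i hi => hx i fun h => hi (hc.sub K hK h)
        have e1 : F K x = F K x' := funext fun a => hF K hK a x x' hx'
        simp only
        rw [pv_out (hF K hK) x x' hx', hR x x' hx', e1, hx _ (hc.nmem K hK)])
    rw [← step (hc.mem K hK) (hF K hK) hR l, ← h1]
    refine sum_congr rfl fun x _ => ?_
    rw [prod_range_succ]; ring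

lemma log_lower {y : ℝ} (h1 : -1 / 2 ≤ y) : y - 2 * y ^ 2 ≤ Real.log (1 + y) := by
  have hp : 0 < 1 + y := by linarith
  refine le_trans ?_ (Real.one_sub_inv_le_log_of_pos hp)
  have : 1 - (1 + y)⁻¹ = y / (1 + y) := by field_simp; ring
  rw [this, le_div_iff₀ hp]
  nlinarith [sq_nonneg y]

theorem lu {A : Type*} {K : ℕ} {M : ℕ → Finset (Fin n)} {r : ℕ → Fin n} (hc : Chain K M r)
    (X : Finset (Perm (Fin n))) (cl : Perm (Fin n) → A) (T : Finset A)
    (hcl : ∀ x ∈ X, cl x ∈ T) {L : ℝ} (hL : (T.card : ℝ) * n.factorial ≤ Real.exp L * X.card)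
    (F : A → ℕ → Perm (Fin n) → Fin n → ℝ) (h0 : ∀ t k x a, 0 ≤ F t k x a)
    (h1 : ∀ t k x a, F t k x a ≤ 1) (hF : ∀ t, ∀ k < K, ∀ a, Out (M (k + 1)) fun x => F t k x a)
    {l : ℝ} (hl0 : 0 < l) (hl1 : l ≤ 1 / 2) :
    ∑ x ∈ X, ∑ k ∈ range K, (F (cl x) k x (x (r k)) - pv (M (k + 1)) (F (cl x) k) x)
      ≤ X.card * (2 * l * K + L / l) := by
  set D : A → ℕ → Perm (Fin n) → ℝ :=
    fun t k x => F t k x (x (r k)) - pv (M (k + 1)) (F t k) x with hD
  have hD1 : ∀ t k x, -1 ≤ D t k x ∧ D t k x ≤ 1 := fun t k x => by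
    have := pv_mem (M := M (k + 1)) (h0 t k) (h1 t k) x
    have a := h0 t k x (x (r k)); have b := h1 t k x (x (r k))
    simp only [hD]; constructor <;> linarith [this.1, this.2]
  have hy : ∀ t k x, -1 / 2 ≤ l * D t k x := fun t k x => by nlinarith [(hD1 t k x).1]
  have hpos : ∀ t k x, 0 < 1 + l * D t k x := fun t k x => by linarith [hy t k x]
  set P : A → Perm (Fin n) → ℝ := fun t x => ∏ k ∈ range K, (1 + l * D t k x) with hP
  have hPpos : ∀ t x, 0 < P t x := fun t x => prod_pos fun k _ => hpos t k x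
  have hsum : ∀ t, ∑ x, P t x = n.factorial := fun t => by
    have := kraft l K hc (hF t) (fun _ => 1) (fun _ _ _ => rfl)
    simp only [mul_one, sum_const, card_univ, Fintype.card_perm, Fintype.card_fin,
      nsmul_eq_mul] at this
    exact this
  have hS : ∑ x ∈ X, P (cl x) x ≤ Real.exp L * X.card := by
    refine le_trans ?_ hL
    calc ∑ x ∈ X, P (cl x) x ≤ ∑ x ∈ X, ∑ t ∈ T, P t x :=
          sum_le_sum fun x hx => single_le_sum (f := fun t => P t x)
            (fun t _ => (hPpos t x).le) (hcl x hx)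
      _ ≤ ∑ x, ∑ t ∈ T, P t x := sum_le_sum_of_subset_of_nonneg (subset_univ _)
            fun x _ _ => sum_nonneg fun t _ => (hPpos t x).le
      _ = T.card * n.factorial := by
          rw [sum_comm, sum_congr rfl fun t _ => hsum t, sum_const, nsmul_eq_mul]
  have hlog : ∀ t x, Real.log (P t x) ≤ L + (P t x / Real.exp L - 1) := fun t x => by
    have := Real.log_le_sub_one_of_pos (div_pos (hPpos t x) (Real.exp_pos L))
    rw [Real.log_div (hPpos t x).ne' (Real.exp_pos L).ne', Real.log_exp] at this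
    linarith
  have hlow : ∀ t x, l * ∑ k ∈ range K, D t k x - 2 * l ^ 2 * K ≤ Real.log (P t x) := fun t x => by
    rw [hP]; simp only
    rw [Real.log_prod (fun k _ => (hpos t k x).ne'), mul_sum]
    have : (2 * l ^ 2 * K : ℝ) = ∑ _k ∈ range K, 2 * l ^ 2 := by simp; ring
    rw [this, ← sum_sub_distrib]
    refine sum_le_sum fun k _ => le_trans ?_ (log_lower (hy t k x))
    have h2 : D t k x ^ 2 ≤ 1 := by nlinarith [(hD1 t k x).1, (hD1 t k x).2]
    nlinarith [sq_nonneg l]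
  have h3 : ∑ x ∈ X, (l * ∑ k ∈ range K, D (cl x) k x - 2 * l ^ 2 * K)
      ≤ ∑ x ∈ X, (L + (P (cl x) x / Real.exp L - 1)) :=
    sum_le_sum fun x _ => (hlow _ x).trans (hlog _ x)
  rw [sum_sub_distrib, ← mul_sum, sum_add_distrib, sum_sub_distrib, ← sum_div] at h3
  simp only [sum_const, nsmul_eq_mul, mul_one] at h3
  have h4 : (∑ x ∈ X, P (cl x) x) / Real.exp L ≤ X.card := by
    rw [div_le_iff₀ (Real.exp_pos L)]; linarith
  have h5 : l * ∑ x ∈ X, ∑ k ∈ range K, D (cl x) k x ≤ l * (X.card * (2 * l * K + L / l)) := by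
    have : l * (X.card * (2 * l * K + L / l)) = X.card * (2 * l ^ 2 * K) + X.card * L := by
      field_simp
    rw [this]; linarith
  exact le_of_mul_le_mul_left h5 hl0

end Pool.Agent.P.MP_bfa556_co.U
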