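import Pool.Agent.P.MP_bfa556_co.U1

open Finset Equiv
open scoped BigOperators

namespace Pool.Agent.P.MP_bfa556_co.U

variable {n : ℕ}

open Classical in
/-- The indicator of a proposition. -/
noncomputable def ind (p : Prop) : ℝ := if p then 1 else 0

lemma ind_pos {p : Prop} (h : p) : ind p = 1 := by simp [ind, h]
lemma ind_neg {p : Prop} (h : ¬ p) : ind p = 0 := by simp [ind, h]
lemma ind_nonneg (p : Prop) : 0 ≤ ind p := by unfold ind; split_ifs <;> norm_num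
lemma ind_le_one (p : Prop) : ind p ≤ 1 := by unfold ind; split_ifs <;> norm_num
lemma ind_mono {p q : Prop} (h : p → q) : ind p ≤ ind q := by
  by_cases hp : p
  · rw [ind_pos hp, ind_pos (h hp)]
  · rw [ind_neg hp]; exact ind_nonneg q
lemma ind_congr {p q : Prop} (h : p ↔ q) : ind p = ind q := by rw [propext h]
lemma ind_le {p : Prop} {c : ℝ} (h0 : 0 ≤ c) (h : p → 1 ≤ c) : ind p ≤ c := by
  by_cases hp : p
  · rw [ind_pos hp]; exact h hp
  · rw [ind_neg hp]; exact h0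
lemma ind_and (p q : Prop) : ind (p ∧ q) = ind p * ind q := by
  by_cases hp : p <;> by_cases hq : q <;> simp [ind, hp, hq]
lemma ind_not (p : Prop) : ind (¬ p) = 1 - ind p := by
  by_cases hp : p <;> simp [ind, hp]

lemma sum_ind_mem (B S : Finset (Fin n)) (σ : Perm (Fin n)) :
    ∑ j ∈ S, ind (σ j ∈ B) ≤ B.card := by
  calc ∑ j ∈ S, ind (σ j ∈ B) ≤ ∑ j, ind (σ j ∈ B) :=
        sum_le_sum_of_subset_of_nonneg (subset_univ _) fun _ _ _ => ind_nonneg _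
    _ = ∑ j, ind (j ∈ B) := Equiv.sum_comp σ fun j => ind (j ∈ B)
    _ = B.card := by
        rw [← sum_add_sum_compl B, sum_congr rfl fun j hj => ind_pos hj,
          sum_eq_zero fun j hj => ind_neg (mem_compl.1 hj)]
        simp

lemma ex_le_one {ι : Type*} (s : Finset ι) {f : ι → ℝ} (h : ∀ i, f i ≤ 1) : 𝔼 i ∈ s, f i ≤ 1 := by
  rcases s.eq_empty_or_nonempty with rfl | hs
  · simp
  · exact expect_le hs fun i _ => h i

lemma ex_nonneg {ι : Type*} (s : Finset ι) {f : ι → ℝ} (h : ∀ i, 0 ≤ f i) : 0 ≤ 𝔼 i ∈ s, f i :=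
  expect_nonneg fun i _ => h i

lemma ex_mono {ι : Type*} (s : Finset ι) {f g : ι → ℝ} (h : ∀ i, f i ≤ g i) :
    𝔼 i ∈ s, f i ≤ 𝔼 i ∈ s, g i := expect_le_expect fun i _ => h i

lemma sym (Ψ : Perm (Fin n) → Fin n → ℝ) (i j : Fin n) (h : ∀ σ, Ψ (σ * swap i j) = Ψ σ) :
    𝔼 σ : Perm (Fin n), Ψ σ (σ i) = 𝔼 σ : Perm (Fin n), Ψ σ (σ j) := by
  refine Fintype.expect_equiv (Equiv.mulRight (swap i j)) _ _ fun σ => ?_
  simp only [Equiv.coe_mulRight]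
  rw [h, Perm.mul_apply, swap_apply_right]

lemma ex_comp (σ : Perm (Fin n)) (h : Fin n → ℝ) : 𝔼 i, h (σ i) = 𝔼 i, h i :=
  Fintype.expect_equiv σ _ _ fun _ => rfl

lemma unif (h : Fin n → ℝ) (i : Fin n) : 𝔼 σ : Perm (Fin n), h (σ i) = 𝔼 r, h r := by
  have : Nonempty (Fin n) := ⟨i⟩
  have h1 : ∀ j, 𝔼 σ : Perm (Fin n), h (σ j) = 𝔼 σ : Perm (Fin n), h (σ i) :=
    fun j => sym (fun _ => h) j i fun _ => rfl
  calc 𝔼 σ : Perm (Fin n), h (σ i) = 𝔼 j : Fin n, 𝔼 σ : Perm (Fin n), h (σ j) := by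
        simp only [h1]; rw [Fintype.expect_const]
    _ = 𝔼 σ : Perm (Fin n), 𝔼 j : Fin n, h (σ j) := expect_comm _ _ _
    _ = 𝔼 r, h r := by simp only [ex_comp]; rw [Fintype.expect_const]

lemma hit (hn : 3 ≤ n) {b : ℕ} (Bc : Fin n → Fin n → Finset (Fin n))
    (hB : ∀ r r', (Bc r r').card ≤ b) {i0 i1 i : Fin n} (h0 : i ≠ i0) (h1 : i ≠ i1) :
    𝔼 σ : Perm (Fin n), ind (σ i ∈ Bc (σ i0) (σ i1)) ≤ b / (n - 2 : ℝ) := by
  set S : Finset (Fin n) := ({i0, i1} : Finset (Fin n))ᶜ with hS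
  have hc : (n : ℝ) - 2 ≤ S.card := by
    have : ({i0, i1} : Finset (Fin n)).card ≤ 2 := card_le_two
    have h2 : n ≤ S.card + 2 := by rw [hS, card_compl, Fintype.card_fin]; omega
    have : (n : ℝ) ≤ S.card + 2 := by exact_mod_cast h2
    linarith
  have he : ∀ j ∈ S, 𝔼 σ : Perm (Fin n), ind (σ j ∈ Bc (σ i0) (σ i1))
      = 𝔼 σ : Perm (Fin n), ind (σ i ∈ Bc (σ i0) (σ i1)) := fun j hj => by
    simp only [hS, mem_compl, mem_insert, mem_singleton, not_or] at hj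
    refine sym (fun σ r => ind (r ∈ Bc (σ i0) (σ i1))) j i fun σ => ?_
    simp only [Perm.mul_apply]
    rw [swap_apply_of_ne_of_ne (Ne.symm hj.1) h0.symm, swap_apply_of_ne_of_ne (Ne.symm hj.2) h1.symm]
  have h2 : ∑ j ∈ S, 𝔼 σ : Perm (Fin n), ind (σ j ∈ Bc (σ i0) (σ i1)) ≤ b := by
    rw [← expect_sum_comm]
    refine expect_le univ_nonempty fun σ _ => (sum_ind_mem _ _ _).trans ?_
    exact_mod_cast hB _ _
  rw [sum_congr rfl he, sum_const, nsmul_eq_mul] at h2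
  have h3 : (0 : ℝ) < n - 2 := by
    have : (3 : ℝ) ≤ n := by exact_mod_cast hn
    linarith
  have h4 : 0 ≤ 𝔼 σ : Perm (Fin n), ind (σ i ∈ Bc (σ i0) (σ i1)) :=
    ex_nonneg _ fun _ => ind_nonneg _
  rw [le_div_iff₀ h3]
  nlinarith

lemma avg_off (g : Fin n → ℝ) (i0 : Fin n) (e : ℝ) (he : ∀ i, i ≠ i0 → g i = e)
    (I : Finset (Fin n)) (hI : i0 ∈ I) : 𝔼 i ∈ I, g i = e + (g i0 - e) / I.card := by
  have hc : (I.card : ℝ) ≠ 0 := Nat.cast_ne_zero.2 (card_ne_zero.2 ⟨i0, hI⟩)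
  rw [expect_eq_sum_div_card, ← add_sum_erase _ _ hI,
    sum_congr rfl fun i hi => he i (ne_of_mem_erase hi), sum_const, nsmul_eq_mul,
    card_erase_of_mem hI, Nat.cast_pred (card_pos.2 ⟨i0, hI⟩)]
  field_simp; ring

lemma pair (hn : 3 ≤ n) (h : Fin n → Fin n → ℝ) (h0 : ∀ r r', 0 ≤ h r r') (h1 : ∀ r r', h r r' ≤ 1)
    (I : Finset (Fin n)) {i0 : Fin n} (hI : i0 ∈ I) :
    |𝔼 σ : Perm (Fin n), 𝔼 i ∈ I, h (σ i0) (σ i) - 𝔼 r, 𝔼 r', h r r'| ≤ 1 / I.card := by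
  obtain ⟨j, hj⟩ : ∃ j : Fin n, j ≠ i0 := by
    have : Nontrivial (Fin n) := Fin.nontrivial_iff_two_le.2 (by omega)
    exact exists_ne i0
  set g : Fin n → ℝ := fun i => 𝔼 σ : Perm (Fin n), h (σ i0) (σ i) with hg
  have he : ∀ i, i ≠ i0 → g i = g j := fun i hi => by
    refine sym (fun σ r => h (σ i0) r) i j fun σ => ?_
    simp only [Perm.mul_apply]
    rw [swap_apply_of_ne_of_ne hi.symm hj.symm]
  have e1 : 𝔼 σ : Perm (Fin n), 𝔼 i ∈ I, h (σ i0) (σ i) = g j + (g i0 - g j) / I.card := by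
    rw [expect_comm]; exact avg_off g i0 _ he I hI
  have e2 : 𝔼 r, 𝔼 r', h r r' = g j + (g i0 - g j) / n := by
    have := avg_off g i0 _ he univ (mem_univ _)
    rw [card_univ, Fintype.card_fin] at this
    rw [← this, ← unif (fun r => 𝔼 r', h r r') i0, hg]
    simp only
    refine Eq.trans ?_ (expect_comm _ _ _)
    exact (expect_congr rfl fun σ _ => ex_comp σ (h (σ i0))).symm
  have g0 : ∀ i, 0 ≤ g i := fun i => ex_nonneg _ fun _ => h0 _ _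
  have g1 : ∀ i, g i ≤ 1 := fun i => ex_le_one _ fun _ => h1 _ _
  have hm : (0 : ℝ) < I.card := by exact_mod_cast card_pos.2 ⟨i0, hI⟩
  have hmn : (I.card : ℝ) ≤ n := by
    have := card_le_univ I
    rw [Fintype.card_fin] at this
    exact_mod_cast this
  have k1 : 1 / (n : ℝ) ≤ 1 / I.card := one_div_le_one_div_of_le hm hmn
  have k2 : 0 ≤ 1 / (n : ℝ) := by positivity
  rw [e1, e2, div_eq_mul_one_div (g i0 - g j), div_eq_mul_one_div (g i0 - g j) n, abs_le]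
  constructor <;> nlinarith [g0 i0, g0 j, g1 i0, g1 j]

lemma wit (hn : 3 ≤ n) {b : ℕ} (Q : Fin n → Fin n → Finset (Fin n) → Prop)
    (hQ : ∀ r r' B, Q r r' B → B.card ≤ b ∧ r ∉ B ∧ r' ∉ B) (I : Finset (Fin n)) (i0 i1 : Fin n) :
    𝔼 σ : Perm (Fin n), ind (∃ B, Q (σ i0) (σ i1) B) - I.card * (b / (n - 2 : ℝ))
      ≤ 𝔼 σ : Perm (Fin n), ind (∃ B, Q (σ i0) (σ i1) B ∧ Disjoint B (I.map σ.toEmbedding)) := by
  classical
  set Bc : Fin n → Fin n → Finset (Fin n) :=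
    fun r r' => if h : ∃ B, Q r r' B then h.choose else ∅ with hBc
  have hq : ∀ r r', (∃ B, Q r r' B) → Q r r' (Bc r r') := fun r r' h => by
    simp only [hBc, dif_pos h]; exact h.choose_spec
  have hB : ∀ r r', (Bc r r').card ≤ b := fun r r' => by
    by_cases h : ∃ B, Q r r' B
    · exact (hQ _ _ _ (hq r r' h)).1
    · simp only [hBc, dif_neg h]; simp
  set J := I.filter fun i => i ≠ i0 ∧ i ≠ i1 with hJ
  have h3 : (0 : ℝ) ≤ b / (n - 2 : ℝ) := by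
    have : (3 : ℝ) ≤ n := by exact_mod_cast hn
    exact div_nonneg (Nat.cast_nonneg _) (by linarith)
  have p1 : ∀ σ : Perm (Fin n), ind (∃ B, Q (σ i0) (σ i1) B)
      ≤ ind (∃ B, Q (σ i0) (σ i1) B ∧ Disjoint B (I.map σ.toEmbedding))
        + ∑ i ∈ J, ind (σ i ∈ Bc (σ i0) (σ i1)) := fun σ => by
    have s0 : 0 ≤ ∑ i ∈ J, ind (σ i ∈ Bc (σ i0) (σ i1)) := sum_nonneg fun _ _ => ind_nonneg _
    refine ind_le (add_nonneg (ind_nonneg _) s0) fun h => ?_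
    by_cases hd : Disjoint (Bc (σ i0) (σ i1)) (I.map σ.toEmbedding)
    · rw [ind_pos ⟨_, hq _ _ h, hd⟩]; linarith
    · obtain ⟨j, hj1, hj2⟩ := not_disjoint_iff.1 hd
      obtain ⟨i, hi, rfl⟩ := mem_map.1 hj2
      have hj1' : σ i ∈ Bc (σ i0) (σ i1) := hj1
      have := hQ _ _ _ (hq _ _ h)
      have hiJ : i ∈ J := mem_filter.2 ⟨hi, by rintro rfl; exact this.2.1 hj1',
        by rintro rfl; exact this.2.2 hj1'⟩
      have k := single_le_sum (f := fun i => ind (σ i ∈ Bc (σ i0) (σ i1)))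
        (fun _ _ => ind_nonneg _) hiJ
      simp only [ind_pos hj1'] at k
      linarith [ind_nonneg (∃ B, Q (σ i0) (σ i1) B ∧ Disjoint B (I.map σ.toEmbedding))]
  have p2 := ex_mono univ p1
  rw [expect_add_distrib, expect_sum_comm] at p2
  have p3 : ∑ i ∈ J, 𝔼 σ : Perm (Fin n), ind (σ i ∈ Bc (σ i0) (σ i1))
      ≤ I.card * (b / (n - 2 : ℝ)) := by
    calc _ ≤ ∑ _i ∈ J, b / (n - 2 : ℝ) := sum_le_sum fun i hi =>
          hit hn Bc hB (mem_filter.1 hi).2.1 (mem_filter.1 hi).2.2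
      _ = J.card * (b / (n - 2 : ℝ)) := by rw [sum_const, nsmul_eq_mul]
      _ ≤ _ := mul_le_mul_of_nonneg_right (by exact_mod_cast card_filter_le _ _) h3
  linarith

lemma samp (hn : 3 ≤ n) {b : ℕ} (Q : Fin n → Fin n → Finset (Fin n) → Prop)
    (hQ : ∀ r r' B, Q r r' B → B.card ≤ b ∧ r ∉ B ∧ r' ∉ B) (I : Finset (Fin n)) {i0 : Fin n}
    (hI : i0 ∈ I) :
    |𝔼 σ : Perm (Fin n), (ind (∃ B, Q (σ i0) (σ i0) B ∧ Disjoint B (I.map σ.toEmbedding))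
        - 𝔼 i ∈ I, ind (∃ B, Q (σ i0) (σ i) B ∧ Disjoint B (I.map σ.toEmbedding)))
      - (𝔼 r, ind (∃ B, Q r r B) - 𝔼 r, 𝔼 r', ind (∃ B, Q r r' B))|
      ≤ I.card * (b / (n - 2 : ℝ)) + 1 / I.card := by
  have up : ∀ (σ : Perm (Fin n)) i, ind (∃ B, Q (σ i0) (σ i) B ∧ Disjoint B (I.map σ.toEmbedding))
      ≤ ind (∃ B, Q (σ i0) (σ i) B) := fun σ i => ind_mono fun ⟨B, h, _⟩ => ⟨B, h⟩
  have a1 := wit hn Q hQ I i0 i0
  have a2 := ex_mono univ fun σ => up σ i0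
  have a3 := unif (fun r => ind (∃ B, Q r r B)) i0
  have a4 := abs_le.1 (pair hn (fun r r' => ind (∃ B, Q r r' B)) (fun _ _ => ind_nonneg _)
    (fun _ _ => ind_le_one _) I hI)
  have a5 := ex_mono univ fun σ => ex_mono I fun i => up σ i
  have a6 := ex_mono I fun i => wit hn Q hQ I i0 i
  rw [expect_sub_distrib, expect_const ⟨i0, hI⟩, expect_comm I, expect_comm I] at a6
  have h3 : (0 : ℝ) ≤ I.card * (b / (n - 2 : ℝ)) := by
    have : (3 : ℝ) ≤ n := by exact_mod_cast hn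
    exact mul_nonneg (Nat.cast_nonneg _) (div_nonneg (Nat.cast_nonneg _) (by linarith))
  have h4 : (0 : ℝ) ≤ 1 / I.card := by positivity
  rw [expect_sub_distrib, abs_le]
  constructor <;> linarith [a4.1, a4.2]

end Pool.Agent.P.MP_bfa556_co.U
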