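import Pool.Agent.P.MP_bfa556_co.U2

open Finset Equiv
open scoped BigOperators

namespace Pool.Agent.P.MP_bfa556_co.U

variable {n : ℕ}

/-- For events witnessed on at most five rows, a random cell of `x` and a uniform cell have nearly
the same law, even when the event depends on the class of `x`. -/
def Rich {A : Type*} (X : Finset (Perm (Fin n))) (cl : Perm (Fin n) → A) (ε : ℝ) : Prop :=
  ∀ (Ω : Type) [Fintype Ω] [Nonempty Ω]
    (P : A → Ω → Perm (Fin n) → Fin n → Fin n → Finset (Fin n) → Prop),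
    (∀ t ω x x' r a B, (∀ i ∈ B, x i = x' i) → P t ω x r a B → P t ω x' r a B) →
    (∀ t ω x r a B, P t ω x r a B → B.card ≤ 5 ∧ r ∉ B ∧ ∀ i ∈ B, x i ≠ a) →
    |𝔼 x ∈ X, 𝔼 ω, 𝔼 r, ind (∃ B, P (cl x) ω x r (x r) B)
      - 𝔼 x ∈ X, 𝔼 ω, 𝔼 r, 𝔼 a, ind (∃ B, P (cl x) ω x r a B)| ≤ ε

lemma ex_abs_le {ι : Type*} {s : Finset ι} (hs : s.Nonempty) {f : ι → ℝ} {c : ℝ}
    (h : ∀ i ∈ s, |f i| ≤ c) : |𝔼 i ∈ s, f i| ≤ c := by
  rw [abs_le]
  refine ⟨?_, expect_le hs fun i hi => (abs_le.1 (h i hi)).2⟩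
  rw [← expect_const hs (-c)]
  exact expect_le_expect fun i hi => (abs_le.1 (h i hi)).1

lemma lu_abs {A : Type*} {K : ℕ} {M : ℕ → Finset (Fin n)} {r : ℕ → Fin n} (hc : Chain K M r)
    (X : Finset (Perm (Fin n))) (hX : X.Nonempty) (cl : Perm (Fin n) → A) (T : Finset A)
    (hcl : ∀ x ∈ X, cl x ∈ T) {L : ℝ} (hL : (T.card : ℝ) * n.factorial ≤ Real.exp L * X.card)
    (F : A → ℕ → Perm (Fin n) → Fin n → ℝ) (h0 : ∀ t k x a, 0 ≤ F t k x a)
    (h1 : ∀ t k x a, F t k x a ≤ 1) (hF : ∀ t, ∀ k < K, ∀ a, Out (M (k + 1)) fun x => F t k x a)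
    {l : ℝ} (hl0 : 0 < l) (hl1 : l ≤ 1 / 2) :
    |𝔼 x ∈ X, ∑ k ∈ range K, (F (cl x) k x (x (r k)) - pv (M (k + 1)) (F (cl x) k) x)|
      ≤ 2 * l * K + L / l := by
  have a := lu hc X cl T hcl hL F h0 h1 hF hl0 hl1
  have b := lu hc X cl T hcl hL (fun t k x a => 1 - F t k x a)
    (fun t k x a => by linarith [h1 t k x a]) (fun t k x a => by linarith [h0 t k x a])
    (fun t k hk a x x' hx => congrArg (1 - ·) (hF t k hk a x x' hx)) hl0 hl1
  have e : ∑ x ∈ X, ∑ k ∈ range K, (1 - F (cl x) k x (x (r k))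
        - pv (M (k + 1)) (fun y a => 1 - F (cl x) k y a) x)
      = - ∑ x ∈ X, ∑ k ∈ range K, (F (cl x) k x (x (r k)) - pv (M (k + 1)) (F (cl x) k) x) := by
    rw [← sum_neg_distrib]
    refine sum_congr rfl fun x _ => ?_
    rw [← sum_neg_distrib]
    refine sum_congr rfl fun k hk => ?_
    have hc' : ((M (k + 1)).card : ℝ) ≠ 0 :=
      Nat.cast_ne_zero.2 (card_ne_zero.2 ⟨_, hc.mem k (mem_range.1 hk)⟩)
    unfold pv
    rw [sum_sub_distrib, sum_const, nsmul_eq_mul]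
    field_simp; ring
  rw [e] at b
  have hp : (0 : ℝ) < X.card := by exact_mod_cast card_pos.2 hX
  rw [expect_eq_sum_div_card, abs_div, abs_of_pos hp, div_le_iff₀ hp, abs_le]
  constructor <;> linarith

theorem rich_of {A : Type*} {K : ℕ} (hK : 0 < K) (hKn : 2 * K ≤ n) (hn : 3 ≤ n)
    (X : Finset (Perm (Fin n))) (hX : X.Nonempty) (cl : Perm (Fin n) → A) (T : Finset A)
    (hcl : ∀ x ∈ X, cl x ∈ T) {L : ℝ} (hL : (T.card : ℝ) * n.factorial ≤ Real.exp L * X.card)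
    {l : ℝ} (hl0 : 0 < l) (hl1 : l ≤ 1 / 2) :
    Rich X cl (2 * l + L / l / K + (2 * K * (5 / (n - 2 : ℝ)) + 1 / K)) := by
  intro Ω _ _ P hloc hside
  set I : ℕ → Finset (Fin n) := fun k => univ.filter fun i => i.val < K + k with hI
  set idx : ℕ → Fin n := fun k => ⟨min (K + k) (n - 1), by omega⟩ with hidx
  have m1 : ∀ k < K, idx k ∈ I (k + 1) := fun k hk => by
    simp only [hI, hidx, mem_filter, mem_univ, true_and]; omega
  have m2 : ∀ k < K, idx k ∉ I k := fun k hk => by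
    simp only [hI, hidx, mem_filter, mem_univ, true_and]; omega
  have m3 : ∀ k, I k ⊆ I (k + 1) := fun k i hi => by
    simp only [hI, mem_filter, mem_univ, true_and] at hi ⊢; omega
  have m4 : ∀ k < K, (I (k + 1)).card = K + (k + 1) := fun k hk => by
    simp only [hI]; rw [Fin.card_filter_val_lt]; omega
  have hc : ∀ σ : Perm (Fin n), Chain K (fun k => (I k).map σ.toEmbedding) fun k => σ (idx k) :=
    fun σ => ⟨fun k hk => mem_map.2 ⟨_, m1 k hk, rfl⟩,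
      fun k hk h => m2 k hk (by simpa using h), fun k _ => map_subset_map.2 (m3 k)⟩
  set F : Perm (Fin n) → A → ℕ → Perm (Fin n) → Fin n → ℝ := fun σ t k x a =>
    𝔼 ω, ind (∃ B, P t ω x (σ (idx k)) a B ∧ Disjoint B ((I (k + 1)).map σ.toEmbedding)) with hF
  have c1 : ∀ σ : Perm (Fin n), |𝔼 x ∈ X, ∑ k ∈ range K, (F σ (cl x) k x (x (σ (idx k)))
      - pv ((I (k + 1)).map σ.toEmbedding) (F σ (cl x) k) x)| ≤ 2 * l * K + L / l := fun σ => by
    refine lu_abs (hc σ) X hX cl T hcl hL (F σ) (fun _ _ _ _ => ex_nonneg _ fun _ => ind_nonneg _)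
      (fun _ _ _ _ => ex_le_one _ fun _ => ind_le_one _) (fun t k _ a x x' hx => ?_) hl0 hl1
    simp only [hF]
    refine expect_congr rfl fun ω _ => ind_congr ⟨?_, ?_⟩
    · rintro ⟨B, h, hd⟩
      exact ⟨B, hloc _ _ _ _ _ _ _ (fun i hi => hx i (disjoint_left.1 hd hi)) h, hd⟩
    · rintro ⟨B, h, hd⟩
      exact ⟨B, hloc _ _ _ _ _ _ _ (fun i hi => (hx i (disjoint_left.1 hd hi)).symm) h, hd⟩
  have c2 := ex_abs_le univ_nonempty fun σ (_ : σ ∈ (univ : Finset (Perm (Fin n)))) => c1 σ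
  set D : Perm (Fin n) → ℝ := fun x => 𝔼 ω, 𝔼 r, ind (∃ B, P (cl x) ω x r (x r) B)
    - 𝔼 ω, 𝔼 r, 𝔼 a, ind (∃ B, P (cl x) ω x r a B) with hD
  set δ : ℝ := 2 * K * (5 / (n - 2 : ℝ)) + 1 / K with hδ
  have hKr : (0 : ℝ) < K := by exact_mod_cast hK
  have c3 : ∀ x, ∀ k < K, |𝔼 σ : Perm (Fin n), (F σ (cl x) k x (x (σ (idx k)))
      - pv ((I (k + 1)).map σ.toEmbedding) (F σ (cl x) k) x) - D x| ≤ δ := fun x k hk => by
    have e1 : ∀ σ : Perm (Fin n), F σ (cl x) k x (x (σ (idx k)))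
        - pv ((I (k + 1)).map σ.toEmbedding) (F σ (cl x) k) x
        = 𝔼 ω, (ind (∃ B, P (cl x) ω x (σ (idx k)) (x (σ (idx k))) B
            ∧ Disjoint B ((I (k + 1)).map σ.toEmbedding))
          - 𝔼 i ∈ I (k + 1), ind (∃ B, P (cl x) ω x (σ (idx k)) (x (σ i)) B
            ∧ Disjoint B ((I (k + 1)).map σ.toEmbedding))) := fun σ => by
      rw [expect_sub_distrib, expect_comm, expect_eq_sum_div_card (I (k + 1))]
      unfold pv
      rw [sum_map, card_map]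
      rfl
    simp only [e1, hD]
    rw [expect_comm, ← expect_sub_distrib, ← expect_sub_distrib]
    refine ex_abs_le univ_nonempty fun ω _ => ?_
    have s := samp hn (b := 5) (fun r r' B => P (cl x) ω x r (x r') B) (fun r r' B h => by
      obtain ⟨a, b, c⟩ := hside _ _ _ _ _ _ h
      exact ⟨a, b, fun h' => c _ h' rfl⟩) (I (k + 1)) (m1 k hk)
    have e2 : 𝔼 r, 𝔼 r', ind (∃ B, P (cl x) ω x r (x r') B)
        = 𝔼 r, 𝔼 a, ind (∃ B, P (cl x) ω x r a B) :=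
      expect_congr rfl fun r _ => ex_comp x fun a => ind (∃ B, P (cl x) ω x r a B)
    rw [e2, m4 k hk] at s
    refine s.trans ?_
    have h3 : (0 : ℝ) ≤ 5 / (n - 2 : ℝ) := by
      have : (3 : ℝ) ≤ n := by exact_mod_cast hn
      exact div_nonneg (by norm_num) (by linarith)
    have h4 : ((K + (k + 1) : ℕ) : ℝ) ≤ 2 * K := by exact_mod_cast (by omega : K + (k + 1) ≤ 2 * K)
    have h5 : (K : ℝ) ≤ ((K + (k + 1) : ℕ) : ℝ) := by exact_mod_cast (by omega : K ≤ K + (k + 1))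
    have h6 := one_div_le_one_div_of_le hKr h5
    have h7 := mul_le_mul_of_nonneg_right h4 h3
    simp only [hδ, Nat.cast_ofNat]
    linarith
  have c4 : |𝔼 x ∈ X, (∑ k ∈ range K, 𝔼 σ : Perm (Fin n), (F σ (cl x) k x (x (σ (idx k)))
      - pv ((I (k + 1)).map σ.toEmbedding) (F σ (cl x) k) x) - K * D x)| ≤ K * δ := by
    refine ex_abs_le hX fun x _ => ?_
    have : (K : ℝ) * D x = ∑ _k ∈ range K, D x := by simp
    rw [this, ← sum_sub_distrib]
    refine (abs_sum_le_sum_abs _ _).trans ?_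
    calc _ ≤ ∑ _k ∈ range K, δ := sum_le_sum fun k hk => c3 x k (mem_range.1 hk)
      _ = K * δ := by simp
  rw [expect_comm] at c2
  simp only [expect_sum_comm] at c2
  rw [expect_sub_distrib, ← mul_expect] at c4
  simp only [expect_sum_comm] at c4
  rw [← expect_sub_distrib]
  have c5 : (K : ℝ) * |𝔼 x ∈ X, D x| ≤ K * (2 * l + L / l / K + δ) := by
    have : (K : ℝ) * (2 * l + L / l / K + δ) = 2 * l * K + L / l + K * δ := by field_simp
    rw [this, ← abs_of_pos hKr, ← abs_mul, abs_of_pos hKr]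
    rw [abs_le] at c2 c4 ⊢
    constructor <;> linarith [c2.1, c2.2, c4.1, c4.2]
  exact le_of_mul_le_mul_left c5 hKr

end Pool.Agent.P.MP_bfa556_co.U
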