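import Pool.Agent.P.MP_bfa556_co.Main

namespace Pool.Agent.P.MP_bfa556_co.VariantNoSyndrome

open Pool.Agent.P.MP_bfa556_co

/-- For `n ≥ 26`, if `(T_n, Y)` or `(T_n^*, Y)` is a tiling of `S_n`, then neither the even nor the
odd part of `Y` is cut out by an additive syndrome with values in an abelian group. -/
theorem result (n : ℕ) (hn : 26 ≤ n) (Y : Set (Equiv.Perm (Fin n)))
    (hY : (∀ σ : Equiv.Perm (Fin n), ∃! p : Equiv.Perm (Fin n) × Equiv.Perm (Fin n),
            (p.1 = 1 ∨ p.1.IsSwap) ∧ p.2 ∈ Y ∧ p.1 * p.2 = σ) ∨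
          (∀ σ : Equiv.Perm (Fin n), ∃! p : Equiv.Perm (Fin n) × Equiv.Perm (Fin n),
            p.1.IsSwap ∧ p.2 ∈ Y ∧ p.1 * p.2 = σ))
    (A : Type) [AddCommGroup A] (φ : Fin n → Fin n → A) (c : A) (ε : ℤˣ) :
    ¬ ∀ g : Equiv.Perm (Fin n), Equiv.Perm.sign g = ε → (g ∈ Y ↔ ∑ i, φ i (g i) = c) := by
  intro h
  rcases hY with hY | hY
  · exact main hn (til_of (e := True) (by simpa only [true_and] using hY)) h
  · exact main hn (til_of (e := False) (by simpa only [false_and, false_or] using hY)) h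

end Pool.Agent.P.MP_bfa556_co.VariantNoSyndrome
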