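import Pool.Agent.P.MP_bfa556_co.Y9
import Pool.Agent.P.MP_bfa556_co.Main

open Finset Equiv
open scoped BigOperators

namespace Pool.Agent.P.MP_bfa556_co.Y

open Pool.Agent.P.MP_bfa556_co.U

variable {n : ℕ} {A : Type} [AddCommGroup A] {φ : Fin n → Fin n → A} {W : Set A} {e : ℤˣ}

lemma rho_le {η u v m : ℝ} (h0 : 0 < η) (h1 : η ≤ 1 / 10 ^ 4) (hu : u ≤ η ^ 7 / 10)
    (hv : η * v ≤ 2 * u) (hm : m ≤ 7 * η) {w : ℝ} (hw : η * w ≤ 2) :
    m + (η ^ 2 * w + 2 * η) + (4 * (η ^ 7 / 10) + 8 * u + η ^ 3 + 2 * v) / η ^ 2 ≤ 13 * η := by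
  have a1 : η ^ 2 * w ≤ 2 * η := by nlinarith [mul_le_mul_of_nonneg_left hw h0.le]
  have p3 : 0 < η ^ 3 := by positivity
  have a2 : η ^ 6 ≤ η ^ 3 / 10 := by
    have : η ^ 3 ≤ 1 / 10 := (pow_le_of_le_one h0.le (by linarith) (by norm_num)).trans (by linarith)
    nlinarith
  have a3 : η ^ 7 ≤ η ^ 6 := pow_le_pow_of_le_one h0.le (by linarith) (by norm_num)
  have a4 : v ≤ η ^ 6 / 5 := le_of_mul_le_mul_left (by nlinarith) h0
  have a5 : (4 * (η ^ 7 / 10) + 8 * u + η ^ 3 + 2 * v) / η ^ 2 ≤ 2 * η := by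
    rw [div_le_iff₀ (by positivity)]
    nlinarith
  linarith

theorem Code.absurd (hC : Code φ W e) {δ η : ℝ} (h0 : 0 < δ) (h1 : δ ≤ 1) (hη : η = δ / 10 ^ 4)
    (hn : 10 ≤ η ^ 7 * n) (hZ : δ * (n - 2).factorial ≤ (ZZ φ W e).card)
    (hX0 : (XX φ W e).Nonempty) (hZ0 : (ZZ φ W e).Nonempty)
    (rX : Rich (XX φ W e) (syn φ) (η ^ 7 / 10)) (rZ : Rich (ZZ φ W e) (syn φ) (η ^ 7 / 10))
    {K : ℕ} (k1 : K ≤ η * n) (k2 : η * n ≤ 2 * K) (hS : Step (XX φ W e) (syn φ) K (2 * η)) :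
    False := by
  have e0 : 0 < η := by rw [hη]; positivity
  have e1 : η ≤ 1 / 10 ^ 4 := by rw [hη]; exact div_le_div_of_nonneg_right h1 (by positivity)
  have n0 : (0 : ℝ) ≤ n := Nat.cast_nonneg _
  have e2 : η ^ 7 ≤ η := pow_le_of_le_one e0.le (by linarith) (by norm_num)
  have e3 : 10 ≤ η * n := hn.trans (mul_le_mul_of_nonneg_right e2 n0)
  have hN : (100 : ℝ) ≤ n := by nlinarith
  have hN' : 100 ≤ n := by exact_mod_cast hN
  have hK : (0 : ℝ) < K := by linarith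
  have hu : 1 / (n : ℝ) ≤ η ^ 7 / 10 := by
    rw [div_le_div_iff₀ (by linarith) (by norm_num)]; linarith
  have k3 : 4 * K ≤ n := by
    have : 4 * (K : ℝ) ≤ n := by nlinarith
    exact_mod_cast this
  have r := hC.rounds (by omega) hZ0 rZ (θ := η ^ 3) (κ := 1 / 50) (by positivity)
    fun W' hW J hJ => by
      have i := hC.ia (by omega) hW hX0 (by exact_mod_cast hK) k3 rX hS (θ := η ^ 2) (θ' := η ^ 3)
        (by positivity) (by positivity)
      have j := rho_le (u := 1 / n) (v := 1 / K) (m := 2 * K * (3 / (n - 2 : ℝ))) (w := n / K)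
        e0 e1 hu
        (by rw [mul_one_div, mul_one_div, div_le_div_iff₀ hK (by linarith)]; linarith)
        (by rw [mul_div_assoc', div_le_iff₀ (by linarith)]; nlinarith)
        (by rw [mul_div_assoc', div_le_iff₀ hK]; linarith)
      rw [mul_one_div, mul_one_div, ← mul_div_assoc (η ^ 2)] at j
      refine (hC.main (by omega) h0 hZ hW hX0 rX (by positivity) (i.trans j) J hJ).trans ?_
      have a1 : 4 / (η ^ 3) ^ 2 * (8 * (η ^ 7 / 10) + 16 / n) ≤ 10 * η := by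
        rw [div_mul_eq_mul_div, div_le_iff₀ (by positivity), div_eq_mul_one_div (16 : ℝ)]
        nlinarith [pow_pos e0 7]
      have a2 : 4 / δ * (36 * η) = 144 / 10 ^ 4 := by rw [hη]; field_simp; norm_num
      have a3 := mul_le_mul_of_nonneg_left
        (by linarith : 2 * (13 * η) + 4 / (η ^ 3) ^ 2 * (8 * (η ^ 7 / 10) + 16 / n) ≤ 36 * η)
        (by positivity : 0 ≤ 4 / δ)
      linarith
  rw [div_eq_mul_one_div (36 : ℝ)] at r
  have p6 : 0 < η ^ 6 := by positivity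
  have a1 : η ^ 3 ≤ 1 := pow_le_one₀ e0.le (by linarith)
  have a2 : η ^ 7 ≤ η ^ 6 / 10 ^ 4 := by nlinarith
  nlinarith [mul_le_mul_of_nonneg_right a1 (pow_pos e0 7).le]

omit [AddCommGroup A] in
lemma rich_gen {ε L : ℝ} (h0 : 0 < ε) (h1 : ε ≤ 1) (hn : 400 ≤ ε ^ 2 * n) (hl : L ≤ ε ^ 3 * n / 3200)
    (X : Finset (Perm (Fin n))) (hX : X.Nonempty) (cl : Perm (Fin n) → A) (T : Finset A)
    (hcl : ∀ x ∈ X, cl x ∈ T) (hL : (T.card : ℝ) * n.factorial ≤ Real.exp L * X.card) :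
    Rich X cl ε := by
  have n0 : (0 : ℝ) ≤ n := Nat.cast_nonneg _
  have e1 : 400 ≤ ε * n := by nlinarith [mul_nonneg h0.le n0]
  have hN : (400 : ℝ) ≤ n := by nlinarith
  have c1 : ((⌊ε * n / 50⌋₊ : ℕ) : ℝ) ≤ ε * n / 50 := Nat.floor_le (by positivity)
  have c2 : ε * n / 50 < (⌊ε * n / 50⌋₊ : ℕ) + 1 := Nat.lt_floor_add_one _
  set K := ⌊ε * n / 50⌋₊
  have c3 : ε * n ≤ 100 * K := by linarith
  have k0 : (0 : ℝ) < K := by linarith
  have k1 : 2 * K ≤ n := by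
    have : 2 * (K : ℝ) ≤ n := by nlinarith
    exact_mod_cast this
  have r := rich_of (K := K) (by exact_mod_cast k0) k1 (by exact_mod_cast (by linarith : (3 : ℝ) ≤ n))
    X hX cl T hcl hL (l := ε / 8) (by positivity) (by linarith)
  have b1 : L / (ε / 8) / K ≤ ε / 4 := by
    rw [div_div, div_le_iff₀ (by positivity)]
    nlinarith [mul_le_mul_of_nonneg_left c3 (by positivity : 0 ≤ ε ^ 2)]
  have b2 : 2 * (K : ℝ) * (5 / (n - 2)) ≤ ε / 4 := by
    rw [mul_div_assoc', div_le_iff₀ (by linarith)]; nlinarith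
  have b3 : 1 / (K : ℝ) ≤ ε / 4 := by
    rw [div_le_iff₀ k0]; nlinarith [mul_le_mul_of_nonneg_left c3 h0.le]
  intro Ω _ _ P h h'
  refine (r Ω P h h').trans ?_
  linarith

lemma classes (V : Finset A) :
    ∃ T : Finset A, T.card ≤ V.card * n ^ 8 ∧ ∀ x ∈ XX φ (V : Set A) e, syn φ x ∈ T := by
  classical
  refine ⟨(V ×ˢ (univ : Finset ((Fin n × Fin n × Fin n × Fin n) ×
    Fin n × Fin n × Fin n × Fin n))).image fun w =>
      w.1 - lab φ w.2.1.1 w.2.1.2.1 w.2.1.2.2.1 w.2.1.2.2.2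
        - lab φ w.2.2.1 w.2.2.2.1 w.2.2.2.2.1 w.2.2.2.2.2, ?_, fun x hx => ?_⟩
  · refine card_image_le.trans (le_of_eq ?_)
    simp only [card_product, card_univ, Fintype.card_prod, Fintype.card_fin]
    ring
  · obtain ⟨-, i, j, p, q, h⟩ := mem_XX.1 hx
    refine mem_image.2 ⟨(_, (p, x p, q, x q), (i, x i, j, x j)),
      mem_product.2 ⟨h.2.2.2.2, mem_univ _⟩, ?_⟩
    simp only
    abel

theorem Code.pack {V : Finset A} (hC : Code φ (V : Set A) e) (hn : 2 ≤ n) {δ : ℝ} (h0 : 0 < δ)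
    (h1 : δ ≤ 1) (hZ : δ * (n - 2).factorial ≤ (ZZ φ (V : Set A) e).card) :
    Real.exp (1 / 10 ^ 91 * δ ^ 21 * n) ≤ V.card * n ^ 9 := by
  have hf : (0 : ℝ) < n.factorial := by exact_mod_cast n.factorial_pos
  have hf2 : (0 : ℝ) < (n - 2).factorial := by exact_mod_cast (n - 2).factorial_pos
  have hZ0 : (ZZ φ (V : Set A) e).Nonempty := card_pos.1 (by
    exact_mod_cast (mul_pos h0 hf2).trans_le hZ)
  have hV : (1 : ℝ) ≤ V.card := by
    obtain ⟨y, hy⟩ := hZ0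
    exact_mod_cast card_pos.2 ⟨_, (mem_ZZ.1 hy).2⟩
  have n2 : (2 : ℝ) ≤ n := by exact_mod_cast hn
  obtain ⟨η, hη⟩ : ∃ η, η = δ / 10 ^ 4 := ⟨_, rfl⟩
  obtain ⟨ε, hε⟩ : ∃ ε, ε = η ^ 7 / 10 := ⟨_, rfl⟩
  have e0 : 0 < η := by rw [hη]; positivity
  have e1 : η ≤ 1 / 10 ^ 4 := by rw [hη]; exact div_le_div_of_nonneg_right h1 (by positivity)
  have e2 : η ^ 7 ≤ η := pow_le_of_le_one e0.le (by linarith) (by norm_num)
  have f0 : 0 < ε := by rw [hε]; positivity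
  have f1 : ε ≤ η / 10 := by linarith
  have hl : 1 / 10 ^ 91 * δ ^ 21 * n ≤ ε ^ 3 * n / 3200 := by
    have : ε ^ 3 * n / 3200 = 1 / (32 * 10 ^ 89) * δ ^ 21 * n := by rw [hε, hη]; ring
    rw [this]
    exact mul_le_mul_of_nonneg_right (mul_le_mul_of_nonneg_right (by norm_num) (by positivity))
      (by linarith)
  by_cases hb : 400 ≤ ε ^ 2 * n
  swap
  · have a1 : 1 / 10 ^ 91 * δ ^ 21 * n ≤ 1 := by nlinarith [mul_pos f0 (sub_pos.2 (not_le.1 hb))]
    have a2 : (2 : ℝ) ^ 9 ≤ n ^ 9 := pow_le_pow_left₀ (by norm_num) n2 9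
    nlinarith [Real.exp_le_exp.2 a1, Real.exp_one_lt_d9]
  by_contra hc
  replace hc := (not_le.1 hc).le
  have a1 : 400 ≤ ε * n := by nlinarith [mul_pos f0 (by linarith : (0 : ℝ) < n)]
  have a2 : 4000 ≤ η * n := by nlinarith
  have a3 : 4 ≤ δ * n := by rw [hη] at a2; nlinarith
  have hN : (10 : ℝ) ≤ n := by nlinarith
  have sx := hC.size_X (by exact_mod_cast hN) hZ
  have hX0 : (XX φ (V : Set A) e).Nonempty := card_pos.1 (by
    have : (0 : ℝ) < (XX φ (V : Set A) e).card := by nlinarith [mul_pos h0 hf]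
    exact_mod_cast this)
  obtain ⟨T, hT, hcl⟩ := classes (φ := φ) (e := e) V
  have hT' : (T.card : ℝ) ≤ V.card * n ^ 8 := by exact_mod_cast hT
  have lX : (T.card : ℝ) * n.factorial
      ≤ Real.exp (1 / 10 ^ 91 * δ ^ 21 * n) * (XX φ (V : Set A) e).card := by
    have b1 : (n.factorial : ℝ) ≤ n * (XX φ (V : Set A) e).card := by
      nlinarith [mul_le_mul_of_nonneg_right a3 hf.le,
        mul_le_mul_of_nonneg_left sx (by linarith : (0 : ℝ) ≤ n)]
    calc (T.card : ℝ) * n.factorial ≤ (V.card * n ^ 8) * (n * (XX φ (V : Set A) e).card) :=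
          mul_le_mul hT' b1 hf.le (by positivity)
      _ = V.card * n ^ 9 * (XX φ (V : Set A) e).card := by ring
      _ ≤ _ := mul_le_mul_of_nonneg_right hc (Nat.cast_nonneg _)
  have lZ : (V.card : ℝ) * n.factorial
      ≤ Real.exp (1 / 10 ^ 91 * δ ^ 21 * n) * (ZZ φ (V : Set A) e).card := by
    have b0 : ((n - 2).factorial : ℝ) ≤ n * (ZZ φ (V : Set A) e).card := by
      nlinarith [mul_le_mul_of_nonneg_right a3 hf2.le,
        mul_le_mul_of_nonneg_left hZ (by linarith : (0 : ℝ) ≤ n)]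
    have b1 : (n : ℝ) ^ 3 ≤ n ^ 9 := pow_le_pow_right₀ (by linarith) (by norm_num)
    calc (V.card : ℝ) * n.factorial ≤ V.card * (n ^ 2 * (n * (ZZ φ (V : Set A) e).card)) :=
          mul_le_mul_of_nonneg_left ((fact_le hn).trans
            (mul_le_mul_of_nonneg_left b0 (by positivity))) (by positivity)
      _ = V.card * n ^ 3 * (ZZ φ (V : Set A) e).card := by ring
      _ ≤ _ := mul_le_mul_of_nonneg_right
          ((mul_le_mul_of_nonneg_left b1 (by positivity)).trans hc) (Nat.cast_nonneg _)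
  have c1 : ((⌊η * n⌋₊ : ℕ) : ℝ) ≤ η * n := Nat.floor_le (by positivity)
  have c2 : η * n < (⌊η * n⌋₊ : ℕ) + 1 := Nat.lt_floor_add_one _
  set K := ⌊η * n⌋₊
  have k0 : (0 : ℝ) < K := by linarith
  have k1 : 2 * K ≤ n := by
    have : 2 * (K : ℝ) ≤ n := by nlinarith
    exact_mod_cast this
  have st := step_of (by exact_mod_cast k0) k1 _ hX0 _ T hcl lX (l := η / 2) (by positivity)
    (by linarith)
  refine hC.absurd h0 h1 hη (by rw [hε] at a1; linarith) hZ hX0 hZ0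
    (hε ▸ rich_gen f0 (by linarith) hb hl _ hX0 _ T hcl lX)
    (hε ▸ rich_gen f0 (by linarith) hb hl _ hZ0 _ V (fun y hy => (mem_ZZ.1 hy).2) lZ)
    c1 (by linarith) fun G g0 g1 g2 => ?_
  obtain ⟨I, i0, u1, u2, u3, u4⟩ := st G g0 g1 g2
  refine ⟨I, i0, u1, u2, u3, u4.trans (add_le_add le_rfl ?_)⟩
  have b1 : 1 / 10 ^ 91 * δ ^ 21 * n / (η / 2) / K ≤ η := by
    rw [div_div, div_le_iff₀ (by positivity)]
    have d1 : ε ^ 3 ≤ η ^ 3 := pow_le_pow_left₀ f0.le (by linarith) 3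
    have d2 : η * n ≤ 2 * K := by linarith
    nlinarith [mul_le_mul_of_nonneg_left d2 (by positivity : 0 ≤ η ^ 2),
      mul_le_mul_of_nonneg_right d1 (by linarith : (0 : ℝ) ≤ n), pow_pos e0 3]
  linarith

theorem pack (hn : 2 ≤ n) {V : Finset A} {δ : ℝ} (h0 : 0 < δ) (h1 : δ ≤ 1)
    {Z : Set (Perm (Fin n))} (hZ : Z = {g | Perm.sign g = e ∧ ∑ i, φ i (g i) ∈ V})
    (hI : ∀ g ∈ Z, ∀ h ∈ Z, ∀ s t : Perm (Fin n), s.IsSwap → t.IsSwap → s * g = t * h → g = h)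
    (hc : δ * (n - 2).factorial ≤ Z.ncard) :
    Real.exp (1 / 10 ^ 91 * δ ^ 21 * n) ≤ V.card * n ^ 9 := by
  have e1 : Z = ↑(ZZ φ (V : Set A) e) := by
    rw [hZ]; ext g; rw [mem_coe, mem_ZZ]; rfl
  rw [e1, Set.ncard_coe_finset] at hc
  refine Code.pack ⟨fun z i j k l h h' a b => ?_⟩ hn h0 h1 hc
  have key : ∀ p q, swap (z p) (z q) * (z * swap p q) = z := fun p q => by
    rw [mul_swap_eq_swap_mul, swap_mul_self_mul]
  exact mul_left_cancel (hI _ (hZ ▸ a) _ (hZ ▸ b) _ _ ⟨_, _, z.injective.ne h, rfl⟩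
    ⟨_, _, z.injective.ne h', rfl⟩ ((key i j).trans (key k l).symm))

lemma code_of {b : Prop} {Y : Set (Perm (Fin n))} (hT : Til b Y)
    (hY : ∀ g : Perm (Fin n), Perm.sign g = e → (g ∈ Y ↔ syn φ g ∈ W)) :
    Code φ W e ∧ Covers φ W e := by
  refine ⟨⟨fun z i j k l h h' a c =>
    hT.uniq z i j k l h h' ((hY _ a.1).2 a.2) ((hY _ c.1).2 c.2)⟩, fun x hx i j k l h h' a c => ?_⟩
  have key : ∀ i j, i ≠ j → ¬ Cov φ W e (x * swap i j) → x * swap i j ∈ Y := fun i j h a => by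
    rcases hT.ex (x * swap i j) with k | ⟨p, q, hpq, k⟩
    · exact k.2
    · have hs := (sign_two x h hpq).trans hx
      exact absurd ⟨p, q, hpq, hs, (hY _ hs).1 k⟩ a
  exact hT.uniq x i j k l h h' (key i j h a) (key k l h' c)

lemma small {a : ℝ} (ha : 0 < a) : ∃ c : ℝ, 0 < c ∧ c ≤ a ∧ ∀ (n : ℕ) (v : ℝ), 2 ≤ v →
    Real.exp (2 * a * n) ≤ v * n ^ 9 → (2 : ℝ) ^ (c * n) < v := by
  set N : ℝ := (Nat.factorial 10 : ℕ) / a ^ 10 + 1 with hN
  have N0 : 0 < N := by positivity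
  refine ⟨min a (1 / N), lt_min ha (by positivity), min_le_left _ _, fun n v hv h => ?_⟩
  have n0 : (0 : ℝ) ≤ n := Nat.cast_nonneg _
  by_cases k : (n : ℝ) < N
  · refine lt_of_lt_of_le ?_ hv
    calc (2 : ℝ) ^ (min a (1 / N) * n) < 2 ^ (1 : ℝ) := by
          refine Real.rpow_lt_rpow_of_exponent_lt (by norm_num) ?_
          refine (mul_le_mul_of_nonneg_right (min_le_right _ _) n0).trans_lt ?_
          rwa [one_div, inv_mul_lt_iff₀ N0, mul_one]
      _ = 2 := Real.rpow_one 2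
  · replace k := not_lt.1 k
    have n1 : (0 : ℝ) < n := N0.trans_le k
    have q1 := Real.pow_div_factorial_le_exp (a * n) (by positivity) 10
    have q2 : (n : ℝ) ^ 9 < (a * n) ^ 10 / (Nat.factorial 10 : ℕ) := by
      rw [lt_div_iff₀ (by positivity)]
      have : ((Nat.factorial 10 : ℕ) : ℝ) < n * a ^ 10 := by
        rw [← div_lt_iff₀ (by positivity)]; linarith
      calc (n : ℝ) ^ 9 * (Nat.factorial 10 : ℕ) < n ^ 9 * (n * a ^ 10) :=
            mul_lt_mul_of_pos_left this (by positivity)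
        _ = _ := by ring
    have q3 : Real.exp (a * n) < v := by
      refine lt_of_mul_lt_mul_right ?_ (Real.exp_pos (a * n)).le
      rw [← Real.exp_add, show a * n + a * n = 2 * a * n by ring]
      exact h.trans_lt (mul_lt_mul_of_pos_left (q2.trans_le q1) (by linarith))
    refine lt_of_le_of_lt ?_ q3
    rw [Real.rpow_def_of_pos two_pos]
    refine Real.exp_le_exp.2 ?_
    have l2 : Real.log 2 ≤ 1 := by linarith [Real.log_two_lt_d9]
    have t1 := mul_le_mul_of_nonneg_right (min_le_left a (1 / N)) n0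
    have t2 : 0 ≤ min a (1 / N) * n := mul_nonneg (le_min ha.le (by positivity)) n0
    nlinarith

theorem tile (hn : 26 ≤ n) {b : Prop} {Y : Set (Perm (Fin n))} (hT : Til b Y) {V : Finset A}
    (hY : ∀ g : Perm (Fin n), Perm.sign g = e → (g ∈ Y ↔ ∑ i, φ i (g i) ∈ V)) :
    (2 : ℝ) ≤ V.card ∧ Real.exp (2 * (1 / 10 ^ 91 / 2 ^ 22) * n) ≤ V.card * n ^ 9 := by
  obtain ⟨hC, hv⟩ := code_of (W := (V : Set A)) hT hY
  have d := hv.dense (by omega)
  refine ⟨?_, le_of_eq_of_le (by congr 1; ring) (hC.pack (by omega) (by norm_num) (by norm_num) d)⟩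
  have h2 : 2 ≤ V.card := by
    by_contra k
    rcases (by omega : V.card = 0 ∨ V.card = 1) with k | k
    · have : ZZ φ (V : Set A) e = ∅ := eq_empty_of_forall_notMem fun y hy => by
        have := (mem_ZZ.1 hy).2
        rw [card_eq_zero.1 k] at this
        simp at this
      rw [this] at d
      have hf : (0 : ℝ) < (n - 2).factorial := by exact_mod_cast (n - 2).factorial_pos
      simp only [card_empty, Nat.cast_zero] at d
      linarith
    · obtain ⟨c, rfl⟩ := card_eq_one.1 k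
      exact main hn hT (c := c) fun g hg => by simpa using hY g hg
  exact_mod_cast h2

end Pool.Agent.P.MP_bfa556_co.Y
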