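import Pool.Agent.P.MP_bfa556_co.U3

open Finset Equiv
open scoped BigOperators

namespace Pool.Agent.P.MP_bfa556_co.Y

open Pool.Agent.P.MP_bfa556_co.U

variable {n : ℕ} {A : Type} [AddCommGroup A]

/-- The syndrome of a permutation. -/
def syn (φ : Fin n → Fin n → A) (x : Perm (Fin n)) : A := ∑ i, φ i (x i)

/-- The change of the syndrome when the cells `(i, a)`, `(j, b)` become `(i, b)`, `(j, a)`. -/
def lab (φ : Fin n → Fin n → A) (i a j b : Fin n) : A := φ i b + φ j a - φ i a - φ j b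

variable {φ : Fin n → Fin n → A} {W W' : Set A} {e : ℤˣ}

lemma lab_comm (i a j b : Fin n) : lab φ i a j b = lab φ j b i a := by unfold lab; abel

lemma syn_swap (x : Perm (Fin n)) {i j : Fin n} (h : i ≠ j) :
    syn φ (x * swap i j) = syn φ x + lab φ i (x i) j (x j) := by
  unfold syn lab
  have hj : j ∈ univ.erase i := mem_erase.2 ⟨h.symm, mem_univ _⟩
  rw [← add_sum_erase _ _ (mem_univ i), ← add_sum_erase _ _ hj,
    ← add_sum_erase _ (fun k => φ k (x k)) (mem_univ i), ← add_sum_erase _ (fun k => φ k (x k)) hj]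
  have : ∑ k ∈ (univ.erase i).erase j, φ k ((x * swap i j) k)
      = ∑ k ∈ (univ.erase i).erase j, φ k (x k) := sum_congr rfl fun k hk => by
    rw [Perm.mul_apply, swap_apply_of_ne_of_ne (ne_of_mem_erase (mem_of_mem_erase hk))
      (ne_of_mem_erase hk)]
  rw [this]
  simp only [Perm.mul_apply, swap_apply_left, swap_apply_right]
  abel

lemma sign_two (x : Perm (Fin n)) {p q i j : Fin n} (h : p ≠ q) (h' : i ≠ j) :
    Perm.sign (x * swap p q * swap i j) = Perm.sign x := by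
  simp [Perm.sign_mul, Perm.sign_swap h, Perm.sign_swap h']

lemma sw_cases {p q p' q' : Fin n} (h : p ≠ q) (hs : swap p q = swap p' q') :
    (p = p' ∧ q = q') ∨ (p = q' ∧ q = p') := by
  have h1 : swap p' q' p = q := by rw [← hs, swap_apply_left]
  rw [swap_apply_def] at h1
  split_ifs at h1 with a b
  · exact Or.inl ⟨a, h1.symm⟩
  · exact Or.inr ⟨b, h1.symm⟩
  · exact absurd h1 h

/-- Membership in the union of classes. -/
def InZ (φ : Fin n → Fin n → A) (W : Set A) (e : ℤˣ) (y : Perm (Fin n)) : Prop :=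
  Perm.sign y = e ∧ syn φ y ∈ W

/-- `z` is one transposition away from the union of classes. -/
def Cov (φ : Fin n → Fin n → A) (W : Set A) (e : ℤˣ) (z : Perm (Fin n)) : Prop :=
  ∃ i j, i ≠ j ∧ InZ φ W e (z * swap i j)

/-- No permutation is one transposition away from two elements of the union of classes. -/
structure Code (φ : Fin n → Fin n → A) (W : Set A) (e : ℤˣ) : Prop where
  uniq : ∀ z i j k l, i ≠ j → k ≠ l → InZ φ W e (z * swap i j) → InZ φ W e (z * swap k l) →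
    swap i j = swap k l

/-- At most one neighbour of a permutation of sign `e` is not covered. -/
def Covers (φ : Fin n → Fin n → A) (W : Set A) (e : ℤˣ) : Prop :=
  ∀ x, Perm.sign x = e → ∀ i j k l, i ≠ j → k ≠ l → ¬ Cov φ W e (x * swap i j) →
    ¬ Cov φ W e (x * swap k l) → swap i j = swap k l

/-- Four distinct rows. -/
def D4 (p q i j : Fin n) : Prop := p ≠ q ∧ p ≠ i ∧ p ≠ j ∧ q ≠ i ∧ q ≠ j ∧ i ≠ j

/-- A link with the cell `(r, a)` put in by hand. -/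
def VL (φ : Fin n → Fin n → A) (W : Set A) (t : A) (x : Perm (Fin n)) (p q r a l : Fin n) : Prop :=
  D4 p q r l ∧ x p ≠ a ∧ x q ≠ a ∧ x l ≠ a ∧
    t + lab φ p (x p) q (x q) + lab φ r a l (x l) ∈ W

/-- A link of `x`. -/
def Lk (φ : Fin n → Fin n → A) (W : Set A) (x : Perm (Fin n)) (p q i j : Fin n) : Prop :=
  VL φ W (syn φ x) x p q i (x i) j

/-- One new cell that no permutation of the class has together with `x` on `B`. -/
def Blk1 (φ : Fin n → Fin n → A) (e : ℤˣ) (t : A) (x : Perm (Fin n)) (r a : Fin n)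
    (B : Finset (Fin n)) : Prop :=
  B.card ≤ 5 ∧ r ∉ B ∧ (∀ i ∈ B, x i ≠ a) ∧
    ¬ ∃ y, Perm.sign y = e ∧ syn φ y = t ∧ (∀ i ∈ B, y i = x i) ∧ y r = a

/-- Two new cells that no permutation of the class has together with `x` on `B`. -/
def Blk2 (φ : Fin n → Fin n → A) (e : ℤˣ) (t : A) (x : Perm (Fin n)) (r a r2 a2 : Fin n)
    (B : Finset (Fin n)) : Prop :=
  B.card ≤ 4 ∧ r ∉ B ∧ r2 ∉ B ∧ (∀ i ∈ B, x i ≠ a) ∧ (∀ i ∈ B, x i ≠ a2) ∧ r ≠ r2 ∧ a ≠ a2 ∧
    ¬ ∃ y, Perm.sign y = e ∧ syn φ y = t ∧ (∀ i ∈ B, y i = x i) ∧ y r = a ∧ y r2 = a2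

lemma VL.mono {t : A} {x : Perm (Fin n)} {p q r a l : Fin n} (hW : W' ⊆ W)
    (h : VL φ W' t x p q r a l) : VL φ W t x p q r a l :=
  ⟨h.1, h.2.1, h.2.2.1, h.2.2.2.1, hW h.2.2.2.2⟩

lemma VL.of_swap {t : A} {x : Perm (Fin n)} {p q p' q' r a l : Fin n}
    (h : VL φ W t x p q r a l) (hs : swap p q = swap p' q') : VL φ W t x p' q' r a l := by
  rcases sw_cases h.1.1 hs with ⟨rfl, rfl⟩ | ⟨rfl, rfl⟩
  · exact h
  · obtain ⟨⟨a1, a2, a3, a4, a5, a6⟩, b1, b2, b3, b4⟩ := h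
    exact ⟨⟨a1.symm, a4, a5, a2, a3, a6⟩, b2, b1, b3, by rwa [lab_comm q]⟩

lemma syn_two (y : Perm (Fin n)) {p q r l : Fin n} (h : D4 p q r l) :
    syn φ (y * swap p q * swap r l)
      = syn φ y + lab φ p (y p) q (y q) + lab φ r (y r) l (y l) := by
  obtain ⟨a1, a2, a3, a4, a5, a6⟩ := h
  rw [syn_swap _ a6, syn_swap _ a1]
  simp only [Perm.mul_apply]
  rw [swap_apply_of_ne_of_ne a2.symm a4.symm, swap_apply_of_ne_of_ne a3.symm a5.symm]

lemma VL.real {t : A} {x y : Perm (Fin n)} {p q r a l : Fin n} (h : VL φ W t x p q r a l)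
    (hs : Perm.sign y = e) (ht : syn φ y = t) (hp : y p = x p) (hq : y q = x q) (hl : y l = x l)
    (hr : y r = a) : InZ φ W e (y * swap p q * swap r l) :=
  ⟨(sign_two y h.1.1 h.1.2.2.2.2.2).trans hs, by
    rw [syn_two y h.1, ht, hp, hq, hl, hr]; exact h.2.2.2.2⟩

lemma lk_iff {x : Perm (Fin n)} (hs : Perm.sign x = e) {p q i j : Fin n} :
    Lk φ W x p q i j ↔ D4 p q i j ∧ InZ φ W e (x * swap p q * swap i j) := by
  refine ⟨fun h => ⟨h.1, VL.real h hs rfl rfl rfl rfl rfl⟩, fun ⟨h, hz⟩ => ?_⟩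
  refine ⟨h, x.injective.ne h.2.1, x.injective.ne h.2.2.2.1, x.injective.ne h.2.2.2.2.2.symm, ?_⟩
  rw [← syn_two x h]; exact hz.2

lemma loc_two {x y : Perm (Fin n)} {p q i j : Fin n} (h : p ≠ q) (h' : i ≠ j)
    (hs : Perm.sign y = e) (ht : syn φ y = syn φ x) (hp : y p = x p) (hq : y q = x q)
    (hi : y i = x i) (hj : y j = x j) (hz : InZ φ W e (x * swap p q * swap i j)) :
    InZ φ W e (y * swap p q * swap i j) := by
  refine ⟨(sign_two y h h').trans hs, ?_⟩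
  have k : ∀ m, y m = x m → (y * swap p q) m = (x * swap p q) m := fun m hm => by
    simp only [Perm.mul_apply, swap_apply_def]
    split_ifs <;> assumption
  have := hz.2
  rw [syn_swap _ h', syn_swap _ h] at this ⊢
  rwa [ht, hp, hq, k i hi, k j hj]

lemma Code.same (hC : Code φ W e) {x τ : Perm (Fin n)} {p q p' q' : Fin n} (h : p ≠ q)
    (h' : p' ≠ q') (h1 : InZ φ W e (x * swap p q * τ)) (h2 : InZ φ W e (x * swap p' q' * τ)) :
    swap p q = swap p' q' := by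
  rw [mul_assoc, swap_mul_eq_mul_swap, ← mul_assoc] at h1 h2
  have := hC.uniq _ _ _ _ _ (τ⁻¹.injective.ne h) (τ⁻¹.injective.ne h') h1 h2
  refine mul_right_cancel (b := τ) ?_
  rw [swap_mul_eq_mul_swap, swap_mul_eq_mul_swap, this]

lemma card4 (a b c d : Fin n) : ({a, b, c, d} : Finset (Fin n)).card ≤ 4 := card_le_four

lemma Code.blk_other (hC : Code φ W e) {x : Perm (Fin n)} {p q r a l i j : Fin n}
    (h1 : VL φ W (syn φ x) x p q r a l) (hij : i ≠ j) (hz : InZ φ W e (x * swap p q * swap i j))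
    (hi : i ≠ r) (hj : j ≠ r) (hi' : x i ≠ a) (hj' : x j ≠ a) :
    ∃ B, Blk1 φ e (syn φ x) x r a B := by
  obtain ⟨a1, a2, a3, a4, a5, a6⟩ := h1.1
  refine ⟨{p, q, l, i, j}, card_le_five, ?_, ?_, ?_⟩
  · simp [a2.symm, a4.symm, a6, hi.symm, hj.symm]
  · simp [h1.2.1, h1.2.2.1, h1.2.2.2.1, hi', hj']
  · rintro ⟨y, hs, ht, hB, hr⟩
    have z1 := h1.real hs ht (hB _ (by simp)) (hB _ (by simp)) (hB _ (by simp)) hr
    have z2 := loc_two a1 hij hs ht (hB _ (by simp)) (hB _ (by simp)) (hB _ (by simp))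
      (hB _ (by simp)) hz
    rcases sw_cases a6 (hC.uniq _ _ _ _ _ a6 hij z1 z2) with ⟨k, -⟩ | ⟨k, -⟩
    · exact hi k.symm
    · exact hj k.symm

lemma Code.blk_two (hC : Code φ W e) {t : A} {x : Perm (Fin n)}
    {p q p' q' r a l r2 a2 l2 : Fin n} (h1 : VL φ W t x p q r a l)
    (h2 : VL φ W t x p' q' r2 a2 l2) (hs : swap p' q' = swap p q) (c1 : r ≠ r2) (c2 : a ≠ a2)
    (c3 : l ≠ r2) (c4 : x l ≠ a2) (c5 : l2 ≠ r) (c6 : x l2 ≠ a) :
    ∃ B, Blk2 φ e t x r a r2 a2 B := by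
  replace h2 := h2.of_swap hs
  obtain ⟨a1, a2', a3, a4, a5, a6⟩ := h1.1
  obtain ⟨-, b2, b3, b4, b5, b6⟩ := h2.1
  refine ⟨{p, q, l, l2}, card4 .., ?_, ?_, ?_, ?_, c1, c2, ?_⟩
  · simp [a2'.symm, a4.symm, a6, c5.symm]
  · simp [b2.symm, b4.symm, b6, c3.symm]
  · simp [h1.2.1, h1.2.2.1, h1.2.2.2.1, c6]
  · simp [h2.2.1, h2.2.2.1, h2.2.2.2.1, c4]
  · rintro ⟨y, hs, ht, hB, hr, hr2⟩
    have z1 := h1.real hs ht (hB _ (by simp)) (hB _ (by simp)) (hB _ (by simp)) hr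
    have z2 := h2.real hs ht (hB _ (by simp)) (hB _ (by simp)) (hB _ (by simp)) hr2
    rcases sw_cases a6 (hC.uniq _ _ _ _ _ a6 b6 z1 z2) with ⟨k, -⟩ | ⟨k, -⟩
    · exact c1 k
    · exact c5 k.symm

lemma sum_ind_eq {ι : Type*} [Fintype ι] (p : ι → Prop) [DecidablePred p] :
    ∑ i, ind (p i) = (univ.filter p).card := by
  rw [card_filter]; push_cast
  refine sum_congr rfl fun i _ => ?_
  split_ifs with h
  · exact ind_pos h
  · exact ind_neg h

lemma sum_ind_le {ι κ : Type*} [Fintype ι] [Fintype κ] {p : ι → Prop} {q : κ → Prop}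
    (R : ι → κ → Prop) (h1 : ∀ i, p i → ∃ j, q j ∧ R i j)
    (h2 : ∀ j i i', R i j → R i' j → i = i') : ∑ i, ind (p i) ≤ ∑ j, ind (q j) := by
  classical
  rw [sum_ind_eq, sum_ind_eq]
  norm_cast
  refine card_le_card_of_forall_subsingleton R (fun i hi => ?_) fun j _ i hi i' hi' => ?_
  · obtain ⟨j, a, b⟩ := h1 i (mem_filter.1 hi).2
    exact ⟨j, mem_filter.2 ⟨mem_univ _, a⟩, b⟩
  · exact h2 j i i' hi.2 hi'.2

lemma sum_ind_single {ι : Type*} [Fintype ι] (r : ι) : ∑ j, ind (j = r) = 1 := by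
  rw [sum_eq_single r (fun j _ h => ind_neg h) (fun h => absurd (mem_univ _) h), ind_pos rfl]

/-- The pair of rows is linked. -/
def Lkd (φ : Fin n → Fin n → A) (W : Set A) (x : Perm (Fin n)) (i j : Fin n) : Prop :=
  ∃ p q, Lk φ W x p q i j

/-- The partner of the rows `i, j` is also linked to the cell `(r, a)`, through a row with `c`. -/
def Act (φ : Fin n → Fin n → A) (W W' : Set A) (c : Fin n → Prop) (x : Perm (Fin n))
    (i j r a : Fin n) : Prop :=
  ∃ p q l, Lk φ W x p q i j ∧ VL φ W' (syn φ x) x p q r a l ∧ c l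

end Pool.Agent.P.MP_bfa556_co.Y
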