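import Pool.Agent.P.MP_bfa556_co.Y4

open Finset Equiv
open scoped BigOperators

namespace Pool.Agent.P.MP_bfa556_co.Y

open Pool.Agent.P.MP_bfa556_co.U

variable {n : ℕ} {A : Type} [AddCommGroup A] {φ : Fin n → Fin n → A} {W W' : Set A} {e : ℤˣ}

open Classical in
/-- The union of classes as a finite set. -/
noncomputable def ZZ (φ : Fin n → Fin n → A) (W : Set A) (e : ℤˣ) : Finset (Perm (Fin n)) :=
  univ.filter (InZ φ W e)

open Classical in
/-- The permutations of the same sign that have a link. -/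
noncomputable def XX (φ : Fin n → Fin n → A) (W : Set A) (e : ℤˣ) : Finset (Perm (Fin n)) :=
  univ.filter fun x => Perm.sign x = e ∧ ∃ i j, Lkd φ W x i j

lemma mem_ZZ {y : Perm (Fin n)} : y ∈ ZZ φ W e ↔ InZ φ W e y := by simp [ZZ]
lemma mem_XX {x : Perm (Fin n)} : x ∈ XX φ W e ↔ Perm.sign x = e ∧ ∃ i j, Lkd φ W x i j := by
  simp [XX]

lemma sum_mem_eq {ι : Type*} [Fintype ι] (s : Finset ι) (f : ι → ℝ) :
    ∑ i ∈ s, f i = ∑ i, ind (i ∈ s) * f i := by
  classical
  rw [← sum_add_sum_compl s, sum_eq_zero (s := sᶜ) fun i hi => by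
    rw [ind_neg (mem_compl.1 hi), zero_mul], add_zero]
  exact sum_congr rfl fun i hi => by rw [ind_pos hi, one_mul]

lemma card_eq_ind {ι : Type*} [Fintype ι] (s : Finset ι) : (s.card : ℝ) = ∑ i, ind (i ∈ s) := by
  have := sum_mem_eq s fun _ => (1 : ℝ)
  simpa using this

lemma sum_notMem (B : Finset (Fin n)) : ∑ i, ind (i ∉ B) = (n : ℝ) - B.card := by
  simp only [ind_not]
  rw [sum_sub_distrib, ← card_eq_ind]; simp

lemma sum_ne (i : Fin n) : ∑ j, ind (i ≠ j) = (n : ℝ) - 1 := by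
  have := sum_notMem ({i} : Finset (Fin n))
  simp only [mem_singleton, card_singleton, Nat.cast_one] at this
  rw [← this]
  exact sum_congr rfl fun j _ => ind_congr ne_comm

lemma sum_D4 (i j : Fin n) :
    ∑ p, ∑ q, ind (D4 p q i j) = ind (i ≠ j) * ((n - 2 : ℝ) * (n - 3)) := by
  by_cases h : i = j
  · rw [ind_neg (not_not.2 h), zero_mul]
    exact sum_eq_zero fun p _ => sum_eq_zero fun q _ => ind_neg fun k => k.2.2.2.2.2 h
  have e1 : ∀ p, ∑ q, ind (D4 p q i j) = ind (p ∉ ({i, j} : Finset (Fin n))) * (n - 3 : ℝ) := by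
    intro p
    by_cases hp : p ∈ ({i, j} : Finset (Fin n))
    · rw [ind_neg (not_not.2 hp), zero_mul]
      refine sum_eq_zero fun q _ => ind_neg fun k => ?_
      simp only [mem_insert, mem_singleton] at hp
      exact hp.elim k.2.1 k.2.2.1
    · have := sum_notMem ({p, i, j} : Finset (Fin n))
      rw [card_insert_of_notMem hp, card_pair h] at this
      rw [ind_pos hp, one_mul]
      norm_num at this
      rw [← this]
      simp only [mem_insert, mem_singleton, not_or] at hp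
      exact sum_congr rfl fun q _ => ind_congr
        ⟨fun k => ⟨k.1.symm, k.2.2.2.1, k.2.2.2.2.1⟩,
          fun k => ⟨Ne.symm k.1, hp.1, hp.2, k.2.1, k.2.2, h⟩⟩
  simp only [e1]
  rw [← sum_mul, sum_notMem, card_pair h, ind_pos h]
  norm_num

lemma sum_swap_le {p' q' : Fin n} (c : Fin n → Fin n → Prop)
    (h : ∀ p q, c p q → p ≠ q ∧ swap p q = swap p' q') : ∑ p, ∑ q, ind (c p q) ≤ 2 := by
  have e1 : ∀ a b : Fin n, ∑ p, ∑ q, ind (p = a) * ind (q = b) = 1 := fun a b => by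
    simp only [← mul_sum, sum_ind_single, mul_one]
  calc ∑ p, ∑ q, ind (c p q)
      ≤ ∑ p, ∑ q, (ind (p = p') * ind (q = q') + ind (p = q') * ind (q = p')) := by
        refine sum_le_sum fun p _ => sum_le_sum fun q _ => ?_
        have n1 := mul_nonneg (ind_nonneg (p = p')) (ind_nonneg (q = q'))
        have n2 := mul_nonneg (ind_nonneg (p = q')) (ind_nonneg (q = p'))
        refine ind_le (add_nonneg n1 n2) fun k => ?_
        rcases sw_cases (h p q k).1 (h p q k).2 with ⟨a, b⟩ | ⟨a, b⟩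
        · rw [ind_pos a, ind_pos b]; linarith
        · rw [ind_pos (p := p = q') a, ind_pos (p := q = p') b]; linarith
    _ = 2 := by simp only [sum_add_distrib, e1]; norm_num

lemma sum_pair_le (c : Fin n → Fin n → Prop) (h0 : ∀ p q, c p q → p ≠ q)
    (h : ∀ p q p' q', c p q → c p' q' → swap p q = swap p' q') : ∑ p, ∑ q, ind (c p q) ≤ 2 := by
  by_cases k : ∃ p q, c p q
  · obtain ⟨p', q', k⟩ := k
    exact sum_swap_le c fun p q hc => ⟨h0 p q hc, h p q p' q' hc k⟩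
  · rw [sum_eq_zero fun p _ => sum_eq_zero fun q _ => ind_neg fun hc => k ⟨p, q, hc⟩]
    norm_num

lemma lk_X {x : Perm (Fin n)} {p q i j : Fin n} (h : D4 p q i j)
    (hz : InZ φ W e (x * swap p q * swap i j)) : x ∈ XX φ W e :=
  have hs := (sign_two x h.1 h.2.2.2.2.2).symm.trans hz.1
  mem_XX.2 ⟨hs, i, j, p, q, (lk_iff hs).2 ⟨h, hz⟩⟩

lemma Code.not_two (hC : Code φ W e) {x : Perm (Fin n)} {p q i j : Fin n} (h : D4 p q i j)
    (hz : InZ φ W e (x * swap p q * swap i j)) : ¬ InZ φ W e x := by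
  intro hx
  have : InZ φ W e (x * swap p q * swap p q) := by rwa [mul_assoc, swap_mul_self, mul_one]
  rcases sw_cases h.1 (hC.uniq _ _ _ _ _ h.1 h.2.2.2.2.2 this hz) with ⟨k, -⟩ | ⟨k, -⟩
  · exact h.2.1 k
  · exact h.2.2.1 k

lemma comm5 {ι : Type*} [Fintype ι] (f : ι → Fin n → Fin n → Fin n → Fin n → ℝ) :
    ∑ y, ∑ i, ∑ j, ∑ p, ∑ q, f y i j p q = ∑ i, ∑ j, ∑ p, ∑ q, ∑ y, f y i j p q := by
  rw [sum_comm]
  refine sum_congr rfl fun i _ => ?_
  rw [sum_comm]
  refine sum_congr rfl fun j _ => ?_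
  rw [sum_comm]
  exact sum_congr rfl fun p _ => sum_comm

lemma Code.transfer_sum (hC : Code φ W e) (ψ Ψ : Perm (Fin n) → Fin n → Fin n → ℝ)
    (h0 : ∀ x i j, 0 ≤ Ψ x i j)
    (h : ∀ x p q i j, Perm.sign x = e → Lk φ W x p q i j →
      ψ (x * swap p q * swap i j) i j ≤ Ψ x i j) :
    (n - 2 : ℝ) * (n - 3) * ∑ y ∈ ZZ φ W e, ∑ i, ∑ j, ind (i ≠ j) * ψ y i j
      ≤ 2 * ∑ x ∈ XX φ W e, ∑ i, ∑ j, Ψ x i j := by
  calc (n - 2 : ℝ) * (n - 3) * ∑ y ∈ ZZ φ W e, ∑ i, ∑ j, ind (i ≠ j) * ψ y i j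
      = ∑ y, ∑ i, ∑ j, ∑ p, ∑ q, ind (D4 p q i j) * (ind (y ∈ ZZ φ W e) * ψ y i j) := by
        rw [sum_mem_eq, mul_sum]
        refine sum_congr rfl fun y _ => ?_
        simp only [mul_sum]
        refine sum_congr rfl fun i _ => sum_congr rfl fun j _ => ?_
        simp only [← sum_mul, sum_D4]
        ring
    _ = ∑ x, ∑ i, ∑ j, ∑ p, ∑ q, ind (D4 p q i j) * (ind (x * swap p q * swap i j ∈ ZZ φ W e)
          * ψ (x * swap p q * swap i j) i j) := by
        rw [comm5, comm5]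
        refine sum_congr rfl fun i _ => sum_congr rfl fun j _ => sum_congr rfl fun p _ =>
          sum_congr rfl fun q _ => ?_
        refine (Fintype.sum_equiv (Equiv.mulRight (swap p q * swap i j)) _ _ fun x => ?_).symm
        simp only [Equiv.coe_mulRight, mul_assoc]
    _ ≤ ∑ x, ∑ i, ∑ j, ∑ p, ∑ q, ind (x ∈ XX φ W e ∧ Lk φ W x p q i j) * Ψ x i j := by
        refine sum_le_sum fun x _ => sum_le_sum fun i _ => sum_le_sum fun j _ =>
          sum_le_sum fun p _ => sum_le_sum fun q _ => ?_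
        have n1 := mul_nonneg (ind_nonneg (x ∈ XX φ W e ∧ Lk φ W x p q i j)) (h0 x i j)
        by_cases k1 : D4 p q i j
        · by_cases k2 : x * swap p q * swap i j ∈ ZZ φ W e
          · have k3 := lk_X k1 (mem_ZZ.1 k2)
            have k4 := (lk_iff (mem_XX.1 k3).1).2 ⟨k1, mem_ZZ.1 k2⟩
            rw [ind_pos k1, ind_pos k2, ind_pos (And.intro k3 k4)]
            simpa using h x p q i j (mem_XX.1 k3).1 k4
          · rw [ind_neg k2]; simpa using n1
        · rw [ind_neg k1]; simpa using n1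
    _ ≤ 2 * ∑ x ∈ XX φ W e, ∑ i, ∑ j, Ψ x i j := by
        rw [sum_mem_eq (XX φ W e), mul_sum]
        refine sum_le_sum fun x _ => ?_
        simp only [mul_sum]
        refine sum_le_sum fun i _ => sum_le_sum fun j _ => ?_
        simp only [← sum_mul]
        rw [← mul_assoc]
        refine mul_le_mul_of_nonneg_right ?_ (h0 x i j)
        by_cases k : x ∈ XX φ W e
        · rw [ind_pos k, mul_one]
          refine sum_pair_le _ (fun p q c => c.2.1.1) fun p q p' q' c c' => ?_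
          exact hC.same c.2.1.1 c'.2.1.1 ((lk_iff (mem_XX.1 k).1).1 c.2).2
            ((lk_iff (mem_XX.1 k).1).1 c'.2).2
        · rw [ind_neg k, mul_zero]
          exact (sum_eq_zero fun p _ => sum_eq_zero fun q _ => ind_neg fun c => k c.1).le

lemma sum_ne_two : ∑ i : Fin n, ∑ j, ind (i ≠ j) = (n : ℝ) * (n - 1) := by
  simp only [sum_ne]; simp; ring

lemma Covers.size (hC : Covers φ W e) (E : Finset (Perm (Fin n))) (hE : ∀ x ∈ E, Perm.sign x = e) :
    2 * (E.card : ℝ) * (n * (n - 1) - 2) ≤ (ZZ φ W e).card * (n * (n - 1)) ^ 2 := by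
  set C : ℝ := ∑ z, ind (Cov φ W e z) with hCd
  have hm : (0 : ℝ) ≤ n * (n - 1) := by
    rw [← sum_ne_two]; exact sum_nonneg fun _ _ => sum_nonneg fun _ _ => ind_nonneg _
  have shift : ∀ c : Perm (Fin n) → Prop, ∑ x : Perm (Fin n), ∑ i, ∑ j,
      ind (i ≠ j) * ind (c (x * swap i j)) = n * (n - 1) * ∑ z, ind (c z) := fun c => by
    rw [← sum_ne_two, sum_mul, sum_comm]
    refine sum_congr rfl fun i _ => ?_
    rw [sum_mul, sum_comm]
    refine sum_congr rfl fun j _ => ?_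
    rw [← mul_sum]
    exact congrArg _ (Fintype.sum_equiv (Equiv.mulRight (swap i j)) _ _ fun x => rfl)
  have a1 : (E.card : ℝ) * (n * (n - 1) - 2) ≤ n * (n - 1) * C := by
    rw [hCd, ← shift, ← nsmul_eq_mul, ← sum_const]
    refine le_trans (sum_le_sum fun x hx => ?_) (sum_le_sum_of_subset_of_nonneg (subset_univ _)
      fun x _ _ => sum_nonneg fun _ _ => sum_nonneg fun _ _ =>
        mul_nonneg (ind_nonneg _) (ind_nonneg _))
    have b1 := sum_pair_le (fun i j => i ≠ j ∧ ¬ Cov φ W e (x * swap i j)) (fun _ _ c => c.1)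
      fun p q p' q' c c' => hC x (hE x hx) _ _ _ _ c.1 c'.1 c.2 c'.2
    simp only [ind_and, ind_not (Cov φ W e _), mul_sub, mul_one, sum_sub_distrib, sum_ne_two] at b1
    linarith
  have a2 : 2 * C ≤ n * (n - 1) * (ZZ φ W e).card := by
    rw [card_eq_ind, ← shift, hCd, mul_sum]
    refine sum_le_sum fun z _ => ?_
    by_cases k : Cov φ W e z
    · obtain ⟨i, j, hij, hz⟩ := k
      have t : ∀ i, 0 ≤ ∑ j, ind (i ≠ j) * ind (z * swap i j ∈ ZZ φ W e) :=
        fun i => sum_nonneg fun _ _ => mul_nonneg (ind_nonneg _) (ind_nonneg _)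
      have u : ∀ i j, i ≠ j → InZ φ W e (z * swap i j) →
          1 ≤ ∑ j, ind (i ≠ j) * ind (z * swap i j ∈ ZZ φ W e) := fun i j hij hz => by
        have := single_le_sum (f := fun j => ind (i ≠ j) * ind (z * swap i j ∈ ZZ φ W e))
          (fun _ _ => mul_nonneg (ind_nonneg _) (ind_nonneg _)) (mem_univ j)
        simp only [ind_pos hij, ind_pos (mem_ZZ.2 hz), mul_one] at this
        exact this
      have v := sum_le_sum_of_subset_of_nonneg (subset_univ ({i, j} : Finset (Fin n)))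
        fun i _ _ => t i
      rw [sum_pair hij] at v
      have := ind_le_one (Cov φ W e z)
      linarith [u i j hij hz, u j i hij.symm (by rwa [swap_comm j i])]
    · rw [ind_neg k, mul_zero]
      exact sum_nonneg fun _ _ => sum_nonneg fun _ _ => mul_nonneg (ind_nonneg _) (ind_nonneg _)
  nlinarith [mul_le_mul_of_nonneg_left a2 hm]

lemma Covers.dense (hC : Covers φ W e) (hn : 4 ≤ n) :
    1 / 2 * ((n - 2).factorial : ℝ) ≤ (ZZ φ W e).card := by
  classical
  have s := hC.size (univ.filter fun x => Perm.sign x = e) fun x hx => (mem_filter.1 hx).2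
  rw [← sum_ind_eq] at s
  have hD : (⟨0, by omega⟩ : Fin n) ≠ ⟨1, by omega⟩ := by simp
  have a1 : ∑ x : Perm (Fin n), ind (¬ Perm.sign x = e) = ∑ x : Perm (Fin n), ind (Perm.sign x = e) := by
    refine Fintype.sum_equiv (Equiv.mulRight (swap ⟨0, by omega⟩ ⟨1, by omega⟩)) _ _
      fun x => ind_congr ?_
    simp only [Equiv.coe_mulRight, Perm.sign_mul, Perm.sign_swap hD]
    rcases Int.units_eq_one_or (Perm.sign x) with h | h <;>
      rcases Int.units_eq_one_or e with h' | h' <;> simp [h, h']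
  simp only [ind_not, sum_sub_distrib, sum_const, card_univ, Fintype.card_perm, Fintype.card_fin,
    nsmul_eq_mul, mul_one] at a1
  have a2 : (n.factorial : ℝ) = n * (n - 1) * (n - 2).factorial := by
    obtain ⟨m, rfl⟩ : ∃ m, n = m + 2 := ⟨n - 2, by omega⟩
    simp only [Nat.add_sub_cancel, Nat.factorial_succ]
    push_cast; ring
  have hN : (4 : ℝ) ≤ n := by exact_mod_cast hn
  have m0 : (12 : ℝ) ≤ n * (n - 1) := by nlinarith
  have hf : (0 : ℝ) < (n - 2).factorial := by exact_mod_cast (n - 2).factorial_pos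
  have a3 : 2 * ∑ x : Perm (Fin n), ind (Perm.sign x = e) = n * (n - 1) * (n - 2).factorial := by
    linarith
  rw [a3] at s
  set m : ℝ := n * (n - 1)
  refine le_of_mul_le_mul_right (le_trans ?_ s) (by positivity : 0 < m ^ 2)
  nlinarith [mul_pos hf (by linarith : 0 < m)]

lemma fact_le (hn : 2 ≤ n) : (n.factorial : ℝ) ≤ n ^ 2 * (n - 2).factorial := by
  obtain ⟨m, rfl⟩ : ∃ m, n = m + 2 := ⟨n - 2, by omega⟩
  simp only [Nat.add_sub_cancel, Nat.factorial_succ]
  push_cast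
  have : (0 : ℝ) ≤ m.factorial := Nat.cast_nonneg _
  have : (0 : ℝ) ≤ m := Nat.cast_nonneg _
  nlinarith [mul_nonneg this ‹(0 : ℝ) ≤ m.factorial›]

lemma ex3 (S : Finset (Perm (Fin n))) (f : Perm (Fin n) → Fin n → Fin n → ℝ) :
    𝔼 y ∈ S, 𝔼 i, 𝔼 j, f y i j = (∑ y ∈ S, ∑ i, ∑ j, f y i j) / (S.card * n ^ 2) := by
  simp only [expect_eq_sum_div_card, card_univ, Fintype.card_fin, ← sum_div]
  ring

lemma Code.size_X (hC : Code φ W e) (hn : 10 ≤ n) {δ : ℝ}
    (hZ : δ * (n - 2).factorial ≤ (ZZ φ W e).card) :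
    δ * n.factorial ≤ 4 * (XX φ W e).card := by
  have t := hC.transfer_sum (fun _ _ _ => 1) (fun _ _ _ => 1) (fun _ _ _ => zero_le_one)
    fun _ _ _ _ _ _ _ => le_rfl
  simp only [mul_one, sum_ne_two, sum_const, card_univ, Fintype.card_fin, nsmul_eq_mul] at t
  have hN : (10 : ℝ) ≤ n := by exact_mod_cast hn
  have hz : (0 : ℝ) ≤ (ZZ φ W e).card := Nat.cast_nonneg _
  have a2 : (n.factorial : ℝ) = n * (n - 1) * (n - 2).factorial := by
    obtain ⟨m, rfl⟩ : ∃ m, n = m + 2 := ⟨n - 2, by omega⟩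
    simp only [Nat.add_sub_cancel, Nat.factorial_succ]
    push_cast; ring
  have m0 : (0 : ℝ) ≤ n * (n - 1) := by nlinarith
  have a3 := mul_le_mul_of_nonneg_left hZ m0
  have a4 : (n : ℝ) * n ≤ 2 * ((n - 2) * (n - 3)) := by nlinarith
  have a5 := mul_le_mul_of_nonneg_right a4 (mul_nonneg hz m0)
  refine le_of_mul_le_mul_left ?_ (by positivity : (0 : ℝ) < n * n)
  rw [a2]
  nlinarith [mul_le_mul_of_nonneg_left a3 (by positivity : (0 : ℝ) ≤ n * n)]

lemma Code.transfer (hC : Code φ W e) (hn : 10 ≤ n) {δ : ℝ} (hδ : 0 < δ)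
    (hZ : δ * (n - 2).factorial ≤ (ZZ φ W e).card) (ψ Ψ : Perm (Fin n) → Fin n → Fin n → ℝ)
    (h0 : ∀ x i j, 0 ≤ Ψ x i j) (h1 : ∀ y i j, ψ y i j ≤ 1)
    (h : ∀ x p q i j, Perm.sign x = e → Lk φ W x p q i j →
      ψ (x * swap p q * swap i j) i j ≤ Ψ x i j) :
    𝔼 y ∈ ZZ φ W e, 𝔼 i, 𝔼 j, ψ y i j ≤ 4 / δ * 𝔼 x ∈ XX φ W e, 𝔼 i, 𝔼 j, Ψ x i j + 1 / n := by
  have t := hC.transfer_sum ψ Ψ h0 h
  have sx := hC.size_X hn hZ
  have hN : (10 : ℝ) ≤ n := by exact_mod_cast hn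
  have hf : (0 : ℝ) < n.factorial := by exact_mod_cast n.factorial_pos
  have hf2 : (0 : ℝ) < (n - 2).factorial := by exact_mod_cast (n - 2).factorial_pos
  have fl := fact_le (n := n) (by omega)
  have xl : ((XX φ W e).card : ℝ) ≤ n.factorial := by
    have := card_le_univ (XX φ W e)
    rw [Fintype.card_perm, Fintype.card_fin] at this
    exact_mod_cast this
  set x : ℝ := ((XX φ W e).card : ℝ) with hxd
  set z : ℝ := ((ZZ φ W e).card : ℝ) with hz
  have hx : 0 < x := by nlinarith [mul_pos hδ hf]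
  have hz0 : 0 < z := lt_of_lt_of_le (mul_pos hδ hf2) hZ
  set a := ∑ y ∈ ZZ φ W e, ∑ i, ∑ j, ind (i ≠ j) * ψ y i j with ha
  set b := ∑ x ∈ XX φ W e, ∑ i, ∑ j, Ψ x i j with hb
  have hb0 : 0 ≤ b := sum_nonneg fun _ _ => sum_nonneg fun _ _ => sum_nonneg fun _ _ => h0 _ _ _
  have u1 : ∑ y ∈ ZZ φ W e, ∑ i, ∑ j, ψ y i j ≤ a + z * n := by
    have : z * n = ∑ _y ∈ ZZ φ W e, ∑ i : Fin n, ∑ j, ind (j = i) := by
      simp only [sum_ind_single]; simp [hz]
    rw [this, ha, ← sum_add_distrib]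
    refine sum_le_sum fun y _ => ?_
    rw [← sum_add_distrib]
    refine sum_le_sum fun i _ => ?_
    rw [← sum_add_distrib]
    refine sum_le_sum fun j _ => ?_
    by_cases k : j = i
    · rw [ind_pos k, ind_neg (not_not.2 k.symm)]; simpa using h1 y i j
    · rw [ind_neg k, ind_pos (Ne.symm k)]; simp
  rw [ex3, ex3, ← hb, ← hz, ← hxd]
  have hn0 : (0 : ℝ) < n := by linarith
  have k1 : δ * x ≤ n ^ 2 * z := by
    nlinarith [mul_le_mul_of_nonneg_left (xl.trans fl) hδ.le,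
      mul_le_mul_of_nonneg_left hZ (by positivity : (0 : ℝ) ≤ n ^ 2)]
  have k2 : a / (z * n ^ 2) ≤ 4 / δ * (b / (x * n ^ 2)) := by
    by_cases ha0 : a ≤ 0
    · exact (div_nonpos_of_nonpos_of_nonneg ha0 (by positivity)).trans (by positivity)
    · have ha1 : 0 < a := not_le.1 ha0
      have a4 : (n : ℝ) ^ 2 ≤ 2 * ((n - 2) * (n - 3)) := by nlinarith
      have q1 : n ^ 2 * a ≤ 4 * b := by nlinarith [mul_le_mul_of_nonneg_right a4 ha1.le]
      have q2 : a * (δ * x) ≤ 4 * b * z := by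
        nlinarith [mul_le_mul_of_nonneg_left k1 ha1.le, mul_le_mul_of_nonneg_right q1 hz0.le]
      rw [div_mul_div_comm, div_le_div_iff₀ (by positivity) (by positivity)]
      nlinarith [mul_le_mul_of_nonneg_right q2 (by positivity : (0 : ℝ) ≤ n ^ 2)]
  have k3 : (∑ y ∈ ZZ φ W e, ∑ i, ∑ j, ψ y i j) / (z * n ^ 2) ≤ a / (z * n ^ 2) + 1 / n := by
    have : a / (z * n ^ 2) + 1 / n = (a + z * n) / (z * n ^ 2) := by field_simp
    rw [this]
    exact div_le_div_of_nonneg_right u1 (by positivity)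
  linarith

end Pool.Agent.P.MP_bfa556_co.Y
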