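import Pool.Agent.P.MP_bfa556_co.Y5

open Finset Equiv
open scoped BigOperators

namespace Pool.Agent.P.MP_bfa556_co.Y

open Pool.Agent.P.MP_bfa556_co.U

variable {n : ℕ} {A : Type} [AddCommGroup A] {φ : Fin n → Fin n → A} {W W' : Set A} {e : ℤˣ}
  {ε : ℝ}

lemma ex_prod {α β : Type*} [Fintype α] [Fintype β] (f : α × β → ℝ) :
    𝔼 ω, f ω = 𝔼 a, 𝔼 b, f (a, b) := by rw [← univ_product_univ, expect_product]

lemma ex_congr {ι : Type*} (s : Finset ι) {f g : ι → ℝ} (h : ∀ i, f i = g i) :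
    𝔼 i ∈ s, f i = 𝔼 i ∈ s, g i := expect_congr rfl fun i _ => h i

lemma rot3 (f : Fin n → Fin n → Fin n → ℝ) :
    𝔼 a, 𝔼 b, 𝔼 c, f a b c = 𝔼 b, 𝔼 c, 𝔼 a, f a b c :=
  (expect_comm _ _ _).trans (ex_congr _ fun _ => expect_comm _ _ _)

lemma rot4 (f : Fin n → Fin n → Fin n → Fin n → ℝ) :
    𝔼 a, 𝔼 b, 𝔼 c, 𝔼 d, f a b c d = 𝔼 b, 𝔼 c, 𝔼 d, 𝔼 a, f a b c d :=
  (expect_comm _ _ _).trans (ex_congr _ fun b => rot3 fun a c d => f a b c d)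

lemma ex_single (r : Fin n) : 𝔼 j, ind (j = r) = 1 / n := by
  rw [expect_eq_sum_div_card, sum_ind_single, card_univ, Fintype.card_fin]

lemma ex_mem (B : Finset (Fin n)) (σ : Perm (Fin n)) : 𝔼 j, ind (σ j ∈ B) ≤ B.card / n := by
  rw [expect_eq_sum_div_card, card_univ, Fintype.card_fin]
  exact div_le_div_of_nonneg_right (sum_ind_mem B univ σ) (Nat.cast_nonneg _)

lemma Blk1.loc {t : A} {x x' : Perm (Fin n)} {r a : Fin n} {B : Finset (Fin n)}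
    (h : ∀ i ∈ B, x i = x' i) (k : Blk1 φ e t x r a B) : Blk1 φ e t x' r a B :=
  ⟨k.1, k.2.1, fun i hi => h i hi ▸ k.2.2.1 i hi, fun ⟨y, a1, a2, a3, a4⟩ =>
    k.2.2.2 ⟨y, a1, a2, fun i hi => (a3 i hi).trans (h i hi).symm, a4⟩⟩

lemma Blk2.loc {t : A} {x x' : Perm (Fin n)} {r a r2 a2 : Fin n} {B : Finset (Fin n)}
    (h : ∀ i ∈ B, x i = x' i) (k : Blk2 φ e t x r a r2 a2 B) : Blk2 φ e t x' r a r2 a2 B :=
  ⟨k.1, k.2.1, k.2.2.1, fun i hi => h i hi ▸ k.2.2.2.1 i hi, fun i hi => h i hi ▸ k.2.2.2.2.1 i hi,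
    k.2.2.2.2.2.1, k.2.2.2.2.2.2.1, fun ⟨y, a1, a2, a3, a4⟩ =>
    k.2.2.2.2.2.2.2 ⟨y, a1, a2, fun i hi => (a3 i hi).trans (h i hi).symm, a4⟩⟩

lemma blk1_le (hX : Rich (XX φ W e) (syn φ) ε) :
    𝔼 x ∈ XX φ W e, 𝔼 r, 𝔼 a, ind (∃ B, Blk1 φ e (syn φ x) x r a B) ≤ ε := by
  have := hX Unit (fun t _ x r a B => Blk1 φ e t x r a B) (fun _ _ _ _ _ _ _ h k => k.loc h)
    fun _ _ _ _ _ _ k => ⟨k.1, k.2.1, k.2.2.1⟩
  simp only [Fintype.expect_const] at this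
  rw [expect_eq_zero fun x hx => expect_eq_zero fun r _ => ind_neg fun ⟨B, k⟩ =>
    k.2.2.2 ⟨x, (mem_XX.1 hx).1, rfl, fun _ _ => rfl, rfl⟩] at this
  linarith [(abs_le.1 this).1]

/-- The indicator that two new cells are blocked. -/
noncomputable def b2 (φ : Fin n → Fin n → A) (e : ℤˣ) (x : Perm (Fin n)) (r a r2 a2 : Fin n) : ℝ :=
  ind (∃ B, Blk2 φ e (syn φ x) x r a r2 a2 B)

lemma blk2_le [Nonempty (Fin n)] (hX : Rich (XX φ W e) (syn φ) ε) :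
    𝔼 x ∈ XX φ W e, 𝔼 r, 𝔼 a, 𝔼 r2, 𝔼 a2, b2 φ e x r a r2 a2 ≤ 2 * ε := by
  have h1 := hX (Fin n) (fun t r2 x r a B' => ∃ B, B' = insert r2 B ∧ Blk2 φ e t x r a r2 (x r2) B)
    (by
      rintro t r2 x x' r a _ h ⟨B, rfl, k⟩
      exact ⟨B, rfl, h r2 (mem_insert_self _ _) ▸ k.loc fun i hi => h i (mem_insert_of_mem hi)⟩)
    (by
      rintro t r2 x r a _ ⟨B, rfl, k⟩
      refine ⟨(card_insert_le _ _).trans (Nat.succ_le_succ k.1), ?_, ?_⟩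
      · simp [k.2.1, k.2.2.2.2.2.1]
      · intro i hi
        rcases mem_insert.1 hi with rfl | hi
        · exact k.2.2.2.2.2.2.1.symm
        · exact k.2.2.2.1 i hi)
  rw [expect_eq_zero fun x hx => expect_eq_zero fun r2 _ => expect_eq_zero fun r _ =>
    ind_neg fun ⟨_, B, _, k⟩ =>
      k.2.2.2.2.2.2.2 ⟨x, (mem_XX.1 hx).1, rfl, fun _ _ => rfl, rfl, rfl⟩] at h1
  have h2 := hX (Fin n × Fin n) (fun t ω x r2 a2 B => Blk2 φ e t x ω.1 ω.2 r2 a2 B)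
    (fun _ _ _ _ _ _ _ h k => k.loc h)
    fun _ _ _ _ _ _ k => ⟨k.1.trans (by norm_num), k.2.2.1, k.2.2.2.2.1⟩
  simp only [ex_prod] at h2
  have e1 : 𝔼 x ∈ XX φ W e, 𝔼 r2, 𝔼 r, 𝔼 a,
        ind (∃ B' B, B' = insert r2 B ∧ Blk2 φ e (syn φ x) x r a r2 (x r2) B)
      = 𝔼 x ∈ XX φ W e, 𝔼 r, 𝔼 a, 𝔼 r2, ind (∃ B, Blk2 φ e (syn φ x) x r a r2 (x r2) B) := by
    refine ex_congr _ fun x => (rot3 _).trans (ex_congr _ fun r => ex_congr _ fun a =>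
      ex_congr _ fun r2 => ind_congr ?_)
    exact ⟨fun ⟨_, B, _, k⟩ => ⟨B, k⟩, fun ⟨B, k⟩ => ⟨_, B, rfl, k⟩⟩
  rw [e1] at h1
  unfold b2
  linarith [(abs_le.1 h1).1, (abs_le.1 h2).1]

lemma prod_le [Nonempty (Fin n)] (C1 C2 β : Fin n → Fin n → Prop) (g1 k1 g2 k2 : Fin n → Fin n)
    (h : ∀ a l b l2, C1 a l → C2 b l2 → b ≠ g1 l → b ≠ k1 a → a ≠ g2 l2 → a ≠ k2 b → β a b) :
    (𝔼 a, ind (∃ l, C1 a l)) * 𝔼 b, ind (∃ l, C2 b l) ≤ 𝔼 a, 𝔼 b, ind (β a b) + 4 / n := by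
  classical
  set l1 : Fin n → Fin n := fun a => if h : ∃ l, C1 a l then h.choose else a with hl1
  set l2 : Fin n → Fin n := fun b => if h : ∃ l, C2 b l then h.choose else b with hl2
  have s1 : ∀ a, (∃ l, C1 a l) → C1 a (l1 a) := fun a h => by
    simp only [hl1, dif_pos h]; exact h.choose_spec
  have s2 : ∀ b, (∃ l, C2 b l) → C2 b (l2 b) := fun b h => by
    simp only [hl2, dif_pos h]; exact h.choose_spec
  have p : ∀ a b, ind (∃ l, C1 a l) * ind (∃ l, C2 b l) ≤ ind (β a b) + ind (b = g1 (l1 a))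
      + ind (b = k1 a) + ind (a = g2 (l2 b)) + ind (a = k2 b) := fun a b => by
    have n0 := ind_nonneg (β a b)
    have n1 := ind_nonneg (b = g1 (l1 a))
    have n2 := ind_nonneg (b = k1 a)
    have n3 := ind_nonneg (a = g2 (l2 b))
    have n4 := ind_nonneg (a = k2 b)
    rw [← ind_and]
    refine ind_le (by linarith) fun ⟨u, v⟩ => ?_
    by_cases c1 : b = g1 (l1 a)
    · rw [ind_pos c1]; linarith
    by_cases c2 : b = k1 a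
    · rw [ind_pos c2]; linarith
    by_cases c3 : a = g2 (l2 b)
    · rw [ind_pos c3]; linarith
    by_cases c4 : a = k2 b
    · rw [ind_pos c4]; linarith
    rw [ind_pos (h a _ b _ (s1 a u) (s2 b v) c1 c2 c3 c4)]; linarith
  have q := ex_mono univ fun a => ex_mono univ fun b => p a b
  have r1 : ∀ g : Fin n → Fin n, 𝔼 a, 𝔼 b, ind (b = g a) = 1 / n := fun g => by
    simp only [ex_single, Fintype.expect_const]
  have r2 : ∀ g : Fin n → Fin n, 𝔼 a, 𝔼 b, ind (a = g b) = 1 / n := fun g => by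
    rw [expect_comm]; exact r1 g
  simp only [expect_add_distrib] at q
  rw [r1 fun a => g1 (l1 a), r1 k1, r2 fun b => g2 (l2 b), r2 k2] at q
  rw [expect_mul_expect]
  have : (4 : ℝ) / n = 1 / n + 1 / n + 1 / n + 1 / n := by ring
  linarith

lemma act_iff {c : Fin n → Prop} {x : Perm (Fin n)} {i j r a : Fin n} :
    Act φ W W' c x i j r a ↔
      ∃ l, ∃ p q, Lk φ W x p q i j ∧ VL φ W' (syn φ x) x p q r a l ∧ c l :=
  ⟨fun ⟨p, q, l, h⟩ => ⟨l, p, q, h⟩, fun ⟨l, p, q, h⟩ => ⟨p, q, l, h⟩⟩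

lemma Lk.symm {x : Perm (Fin n)} (hs : Perm.sign x = e) {p q i j : Fin n}
    (h : Lk φ W x p q i j) : Lk φ W x p q j i := by
  obtain ⟨⟨a1, a2, a3, a4, a5, a6⟩, hz⟩ := (lk_iff hs).1 h
  exact (lk_iff hs).2 ⟨⟨a1, a3, a2, a5, a4, a6.symm⟩, by rwa [swap_comm j i]⟩

lemma Code.lk_same (hC : Code φ W e) {x : Perm (Fin n)} (hs : Perm.sign x = e)
    {p q p' q' i j : Fin n} (h : Lk φ W x p q i j) (h' : Lk φ W x p' q' i j) :
    swap p q = swap p' q' :=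
  hC.same h.1.1 h'.1.1 ((lk_iff hs).1 h).2 ((lk_iff hs).1 h').2

/-- The share of active cells in the row of the cell of `x` at `i`. -/
noncomputable def aR (φ : Fin n → Fin n → A) (W W' : Set A) (c : Fin n → Prop) (x : Perm (Fin n))
    (i j : Fin n) : ℝ := 𝔼 a, ind (Act φ W W' c x i j i a)

/-- The share of active cells in the column of the cell of `x` at `i`. -/
noncomputable def aC (φ : Fin n → Fin n → A) (W W' : Set A) (c : Fin n → Prop) (x : Perm (Fin n))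
    (i j : Fin n) : ℝ := 𝔼 r, ind (Act φ W W' c x i j r (x i))

lemma Code.free [Nonempty (Fin n)] (hC : Code φ W e) (hW : W' ⊆ W) {x : Perm (Fin n)}
    (hs : Perm.sign x = e) (i j : Fin n) :
    (aR φ W W' (· ≠ j) x i j + aC φ W W' (· ≠ j) x i j)
        * (aR φ W W' (· ≠ i) x j i + aC φ W W' (· ≠ i) x j i)
      ≤ 𝔼 a, 𝔼 b, b2 φ e x i a j b + 𝔼 a, 𝔼 r, b2 φ e x i a r (x j)
        + 𝔼 r, 𝔼 b, b2 φ e x r (x i) j b + 𝔼 r, 𝔼 r2, b2 φ e x r (x i) r2 (x j) + 16 / n := by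
  have t1 : aR φ W W' (· ≠ j) x i j * aR φ W W' (· ≠ i) x j i
      ≤ 𝔼 a, 𝔼 b, b2 φ e x i a j b + 4 / n := by
    unfold aR b2
    simp only [act_iff]
    refine prod_le _ _ _ x id x id ?_
    rintro a l b l2 ⟨p, q, u1, u2, u3⟩ ⟨p', q', v1, v2, v3⟩ c1 c2 c3 -
    exact hC.blk_two (u2.mono hW) (v2.mono hW) (hC.lk_same hs (v1.symm hs) u1) u1.1.2.2.2.2.2
      c2.symm u3 c1.symm v3 c3.symm
  have t2 : aR φ W W' (· ≠ j) x i j * aC φ W W' (· ≠ i) x j i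
      ≤ 𝔼 a, 𝔼 r, b2 φ e x i a r (x j) + 4 / n := by
    unfold aR aC b2
    simp only [act_iff]
    refine prod_le _ _ _ id (fun _ => i) x (fun _ => x j) ?_
    rintro a l b l2 ⟨p, q, u1, u2, u3⟩ ⟨p', q', v1, v2, v3⟩ c1 c2 c3 c4
    exact hC.blk_two (u2.mono hW) (v2.mono hW) (hC.lk_same hs (v1.symm hs) u1) c2.symm c4 c1.symm
      (x.injective.ne u3) v3 c3.symm
  have t3 : aC φ W W' (· ≠ j) x i j * aR φ W W' (· ≠ i) x j i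
      ≤ 𝔼 r, 𝔼 b, b2 φ e x r (x i) j b + 4 / n := by
    unfold aR aC b2
    simp only [act_iff]
    refine prod_le _ _ _ x (fun _ => x i) id (fun _ => j) ?_
    rintro a l b l2 ⟨p, q, u1, u2, u3⟩ ⟨p', q', v1, v2, v3⟩ c1 c2 c3 c4
    exact hC.blk_two (u2.mono hW) (v2.mono hW) (hC.lk_same hs (v1.symm hs) u1) c4 c2.symm u3
      c1.symm c3.symm (x.injective.ne v3)
  have t4 : aC φ W W' (· ≠ j) x i j * aC φ W W' (· ≠ i) x j i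
      ≤ 𝔼 r, 𝔼 r2, b2 φ e x r (x i) r2 (x j) + 4 / n := by
    unfold aC b2
    simp only [act_iff]
    refine prod_le _ _ _ id id id id ?_
    rintro a l b l2 ⟨p, q, u1, u2, u3⟩ ⟨p', q', v1, v2, v3⟩ c1 c2 c3 -
    exact hC.blk_two (u2.mono hW) (v2.mono hW) (hC.lk_same hs (v1.symm hs) u1) c2.symm
      (x.injective.ne u1.1.2.2.2.2.2) c1.symm (x.injective.ne u3) c3.symm (x.injective.ne v3)
  have : (16 : ℝ) / n = 4 / n + 4 / n + 4 / n + 4 / n := by ring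
  nlinarith

lemma four_le [Nonempty (Fin n)] (hX : Rich (XX φ W e) (syn φ) ε) :
    𝔼 x ∈ XX φ W e, 𝔼 i, 𝔼 j, (𝔼 a, 𝔼 b, b2 φ e x i a j b + 𝔼 a, 𝔼 r, b2 φ e x i a r (x j)
        + 𝔼 r, 𝔼 b, b2 φ e x r (x i) j b + 𝔼 r, 𝔼 r2, b2 φ e x r (x i) r2 (x j)) ≤ 8 * ε := by
  have h := blk2_le hX
  have e1 : ∀ x, 𝔼 i, 𝔼 j, 𝔼 a, 𝔼 b, b2 φ e x i a j b = 𝔼 r, 𝔼 a, 𝔼 r2, 𝔼 a2, b2 φ e x r a r2 a2 :=
    fun x => ex_congr _ fun i => expect_comm _ _ _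
  have e2 : ∀ x : Perm (Fin n), 𝔼 i, 𝔼 j, 𝔼 a, 𝔼 r, b2 φ e x i a r (x j)
      = 𝔼 r, 𝔼 a, 𝔼 r2, 𝔼 a2, b2 φ e x r a r2 a2 := fun x => ex_congr _ fun i =>
    (ex_comp x fun c => 𝔼 a, 𝔼 r, b2 φ e x i a r c).trans (rot3 fun c a r => b2 φ e x i a r c)
  have e3 : ∀ x : Perm (Fin n), 𝔼 i, 𝔼 j, 𝔼 r, 𝔼 b, b2 φ e x r (x i) j b
      = 𝔼 r, 𝔼 a, 𝔼 r2, 𝔼 a2, b2 φ e x r a r2 a2 := fun x =>
    (ex_comp x fun c => 𝔼 j, 𝔼 r, 𝔼 b, b2 φ e x r c j b).trans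
      (rot3 fun r c j => 𝔼 b, b2 φ e x r c j b).symm
  have e4 : ∀ x : Perm (Fin n), 𝔼 i, 𝔼 j, 𝔼 r, 𝔼 r2, b2 φ e x r (x i) r2 (x j)
      = 𝔼 r, 𝔼 a, 𝔼 r2, 𝔼 a2, b2 φ e x r a r2 a2 := fun x => by
    refine (ex_comp x fun c => 𝔼 j, 𝔼 r, 𝔼 r2, b2 φ e x r c r2 (x j)).trans ?_
    refine Eq.trans (ex_congr _ fun c => (ex_comp x fun d => 𝔼 r, 𝔼 r2, b2 φ e x r c r2 d).trans
      (rot3 fun d r r2 => b2 φ e x r c r2 d)) ?_
    exact expect_comm _ _ _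
  simp only [expect_add_distrib, e1, e2, e3, e4]
  linarith

end Pool.Agent.P.MP_bfa556_co.Y
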