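import Pool.Agent.P.MP_bfa556_co.Y6

open Finset Equiv
open scoped BigOperators

namespace Pool.Agent.P.MP_bfa556_co.Y

open Pool.Agent.P.MP_bfa556_co.U

variable {n : ℕ} {A : Type}

/-- For some random row set, a cell of `x` in the set has nearly the law of a uniform cell of the
rows and values of the set, for a test that ignores the order of the values on the set. -/
def Step (X : Finset (Perm (Fin n))) (cl : Perm (Fin n) → A) (K : ℕ) (τ : ℝ) : Prop :=
  ∀ G : A → Finset (Fin n) → Fin n → Perm (Fin n) → Fin n → ℝ,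
    (∀ t M r x a, 0 ≤ G t M r x a) → (∀ t M r x a, G t M r x a ≤ 1) →
    (∀ t M r a, Out M fun x => G t M r x a) →
    ∃ (I : Finset (Fin n)) (i0 : Fin n), i0 ∈ I ∧ K ≤ I.card ∧ I.card ≤ 2 * K ∧
      𝔼 x ∈ X, 𝔼 σ : Perm (Fin n), G (cl x) (I.map σ.toEmbedding) (σ i0) x (x (σ i0))
        ≤ 𝔼 x ∈ X, 𝔼 σ : Perm (Fin n), 𝔼 i ∈ I,
          G (cl x) (I.map σ.toEmbedding) (σ i0) x (x (σ i)) + τ

theorem step_of {K : ℕ} (hK : 0 < K) (hKn : 2 * K ≤ n)
    (X : Finset (Perm (Fin n))) (hX : X.Nonempty) (cl : Perm (Fin n) → A) (T : Finset A)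
    (hcl : ∀ x ∈ X, cl x ∈ T) {L : ℝ} (hL : (T.card : ℝ) * n.factorial ≤ Real.exp L * X.card)
    {l : ℝ} (hl0 : 0 < l) (hl1 : l ≤ 1 / 2) : Step X cl K (2 * l + L / l / K) := by
  intro G h0 h1 hG
  set I : ℕ → Finset (Fin n) := fun k => univ.filter fun i => i.val < K + k with hI
  set idx : ℕ → Fin n := fun k => ⟨min (K + k) (n - 1), by omega⟩ with hidx
  have m1 : ∀ k < K, idx k ∈ I (k + 1) := fun k hk => by
    simp only [hI, hidx, mem_filter, mem_univ, true_and]; omega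
  have m2 : ∀ k < K, idx k ∉ I k := fun k hk => by
    simp only [hI, hidx, mem_filter, mem_univ, true_and]; omega
  have m3 : ∀ k, I k ⊆ I (k + 1) := fun k i hi => by
    simp only [hI, mem_filter, mem_univ, true_and] at hi ⊢; omega
  have m4 : ∀ k < K, (I (k + 1)).card = K + (k + 1) := fun k hk => by
    simp only [hI]; rw [Fin.card_filter_val_lt]; omega
  have hc : ∀ σ : Perm (Fin n), Chain K (fun k => (I k).map σ.toEmbedding) fun k => σ (idx k) :=
    fun σ => ⟨fun k hk => mem_map.2 ⟨_, m1 k hk, rfl⟩,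
      fun k hk h => m2 k hk (by simpa using h), fun k _ => map_subset_map.2 (m3 k)⟩
  have c1 := fun σ : Perm (Fin n) => (le_abs_self _).trans (lu_abs (hc σ) X hX cl T hcl hL
    (fun t k x a => G t ((I (k + 1)).map σ.toEmbedding) (σ (idx k)) x a)
    (fun _ _ _ _ => h0 _ _ _ _ _) (fun _ _ _ _ => h1 _ _ _ _ _) (fun t k _ a => hG _ _ _ a) hl0 hl1)
  have c2 := expect_le (s := (univ : Finset (Perm (Fin n)))) univ_nonempty fun σ _ => c1 σ
  rw [expect_comm] at c2
  simp only [expect_sum_comm] at c2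
  have hKr : (0 : ℝ) < K := by exact_mod_cast hK
  have e : 2 * l * K + L / l = ∑ _k ∈ range K, (2 * l + L / l / K) := by
    rw [sum_const, card_range, nsmul_eq_mul]; field_simp
  rw [e] at c2
  obtain ⟨k, hk, c3⟩ := exists_le_of_sum_le (nonempty_range_iff.2 hK.ne') c2
  replace hk := mem_range.1 hk
  refine ⟨I (k + 1), idx k, m1 k hk, by rw [m4 k hk]; omega, by rw [m4 k hk]; omega, ?_⟩
  simp only [expect_sub_distrib] at c3
  have e2 : ∀ (x σ : Perm (Fin n)), pv ((I (k + 1)).map σ.toEmbedding)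
      (fun y a => G (cl x) ((I (k + 1)).map σ.toEmbedding) (σ (idx k)) y a) x
      = 𝔼 i ∈ I (k + 1), G (cl x) ((I (k + 1)).map σ.toEmbedding) (σ (idx k)) x (x (σ i)) :=
    fun x σ => by
      unfold pv
      rw [expect_eq_sum_div_card, sum_map, card_map]
      rfl
  simp only [e2] at c3
  linarith

lemma map_swap (I : Finset (Fin n)) {i j : Fin n} (h : i ∈ I ↔ j ∈ I) (σ : Perm (Fin n)) :
    I.map (σ * swap i j).toEmbedding = I.map σ.toEmbedding := by
  ext r
  simp only [mem_map_equiv]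
  have : (σ * swap i j).symm r = swap i j (σ.symm r) := by
    rw [symm_apply_eq, Perm.mul_apply, swap_apply_self, apply_symm_apply]
  rw [this, swap_apply_def]
  split_ifs with a b
  · rw [a]; exact h.symm
  · rw [b]; exact h
  · rfl

lemma symI (Φ : Finset (Fin n) → Fin n → ℝ) (I : Finset (Fin n)) {i0 : Fin n} (h : i0 ∈ I) :
    𝔼 σ : Perm (Fin n), Φ (I.map σ.toEmbedding) (σ i0)
      = 𝔼 σ : Perm (Fin n), 𝔼 i ∈ I, Φ (I.map σ.toEmbedding) (σ i) := by
  rw [expect_comm univ I,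
    ← expect_const ⟨i0, h⟩ (𝔼 σ : Perm (Fin n), Φ (I.map σ.toEmbedding) (σ i0))]
  refine expect_congr rfl fun i hi => sym (fun σ r => Φ (I.map σ.toEmbedding) r) i0 i fun σ => ?_
  rw [map_swap I (iff_of_true h hi)]

lemma symO (Φ : Finset (Fin n) → Fin n → ℝ) (h0 : ∀ M r, 0 ≤ Φ M r) (I : Finset (Fin n))
    {i0 : Fin n} (h : i0 ∉ I) :
    ((n : ℝ) - I.card) * 𝔼 σ : Perm (Fin n), Φ (I.map σ.toEmbedding) (σ i0)
      ≤ 𝔼 σ : Perm (Fin n), ∑ r, Φ (I.map σ.toEmbedding) r := by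
  have e1 : ∀ j ∈ Iᶜ, 𝔼 σ : Perm (Fin n), Φ (I.map σ.toEmbedding) (σ j)
      = 𝔼 σ : Perm (Fin n), Φ (I.map σ.toEmbedding) (σ i0) := fun j hj =>
    sym (fun σ r => Φ (I.map σ.toEmbedding) r) j i0 fun σ => by
      rw [map_swap I (iff_of_false (mem_compl.1 hj) h)]
  have e2 : ((Iᶜ.card : ℕ) : ℝ) = n - I.card := by
    have := card_add_card_compl I
    rw [Fintype.card_fin] at this
    have : (I.card : ℝ) + Iᶜ.card = n := by exact_mod_cast this
    linarith
  rw [← e2, ← nsmul_eq_mul, ← sum_const, ← sum_congr rfl e1, ← expect_sum_comm]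
  refine ex_mono _ fun σ => ?_
  rw [← Equiv.sum_comp σ]
  exact sum_le_sum_of_subset_of_nonneg (subset_univ _) fun _ _ _ => h0 _ _

lemma sum_le_one {ι : Type*} [Fintype ι] (c : ι → Prop) (h : ∀ a b, c a → c b → a = b) :
    ∑ a, ind (c a) ≤ ind (∃ a, c a) := by
  by_cases k : ∃ a, c a
  · obtain ⟨b, hb⟩ := k
    rw [ind_pos ⟨b, hb⟩, ← sum_ind_single b]
    exact sum_le_sum fun a _ => ind_mono fun ha => h a b ha hb
  · rw [ind_neg k]
    exact (sum_eq_zero fun a _ => ind_neg fun ha => k ⟨a, ha⟩).le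

lemma ind_ex_le {ι : Type*} [Fintype ι] (c : ι → Prop) : ind (∃ a, c a) ≤ ∑ a, ind (c a) :=
  ind_le (sum_nonneg fun _ _ => ind_nonneg _) fun ⟨a, ha⟩ => by
    have := single_le_sum (f := fun a => ind (c a)) (fun _ _ => ind_nonneg _) (mem_univ a)
    rwa [ind_pos ha] at this

variable [AddCommGroup A] {φ : Fin n → Fin n → A} {W W' : Set A} {e : ℤˣ}

lemma VL.loc {t : A} {x x' : Perm (Fin n)} {p q r a l : Fin n} (hp : x p = x' p) (hq : x q = x' q)
    (hl : x l = x' l) (h : VL φ W t x p q r a l) : VL φ W t x' p q r a l := by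
  unfold VL at h ⊢
  rwa [← hp, ← hq, ← hl]

/-- A link whose rows of `x` lie outside `M`. -/
def VS (φ : Fin n → Fin n → A) (W : Set A) (M : Finset (Fin n)) (t : A) (x : Perm (Fin n))
    (p q r a l : Fin n) : Prop := VL φ W t x p q r a l ∧ p ∉ M ∧ q ∉ M ∧ l ∉ M

/-- A link outside `M` with a unique partner. -/
def Uq (V : Fin n → Fin n → Fin n → Fin n → Fin n → Prop) (p q r a l : Fin n) : Prop :=
  V p q r a l ∧ ∀ p' q', V p' q' r a l → swap p' q' = swap p q

/-- The number of cells over `M` with the given partner. -/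
noncomputable def gsz (V : Fin n → Fin n → Fin n → Fin n → Fin n → Prop) (M : Finset (Fin n))
    (x : Perm (Fin n)) (p q : Fin n) : ℝ := ∑ i ∈ M, ∑ i' ∈ M, ind (∃ l, Uq V p q i (x i') l)

/-- A link whose partner has few cells over `M`. -/
def Sm (V : Fin n → Fin n → Fin n → Fin n → Fin n → Prop) (θ : ℝ) (M : Finset (Fin n))
    (x : Perm (Fin n)) (p q r a l : Fin n) : Prop :=
  Uq V p q r a l ∧ (∀ l', V p q r a l' → l' = l) ∧ gsz V M x p q ≤ θ * M.card

/-- The test used with `Step`. -/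
noncomputable def GG (φ : Fin n → Fin n → A) (W : Set A) (θ : ℝ) (t : A) (M : Finset (Fin n))
    (r : Fin n) (x : Perm (Fin n)) (a : Fin n) : ℝ :=
  𝔼 l, ind (∃ p q, Sm (VS φ W M t x) θ M x p q r a l)

lemma GG_out (θ : ℝ) (t : A) (M : Finset (Fin n)) (r a : Fin n) :
    Out M fun x => GG φ W θ t M r x a := by
  intro x x' hx
  have e1 : VS φ W M t x = VS φ W M t x' := by
    funext p q r a l
    exact propext ⟨fun ⟨h, a1, a2, a3⟩ => ⟨h.loc (hx _ a1) (hx _ a2) (hx _ a3), a1, a2, a3⟩,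
      fun ⟨h, a1, a2, a3⟩ => ⟨h.loc (hx _ a1).symm (hx _ a2).symm (hx _ a3).symm, a1, a2, a3⟩⟩
  have e2 : ∀ V, gsz V M x = gsz V M x' := fun V => by
    funext p q
    exact sum_congr rfl fun i _ => sum_in_eq M (fun a => ind (∃ l, Uq V p q i a l)) x x' hx
  simp only [GG, Sm, e1, e2]

lemma virt (V : Fin n → Fin n → Fin n → Fin n → Fin n → Prop) {θ : ℝ} (hθ : 0 ≤ θ)
    (M : Finset (Fin n)) (x : Perm (Fin n)) :
    ∑ r ∈ M, ∑ i ∈ M, ∑ l, ind (∃ p q, Sm V θ M x p q r (x i) l) ≤ n * (n * (θ * M.card)) := by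
  calc ∑ r ∈ M, ∑ i ∈ M, ∑ l, ind (∃ p q, Sm V θ M x p q r (x i) l)
      ≤ ∑ r ∈ M, ∑ i ∈ M, ∑ p, ∑ q,
          ind (gsz V M x p q ≤ θ * M.card) * ind (∃ l, Uq V p q r (x i) l) := by
        refine sum_le_sum fun r _ => sum_le_sum fun i _ => ?_
        refine (sum_le_sum fun l _ => (ind_ex_le _).trans
          (sum_le_sum fun p _ => ind_ex_le _)).trans ?_
        rw [sum_comm]
        refine sum_le_sum fun p _ => ?_
        rw [sum_comm]
        refine sum_le_sum fun q _ => ?_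
        refine (sum_le_one _ fun a b ha hb => hb.2.1 a ha.1.1).trans ?_
        rw [← ind_and]
        exact ind_mono fun ⟨l, h⟩ => ⟨h.2.2, l, h.1⟩
    _ = ∑ p, ∑ q, ind (gsz V M x p q ≤ θ * M.card) * gsz V M x p q := by
        have : ∀ f : Fin n → Fin n → Fin n → ℝ, ∑ r ∈ M, ∑ i ∈ M, ∑ p, f r i p
            = ∑ p, ∑ r ∈ M, ∑ i ∈ M, f r i p := fun f =>
          (sum_congr rfl fun r _ => sum_comm).trans sum_comm
        rw [this]
        refine sum_congr rfl fun p _ => ?_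
        rw [this]
        refine sum_congr rfl fun q _ => ?_
        simp only [← mul_sum]
        rfl
    _ ≤ ∑ _p : Fin n, ∑ _q : Fin n, θ * M.card := by
        refine sum_le_sum fun p _ => sum_le_sum fun q _ => ?_
        by_cases k : gsz V M x p q ≤ θ * M.card
        · rw [ind_pos k, one_mul]; exact k
        · rw [ind_neg k, zero_mul]; positivity
    _ = _ := by simp

lemma virt_le {θ : ℝ} (hθ : 0 ≤ θ) (t : A) (x : Perm (Fin n)) (I : Finset (Fin n)) {i0 : Fin n}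
    (h : i0 ∈ I) : 𝔼 σ : Perm (Fin n), 𝔼 i ∈ I,
      GG φ W θ t (I.map σ.toEmbedding) (σ i0) x (x (σ i)) ≤ θ * n / I.card := by
  have hm : (0 : ℝ) < I.card := by exact_mod_cast card_pos.2 ⟨i0, h⟩
  have hn : (0 : ℝ) < n := by exact_mod_cast i0.pos
  have e1 : ∀ (σ : Perm (Fin n)) (f : Fin n → ℝ),
      𝔼 i ∈ I, f (σ i) = (∑ r ∈ I.map σ.toEmbedding, f r) / I.card := fun σ f => by
    rw [expect_eq_sum_div_card, sum_map]; rfl
  have s := symI (fun M r => (∑ i ∈ M, GG φ W θ t M r x (x i)) / I.card) I h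
  rw [ex_congr univ fun σ : Perm (Fin n) =>
    e1 σ fun i => GG φ W θ t (I.map σ.toEmbedding) (σ i0) x (x i), s]
  refine expect_le univ_nonempty fun σ _ => ?_
  rw [e1 σ fun r => (∑ i ∈ I.map σ.toEmbedding, GG φ W θ t (I.map σ.toEmbedding) r x (x i)) / I.card]
  have v := virt (VS φ W (I.map σ.toEmbedding) t x) hθ (I.map σ.toEmbedding) x
  rw [card_map] at v
  unfold GG
  simp only [expect_eq_sum_div_card, card_univ, Fintype.card_fin, ← sum_div]
  rw [div_div, div_div, div_le_div_iff₀ (by positivity) hm]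
  nlinarith [mul_le_mul_of_nonneg_right v hm.le]

end Pool.Agent.P.MP_bfa556_co.Y
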