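import Pool.Agent.P.MP_bfa556_co.Y7

open Finset Equiv
open scoped BigOperators

namespace Pool.Agent.P.MP_bfa556_co.Y

open Pool.Agent.P.MP_bfa556_co.U

variable {n : ℕ} {A : Type} [AddCommGroup A] {φ : Fin n → Fin n → A} {W W' : Set A} {e : ℤˣ}

/-- The partner of the rows `r, l` outside `M` is the unique partner of the cell `(i, a)`. -/
def Off (φ : Fin n → Fin n → A) (W W' : Set A) (M : Finset (Fin n)) (x : Perm (Fin n))
    (r l i a l' : Fin n) : Prop :=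
  ∃ p q, Lk φ W x p q r l ∧ r ∉ M ∧ l ∉ M ∧ Uq (VS φ W' (insert r M) (syn φ x) x) p q i a l'

lemma Code.off_row (hC : Code φ W e) {x : Perm (Fin n)} (hs : Perm.sign x = e)
    (M : Finset (Fin n)) (r i a l' : Fin n) : ∑ l, ind (Off φ W W' M x r l i a l') ≤ 1 := by
  refine (sum_le_one _ ?_).trans (ind_le_one _)
  rintro l l2 ⟨p, q, h1, -, -, h2⟩ ⟨p', q', k1, -, -, k2⟩
  have z1 := ((lk_iff hs).1 h1).2
  have z2 := ((lk_iff hs).1 k1).2
  rw [h2.2 p' q' k2.1] at z2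
  rcases sw_cases h1.1.2.2.2.2.2 (hC.uniq _ _ _ _ _ h1.1.2.2.2.2.2 k1.1.2.2.2.2.2 z1 z2) with
    ⟨-, k⟩ | ⟨k, -⟩
  · exact k
  · exact absurd k k1.1.2.2.2.2.2

lemma Code.off_four (hC : Code φ W e) {x : Perm (Fin n)} (hs : Perm.sign x = e)
    (M : Finset (Fin n)) (i a l' : Fin n) : ∑ r, ∑ l, ind (Off φ W W' M x r l i a l') ≤ 4 := by
  by_cases k : ∃ r l, Off φ W W' M x r l i a l'
  swap
  · rw [sum_eq_zero fun r _ => sum_eq_zero fun l _ => ind_neg fun h => k ⟨r, l, h⟩]; norm_num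
  obtain ⟨r0, l0, p0, q0, u1, -, -, ⟨u2, u3, u4, -⟩, -⟩ := k
  have pt : ∀ r l, ind (Off φ W W' M x r l i a l') ≤ ind (r ≠ l ∧ swap r l = swap r0 l0)
      + ind (r = p0) * ind (Off φ W W' M x r l i a l')
      + ind (r = q0) * ind (Off φ W W' M x r l i a l') := fun r l => by
    have n0 := ind_nonneg (r ≠ l ∧ swap r l = swap r0 l0)
    have n1 := mul_nonneg (ind_nonneg (r = p0)) (ind_nonneg (Off φ W W' M x r l i a l'))
    have n2 := mul_nonneg (ind_nonneg (r = q0)) (ind_nonneg (Off φ W W' M x r l i a l'))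
    refine ind_le (by linarith) fun h => ?_
    rw [ind_pos h] at n1 n2 ⊢
    by_cases c1 : r = p0
    · rw [ind_pos c1]; linarith
    by_cases c2 : r = q0
    · rw [ind_pos c2]; linarith
    obtain ⟨p, q, h1, -, -, h2, h3⟩ := h
    have s := h3 p0 q0 ⟨u2, fun k => (mem_insert.1 k).elim (fun k => c1 k.symm)
      fun k => u3 (mem_insert_of_mem k), fun k => (mem_insert.1 k).elim (fun k => c2 k.symm)
      fun k => u4 (mem_insert_of_mem k), h2.2.2.2⟩
    have z1 := ((lk_iff hs).1 h1).2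
    have z2 := ((lk_iff hs).1 u1).2
    rw [s] at z2
    rw [ind_pos (And.intro h1.1.2.2.2.2.2
      (hC.uniq _ _ _ _ _ h1.1.2.2.2.2.2 u1.1.2.2.2.2.2 z1 z2))]
    linarith
  have t := sum_le_sum fun r (_ : r ∈ univ) => sum_le_sum fun l (_ : l ∈ univ) => pt r l
  simp only [sum_add_distrib, ← mul_sum] at t
  have t0 := sum_swap_le (fun r l => r ≠ l ∧ swap r l = swap r0 l0) fun _ _ h => h
  have t1 : ∀ p : Fin n, ∑ r, ind (r = p) * ∑ l, ind (Off φ W W' M x r l i a l') ≤ 1 := fun p => by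
    rw [← sum_ind_single p]
    exact sum_le_sum fun r _ => mul_le_of_le_one_right (ind_nonneg _) (hC.off_row hs M r i a l')
  linarith [t1 p0, t1 q0]

/-- The number of cells over `M` that have the partner of the rows `r, l` as unique partner. -/
noncomputable def offc (φ : Fin n → Fin n → A) (W W' : Set A) (x : Perm (Fin n))
    (M : Finset (Fin n)) (r l : Fin n) : ℝ :=
  ∑ i ∈ M, ∑ i' ∈ M, ind (∃ l', Off φ W W' M x r l i (x i') l')

lemma Code.offc_sum (hC : Code φ W e) (hW : W' ⊆ W) {x : Perm (Fin n)} (hs : Perm.sign x = e)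
    (M : Finset (Fin n)) : ∑ r, 𝔼 l, offc φ W W' x M r l
      ≤ 4 * ∑ i ∈ M, ∑ i' ∈ M, ind (∃ B, Blk1 φ e (syn φ x) x i (x i') B) := by
  have c : ∀ f : Fin n → Fin n → Fin n → ℝ, ∑ p, ∑ r ∈ M, ∑ i ∈ M, f r i p
      = ∑ r ∈ M, ∑ i ∈ M, ∑ p, f r i p := fun f =>
    ((sum_congr rfl fun r _ => sum_comm).trans sum_comm).symm
  unfold offc
  simp only [expect_eq_sum_div_card, card_univ, Fintype.card_fin, ← sum_div, c, mul_sum]
  rw [sum_div]
  refine sum_le_sum fun i hi => ?_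
  rw [sum_div]
  refine sum_le_sum fun i' hi' => ?_
  have hn : (0 : ℝ) < n := by exact_mod_cast i.pos
  by_cases hB : ∃ B, Blk1 φ e (syn φ x) x i (x i') B
  · rw [ind_pos hB, div_le_iff₀ hn]
    refine (sum_le_sum fun r _ => sum_le_sum fun l _ => ind_ex_le _).trans ?_
    rw [sum_congr rfl fun r _ => sum_comm, sum_comm]
    refine (sum_le_sum fun l' _ => hC.off_four hs M i (x i') l').trans ?_
    simp [mul_comm]
  · rw [ind_neg hB, sum_eq_zero fun r _ => sum_eq_zero fun l _ => ind_neg ?_]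
    · simp
    rintro ⟨l', p, q, h1, h2, h3, h4, -⟩
    exact hB (hC.blk_other (h4.1.mono hW) h1.1.2.2.2.2.2 ((lk_iff hs).1 h1).2
      (fun k => h2 (k ▸ hi)) (fun k => h3 (k ▸ hi))
      (x.injective.ne fun k => h2 (k ▸ hi')) (x.injective.ne fun k => h3 (k ▸ hi')))

/-- The share of active cells in the two lines through the cell of `x` at `r`. -/
noncomputable def al (φ : Fin n → Fin n → A) (W W' : Set A) (x : Perm (Fin n)) (r l : Fin n) : ℝ :=
  aR φ W W' (fun _ => True) x r l + aC φ W W' (fun _ => True) x r l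

lemma Code.point (hC : Code φ W e) (hW : W' ⊆ W) {x : Perm (Fin n)} (hs : Perm.sign x = e)
    {θ : ℝ} (hθ : 0 < θ) (θ' : ℝ) {M : Finset (Fin n)} {r : Fin n} (hr : r ∉ M) (l : Fin n) :
    ind (∃ B, (∃ p q, B = {p, q, l} ∧ Lk φ W' x p q r l ∧ al φ W W' x r l ≤ θ')
        ∧ Disjoint B (insert r M))
      ≤ ind (∃ p q, Sm (VS φ W' (insert r M) (syn φ x) x) θ (insert r M) x p q r (x r) l)
        + (offc φ W W' x M r l + (∑ i ∈ insert r M, ind (al φ W W' x r l ≤ θ')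
            * ind (Act φ W W' (fun _ => True) x r l r (x i))
          + ∑ i ∈ insert r M, ind (al φ W W' x r l ≤ θ')
            * ind (Act φ W W' (fun _ => True) x r l i (x r)))) / (θ * (insert r M).card) := by
  have hm : (0 : ℝ) < (insert r M).card := by exact_mod_cast card_pos.2 (insert_nonempty _ _)
  have n1 : 0 ≤ offc φ W W' x M r l := sum_nonneg fun _ _ => sum_nonneg fun _ _ => ind_nonneg _
  have n2 : ∀ f : Fin n → Prop, 0 ≤ ∑ i ∈ insert r M, ind (al φ W W' x r l ≤ θ') * ind (f i) :=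
    fun f => sum_nonneg fun _ _ => mul_nonneg (ind_nonneg _) (ind_nonneg _)
  have n3 := div_nonneg (add_nonneg n1 (add_nonneg
    (n2 fun i => Act φ W W' (fun _ => True) x r l r (x i))
    (n2 fun i => Act φ W W' (fun _ => True) x r l i (x r)))) (mul_pos hθ hm).le
  refine ind_le (add_nonneg (ind_nonneg _) n3) ?_
  rintro ⟨_, ⟨p, q, rfl, h1, h2⟩, hd⟩
  have d1 : p ∉ insert r M := disjoint_left.1 hd (by simp)
  have d2 : q ∉ insert r M := disjoint_left.1 hd (by simp)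
  have d3 : l ∉ insert r M := disjoint_left.1 hd (by simp)
  have h0 : Lk φ W x p q r l := VL.mono hW h1
  by_cases k : gsz (VS φ W' (insert r M) (syn φ x) x) (insert r M) x p q ≤ θ * (insert r M).card
  · rw [ind_pos (p := ∃ p q, Sm _ θ (insert r M) x p q r (x r) l) ⟨p, q, ⟨⟨h1, d1, d2, d3⟩,
      fun p' q' h => hC.lk_same hs (VL.mono hW h.1) h0⟩, fun l' h => ?_, k⟩]
    · linarith
    have h' : Lk φ W x p q r l' := VL.mono hW h.1
    rcases sw_cases h'.1.2.2.2.2.2 (hC.uniq _ _ _ _ _ h'.1.2.2.2.2.2 h0.1.2.2.2.2.2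
      ((lk_iff hs).1 h').2 ((lk_iff hs).1 h0).2) with ⟨-, k⟩ | ⟨k, -⟩
    · exact k
    · exact absurd k h0.1.2.2.2.2.2
  · refine le_add_of_nonneg_of_le (ind_nonneg _) ?_
    rw [le_div_iff₀ (mul_pos hθ hm), one_mul]
    refine (not_le.1 k).le.trans ?_
    simp only [ind_pos h2, one_mul]
    have act : ∀ i a, ind (∃ l', Uq (VS φ W' (insert r M) (syn φ x) x) p q i a l')
        ≤ ind (Act φ W W' (fun _ => True) x r l i a) := fun i a =>
      ind_mono fun ⟨l', h⟩ => ⟨p, q, l', h0, h.1.1, trivial⟩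
    have a1 := sum_le_sum fun i (_ : i ∈ insert r M) => act r (x i)
    have a2 := sum_le_sum fun i (_ : i ∈ M) => act i (x r)
    have a3 := sum_le_sum_of_subset_of_nonneg (subset_insert r M)
      fun i _ _ => ind_nonneg (Act φ W W' (fun _ => True) x r l i (x r))
    have a4 : ∑ i ∈ M, ∑ i' ∈ M, ind (∃ l', Uq (VS φ W' (insert r M) (syn φ x) x) p q i (x i') l')
        ≤ offc φ W W' x M r l := sum_le_sum fun i _ => sum_le_sum fun i' _ =>
      ind_mono fun ⟨l', h⟩ => ⟨l', p, q, h0, hr, fun k => d3 (mem_insert_of_mem k), h⟩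
    unfold gsz
    rw [sum_insert hr, sum_congr rfl fun i (_ : i ∈ M) => sum_insert hr, sum_add_distrib]
    linarith

lemma sum_map_ex (I : Finset (Fin n)) (hI : I.Nonempty) (σ : Perm (Fin n)) (f : Fin n → ℝ) :
    ∑ r ∈ I.map σ.toEmbedding, f r = I.card * 𝔼 i ∈ I, f (σ i) := by
  have hm : (I.card : ℝ) ≠ 0 := Nat.cast_ne_zero.2 (card_ne_zero.2 hI)
  rw [expect_eq_sum_div_card, sum_map, mul_div_cancel₀ _ hm]
  rfl

lemma Code.off_le (hC : Code φ W e) (hn : 3 ≤ n) (hW : W' ⊆ W) {x : Perm (Fin n)}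
    (hs : Perm.sign x = e) (I : Finset (Fin n)) {i0 : Fin n} (h0 : i0 ∈ I) (hI : 2 * I.card ≤ n) :
    𝔼 σ : Perm (Fin n), 𝔼 l, offc φ W W' x ((I.erase i0).map σ.toEmbedding) (σ i0) l
      ≤ I.card * (4 * 𝔼 r, 𝔼 a, ind (∃ B, Blk1 φ e (syn φ x) x r a B) + 8 / n) := by
  have hm : (0 : ℝ) < I.card := by exact_mod_cast card_pos.2 ⟨i0, h0⟩
  have hN : (3 : ℝ) ≤ n := by exact_mod_cast hn
  have hI' : 2 * (I.card : ℝ) ≤ n := by exact_mod_cast hI
  have o0 : ∀ M r, 0 ≤ 𝔼 l, offc φ W W' x M r l := fun M r =>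
    ex_nonneg _ fun _ => sum_nonneg fun _ _ => sum_nonneg fun _ _ => ind_nonneg _
  have s1 := symO (fun M r => 𝔼 l, offc φ W W' x M r l) o0 (I.erase i0) (notMem_erase i0 I)
  set h : Fin n → Fin n → ℝ := fun r r' => ind (∃ B, Blk1 φ e (syn φ x) x r (x r') B) with hh
  have g0 : ∀ r r', 0 ≤ h r r' := fun _ _ => ind_nonneg _
  have s2 : 𝔼 σ : Perm (Fin n), ∑ r, 𝔼 l, offc φ W W' x ((I.erase i0).map σ.toEmbedding) r l
      ≤ 𝔼 σ : Perm (Fin n), 4 * ∑ i ∈ I, I.card * 𝔼 i' ∈ I, h (σ i) (σ i') := by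
    refine ex_mono _ fun σ => (hC.offc_sum hW hs _).trans ?_
    have sb : (I.erase i0).map σ.toEmbedding ⊆ I.map σ.toEmbedding :=
      map_subset_map.2 (erase_subset _ _)
    refine mul_le_mul_of_nonneg_left ?_ (by norm_num)
    refine (sum_le_sum fun i _ => sum_le_sum_of_subset_of_nonneg sb fun _ _ _ => g0 _ _).trans ?_
    refine (sum_le_sum_of_subset_of_nonneg sb fun _ _ _ => sum_nonneg fun _ _ => g0 _ _).trans ?_
    rw [sum_map]
    exact sum_le_sum fun i _ => (sum_map_ex I ⟨i0, h0⟩ σ (h (σ i))).le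
  replace s2 := s1.trans s2
  simp only [← mul_expect, expect_sum_comm] at s2
  set b : ℝ := 𝔼 r, 𝔼 a, ind (∃ B, Blk1 φ e (syn φ x) x r a B) with hb
  have b0 : 0 ≤ b := ex_nonneg _ fun _ => ex_nonneg _ fun _ => ind_nonneg _
  have e1 : 𝔼 r, 𝔼 r', h r r' = b :=
    ex_congr _ fun r => ex_comp x fun a => ind (∃ B, Blk1 φ e (syn φ x) x r a B)
  have s3 : ∑ i ∈ I, (I.card : ℝ) * 𝔼 σ : Perm (Fin n), 𝔼 i' ∈ I, h (σ i) (σ i')
      ≤ ∑ _i ∈ I, (I.card * b + 1) := sum_le_sum fun i hi => by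
    have := (abs_le.1 (pair hn h g0 (fun _ _ => ind_le_one _) I hi)).2
    rw [e1, sub_le_iff_le_add] at this
    refine (mul_le_mul_of_nonneg_left this hm.le).trans (le_of_eq ?_)
    field_simp; ring
  rw [sum_const, nsmul_eq_mul] at s3
  have c1 : ((I.erase i0).card : ℝ) ≤ I.card := by exact_mod_cast card_erase_le
  have E0 := ex_nonneg (univ : Finset (Perm (Fin n))) fun σ =>
    o0 ((I.erase i0).map σ.toEmbedding) (σ i0)
  refine le_of_mul_le_mul_left ?_ (by linarith : (0 : ℝ) < n / 2)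
  have e2 : (n : ℝ) / 2 * (I.card * (4 * b + 8 / n)) = I.card * (2 * n * b + 4) := by
    field_simp; ring
  rw [e2]
  nlinarith [mul_le_mul_of_nonneg_right hI' (mul_nonneg hm.le b0),
    mul_le_mul_of_nonneg_right (by linarith : (n : ℝ) / 2 ≤ n - (I.erase i0).card) E0]

lemma Code.ia_x (hC : Code φ W e) (hn : 3 ≤ n) (hW : W' ⊆ W) {x : Perm (Fin n)}
    (hs : Perm.sign x = e) {θ θ' : ℝ} (hθ : 0 < θ) (hθ' : 0 ≤ θ') (I : Finset (Fin n))
    {i0 : Fin n} (h0 : i0 ∈ I) (hI : 2 * I.card ≤ n) :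
    𝔼 r, 𝔼 l, ind (Lkd φ W' x r l ∧ al φ W W' x r l ≤ θ')
      ≤ I.card * (3 / (n - 2 : ℝ))
        + 𝔼 σ : Perm (Fin n), GG φ W' θ (syn φ x) (I.map σ.toEmbedding) (σ i0) x (x (σ i0))
        + (4 * 𝔼 r, 𝔼 a, ind (∃ B, Blk1 φ e (syn φ x) x r a B) + 8 / n + θ' + 2 / I.card) / θ := by
  have : Nonempty (Fin n) := ⟨i0⟩
  have hm : (0 : ℝ) < I.card := by exact_mod_cast card_pos.2 ⟨i0, h0⟩
  have hM : ∀ σ : Perm (Fin n), insert (σ i0) ((I.erase i0).map σ.toEmbedding)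
      = I.map σ.toEmbedding := fun σ => by
    conv_rhs => rw [← insert_erase h0, map_insert]
    rfl
  set h1 : Fin n → Fin n → ℝ := fun r r' => 𝔼 l, ind (al φ W W' x r l ≤ θ')
    * ind (Act φ W W' (fun _ => True) x r l r (x r')) with hh1
  set h2 : Fin n → Fin n → ℝ := fun r r' => 𝔼 l, ind (al φ W W' x r l ≤ θ')
    * ind (Act φ W W' (fun _ => True) x r l r' (x r)) with hh2
  have a1 : 𝔼 r, 𝔼 l, ind (Lkd φ W' x r l ∧ al φ W W' x r l ≤ θ') - I.card * (3 / (n - 2 : ℝ))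
      ≤ 𝔼 σ : Perm (Fin n), 𝔼 l, ind (∃ B, (∃ p q, B = {p, q, l} ∧ Lk φ W' x p q (σ i0) l
        ∧ al φ W W' x (σ i0) l ≤ θ') ∧ Disjoint B (I.map σ.toEmbedding)) := by
    have w := ex_mono univ fun l : Fin n => wit hn (b := 3)
      (fun r r' B => r' = r ∧ ∃ p q, B = {p, q, l} ∧ Lk φ W' x p q r l ∧ al φ W W' x r l ≤ θ')
      (by
        rintro r _ _ ⟨rfl, p, q, rfl, ⟨⟨-, a2, -, a4, -, a6⟩, -⟩, -⟩
        refine ⟨card_le_three, ?_, ?_⟩ <;> simp [a2.symm, a4.symm, a6]) I i0 i0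
    simp only [true_and, expect_sub_distrib, Fintype.expect_const, Nat.cast_ofNat] at w
    rw [expect_comm, expect_comm (univ : Finset (Perm (Fin n)))]
    refine le_trans (sub_le_sub_right (le_of_eq (ex_congr _ fun l => ?_)) _) w
    rw [unif (fun r => ind (∃ B, ∃ p q, B = ({p, q, l} : Finset (Fin n)) ∧ Lk φ W' x p q r l
      ∧ al φ W W' x r l ≤ θ')) i0]
    exact ex_congr _ fun r => ind_congr ⟨fun ⟨⟨p, q, k⟩, k'⟩ => ⟨_, p, q, rfl, k, k'⟩,
      fun ⟨_, p, q, _, k, k'⟩ => ⟨⟨p, q, k⟩, k'⟩⟩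
  have a2 := ex_mono univ fun σ : Perm (Fin n) => ex_mono univ fun l =>
    hC.point hW hs hθ θ' (M := (I.erase i0).map σ.toEmbedding) (r := σ i0) (by simp) l
  simp only [hM, card_map, expect_add_distrib, ← expect_div, expect_sum_comm] at a2
  have e1 := fun σ : Perm (Fin n) => sum_map_ex I ⟨i0, h0⟩ σ (h1 (σ i0))
  have e2 := fun σ : Perm (Fin n) => sum_map_ex I ⟨i0, h0⟩ σ (h2 (σ i0))
  simp only [hh1, hh2] at e1 e2
  simp only [e1, e2, ← mul_expect] at a2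
  have a3 := hC.off_le hn hW hs I h0 hI
  have m0 : ∀ p q : Prop, 0 ≤ ind p * ind q := fun _ _ => mul_nonneg (ind_nonneg _) (ind_nonneg _)
  have m1 : ∀ p q : Prop, ind p * ind q ≤ 1 := fun _ _ => ind_and _ _ ▸ ind_le_one _
  have a4 := (abs_le.1 (pair hn h1 (fun _ _ => ex_nonneg _ fun _ => m0 _ _)
    (fun _ _ => ex_le_one _ fun _ => m1 _ _) I h0)).2
  have a5 := (abs_le.1 (pair hn h2 (fun _ _ => ex_nonneg _ fun _ => m0 _ _)
    (fun _ _ => ex_le_one _ fun _ => m1 _ _) I h0)).2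
  have a6 : 𝔼 r, 𝔼 r', h1 r r' + 𝔼 r, 𝔼 r', h2 r r' ≤ θ' := by
    rw [← expect_add_distrib]
    refine expect_le univ_nonempty fun r _ => ?_
    simp only [hh1, hh2]
    rw [expect_comm, expect_comm univ univ fun r' l => ind (al φ W W' x r l ≤ θ')
      * ind (Act φ W W' (fun _ => True) x r l r' (x r)), ← expect_add_distrib]
    refine expect_le univ_nonempty fun l _ => ?_
    rw [← mul_expect, ← mul_expect, ← mul_add,
      ex_comp x fun a => ind (Act φ W W' (fun _ => True) x r l r a)]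
    by_cases k : al φ W W' x r l ≤ θ'
    · rw [ind_pos k, one_mul]; exact k
    · rw [ind_neg k, zero_mul]; exact hθ'
  simp only [hh1, hh2] at a4 a5 a6
  refine (sub_le_iff_le_add.1 (a1.trans a2)).trans ?_
  rw [add_comm, ← add_assoc]
  refine add_le_add le_rfl ?_
  rw [div_le_div_iff₀ (mul_pos hθ hm) hθ]
  have e3 : (2 : ℝ) / I.card = 1 / I.card + 1 / I.card := by ring
  rw [e3]
  nlinarith [mul_le_mul_of_nonneg_left a3 hθ.le, mul_le_mul_of_nonneg_left a4 (mul_pos hθ hm).le,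
    mul_le_mul_of_nonneg_left a5 (mul_pos hθ hm).le, mul_le_mul_of_nonneg_left a6 (mul_pos hθ hm).le]

theorem Code.ia (hC : Code φ W e) (hn : 3 ≤ n) (hW : W' ⊆ W) (hX0 : (XX φ W e).Nonempty)
    {ε τ θ θ' : ℝ} {K : ℕ} (hK : 0 < K) (hKn : 4 * K ≤ n) (hX : Rich (XX φ W e) (syn φ) ε)
    (hS : Step (XX φ W e) (syn φ) K τ) (hθ : 0 < θ) (hθ' : 0 ≤ θ') :
    𝔼 x ∈ XX φ W e, 𝔼 r, 𝔼 l, ind (Lkd φ W' x r l ∧ al φ W W' x r l ≤ θ')
      ≤ 2 * K * (3 / (n - 2 : ℝ)) + (θ * n / K + τ) + (4 * ε + 8 / n + θ' + 2 / K) / θ := by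
  obtain ⟨I, i0, h0, k1, k2, s⟩ := hS (GG φ W' θ) (fun _ _ _ _ _ => ex_nonneg _ fun _ => ind_nonneg _)
    (fun _ _ _ _ _ => ex_le_one _ fun _ => ind_le_one _) (GG_out θ)
  have a1 := expect_le_expect (s := XX φ W e) fun x hx =>
    hC.ia_x hn hW (mem_XX.1 hx).1 hθ hθ' I h0 (by omega)
  simp only [expect_add_distrib, ← expect_div, ← mul_expect, expect_const hX0] at a1
  have a2 := expect_le hX0 fun x (_ : x ∈ XX φ W e) => virt_le (φ := φ) (W := W') hθ.le (syn φ x) x I h0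
  have a3 := blk1_le hX
  have hKr : (0 : ℝ) < K := by exact_mod_cast hK
  have c1 : (K : ℝ) ≤ I.card := by exact_mod_cast k1
  have c2 : (I.card : ℝ) ≤ 2 * K := by exact_mod_cast k2
  have hN : (3 : ℝ) ≤ n := by exact_mod_cast hn
  have b1 := mul_le_mul_of_nonneg_right c2 (div_nonneg (by norm_num) (by linarith) :
    (0 : ℝ) ≤ 3 / (n - 2))
  have b2 : θ * n / I.card ≤ θ * n / K := div_le_div_of_nonneg_left (by positivity) hKr c1
  have b3 : (2 : ℝ) / I.card ≤ 2 / K := div_le_div_of_nonneg_left (by norm_num) hKr c1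
  refine a1.trans (add_le_add (by linarith) (div_le_div_of_nonneg_right (by linarith) hθ.le))

end Pool.Agent.P.MP_bfa556_co.Y
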