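import Pool.Agent.P.MP_bfa556_co.Y8

open Finset Equiv
open scoped BigOperators

namespace Pool.Agent.P.MP_bfa556_co.Y

open Pool.Agent.P.MP_bfa556_co.U

variable {n : ℕ} {A : Type} [AddCommGroup A] {φ : Fin n → Fin n → A} {W W' : Set A} {e : ℤˣ}
  {ε : ℝ}

lemma act_split (x : Perm (Fin n)) (i j : Fin n) :
    aR φ W W' (fun _ => True) x i j + aC φ W W' (fun _ => True) x i j
      ≤ (aR φ W W' (· ≠ j) x i j + aC φ W W' (· ≠ j) x i j)
        + (aR φ W W' (· = j) x i j + aC φ W W' (· = j) x i j) := by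
  have p : ∀ r a, ind (Act φ W W' (fun _ => True) x i j r a)
      ≤ ind (Act φ W W' (· ≠ j) x i j r a) + ind (Act φ W W' (· = j) x i j r a) := fun r a => by
    refine ind_le (add_nonneg (ind_nonneg _) (ind_nonneg _)) fun ⟨p, q, l, h1, h2, _⟩ => ?_
    by_cases k : l = j
    · rw [ind_pos (p := Act φ W W' (· = j) x i j r a) ⟨p, q, l, h1, h2, k⟩]
      exact le_add_of_nonneg_left (ind_nonneg _)
    · rw [ind_pos (p := Act φ W W' (· ≠ j) x i j r a) ⟨p, q, l, h1, h2, k⟩]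
      exact le_add_of_nonneg_right (ind_nonneg _)
  have a := ex_mono univ fun a => p i a
  have b := ex_mono univ fun r => p r (x i)
  rw [expect_add_distrib] at a b
  unfold aR aC
  linarith

/-- The share of good single changes seen from two rows of a codeword. -/
noncomputable def lam (φ : Fin n → Fin n → A) (W' : Set A) (y : Perm (Fin n)) (i j : Fin n) : ℝ :=
  𝔼 a, ind (syn φ y + lab φ i a j (y j) ∈ W') + 𝔼 r, ind (syn φ y + lab φ r (y j) i (y i) ∈ W')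

/-- The share of good single changes through a cell of `y`. -/
noncomputable def Gh (φ : Fin n → Fin n → A) (W' : Set A) (y : Perm (Fin n)) : ℝ :=
  𝔼 q, 𝔼 r, 𝔼 a, ind (syn φ y + lab φ r a q (y q) ∈ W')

lemma Code.line_le (hC : Code φ W e) {x : Perm (Fin n)} (hs : Perm.sign x = e) {p q i j : Fin n}
    (h : Lk φ W x p q i j) :
    aR φ W W' (· = j) x i j + aC φ W W' (· = j) x i j ≤ lam φ W' (x * swap p q * swap i j) i j := by
  obtain ⟨a1, a2, a3, a4, a5, a6⟩ := h.1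
  have y1 : (x * swap p q * swap i j) j = x i := by
    simp only [Perm.mul_apply]; rw [swap_apply_right, swap_apply_of_ne_of_ne a2.symm a4.symm]
  have y2 : (x * swap p q * swap i j) i = x j := by
    simp only [Perm.mul_apply]; rw [swap_apply_left, swap_apply_of_ne_of_ne a3.symm a5.symm]
  unfold aR aC lam
  rw [y1, y2, syn_two x h.1]
  refine add_le_add (ex_mono _ fun a => ind_mono ?_) (ex_mono _ fun r => ind_mono ?_)
  · rintro ⟨p', q', l, h1, h2, rfl⟩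
    have := (h2.of_swap (hC.lk_same hs h1 h)).2.2.2.2
    have e1 : syn φ x + lab φ p (x p) q (x q) + lab φ i (x i) l (x l) + lab φ i a l (x i)
        = syn φ x + lab φ p (x p) q (x q) + lab φ i a l (x l) := by unfold lab; abel
    rwa [e1]
  · rintro ⟨p', q', l, h1, h2, rfl⟩
    have := (h2.of_swap (hC.lk_same hs h1 h)).2.2.2.2
    have e1 : syn φ x + lab φ p (x p) q (x q) + lab φ i (x i) l (x l) + lab φ r (x i) i (x l)
        = syn φ x + lab φ p (x p) q (x q) + lab φ r (x i) l (x l) := by unfold lab; abel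
    rwa [e1]

lemma lam_avg (y : Perm (Fin n)) : 𝔼 i, 𝔼 j, lam φ W' y i j = 2 * Gh φ W' y := by
  unfold lam Gh
  simp only [expect_add_distrib]
  have e1 : 𝔼 i, 𝔼 j, 𝔼 a, ind (syn φ y + lab φ i a j (y j) ∈ W')
      = 𝔼 q, 𝔼 r, 𝔼 a, ind (syn φ y + lab φ r a q (y q) ∈ W') := expect_comm _ _ _
  have e2 : 𝔼 i, 𝔼 j, 𝔼 r, ind (syn φ y + lab φ r (y j) i (y i) ∈ W')
      = 𝔼 q, 𝔼 r, 𝔼 a, ind (syn φ y + lab φ r a q (y q) ∈ W') := ex_congr _ fun i =>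
    (ex_comp y fun a => 𝔼 r, ind (syn φ y + lab φ r a i (y i) ∈ W')).trans (expect_comm _ _ _)
  rw [e1, e2]; ring

lemma Code.main (hC : Code φ W e) (hn : 10 ≤ n) {δ : ℝ} (hδ : 0 < δ)
    (hZ : δ * (n - 2).factorial ≤ (ZZ φ W e).card) (hW : W' ⊆ W) (hX0 : (XX φ W e).Nonempty)
    (hX : Rich (XX φ W e) (syn φ) ε) {θ ρ : ℝ} (hθ : 0 < θ)
    (hI : 𝔼 x ∈ XX φ W e, 𝔼 r, 𝔼 l, ind (Lkd φ W' x r l ∧ al φ W W' x r l ≤ θ) ≤ ρ)
    (J : Perm (Fin n) → Prop) (hJ : ∀ y ∈ ZZ φ W e, J y → syn φ y ∈ W') :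
    𝔼 y ∈ ZZ φ W e, ind (J y) * (1 - 8 / θ * Gh φ W' y)
      ≤ 4 / δ * (2 * ρ + 4 / θ ^ 2 * (8 * ε + 16 / n)) + 1 / n := by
  have : Nonempty (Fin n) := ⟨⟨0, by omega⟩⟩
  have n1 : ∀ c x i j, 0 ≤ aR φ W W' c x i j := fun _ _ _ _ => ex_nonneg _ fun _ => ind_nonneg _
  have n2 : ∀ c x i j, 0 ≤ aC φ W W' c x i j := fun _ _ _ _ => ex_nonneg _ fun _ => ind_nonneg _
  have n5 : ∀ y i j, 0 ≤ lam φ W' y i j := fun _ _ _ =>
    add_nonneg (ex_nonneg _ fun _ => ind_nonneg _) (ex_nonneg _ fun _ => ind_nonneg _)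
  have n6 : ∀ x i j, 0 ≤ 4 / θ ^ 2 * ((aR φ W W' (· ≠ j) x i j + aC φ W W' (· ≠ j) x i j)
      * (aR φ W W' (· ≠ i) x j i + aC φ W W' (· ≠ i) x j i)) := fun x i j =>
    mul_nonneg (by positivity) (mul_nonneg (add_nonneg (n1 _ _ _ _) (n2 _ _ _ _))
      (add_nonneg (n1 _ _ _ _) (n2 _ _ _ _)))
  have t := hC.transfer hn hδ hZ
    (fun y i j => ind (syn φ y ∈ W' ∧ lam φ W' y i j + lam φ W' y j i < θ / 2))
    (fun x i j => ind (Lkd φ W' x i j ∧ al φ W W' x i j ≤ θ)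
      + ind (Lkd φ W' x j i ∧ al φ W W' x j i ≤ θ)
      + 4 / θ ^ 2 * ((aR φ W W' (· ≠ j) x i j + aC φ W W' (· ≠ j) x i j)
        * (aR φ W W' (· ≠ i) x j i + aC φ W W' (· ≠ i) x j i)))
    (fun x i j => add_nonneg (add_nonneg (ind_nonneg _) (ind_nonneg _)) (n6 x i j))
    (fun y i j => ind_le_one _)
    (fun x p q i j hs h => by
      have l1 := hC.line_le (W' := W') hs h
      have l2 := hC.line_le (W' := W') hs (h.symm hs)
      rw [swap_comm j i] at l2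
      have m1 := ind_nonneg (Lkd φ W' x i j ∧ al φ W W' x i j ≤ θ)
      have m2 := ind_nonneg (Lkd φ W' x j i ∧ al φ W W' x j i ≤ θ)
      have m3 := n6 x i j
      refine ind_le (by linarith) fun ⟨k1, k2⟩ => ?_
      have k3 : Lk φ W' x p q i j :=
        ⟨h.1, h.2.1, h.2.2.1, h.2.2.2.1, by rwa [syn_two x h.1] at k1⟩
      by_cases c1 : al φ W W' x i j ≤ θ
      · rw [ind_pos (And.intro ⟨p, q, k3⟩ c1)]; linarith
      by_cases c2 : al φ W W' x j i ≤ θ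
      · rw [ind_pos (p := Lkd φ W' x j i ∧ _) (And.intro ⟨p, q, k3.symm hs⟩ c2)]; linarith
      have s1 := act_split (φ := φ) (W := W) (W' := W') x i j
      have s2 := act_split (φ := φ) (W := W) (W' := W') x j i
      unfold al at c1 c2
      have u1 : θ / 2 ≤ aR φ W W' (· ≠ j) x i j + aC φ W W' (· ≠ j) x i j := by
        linarith [n5 (x * swap p q * swap i j) j i, not_le.1 c1]
      have u2 : θ / 2 ≤ aR φ W W' (· ≠ i) x j i + aC φ W W' (· ≠ i) x j i := by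
        linarith [n5 (x * swap p q * swap i j) i j, not_le.1 c2]
      have u3 := mul_le_mul_of_nonneg_left (mul_le_mul u1 u2 (by positivity)
        (le_trans (by positivity) u1)) (by positivity : 0 ≤ 4 / θ ^ 2)
      rw [show 4 / θ ^ 2 * (θ / 2 * (θ / 2)) = 1 by field_simp; norm_num] at u3
      linarith)
  have v3 : 𝔼 x ∈ XX φ W e, 𝔼 i, 𝔼 j, (aR φ W W' (· ≠ j) x i j + aC φ W W' (· ≠ j) x i j)
      * (aR φ W W' (· ≠ i) x j i + aC φ W W' (· ≠ i) x j i) ≤ 8 * ε + 16 / n := by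
    have := expect_le_expect (s := XX φ W e) fun x hx => ex_mono univ fun i =>
      ex_mono univ fun j => hC.free hW (mem_XX.1 hx).1 i j
    have f := four_le hX
    simp only [expect_add_distrib, Fintype.expect_const, expect_const hX0] at this f
    linarith
  have w1 : 𝔼 x ∈ XX φ W e, 𝔼 i, 𝔼 j, ind (Lkd φ W' x j i ∧ al φ W W' x j i ≤ θ)
      = 𝔼 x ∈ XX φ W e, 𝔼 i, 𝔼 j, ind (Lkd φ W' x i j ∧ al φ W W' x i j ≤ θ) :=
    ex_congr _ fun x => expect_comm _ _ _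
  simp only [expect_add_distrib, ← mul_expect] at t
  rw [w1] at t
  have u : 𝔼 y ∈ ZZ φ W e, ind (J y) * (1 - 8 / θ * Gh φ W' y) ≤ 𝔼 y ∈ ZZ φ W e, 𝔼 i, 𝔼 j,
      ind (syn φ y ∈ W' ∧ lam φ W' y i j + lam φ W' y j i < θ / 2) := by
    refine expect_le_expect fun y hy => ?_
    by_cases k : J y
    swap
    · rw [ind_neg k, zero_mul]; exact ex_nonneg _ fun _ => ex_nonneg _ fun _ => ind_nonneg _
    have e1 : 1 - 8 / θ * Gh φ W' y
        = 𝔼 i, 𝔼 j, (1 - 2 / θ * (lam φ W' y i j + lam φ W' y j i)) := by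
      simp only [← mul_expect, expect_sub_distrib, expect_add_distrib, Fintype.expect_const]
      rw [lam_avg, expect_comm univ univ fun i j => lam φ W' y j i, lam_avg]; ring
    rw [ind_pos k, one_mul, e1]
    refine ex_mono _ fun i => ex_mono _ fun j => ?_
    by_cases c : lam φ W' y i j + lam φ W' y j i < θ / 2
    · rw [ind_pos (And.intro (hJ y hy k) c)]
      exact sub_le_self _ (mul_nonneg (by positivity) (add_nonneg (n5 _ _ _) (n5 _ _ _)))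
    · refine le_trans ?_ (ind_nonneg _)
      have := mul_le_mul_of_nonneg_left (not_lt.1 c) (by positivity : 0 ≤ 2 / θ)
      rw [show 2 / θ * (θ / 2) = 1 by field_simp] at this
      linarith
  refine u.trans (t.trans (add_le_add (mul_le_mul_of_nonneg_left ?_ (by positivity)) le_rfl))
  linarith [mul_le_mul_of_nonneg_left v3 (by positivity : 0 ≤ 4 / θ ^ 2)]

lemma ex_mem_le (B : Finset (Fin n)) (σ : Perm (Fin n)) {b : ℕ} (h : B.card ≤ b) :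
    𝔼 j, ind (σ j ∈ B) ≤ b / n :=
  (ex_mem B σ).trans (div_le_div_of_nonneg_right (by exact_mod_cast h) (Nat.cast_nonneg _))

omit [AddCommGroup A] in
lemma rows [Nonempty (Fin n)] {X : Finset (Perm (Fin n))} {cl : Perm (Fin n) → A}
    (h : Rich X cl ε) (hX0 : X.Nonempty) (Ω : Type) [Fintype Ω] [Nonempty Ω]
    (B : Ω → Finset (Fin n)) (hB : ∀ ω, (B ω).card ≤ 5)
    (Q : A → Ω → Perm (Fin n) → Fin n → Fin n → Prop)
    (hQ : ∀ t ω x x' r a, (∀ i ∈ B ω, x i = x' i) → Q t ω x r a → Q t ω x' r a) :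
    𝔼 x ∈ X, 𝔼 ω, 𝔼 r, 𝔼 a, ind (Q (cl x) ω x r a)
      ≤ 𝔼 x ∈ X, 𝔼 ω, 𝔼 r, ind (Q (cl x) ω x r (x r)) + ε + 10 / n := by
  have s := h Ω (fun t ω x r a B' => B' = B ω ∧ r ∉ B ω ∧ (∀ i ∈ B ω, x i ≠ a) ∧ Q t ω x r a)
    (by
      rintro t ω x x' r a _ k ⟨rfl, a1, a2, a3⟩
      exact ⟨rfl, a1, fun i hi => k i hi ▸ a2 i hi, hQ _ _ _ _ _ _ k a3⟩)
    (by
      rintro t ω x r a _ ⟨rfl, a1, a2, -⟩
      exact ⟨hB ω, a1, a2⟩)
  have t1 := ex_mono X fun x => ex_mono univ fun ω => ex_mono univ fun r =>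
    ind_mono (p := ∃ B', B' = B ω ∧ r ∉ B ω ∧ (∀ i ∈ B ω, x i ≠ x r) ∧ Q (cl x) ω x r (x r))
      (q := Q (cl x) ω x r (x r)) fun ⟨_, k⟩ => k.2.2.2
  have t2 : 𝔼 x ∈ X, 𝔼 ω, 𝔼 r, 𝔼 a, ind (Q (cl x) ω x r a)
      ≤ 𝔼 x ∈ X, 𝔼 ω, (𝔼 r, 𝔼 a,
        ind (∃ B', B' = B ω ∧ r ∉ B ω ∧ (∀ i ∈ B ω, x i ≠ a) ∧ Q (cl x) ω x r a) + 10 / (n : ℝ)) := by
    refine ex_mono X fun x => ex_mono univ fun ω => ?_
    have p : ∀ r a, ind (Q (cl x) ω x r a)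
        ≤ ind (∃ B', B' = B ω ∧ r ∉ B ω ∧ (∀ i ∈ B ω, x i ≠ a) ∧ Q (cl x) ω x r a)
          + ind ((1 : Perm (Fin n)) r ∈ B ω) + ind (x⁻¹ a ∈ B ω) := fun r a => by
      have n0 := ind_nonneg (∃ B', B' = B ω ∧ r ∉ B ω ∧ (∀ i ∈ B ω, x i ≠ a) ∧ Q (cl x) ω x r a)
      have n1 := ind_nonneg ((1 : Perm (Fin n)) r ∈ B ω)
      have n2 := ind_nonneg (x⁻¹ a ∈ B ω)
      refine ind_le (by linarith) fun k => ?_
      by_cases c1 : (1 : Perm (Fin n)) r ∈ B ω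
      · rw [ind_pos c1]; linarith
      by_cases c2 : x⁻¹ a ∈ B ω
      · rw [ind_pos c2]; linarith
      rw [ind_pos (p := ∃ B', B' = B ω ∧ r ∉ B ω ∧ (∀ i ∈ B ω, x i ≠ a) ∧ Q (cl x) ω x r a)
        ⟨_, rfl, c1, fun i hi k' => c2 (by rw [← k']; simpa using hi), k⟩]
      linarith
    have q := ex_mono univ fun r => ex_mono univ fun a => p r a
    simp only [expect_add_distrib, Fintype.expect_const] at q
    have q1 := ex_mem_le (B ω) 1 (hB ω)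
    have q2 := ex_mem_le (B ω) x⁻¹ (hB ω)
    have : (10 : ℝ) / n = (5 : ℕ) / n + (5 : ℕ) / n := by push_cast; ring
    linarith
  simp only [expect_add_distrib, Fintype.expect_const, expect_const hX0] at t2
  linarith [(abs_le.1 s).1]

/-- The share of all single changes that lead from `w` into `W`. -/
noncomputable def gg (φ : Fin n → Fin n → A) (W : Set A) (w : A) : ℝ :=
  𝔼 r, 𝔼 a, 𝔼 q, 𝔼 b, ind (w + lab φ r a q b ∈ W)

lemma Code.double (hC : Code φ W e) (hn : 4 ≤ n) (hZ0 : (ZZ φ W e).Nonempty)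
    (hZ : Rich (ZZ φ W e) (syn φ) ε) :
    𝔼 y ∈ ZZ φ W e, 𝔼 q, 𝔼 r, 𝔼 a, gg φ W (syn φ y + lab φ r a q (y q)) ≤ 3 * ε + 36 / n := by
  have : Nonempty (Fin n) := ⟨⟨0, by omega⟩⟩
  have sA := rows hZ hZ0 (Fin n × Fin n × Fin n × Fin n × Fin n) (fun ω => {ω.1}) (fun _ => by simp)
    (fun t ω y q1 b1 => t + lab φ ω.2.1 ω.2.2.1 ω.1 (y ω.1) + lab φ ω.2.2.2.1 ω.2.2.2.2 q1 b1 ∈ W)
    fun t ω x x' r a k h => by rwa [← k _ (mem_singleton_self _)]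
  have sB := rows hZ hZ0 (Fin n × Fin n × Fin n × Fin n) (fun ω => {ω.1, ω.2.2.2})
    (fun _ => card_le_two.trans (by norm_num))
    (fun t ω y r1 a1 => t + lab φ ω.2.1 ω.2.2.1 ω.1 (y ω.1) + lab φ r1 a1 ω.2.2.2 (y ω.2.2.2) ∈ W)
    fun t ω x x' r a k h => by rwa [← k ω.1 (by simp), ← k ω.2.2.2 (by simp)]
  have sC := rows hZ hZ0 (Fin n × Fin n × Fin n) (fun ω => {ω.1, ω.2.1, ω.2.2})
    (fun _ => card_le_three.trans (by norm_num))
    (fun t ω y r a => t + lab φ r a ω.1 (y ω.1) + lab φ ω.2.2 (y ω.2.2) ω.2.1 (y ω.2.1) ∈ W)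
    fun t ω x x' r a k h => by rwa [← k ω.1 (by simp), ← k ω.2.1 (by simp), ← k ω.2.2 (by simp)]
  simp only [ex_prod] at sA sB sC
  have e1 : 𝔼 y ∈ ZZ φ W e, 𝔼 q, 𝔼 r, 𝔼 a, 𝔼 r1, 𝔼 a1, 𝔼 q1,
        ind (syn φ y + lab φ r a q (y q) + lab φ r1 a1 q1 (y q1) ∈ W)
      = 𝔼 y ∈ ZZ φ W e, 𝔼 q, 𝔼 r, 𝔼 a, 𝔼 q1, 𝔼 r1, 𝔼 a1,
        ind (syn φ y + lab φ r a q (y q) + lab φ r1 a1 q1 (y q1) ∈ W) :=
    ex_congr _ fun y => ex_congr _ fun q => ex_congr _ fun r => ex_congr _ fun a => (rot3 _).symm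
  have e2 : 𝔼 y ∈ ZZ φ W e, 𝔼 q, 𝔼 r, 𝔼 a, 𝔼 q1, 𝔼 r1,
        ind (syn φ y + lab φ r a q (y q) + lab φ r1 (y r1) q1 (y q1) ∈ W)
      = 𝔼 y ∈ ZZ φ W e, 𝔼 q, 𝔼 q1, 𝔼 r1, 𝔼 r, 𝔼 a,
        ind (syn φ y + lab φ r a q (y q) + lab φ r1 (y r1) q1 (y q1) ∈ W) :=
    ex_congr _ fun y => ex_congr _ fun q => (rot4 _).trans (rot4 _)
  have e3 : 𝔼 y ∈ ZZ φ W e, 𝔼 q, 𝔼 q1, 𝔼 r1, 𝔼 r,
      ind (syn φ y + lab φ r (y r) q (y q) + lab φ r1 (y r1) q1 (y q1) ∈ W) ≤ 6 / n := by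
    refine expect_le hZ0 fun y hy => expect_le univ_nonempty fun q _ => ?_
    have p : ∀ q1 r1 r, ind (syn φ y + lab φ r (y r) q (y q) + lab φ r1 (y r1) q1 (y q1) ∈ W)
        ≤ ind ((1 : Perm (Fin n)) q1 ∈ ({q} : Finset (Fin n)))
          + ind ((1 : Perm (Fin n)) r1 ∈ ({q, q1} : Finset (Fin n)))
          + ind ((1 : Perm (Fin n)) r ∈ ({q, q1, r1} : Finset (Fin n))) := fun q1 r1 r => by
      have n0 := ind_nonneg ((1 : Perm (Fin n)) q1 ∈ ({q} : Finset (Fin n)))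
      have n1 := ind_nonneg ((1 : Perm (Fin n)) r1 ∈ ({q, q1} : Finset (Fin n)))
      have n2 := ind_nonneg ((1 : Perm (Fin n)) r ∈ ({q, q1, r1} : Finset (Fin n)))
      refine ind_le (by linarith) fun k => ?_
      by_cases c0 : (1 : Perm (Fin n)) q1 ∈ ({q} : Finset (Fin n))
      · rw [ind_pos c0]; linarith
      by_cases c1 : (1 : Perm (Fin n)) r1 ∈ ({q, q1} : Finset (Fin n))
      · rw [ind_pos c1]; linarith
      by_cases c2 : (1 : Perm (Fin n)) r ∈ ({q, q1, r1} : Finset (Fin n))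
      · rw [ind_pos c2]; linarith
      simp only [Perm.one_apply, mem_insert, mem_singleton, not_or] at c0 c1 c2
      have hD : D4 r q r1 q1 := ⟨c2.1, c2.2.2, c2.2.1, Ne.symm c1.1, Ne.symm c0, c1.2⟩
      have hy' := mem_ZZ.1 hy
      exact absurd hy' (hC.not_two hD ⟨(sign_two y hD.1 hD.2.2.2.2.2).trans hy'.1, by
        rw [syn_two y hD]; exact k⟩)
    have t := ex_mono univ fun q1 => ex_mono univ fun r1 => ex_mono univ fun r => p q1 r1 r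
    simp only [expect_add_distrib, Fintype.expect_const] at t
    have t0 := ex_mem_le ({q} : Finset (Fin n)) 1 (b := 1) (by simp)
    have t1 : 𝔼 q1, 𝔼 r1, ind ((1 : Perm (Fin n)) r1 ∈ ({q, q1} : Finset (Fin n))) ≤ (2 : ℕ) / n :=
      expect_le univ_nonempty fun q1 _ => ex_mem_le _ 1 card_le_two
    have t2 : 𝔼 q1, 𝔼 r1, 𝔼 r, ind ((1 : Perm (Fin n)) r ∈ ({q, q1, r1} : Finset (Fin n)))
        ≤ (3 : ℕ) / n := expect_le univ_nonempty fun q1 _ => expect_le univ_nonempty fun r1 _ =>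
      ex_mem_le _ 1 card_le_three
    have : (6 : ℝ) / n = (1 : ℕ) / n + (2 : ℕ) / n + (3 : ℕ) / n := by push_cast; ring
    linarith
  rw [e1] at sA
  rw [e2] at sB
  unfold gg
  have : (36 : ℝ) / n = 10 / n + 10 / n + 10 / n + 6 / n := by ring
  linarith

theorem Code.rounds (hC : Code φ W e) (hn : 4 ≤ n) (hZ0 : (ZZ φ W e).Nonempty)
    (hZ : Rich (ZZ φ W e) (syn φ) ε) {θ κ : ℝ} (hθ : 0 < θ)
    (hm : ∀ W', W' ⊆ W → ∀ J : Perm (Fin n) → Prop, (∀ y ∈ ZZ φ W e, J y → syn φ y ∈ W') →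
      𝔼 y ∈ ZZ φ W e, ind (J y) * (1 - 8 / θ * Gh φ W' y) ≤ κ) :
    θ ^ 2 * (1 - 3 * κ) ≤ 16 * θ * ε + 128 * (3 * ε + 36 / n) := by
  have : Nonempty (Fin n) := ⟨⟨0, by omega⟩⟩
  set μ : ℝ := 𝔼 y ∈ ZZ φ W e, ind (gg φ W (syn φ y) < θ / 16) with hμ
  have m1 := hm W (Set.Subset.refl W) (fun y => gg φ W (syn φ y) < θ / 16)
    fun y hy _ => (mem_ZZ.1 hy).2
  have r1 := hZ (Fin n × Fin n)
    (fun t ω _ q b B => B = ∅ ∧ gg φ W t < θ / 16 ∧ t + lab φ ω.1 ω.2 q b ∈ W)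
    (fun _ _ _ _ _ _ _ _ k => k) (by rintro t ω x r a _ ⟨rfl, -⟩; simp)
  simp only [ex_prod, exists_eq_left, ind_and, ← mul_expect] at r1
  have e1 : 𝔼 y ∈ ZZ φ W e, ind (gg φ W (syn φ y) < θ / 16) * (1 - 8 / θ * Gh φ W y)
      = μ - 8 / θ * 𝔼 y ∈ ZZ φ W e, ind (gg φ W (syn φ y) < θ / 16)
        * 𝔼 r, 𝔼 a, 𝔼 q, ind (syn φ y + lab φ r a q (y q) ∈ W) := by
    rw [hμ, mul_expect, ← expect_sub_distrib]
    refine ex_congr _ fun y => ?_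
    unfold Gh
    rw [rot3]; ring
  have e2 : 𝔼 y ∈ ZZ φ W e, ind (gg φ W (syn φ y) < θ / 16)
      * 𝔼 r, 𝔼 a, 𝔼 q, 𝔼 b, ind (syn φ y + lab φ r a q b ∈ W) ≤ μ * (θ / 16) := by
    rw [hμ, expect_mul]
    refine ex_mono _ fun y => ?_
    by_cases k : gg φ W (syn φ y) < θ / 16
    · rw [ind_pos k, one_mul, one_mul]; exact k.le
    · rw [ind_neg k, zero_mul, zero_mul]
  rw [e1] at m1
  have m2 := hm {w | w ∈ W ∧ ¬ gg φ W w < θ / 16} (fun _ h => h.1)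
    (fun y => ¬ gg φ W (syn φ y) < θ / 16) fun y hy k => ⟨(mem_ZZ.1 hy).2, k⟩
  have g0 : ∀ y, 0 ≤ Gh φ {w | w ∈ W ∧ ¬ gg φ W w < θ / 16} y := fun y =>
    ex_nonneg _ fun _ => ex_nonneg _ fun _ => ex_nonneg _ fun _ => ind_nonneg _
  have e3 : 1 - μ - 8 / θ * 𝔼 y ∈ ZZ φ W e, Gh φ {w | w ∈ W ∧ ¬ gg φ W w < θ / 16} y
      ≤ 𝔼 y ∈ ZZ φ W e, ind (¬ gg φ W (syn φ y) < θ / 16)
        * (1 - 8 / θ * Gh φ {w | w ∈ W ∧ ¬ gg φ W w < θ / 16} y) := by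
    rw [hμ, ← expect_const hZ0 (1 : ℝ), mul_expect, ← expect_sub_distrib, ← expect_sub_distrib,
      expect_const hZ0 (1 : ℝ)]
    refine ex_mono _ fun y => ?_
    rw [← ind_not]
    have := mul_le_mul_of_nonneg_right (ind_le_one (¬ gg φ W (syn φ y) < θ / 16))
      (mul_nonneg (by positivity : 0 ≤ 8 / θ) (g0 y))
    linarith
  have f1 := hC.double hn hZ0 hZ
  have f2 : (𝔼 y ∈ ZZ φ W e, Gh φ {w | w ∈ W ∧ ¬ gg φ W w < θ / 16} y) * (θ / 16)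
      ≤ 𝔼 y ∈ ZZ φ W e, 𝔼 q, 𝔼 r, 𝔼 a, gg φ W (syn φ y + lab φ r a q (y q)) := by
    unfold Gh
    simp only [expect_mul]
    refine ex_mono _ fun y => ex_mono _ fun q => ex_mono _ fun r => ex_mono _ fun a => ?_
    by_cases k : syn φ y + lab φ r a q (y q) ∈ {w | w ∈ W ∧ ¬ gg φ W w < θ / 16}
    · rw [ind_pos k, one_mul]; exact not_lt.1 k.2
    · rw [ind_neg k, zero_mul]
      exact ex_nonneg _ fun _ => ex_nonneg _ fun _ => ex_nonneg _ fun _ => ex_nonneg _ fun _ =>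
        ind_nonneg _
  have k1 := mul_le_mul_of_nonneg_left m1 hθ.le
  have k2 := mul_le_mul_of_nonneg_left (e3.trans m2) hθ.le
  have k3 : ∀ a b : ℝ, θ * (a - 8 / θ * b) = θ * a - 8 * b := fun a b => by field_simp
  rw [k3] at k1 k2
  have k4 : θ * μ ≤ 2 * θ * κ + 16 * ε := by linarith [(abs_le.1 r1).2]
  nlinarith [mul_le_mul_of_nonneg_left k2 hθ.le, mul_le_mul_of_nonneg_left k4 hθ.le]

end Pool.Agent.P.MP_bfa556_co.Y
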